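import Mathlib

/-! MP_828a6d_al: the error term and the final real analysis. -/

namespace MP828

open Filter

/-- `q ≈ m^{1/4}`. -/
def qf (m : ℕ) : ℕ := Nat.sqrt (Nat.sqrt m) + 1

/-- `k ≈ 2 log₂ m`. -/
def kf (m : ℕ) : ℕ := 2 * (Nat.log 2 m + 1)

/-- The error term `O(m^{7/4} log m)`. -/
def Err (m : ℕ) : ℕ :=
  6 * ((qf m) ^ 2 + 1) * m + (qf m) ^ 3 * (m * (kf m + 1)) + 3 * m + qf m * m + (qf m) ^ 2 * m
    + (qf m) ^ 3 * m + 1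

theorem one_le_qf (m : ℕ) : 1 ≤ qf m := by unfold qf; omega

/-- `m < (√m + 1)²` twice (`Nat.lt_succ_sqrt`). -/
theorem le_qf_pow (m : ℕ) : m ≤ qf m ^ 4 := by
  unfold qf
  have h1 : m < (Nat.sqrt m + 1) * (Nat.sqrt m + 1) := Nat.lt_succ_sqrt m
  have h2 : Nat.sqrt m < (Nat.sqrt (Nat.sqrt m) + 1) * (Nat.sqrt (Nat.sqrt m) + 1) :=
    Nat.lt_succ_sqrt _
  set q := Nat.sqrt (Nat.sqrt m) + 1
  have h3 : Nat.sqrt m + 1 ≤ q * q := h2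
  calc m ≤ (Nat.sqrt m + 1) * (Nat.sqrt m + 1) := h1.le
    _ ≤ (q * q) * (q * q) := Nat.mul_le_mul h3 h3
    _ = q ^ 4 := by ring

/-- `m < 2^{log₂ m + 1}` (`Nat.lt_pow_succ_log_self`). -/
theorem le_kf_pow (m : ℕ) : m ^ 2 ≤ 2 ^ kf m := by
  unfold kf
  have h1 : m < 2 ^ (Nat.log 2 m + 1) := Nat.lt_pow_succ_log_self (by norm_num) m
  calc m ^ 2 ≤ (2 ^ (Nat.log 2 m + 1)) ^ 2 := Nat.pow_le_pow_left h1.le 2
    _ = 2 ^ (2 * (Nat.log 2 m + 1)) := by rw [← pow_mul, mul_comm]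

/-- `qf m ≤ 2 m^{1/4}` for `m ≥ 1`. -/
theorem Asym_qf (m : ℕ) (hm : 1 ≤ m) : (qf m : ℝ) ≤ 2 * (m : ℝ) ^ (1 / 4 : ℝ) := by
  have hm1 : (1 : ℝ) ≤ m := by exact_mod_cast hm
  have h1 : (Nat.sqrt (Nat.sqrt m) : ℝ) ≤ (m : ℝ) ^ (1 / 4 : ℝ) := by
    have h2 : (Nat.sqrt (Nat.sqrt m)) ^ 4 ≤ m := by
      have a1 : Nat.sqrt (Nat.sqrt m) * Nat.sqrt (Nat.sqrt m) ≤ Nat.sqrt m := Nat.sqrt_le _
      have a2 : Nat.sqrt m * Nat.sqrt m ≤ m := Nat.sqrt_le _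
      calc (Nat.sqrt (Nat.sqrt m)) ^ 4
          = (Nat.sqrt (Nat.sqrt m) * Nat.sqrt (Nat.sqrt m)) *
            (Nat.sqrt (Nat.sqrt m) * Nat.sqrt (Nat.sqrt m)) := by ring
        _ ≤ Nat.sqrt m * Nat.sqrt m := Nat.mul_le_mul a1 a1
        _ ≤ m := a2
    have h3 : ((Nat.sqrt (Nat.sqrt m) : ℝ)) ^ 4 ≤ m := by exact_mod_cast h2
    have h4 : (((Nat.sqrt (Nat.sqrt m) : ℝ)) ^ 4) ^ (1 / 4 : ℝ) ≤ (m : ℝ) ^ (1 / 4 : ℝ) :=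
      Real.rpow_le_rpow (by positivity) h3 (by norm_num)
    have h5 : (((Nat.sqrt (Nat.sqrt m) : ℝ)) ^ 4) ^ (1 / 4 : ℝ) = (Nat.sqrt (Nat.sqrt m) : ℝ) := by
      rw [← Real.rpow_natCast, ← Real.rpow_mul (by positivity)]
      norm_num
    rwa [h5] at h4
  have h6 : (1 : ℝ) ≤ (m : ℝ) ^ (1 / 4 : ℝ) := Real.one_le_rpow hm1 (by norm_num)
  unfold qf
  push_cast
  linarith

/-- `Nat.log 2 m + 1 ≤ 17 m^{1/8}`, from `log x ≤ 8 x^{1/8}`. -/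
theorem Asym_log (m : ℕ) (hm : 1 ≤ m) : (Nat.log 2 m : ℝ) + 1 ≤ 17 * (m : ℝ) ^ (1 / 8 : ℝ) := by
  have hm1 : (1 : ℝ) ≤ m := by exact_mod_cast hm
  have h1 : (2 : ℝ) ^ (Nat.log 2 m) ≤ m := by
    exact_mod_cast Nat.pow_log_le_self 2 (by omega)
  have h2 : (Nat.log 2 m : ℝ) * Real.log 2 ≤ Real.log m := by
    rw [← Real.log_pow]
    exact Real.log_le_log (by positivity) h1
  have h3 : Real.log m ≤ (m : ℝ) ^ (1 / 8 : ℝ) / (1 / 8 : ℝ) :=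
    Real.log_le_rpow_div (by positivity) (by norm_num)
  have h4 : (1 : ℝ) / 2 < Real.log 2 := by
    have := Real.log_two_gt_d9
    linarith
  have h5 : (0 : ℝ) ≤ Nat.log 2 m := Nat.cast_nonneg _
  have h6 : (Nat.log 2 m : ℝ) * (1 / 2) ≤ (Nat.log 2 m : ℝ) * Real.log 2 :=
    mul_le_mul_of_nonneg_left h4.le h5
  have h7 : (1 : ℝ) ≤ (m : ℝ) ^ (1 / 8 : ℝ) := Real.one_le_rpow hm1 (by norm_num)
  have h8 : (m : ℝ) ^ (1 / 8 : ℝ) / (1 / 8 : ℝ) = 8 * (m : ℝ) ^ (1 / 8 : ℝ) := by ring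
  rw [h8] at h3
  linarith

/-- `Err m ≤ C m^{15/8}`. -/
theorem Asym_Err (m : ℕ) (hm : 1 ≤ m) : (Err m : ℝ) ≤ 1000 * (m : ℝ) ^ (15 / 8 : ℝ) := by
  have hm1 : (1 : ℝ) ≤ m := by exact_mod_cast hm
  have hm0 : (0 : ℝ) < m := by linarith
  set x : ℝ := (m : ℝ) ^ (1 / 8 : ℝ) with hx
  have hx1 : 1 ≤ x := Real.one_le_rpow hm1 (by norm_num)
  have hx0 : 0 ≤ x := by linarith
  have e4 : (m : ℝ) ^ (1 / 4 : ℝ) = x ^ 2 := by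
    rw [hx, ← Real.rpow_natCast, ← Real.rpow_mul hm0.le]
    norm_num
  have e8 : (m : ℝ) = x ^ 8 := by
    rw [hx, ← Real.rpow_natCast, ← Real.rpow_mul hm0.le]
    norm_num
  have e15 : (m : ℝ) ^ (15 / 8 : ℝ) = x ^ 15 := by
    rw [hx, ← Real.rpow_natCast, ← Real.rpow_mul hm0.le]
    norm_num
  have hq := Asym_qf m hm
  rw [e4] at hq
  have hl := Asym_log m hm
  rw [← hx] at hl
  have hq0 : (0 : ℝ) ≤ qf m := Nat.cast_nonneg _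
  have hk : (kf m : ℝ) + 1 ≤ 35 * x := by
    unfold kf
    push_cast
    linarith
  have q2 : (qf m : ℝ) ^ 2 ≤ 4 * x ^ 4 := by
    calc (qf m : ℝ) ^ 2 ≤ (2 * x ^ 2) ^ 2 := pow_le_pow_left₀ hq0 hq 2
      _ = 4 * x ^ 4 := by ring
  have q3 : (qf m : ℝ) ^ 3 ≤ 8 * x ^ 6 := by
    calc (qf m : ℝ) ^ 3 ≤ (2 * x ^ 2) ^ 3 := pow_le_pow_left₀ hq0 hq 3
      _ = 8 * x ^ 6 := by ring
  have p1 : ∀ a : ℕ, a ≤ 15 → x ^ a ≤ x ^ 15 := fun a ha => pow_le_pow_right₀ hx1 ha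
  have t1 : 6 * ((qf m : ℝ) ^ 2 + 1) * m ≤ 30 * x ^ 15 := by
    have a1 : (qf m : ℝ) ^ 2 + 1 ≤ 5 * x ^ 4 := by
      have := one_le_pow₀ hx1 (n := 4)
      linarith
    calc 6 * ((qf m : ℝ) ^ 2 + 1) * m ≤ 6 * (5 * x ^ 4) * m := by gcongr
      _ = 30 * x ^ 12 := by rw [e8]; ring
      _ ≤ 30 * x ^ 15 := by linarith [p1 12 (by norm_num)]
  have t2 : (qf m : ℝ) ^ 3 * (m * (kf m + 1)) ≤ 280 * x ^ 15 := by
    calc (qf m : ℝ) ^ 3 * (m * (kf m + 1)) ≤ (8 * x ^ 6) * (m * (35 * x)) := by gcongr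
      _ = 280 * x ^ 15 := by rw [e8]; ring
  have t3 : 3 * (m : ℝ) ≤ 3 * x ^ 15 := by
    rw [e8]
    linarith [p1 8 (by norm_num)]
  have t4 : (qf m : ℝ) * m ≤ 2 * x ^ 15 := by
    calc (qf m : ℝ) * m ≤ (2 * x ^ 2) * m := by gcongr
      _ = 2 * x ^ 10 := by rw [e8]; ring
      _ ≤ 2 * x ^ 15 := by linarith [p1 10 (by norm_num)]
  have t5 : (qf m : ℝ) ^ 2 * m ≤ 4 * x ^ 15 := by
    calc (qf m : ℝ) ^ 2 * m ≤ (4 * x ^ 4) * m := by gcongr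
      _ = 4 * x ^ 12 := by rw [e8]; ring
      _ ≤ 4 * x ^ 15 := by linarith [p1 12 (by norm_num)]
  have t6 : (qf m : ℝ) ^ 3 * m ≤ 8 * x ^ 15 := by
    calc (qf m : ℝ) ^ 3 * m ≤ (8 * x ^ 6) * m := by gcongr
      _ = 8 * x ^ 14 := by rw [e8]; ring
      _ ≤ 8 * x ^ 15 := by linarith [p1 14 (by norm_num)]
  have t7 : (1 : ℝ) ≤ x ^ 15 := one_le_pow₀ hx1
  rw [e15]
  unfold Err
  push_cast
  linarith

/-- `Err m = o(m²)`. With `Q = m^{1/4}` one has `qf m ≤ Q + 1 ≤ 2 Q`, `kf m + 1 ≤ 2 log₂ m + 3`; everything is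
`O(m^{7/4} log m)`. (`isLittleO` calculus with `Real.log`, or explicit inequalities such as
`log₂ m + 1 ≤ C m^{1/8}`.) -/
theorem Err_small (ε : ℝ) (hε : 0 < ε) : ∃ m₀ : ℕ, ∀ m ≥ m₀, (Err m : ℝ) ≤ ε * (m : ℝ) ^ 2 := by
  obtain ⟨n₀, hn₀⟩ := exists_nat_gt ((1000 / ε) ^ 8)
  refine ⟨n₀ + 1, fun m hm => ?_⟩
  have hm1 : 1 ≤ m := by omega
  have hmr : (1 : ℝ) ≤ m := by exact_mod_cast hm1
  have hm0 : (0 : ℝ) < m := by linarith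
  refine (Asym_Err m hm1).trans ?_
  set x : ℝ := (m : ℝ) ^ (1 / 8 : ℝ) with hx
  have hx0 : 0 ≤ x := Real.rpow_nonneg hm0.le _
  have e8 : (m : ℝ) = x ^ 8 := by
    rw [hx, ← Real.rpow_natCast, ← Real.rpow_mul hm0.le]
    norm_num
  have e15 : (m : ℝ) ^ (15 / 8 : ℝ) = x ^ 15 := by
    rw [hx, ← Real.rpow_natCast, ← Real.rpow_mul hm0.le]
    norm_num
  have h1 : (1000 / ε) ^ 8 ≤ x ^ 8 := by
    rw [← e8]
    have : (n₀ : ℝ) ≤ m := by exact_mod_cast (by omega : n₀ ≤ m)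
    linarith
  have h2 : 1000 / ε ≤ x := (pow_le_pow_iff_left₀ (by positivity) hx0 (by norm_num)).1 h1
  have h3 : 1000 ≤ ε * x := by
    rw [div_le_iff₀ hε] at h2
    linarith
  rw [e15]
  have e16 : ε * (m : ℝ) ^ 2 = (ε * x) * x ^ 15 := by
    rw [e8]
    ring
  rw [e16]
  exact mul_le_mul_of_nonneg_right h3 (by positivity)

end MP828
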