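import Pool.Agent.Lib.MP_828a6d_al.Asym

/-! MP_828a6d_al: the final real analysis. -/

namespace MP828

open Filter

/-- If `n ≤ c₀ f(n)² + Err (f n)` for all `n ≥ 1` then `liminf f(n)/√n ≥ √(1/c₀)`.
Proof. `c ≤ 0` trivial. Let `c > 0`, `ε = 1/c² - c₀ > 0`, `m₀` from `Err_small`. For `n` larger than all
`c₀ m² + Err m`, `m < m₀`, we have `f n ≥ m₀`. If `f n < c √n` for such `n ≥ 1`, then `f(n)² < c² n`, so
`n > f(n)²/c² = (c₀ + ε) f(n)² ≥ c₀ f(n)² + Err (f n) ≥ n`, a contradiction. -/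
theorem asym_final (c₀ : ℝ) (hc₀ : 0 < c₀) (f : ℕ → ℕ)
    (hf : ∀ n : ℕ, 1 ≤ n → (n : ℝ) ≤ c₀ * (f n : ℝ) ^ 2 + Err (f n)) (c : ℝ)
    (hc : c < Real.sqrt (1 / c₀)) :
    ∀ᶠ n : ℕ in atTop, c ≤ (f n : ℝ) / Real.sqrt (n : ℝ) := by
  rcases le_or_gt c 0 with h0 | h0
  · exact Filter.Eventually.of_forall fun n => h0.trans (by positivity)
  have h1 : c ^ 2 < 1 / c₀ := by
    have h2 : c ^ 2 < Real.sqrt (1 / c₀) ^ 2 := pow_lt_pow_left₀ hc h0.le two_ne_zero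
    rwa [Real.sq_sqrt (by positivity)] at h2
  have hc2 : 0 < c ^ 2 := by positivity
  have h3 : c₀ < 1 / c ^ 2 := by
    rw [lt_div_iff₀ hc₀] at h1
    rw [lt_div_iff₀ hc2]
    linarith
  obtain ⟨m₀, hm₀⟩ := Err_small (1 / c ^ 2 - c₀) (by linarith)
  obtain ⟨n₀, hn₀⟩ := exists_nat_gt (∑ m ∈ Finset.range m₀, (c₀ * (m : ℝ) ^ 2 + Err m))
  filter_upwards [eventually_ge_atTop (n₀ + 1)] with n hn
  have hn1 : 1 ≤ n := by omega
  have hnr : (0 : ℝ) < n := by exact_mod_cast hn1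
  have h4 := hf n hn1
  have h5 : m₀ ≤ f n := by
    by_contra hlt
    push Not at hlt
    have h6 : c₀ * (f n : ℝ) ^ 2 + Err (f n) ≤ ∑ m ∈ Finset.range m₀, (c₀ * (m : ℝ) ^ 2 + Err m) :=
      Finset.single_le_sum (f := fun m : ℕ => c₀ * (m : ℝ) ^ 2 + (Err m : ℝ))
        (fun m _ => by positivity) (Finset.mem_range.2 hlt)
    have h7 : (n₀ : ℝ) ≤ n := by exact_mod_cast (by omega : n₀ ≤ n)
    linarith
  have h8 := hm₀ (f n) h5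
  have h9 : (n : ℝ) ≤ 1 / c ^ 2 * (f n : ℝ) ^ 2 := by linarith
  have h10 : c ^ 2 * n ≤ (f n : ℝ) ^ 2 := by
    rw [one_div, inv_mul_eq_div, le_div_iff₀ hc2] at h9
    linarith
  have hsq : 0 < Real.sqrt (n : ℝ) := Real.sqrt_pos.2 hnr
  rw [le_div_iff₀ hsq]
  have h11 : (c * Real.sqrt (n : ℝ)) ^ 2 ≤ (f n : ℝ) ^ 2 := by
    rw [mul_pow, Real.sq_sqrt hnr.le]
    exact h10
  exact (pow_le_pow_iff_left₀ (by positivity) (Nat.cast_nonneg _) two_ne_zero).1 h11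

end MP828
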