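import Pool.Agent.Lib.MP_828a6d_al.Main
import Pool.Agent.Lib.MP_828a6d_al.AsymF

/-! MP_828a6d_al: the bounds for `m_p(n)`. -/

namespace MP828

/-- The set of exponents `k` such that every group of order `p ^ n` has an abelian subgroup of order
`p ^ k`. -/
def mset (p n : ℕ) : Set ℕ :=
  {k : ℕ | ∀ (G : Type) [Group G], Nat.card G = p ^ n →
    ∃ H : Subgroup G, (∀ x ∈ H, ∀ y ∈ H, x * y = y * x) ∧ Nat.card H = p ^ k}

theorem numeric_all {α t w : ℕ} (h1 : α / 4 ≤ t) (h2 : t ≤ α) (h3 : w ≤ α - t) :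
    8 * ((α / 4 * (α / 4 - 1) / 2 + (t - α / 4) * (t - α / 4 - 1) / 2) + w * (α - t - w)
      + (t - α / 4) * (α - t) + α / 4 * (α - t)) ≤ 3 * α ^ 2 + 8 * α + 8 := by
  obtain ⟨b, hb⟩ : ∃ b, b = α / 4 := ⟨_, rfl⟩
  rw [← hb] at h1 ⊢
  obtain ⟨u, rfl⟩ : ∃ u, t = b + u := ⟨t - b, by omega⟩
  obtain ⟨v, hv⟩ : ∃ v, α = b + u + v := ⟨α - (b + u), by omega⟩
  have e1 : b + u - b = u := by omega
  have e2 : α - (b + u) = v := by omega
  rw [e1, e2]
  rw [e2] at h3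
  obtain ⟨w', rfl⟩ : ∃ w', v = w + w' := ⟨v - w, by omega⟩
  have e3 : w + w' - w = w' := by omega
  rw [e3]
  have f1 : 2 * (b * (b - 1) / 2) ≤ b * b := by
    have := Nat.div_mul_le_self (b * (b - 1)) 2
    have h5 : b * (b - 1) ≤ b * b := Nat.mul_le_mul_left _ (by omega)
    omega
  have f2 : 2 * (u * (u - 1) / 2) ≤ u * u := by
    have := Nat.div_mul_le_self (u * (u - 1)) 2
    have h5 : u * (u - 1) ≤ u * u := Nat.mul_le_mul_left _ (by omega)
    omega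
  generalize b * (b - 1) / 2 = X at *
  generalize u * (u - 1) / 2 = Z at *
  obtain ⟨r, hr, hr3⟩ : ∃ r, α = 4 * b + r ∧ r ≤ 3 := ⟨α - 4 * b, by omega, by omega⟩
  have g0 : (3 * b + r : ℤ) = u + (w + w') := by
    have : 4 * b + r = b + u + (w + w') := by rw [← hr]; exact hv
    push_cast at *; zify at this; linarith
  have g1 : (2 * X : ℤ) ≤ b * b := by exact_mod_cast f1
  have g2 : (2 * Z : ℤ) ≤ u * u := by exact_mod_cast f2
  have g3 : (r : ℤ) ≤ 3 := by exact_mod_cast hr3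
  have g4 : (0 : ℤ) ≤ r := by positivity
  have g5 : (0 : ℤ) ≤ b := by positivity
  rw [hr]
  zify
  have hw' : (w' : ℤ) = 3 * b + r - u - w := by linarith
  rw [hw']
  nlinarith [sq_nonneg ((u : ℤ) - b - r), sq_nonneg ((w : ℤ) - (3 * b + r - u - w)), g1, g2,
    mul_nonneg g4 (by linarith : (0 : ℤ) ≤ 3 - r)]

theorem numeric_odd {α t : ℕ} (h1 : α / 3 ≤ t) (h2 : t ≤ α) :
    3 * ((α / 3 * (α / 3 - 1) / 2 + (t - α / 3) * (t - α / 3 - 1) / 2)
      + (t - α / 3) * (α - t) + α / 3 * (α - t)) ≤ α ^ 2 + 3 * α + 3 := by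
  obtain ⟨b, hb⟩ : ∃ b, b = α / 3 := ⟨_, rfl⟩
  rw [← hb] at h1 ⊢
  obtain ⟨u, rfl⟩ : ∃ u, t = b + u := ⟨t - b, by omega⟩
  obtain ⟨v, hv⟩ : ∃ v, α = b + u + v := ⟨α - (b + u), by omega⟩
  have e1 : b + u - b = u := by omega
  have e2 : α - (b + u) = v := by omega
  rw [e1, e2]
  have f1 : 2 * (b * (b - 1) / 2) ≤ b * b := by
    have := Nat.div_mul_le_self (b * (b - 1)) 2
    have h5 : b * (b - 1) ≤ b * b := Nat.mul_le_mul_left _ (by omega)
    omega
  have f2 : 2 * (u * (u - 1) / 2) ≤ u * u := by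
    have := Nat.div_mul_le_self (u * (u - 1)) 2
    have h5 : u * (u - 1) ≤ u * u := Nat.mul_le_mul_left _ (by omega)
    omega
  generalize b * (b - 1) / 2 = X at *
  generalize u * (u - 1) / 2 = Z at *
  obtain ⟨r, hr, hr3⟩ : ∃ r, α = 3 * b + r ∧ r ≤ 2 := ⟨α - 3 * b, by omega, by omega⟩
  have g1 : (2 * X : ℤ) ≤ b * b := by exact_mod_cast f1
  have g2 : (2 * Z : ℤ) ≤ u * u := by exact_mod_cast f2
  have g3 : (r : ℤ) ≤ 2 := by exact_mod_cast hr3
  have g4 : (0 : ℤ) ≤ r := by positivity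
  have g5 : (0 : ℤ) ≤ b := by positivity
  have g0 : (v : ℤ) = 2 * b + r - u := by
    have : 3 * b + r = b + u + v := by rw [← hr]; exact hv
    zify at this; linarith
  rw [hr]
  zify
  rw [g0]
  nlinarith [sq_nonneg ((u : ℤ) - b - r), g1, g2,
    mul_nonneg g4 (by linarith : (0 : ℤ) ≤ 2 - r)]

/-- An abelian subgroup of order `p ^ j` contains subgroups of every smaller order. -/
theorem exists_sub_card {G : Type*} [Group G] [Finite G] {p n : ℕ} (hp : p.Prime)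
    (hn : Nat.card G = p ^ n) {H : Subgroup G} {j i : ℕ} (hH : Nat.card H = p ^ j) (hij : i ≤ j) :
    ∃ K : Subgroup G, K ≤ H ∧ Nat.card K = p ^ i := by
  have : Fact p.Prime := ⟨hp⟩
  obtain ⟨K, hK⟩ := Sylow.exists_subgroup_card_pow_prime (G := H) p (n := i)
    (by rw [hH]; exact pow_dvd_pow p hij)
  refine ⟨K.map H.subtype, ?_, ?_⟩
  · exact Subgroup.map_subtype_le K
  · rw [Subgroup.card_map_of_injective H.subtype_injective, hK]

theorem mset_bdd {p n : ℕ} (hp : p.Prime) : BddAbove (mset p n) := by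
  have : Fact p.Prime := ⟨hp⟩
  refine ⟨n, fun k hk => ?_⟩
  -- the cyclic group of order `p ^ n`
  have hcard : Nat.card (Multiplicative (ZMod (p ^ n))) = p ^ n := by
    rw [Nat.card_congr Multiplicative.toAdd, Nat.card_zmod]
  obtain ⟨H, -, hH⟩ := hk (Multiplicative (ZMod (p ^ n))) hcard
  have hfin : Finite (Multiplicative (ZMod (p ^ n))) :=
    Nat.finite_of_card_ne_zero (by rw [hcard]; exact pow_ne_zero _ hp.ne_zero)
  have h1 : Nat.card H ≤ Nat.card (Multiplicative (ZMod (p ^ n))) := Subgroup.card_le_card_group H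
  rw [hH, hcard] at h1
  exact (Nat.pow_le_pow_iff_right hp.one_lt).1 h1

theorem zero_mem_mset (p n : ℕ) : 0 ∈ mset p n := by
  intro G _ _
  refine ⟨⊥, ?_, by simp⟩
  intro x hx y hy
  rw [Subgroup.mem_bot] at hx hy
  rw [hx, hy]

/-- Some group of order `p ^ n` has all abelian subgroups of order at most `p ^ m(n)`. -/
theorem exists_group {p n : ℕ} (hp : p.Prime) : ∃ (G : Type) (_ : Group G),
    Nat.card G = p ^ n ∧ ∀ H : Subgroup G, (∀ x ∈ H, ∀ y ∈ H, x * y = y * x) →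
      Nat.card H ≤ p ^ sSup (mset p n) := by
  have hnot : sSup (mset p n) + 1 ∉ mset p n := by
    intro h
    have := le_csSup (mset_bdd hp) h
    omega
  unfold mset at hnot
  rw [Set.mem_setOf_eq] at hnot
  push_neg at hnot
  obtain ⟨G, hG, hc, hH⟩ := hnot
  refine ⟨G, hG, hc, fun H hab => ?_⟩
  have hfin : Finite G := Nat.finite_of_card_ne_zero (by rw [hc]; exact pow_ne_zero _ hp.ne_zero)
  obtain ⟨j, hj⟩ := exists_card_eq_pow hp (IsPGroup.of_card hc) H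
  rw [hj]
  apply Nat.pow_le_pow_right hp.pos
  by_contra hlt
  obtain ⟨K, hKH, hK⟩ := exists_sub_card hp hc hj (i := sSup (mset p n) + 1) (by
    unfold mset at hlt ⊢; omega)
  exact hH K (fun x hx y hy => hab x (hKH hx) y (hKH hy)) hK

theorem bound_all {p n : ℕ} (hp : p.Prime) :
    (n : ℝ) ≤ 3 / 8 * ((sSup (mset p n) : ℕ) : ℝ) ^ 2 + (Err (sSup (mset p n)) : ℕ) := by
  obtain ⟨G, hG, hc, hm⟩ := exists_group (n := n) hp
  have hfin : Finite G := Nat.finite_of_card_ne_zero (by rw [hc]; exact pow_ne_zero _ hp.ne_zero)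
  obtain ⟨α, hαm, h⟩ := main_all hp hc hm
  obtain ⟨t, h1, h2, w, h3, h4⟩ := h (α / 4) (by omega)
  have h5 := numeric_all h1 h2 h3
  set m := sSup (mset p n) with hmdef
  have h6 : α ^ 2 ≤ m ^ 2 := Nat.pow_le_pow_left hαm 2
  have h7 : 8 * n ≤ 3 * m ^ 2 + 8 * Err m := by
    unfold Err
    generalize (α / 4 * (α / 4 - 1) / 2 + (t - α / 4) * (t - α / 4 - 1) / 2) = X at *
    generalize w * (α - t - w) = Y1 at *
    generalize (t - α / 4) * (α - t) = Y2 at *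
    generalize α / 4 * (α - t) = Y3 at *
    generalize 6 * ((qf m) ^ 2 + 1) * m = Z1 at *
    generalize (qf m) ^ 3 * (m * (kf m + 1)) = Z2 at *
    generalize (qf m) ^ 2 * m = Z3 at *
    generalize (qf m) ^ 3 * m = Z4 at *
    generalize qf m * m = Z5 at *
    generalize α ^ 2 = A2 at *
    generalize m ^ 2 = M2 at *
    omega
  have h8 : (8 * n : ℝ) ≤ 3 * (m : ℝ) ^ 2 + 8 * (Err m : ℝ) := by exact_mod_cast h7
  linarith

theorem bound_odd {p n : ℕ} (hp : p.Prime) (hp2 : p ≠ 2) :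
    (n : ℝ) ≤ 1 / 3 * ((sSup (mset p n) : ℕ) : ℝ) ^ 2 + (Err (sSup (mset p n)) : ℕ) := by
  obtain ⟨G, hG, hc, hm⟩ := exists_group (n := n) hp
  have hfin : Finite G := Nat.finite_of_card_ne_zero (by rw [hc]; exact pow_ne_zero _ hp.ne_zero)
  obtain ⟨α, hαm, h⟩ := main_odd hp hp2 hc hm
  obtain ⟨t, h1, h2, h4⟩ := h (α / 3) (by omega)
  have h5 := numeric_odd h1 h2
  set m := sSup (mset p n) with hmdef
  have h6 : α ^ 2 ≤ m ^ 2 := Nat.pow_le_pow_left hαm 2
  have h7 : 3 * n ≤ m ^ 2 + 3 * Err m := by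
    unfold Err
    generalize (α / 3 * (α / 3 - 1) / 2 + (t - α / 3) * (t - α / 3 - 1) / 2) = X at *
    generalize (t - α / 3) * (α - t) = Y2 at *
    generalize α / 3 * (α - t) = Y3 at *
    generalize 6 * ((qf m) ^ 2 + 1) * m = Z1 at *
    generalize (qf m) ^ 3 * (m * (kf m + 1)) = Z2 at *
    generalize (qf m) ^ 2 * m = Z3 at *
    generalize (qf m) ^ 3 * m = Z4 at *
    generalize qf m * m = Z5 at *
    generalize α ^ 2 = A2 at *
    generalize m ^ 2 = M2 at *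
    omega
  have h8 : (3 * n : ℝ) ≤ (m : ℝ) ^ 2 + 3 * (Err m : ℝ) := by exact_mod_cast h7
  linarith

theorem main_result_all {p : ℕ} (hp : p.Prime) (c : ℝ) (hc : c < Real.sqrt (8 / 3)) :
    ∀ᶠ n : ℕ in Filter.atTop, c ≤ ((sSup (mset p n) : ℕ) : ℝ) / Real.sqrt (n : ℝ) := by
  refine asym_final (3 / 8) (by norm_num) (fun n => sSup (mset p n)) (fun n _ => bound_all hp) c ?_
  rw [show (1 : ℝ) / (3 / 8) = 8 / 3 by norm_num]
  exact hc

theorem main_result_odd {p : ℕ} (hp : p.Prime) (hp2 : p ≠ 2) (c : ℝ) (hc : c < Real.sqrt 3) :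
    ∀ᶠ n : ℕ in Filter.atTop, c ≤ ((sSup (mset p n) : ℕ) : ℝ) / Real.sqrt (n : ℝ) := by
  refine asym_final (1 / 3) (by norm_num) (fun n => sSup (mset p n))
    (fun n _ => bound_odd hp hp2) c ?_
  rw [show (1 : ℝ) / (1 / 3) = 3 by norm_num]
  exact hc

end MP828
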