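import Pool.Agent.Lib.MP_828a6d_al.BiAa
import Pool.Agent.Lib.MP_828a6d_al.Final

/-! MP_828a6d_al (stream Bi): the group of an alternating bilinear map. -/

namespace MP828

/-- the group of a bilinear map, as a type -/
def BiA_G {R : Type} [CommRing R] {d z : ℕ}
    (_b : (Fin d → R) →ₗ[R] (Fin d → R) →ₗ[R] (Fin z → R)) : Type :=
  (Fin d → R) × (Fin z → R)

/-- the element `(v, w)` -/
def BiA_mk {R : Type} [CommRing R] {d z : ℕ}
    (b : (Fin d → R) →ₗ[R] (Fin d → R) →ₗ[R] (Fin z → R)) (v : Fin d → R) (w : Fin z → R) :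
    BiA_G b := (v, w)

instance BiA_mul {R : Type} [CommRing R] {d z : ℕ}
    (b : (Fin d → R) →ₗ[R] (Fin d → R) →ₗ[R] (Fin z → R)) : Mul (BiA_G b) :=
  ⟨fun x y => (x.1 + y.1, x.2 + y.2 + b x.1 y.1)⟩

instance BiA_one {R : Type} [CommRing R] {d z : ℕ}
    (b : (Fin d → R) →ₗ[R] (Fin d → R) →ₗ[R] (Fin z → R)) : One (BiA_G b) :=
  ⟨(0, 0)⟩

instance BiA_inv {R : Type} [CommRing R] {d z : ℕ}
    (b : (Fin d → R) →ₗ[R] (Fin d → R) →ₗ[R] (Fin z → R)) : Inv (BiA_G b) :=
  ⟨fun x => (-x.1, -x.2 + b x.1 x.1)⟩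

instance BiA_group {R : Type} [CommRing R] {d z : ℕ}
    (b : (Fin d → R) →ₗ[R] (Fin d → R) →ₗ[R] (Fin z → R)) : Group (BiA_G b) :=
  Group.ofLeftAxioms
    (by
      intro x y t
      show ((x.1 + y.1) + t.1, (x.2 + y.2 + b x.1 y.1) + t.2 + b (x.1 + y.1) t.1) =
        (x.1 + (y.1 + t.1), x.2 + (y.2 + t.2 + b y.1 t.1) + b x.1 (y.1 + t.1))
      rw [map_add, LinearMap.add_apply, map_add]
      refine Prod.ext (add_assoc _ _ _) ?_
      show x.2 + y.2 + b x.1 y.1 + t.2 + (b x.1 t.1 + b y.1 t.1) =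
        x.2 + (y.2 + t.2 + b y.1 t.1) + (b x.1 y.1 + b x.1 t.1)
      abel)
    (by
      intro x
      show (0 + x.1, 0 + x.2 + b 0 x.1) = x
      rw [map_zero, LinearMap.zero_apply, add_zero, zero_add, zero_add]
      rfl)
    (by
      intro x
      show (-x.1 + x.1, (-x.2 + b x.1 x.1) + x.2 + b (-x.1) x.1) = ((0, 0) : BiA_G b)
      rw [map_neg, LinearMap.neg_apply]
      refine Prod.ext (neg_add_cancel _) ?_
      show -x.2 + b x.1 x.1 + x.2 + -b x.1 x.1 = 0
      abel)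

/-- **The group of a bilinear map.** `G = F_p^d × F_p^z` with `(v, w)(v', w') = (v + v', w + w' + b(v, v'))`,
`(v,w)⁻¹ = (-v, -w + b(v,v))`, has order `p^n`; `(v, w)` and `(v', w')` commute iff `β(v, v') = b(v,v') - b(v',v) = 0`. For an
abelian subgroup `H` the image of `H` under the homomorphism `(v, w) ↦ v` is an additive subgroup, hence a `ZMod p`-subspace `U`
(`AddSubgroup.toZModSubmodule`), which is totally isotropic, and `|H| ≤ |U| p^z = p^{z + dim U} ≤ p^k`. -/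
theorem group_of_bil {p n k : ℕ} (hp : p.Prime) (h : HasIso p n k) :
    ∃ (G : Type) (_ : Group G), Nat.card G = p ^ n ∧
      ∀ H : Subgroup G, (∀ x ∈ H, ∀ y ∈ H, x * y = y * x) → Nat.card H ≤ p ^ k := by
  obtain ⟨d, z, hdz, β, hβ, hU⟩ := h
  obtain ⟨b, hb⟩ := exists_half β hβ
  have : Fact p.Prime := ⟨hp⟩
  refine ⟨BiA_G b, inferInstance, ?_, ?_⟩
  · show Nat.card ((Fin d → ZMod p) × (Fin z → ZMod p)) = p ^ n
    rw [Nat.card_prod, Nat.card_fun, Nat.card_fun, Nat.card_fin, Nat.card_fin, Nat.card_zmod,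
      ← pow_add, hdz]
  · intro H hH
    let S : AddSubgroup (Fin d → ZMod p) :=
      { carrier := {v | ∃ w : Fin z → ZMod p, BiA_mk b v w ∈ H}
        zero_mem' := ⟨0, H.one_mem⟩
        add_mem' := by
          rintro v v' ⟨w, hw⟩ ⟨w', hw'⟩
          exact ⟨w + w' + b v v', H.mul_mem hw hw'⟩
        neg_mem' := by
          rintro v ⟨w, hw⟩
          exact ⟨-w + b v v, H.inv_mem hw⟩ }
    have hS : ∀ v, v ∈ S ↔ ∃ w : Fin z → ZMod p, BiA_mk b v w ∈ H := fun v => Iff.rfl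
    have hiso := hU (AddSubgroup.toZModSubmodule p S) (by
      intro u hu v hv
      rw [AddSubgroup.mem_toZModSubmodule, hS] at hu hv
      obtain ⟨w, hw⟩ := hu
      obtain ⟨w', hw'⟩ := hv
      have h1 := congrArg Prod.snd (hH _ hw _ hw')
      have h2 : w + w' + b u v = w' + w + b v u := h1
      rw [add_comm w' w] at h2
      rw [← hb, add_left_cancel h2, sub_self])
    obtain ⟨U, hUS⟩ : ∃ U : Submodule (ZMod p) (Fin d → ZMod p),
        U = AddSubgroup.toZModSubmodule p S := ⟨_, rfl⟩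
    rw [← hUS] at hiso
    have hUm : ∀ (v : Fin d → ZMod p) (w : Fin z → ZMod p), BiA_mk b v w ∈ H → v ∈ U := by
      intro v w hw
      rw [hUS, AddSubgroup.mem_toZModSubmodule]
      exact ⟨w, hw⟩
    have hcard : Nat.card U = p ^ Module.finrank (ZMod p) U := by
      rw [Module.natCard_eq_pow_finrank (K := ZMod p), Nat.card_zmod]
    let F : H → U × (Fin z → ZMod p) := fun x => (⟨x.1.1, hUm x.1.1 x.1.2 x.2⟩, x.1.2)
    have hF : Function.Injective F := by
      intro x y hxy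
      have h1 : x.1.1 = y.1.1 :=
        congrArg (fun t : U × (Fin z → ZMod p) => (t.1 : Fin d → ZMod p)) hxy
      have h2 : x.1.2 = y.1.2 := congrArg (fun t : U × (Fin z → ZMod p) => t.2) hxy
      exact Subtype.ext (Prod.ext h1 h2)
    have h1 := Nat.card_le_card_of_injective F hF
    rw [Nat.card_prod, hcard, Nat.card_fun, Nat.card_fin, Nat.card_zmod, ← pow_add] at h1
    exact h1.trans (Nat.pow_le_pow_right hp.pos (by omega))

/-- `m_p(n) ≤ μ_p(n)`: `group_of_bil` for `hasIso_mu`; every `k ∈ mset p n` has `p^k ≤ p^{mu p n}` (`csSup_le`, the set contains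
`0` by `zero_mem_mset`). -/
theorem mset_le_mu {p : ℕ} (hp : p.Prime) (n : ℕ) : sSup (mset p n) ≤ mu p n := by
  refine csSup_le ⟨0, zero_mem_mset p n⟩ fun k hk => ?_
  obtain ⟨G, inst, hG, hH⟩ := group_of_bil hp (hasIso_mu hp n)
  obtain ⟨H, hab, hc⟩ := hk G hG
  have h1 := hH H hab
  rw [hc] at h1
  exact (Nat.pow_le_pow_iff_right hp.one_lt).1 h1

end MP828
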