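import Pool.Agent.Lib.MP_828a6d_al.BiDefs

/-! MP_828a6d_al (stream Bi): an alternating bilinear map is `b(x,y) - b(y,x)`. -/

namespace MP828

/-- An alternating bilinear map `β` on `F^d` is `b(x,y) - b(y,x)` for a bilinear map `b`.
Proof. `b(x, y) = ∑_{i < j} x_i y_j β(e_i, e_j)`; `β(x, y) = ∑_{i,j} x_i y_j β(e_i, e_j)`, `β(e_i, e_i) = 0`,
`β(e_j, e_i) = -β(e_i, e_j)` (from `β(v,v) = 0` for `v = e_i + e_j`). -/
theorem exists_half {R : Type*} [CommRing R] {d z : ℕ} (β : (Fin d → R) →ₗ[R] (Fin d → R) →ₗ[R] (Fin z → R))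
    (hβ : ∀ v, β v v = 0) :
    ∃ b : (Fin d → R) →ₗ[R] (Fin d → R) →ₗ[R] (Fin z → R), ∀ x y, b x y - b y x = β x y := by
  classical
  let e : Fin d → Fin d → R := fun i => Pi.single i 1
  let B : Fin d → Fin d → (Fin z → R) := fun i j => if i < j then β (e i) (e j) else 0
  have hanti : ∀ v w, β w v = - β v w := by
    intro v w
    have h := hβ (v + w)
    simp only [map_add, LinearMap.add_apply, hβ v, hβ w, zero_add, add_zero] at h
    exact eq_neg_of_add_eq_zero_left h
  have hexp : ∀ x y, β x y = ∑ i, ∑ j, (x i * y j) • β (e i) (e j) := by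
    intro x y
    have hx : x = ∑ i, x i • e i := by
      simpa [e] using (pi_eq_sum_univ' x)
    have hy : y = ∑ j, y j • e j := by
      simpa [e] using (pi_eq_sum_univ' y)
    conv_lhs => rw [hx]
    rw [map_sum, LinearMap.sum_apply]
    refine Finset.sum_congr rfl fun i _ => ?_
    rw [map_smul, LinearMap.smul_apply]
    conv_lhs => rw [hy]
    rw [map_sum, Finset.smul_sum]
    refine Finset.sum_congr rfl fun j _ => ?_
    rw [map_smul, smul_smul]
  refine ⟨LinearMap.mk₂ R (fun x y => ∑ i, ∑ j, (x i * y j) • B i j) ?_ ?_ ?_ ?_, ?_⟩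
  · intro x x' y
    simp only [Pi.add_apply, add_mul, add_smul, Finset.sum_add_distrib]
  · intro c x y
    simp only [Pi.smul_apply, smul_eq_mul, Finset.smul_sum, smul_smul, mul_assoc]
  · intro x y y'
    simp only [Pi.add_apply, mul_add, add_smul, Finset.sum_add_distrib]
  · intro c x y
    simp only [Pi.smul_apply, smul_eq_mul, Finset.smul_sum, smul_smul]
    refine Finset.sum_congr rfl fun i _ => Finset.sum_congr rfl fun j _ => ?_
    congr 1
    ring
  · intro x y
    rw [LinearMap.mk₂_apply, LinearMap.mk₂_apply, hexp]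
    have h1 : (∑ i, ∑ j, (y i * x j) • B i j) = ∑ i, ∑ j, (x i * y j) • B j i := by
      rw [Finset.sum_comm]
      refine Finset.sum_congr rfl fun i _ => Finset.sum_congr rfl fun j _ => ?_
      rw [mul_comm]
    rw [h1, ← Finset.sum_sub_distrib]
    refine Finset.sum_congr rfl fun i _ => ?_
    rw [← Finset.sum_sub_distrib]
    refine Finset.sum_congr rfl fun j _ => ?_
    rw [← smul_sub]
    congr 1
    simp only [B]
    rcases lt_trichotomy i j with h | h | h
    · rw [if_pos h, if_neg (not_lt.2 h.le), sub_zero]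
    · subst h
      simp [hβ]
    · rw [if_neg (not_lt.2 h.le), if_pos h, zero_sub, hanti, neg_neg]

end MP828
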