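import Pool.Agent.Lib.MP_828a6d_al.BiBa

/-! MP_828a6d_al (stream Bi): groups of class two: passing to an elementary abelian quotient. -/

namespace MP828

open scoped commutatorElement

variable {G : Type*} [Group G]

/-- **Elementary quotient.** `Z` central, `[G, G] ≤ Z`, `m ≤ 2^k`, abelian subgroups of order `≤ p^m`: there is `V ≥ Z` of
index `≤ p^{m (k+1)}` with `x^p ∈ Z` for `x ∈ V`.
Proof. `T_j = p^{2^j}`, `T_j = T_{j-1}²`. `|Z| ≤ p^m` is a power of `p`, so `z^{p^m} = 1` for `z ∈ Z` and `⁅x, y⁆^{T_{k+1}} = 1`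
on `G`. By induction on `i ≤ k + 1` there is `V_i ≥ Z` of index `≤ p^{m i}` with `⁅x, y⁆^{T_{k+1-i}} = 1` on `V_i`, and
`x^{T_{k+1-i}} ∈ Z` for `x ∈ V_i` if `i ≥ 1`: apply `halve` with `t = T_{k-i}`; `⁅x, y⁆^t = ⁅x^t, y⁆ = 1` since `x^t ∈ Z`
(`comm_pow` with `b = 1`). For `i = k + 1`: `T_0 = p`. -/
theorem exists_elem [Finite G] {p m k : ℕ} (hp : p.Prime) (hG : IsPGroup p G)
    (hm : ∀ H : Subgroup G, (∀ x ∈ H, ∀ y ∈ H, x * y = y * x) → Nat.card H ≤ p ^ m) {Z : Subgroup G}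
    (hZ : Z ≤ Subgroup.center G) (hab : ∀ x y : G, ⁅x, y⁆ ∈ Z) (hk : m ≤ 2 ^ k) :
    ∃ V : Subgroup G, Z ≤ V ∧ Nat.card G ≤ p ^ (m * (k + 1)) * Nat.card V ∧ ∀ x ∈ V, x ^ p ∈ Z := by
  have : Fact p.Prime := ⟨hp⟩
  have hord : ∀ g : G, g ^ (p ^ m) = 1 := by
    intro g
    obtain ⟨a, ha⟩ := (IsPGroup.iff_orderOf.1 hG) g
    have h1 : Nat.card (Subgroup.zpowers g) ≤ p ^ m := by
      refine hm _ fun x hx y hy => ?_
      obtain ⟨i, rfl⟩ := Subgroup.mem_zpowers_iff.1 hx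
      obtain ⟨j, rfl⟩ := Subgroup.mem_zpowers_iff.1 hy
      rw [← zpow_add, ← zpow_add, add_comm]
    rw [Nat.card_zpowers, ha] at h1
    have h2 : a ≤ m := (Nat.pow_le_pow_iff_right hp.one_lt).1 h1
    exact orderOf_dvd_iff_pow_eq_one.1 (ha ▸ Nat.pow_dvd_pow p h2)
  have key : ∀ i ≤ k + 1, ∃ V : Subgroup G, Z ≤ V ∧ Nat.card G ≤ p ^ (m * i) * Nat.card V ∧
      (∀ x ∈ V, ∀ y ∈ V, ⁅x, y⁆ ^ (p ^ 2 ^ (k + 1 - i)) = 1) ∧
      (1 ≤ i → ∀ x ∈ V, x ^ (p ^ 2 ^ (k + 1 - i)) ∈ Z) := by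
    intro i
    induction i with
    | zero =>
      intro _
      refine ⟨⊤, le_top, ?_, ?_, fun h => absurd h (by norm_num)⟩
      · simp
      · intro x _ y _
        have h3 : m ≤ 2 ^ (k + 1 - 0) :=
          hk.trans (Nat.pow_le_pow_right (by norm_num) (by omega))
        obtain ⟨c, hc⟩ := Nat.pow_dvd_pow p h3
        rw [hc, pow_mul, hord, one_pow]
    | succ i ih =>
      intro hi
      obtain ⟨V, hZV, hcard, hcom, -⟩ := ih (by omega)
      have ht : p ^ 2 ^ (k - i) * p ^ 2 ^ (k - i) = p ^ 2 ^ (k + 1 - i) := by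
        rw [← pow_add]
        congr 1
        have : k + 1 - i = (k - i) + 1 := by omega
        rw [this, pow_succ]
        ring
      obtain ⟨V', hV', hZV', hcard', hpw⟩ := halve (t := p ^ 2 ^ (k - i)) hm hZ hZV
        (fun x _ y _ => hab x y) (fun x hx y hy => by rw [ht]; exact hcom x hx y hy)
      have hki : k + 1 - (i + 1) = k - i := by omega
      refine ⟨V', hZV', ?_, ?_, ?_⟩
      · calc Nat.card G ≤ p ^ (m * i) * Nat.card V := hcard
          _ ≤ p ^ (m * i) * (p ^ m * Nat.card V') := Nat.mul_le_mul_left _ hcard'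
          _ = p ^ (m * (i + 1)) * Nat.card V' := by rw [← mul_assoc, ← pow_add]; ring_nf
      · intro x hx y hy
        rw [hki]
        have h4 := comm_pow (hZ (hab x y)) (p ^ 2 ^ (k - i)) 1
        rw [pow_one, mul_one] at h4
        rw [← h4, commutatorElement_eq_one_iff_mul_comm]
        exact (Subgroup.mem_center_iff.1 (hZ (hpw x hx)) y).symm
      · intro _ x hx
        rw [hki]
        exact hpw x hx
  obtain ⟨V, h1, h2, -, h4⟩ := key (k + 1) le_rfl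
  refine ⟨V, h1, h2, fun x hx => ?_⟩
  have h5 := h4 (by omega) x hx
  rwa [Nat.sub_self, pow_zero, pow_one] at h5

end MP828
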