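import Pool.Agent.Lib.MP_828a6d_al.BiDefs

/-! MP_828a6d_al (stream Bi): groups of class two: passing to `{x : x^p ∈ Z}`. -/

namespace MP828

open scoped commutatorElement

variable {G : Type*} [Group G]

/-- Auxiliary: `x y = c y x` with `c` central gives `x^a y = c^a y x^a`. -/
theorem BiBa_aux {c x y : G} (hc : ∀ g, g * c = c * g) (h : x * y = c * y * x) (a : ℕ) :
    x ^ a * y = c ^ a * y * x ^ a := by
  induction a with
  | zero => simp
  | succ a ih =>
    have h1 : x ^ a * c = c * x ^ a := hc _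
    calc x ^ (a + 1) * y = x ^ a * (x * y) := by rw [pow_succ, mul_assoc]
      _ = x ^ a * c * y * x := by rw [h]; simp only [mul_assoc]
      _ = c * (x ^ a * y) * x := by rw [h1]; simp only [mul_assoc]
      _ = c * (c ^ a * y * x ^ a) * x := by rw [ih]
      _ = c ^ (a + 1) * y * x ^ (a + 1) := by
        rw [pow_succ' c a, pow_succ x a]; simp only [mul_assoc]

/-- Auxiliary: the same in the second variable. -/
theorem BiBa_aux' {c x y : G} (hc : ∀ g, g * c = c * g) (h : x * y = c * y * x) (b : ℕ) :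
    x * y ^ b = c ^ b * y ^ b * x := by
  induction b with
  | zero => simp
  | succ b ih =>
    have h1 : y ^ b * c = c * y ^ b := hc _
    calc x * y ^ (b + 1) = x * y ^ b * y := by rw [pow_succ, mul_assoc]
      _ = c ^ b * y ^ b * (x * y) := by rw [ih]; simp only [mul_assoc]
      _ = c ^ b * (y ^ b * c) * y * x := by rw [h]; simp only [mul_assoc]
      _ = c ^ b * (c * y ^ b) * y * x := by rw [h1]
      _ = c ^ (b + 1) * y ^ (b + 1) * x := by
        rw [pow_succ c b, pow_succ y b]; simp only [mul_assoc]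

/-- Commutators and powers in class two: `⁅x^a, y⁆ = ⁅x, y⁆^a` and `⁅x^a, y^b⁆ = ⁅x, y⁆^{ab}` if `⁅x, y⁆` is central. -/
theorem comm_pow {x y : G} (h : ⁅x, y⁆ ∈ Subgroup.center G) (a b : ℕ) :
    ⁅x ^ a, y ^ b⁆ = ⁅x, y⁆ ^ (a * b) := by
  have hc : ∀ g, g * ⁅x, y⁆ = ⁅x, y⁆ * g := fun g => Subgroup.mem_center_iff.mp h g
  have h0 : x * y = ⁅x, y⁆ * y * x := by
    rw [commutatorElement_def]; group
  have h1 : x * y ^ b = ⁅x, y⁆ ^ b * y ^ b * x := BiBa_aux' hc h0 b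
  have hc' : ∀ g, g * ⁅x, y⁆ ^ b = ⁅x, y⁆ ^ b * g := fun g =>
    Subgroup.mem_center_iff.mp (pow_mem h b) g
  have h2 : x ^ a * y ^ b = (⁅x, y⁆ ^ b) ^ a * y ^ b * x ^ a := BiBa_aux hc' h1 a
  rw [commutatorElement_def (x ^ a) (y ^ b), h2, ← pow_mul, mul_comm b a]
  group

/-- **Halving.** `Z ≤ V`, `Z` central in `G`, `[V, V] ≤ Z`, `⁅x, y⁆^{t²} = 1` on `V`, abelian subgroups of `G` of order
`≤ p^m`. There is `V' ≤ V`, `Z ≤ V'`, of index `≤ p^m`, with `x^t ∈ Z` for `x ∈ V'`.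
Proof. `P = {x^t z : x ∈ V, z ∈ Z}` is an abelian subgroup of `V` containing `Z`: modulo `Z` the group `V` is commutative, so
`x ↦ x^t` is a homomorphism `V → V/Z`, and `⁅x^t z, y^t z'⁆ = ⁅x^t, y^t⁆ = ⁅x, y⁆^{t²} = 1`. `V' = {x ∈ V : x^t ∈ Z}` is the
kernel of `V → V/Z`, `x ↦ x^t`, whose image is `P/Z`: `|V| = |V'| |P/Z| ≤ |V'| |P| ≤ p^m |V'|`. -/
theorem halve [Finite G] {p m t : ℕ}
    (hm : ∀ H : Subgroup G, (∀ x ∈ H, ∀ y ∈ H, x * y = y * x) → Nat.card H ≤ p ^ m) {Z V : Subgroup G}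
    (hZ : Z ≤ Subgroup.center G) (hZV : Z ≤ V) (hV : ∀ x ∈ V, ∀ y ∈ V, ⁅x, y⁆ ∈ Z)
    (ht : ∀ x ∈ V, ∀ y ∈ V, ⁅x, y⁆ ^ (t * t) = 1) :
    ∃ V' ≤ V, Z ≤ V' ∧ Nat.card V ≤ p ^ m * Nat.card V' ∧ ∀ x ∈ V', x ^ t ∈ Z := by
  have hcen : ∀ z ∈ Z, ∀ g : G, g * z = z * g := fun z hz g =>
    Subgroup.mem_center_iff.mp (hZ hz) g
  have hN : (Z.subgroupOf V).Normal := by
    refine ⟨fun n hn g => ?_⟩
    rw [Subgroup.mem_subgroupOf] at hn ⊢
    have h1 : ((g * n * g⁻¹ : V) : G) = n := by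
      push_cast
      rw [hcen _ hn g, mul_assoc, mul_inv_cancel, mul_one]
    rw [h1]
    exact hn
  have hcomm : ∀ x y : V, Commute (QuotientGroup.mk' (Z.subgroupOf V) x)
      (QuotientGroup.mk' (Z.subgroupOf V) y) := by
    intro x y
    have h1 : QuotientGroup.mk' (Z.subgroupOf V) ⁅x, y⁆ = 1 := by
      rw [← MonoidHom.mem_ker, QuotientGroup.ker_mk', Subgroup.mem_subgroupOf]
      exact hV x x.2 y y.2
    rw [map_commutatorElement] at h1
    exact commutatorElement_eq_one_iff_commute.mp h1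
  let φ : V →* V ⧸ (Z.subgroupOf V) :=
    { toFun := fun x => (QuotientGroup.mk' (Z.subgroupOf V) x) ^ t
      map_one' := by rw [map_one, one_pow]
      map_mul' := fun x y => by rw [map_mul, (hcomm x y).mul_pow] }
  have hφ : ∀ x : V, φ x = QuotientGroup.mk' (Z.subgroupOf V) (x ^ t) := by
    intro x
    rw [map_pow]
    rfl
  have hker : ∀ x : V, x ∈ φ.ker ↔ (x : G) ^ t ∈ Z := by
    intro x
    rw [MonoidHom.mem_ker, hφ, ← MonoidHom.mem_ker, QuotientGroup.ker_mk',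
      Subgroup.mem_subgroupOf]
    push_cast
    exact Iff.rfl
  let R : Subgroup V := φ.range.comap (QuotientGroup.mk' (Z.subgroupOf V))
  have hR : ∀ v ∈ R, ∃ x : V, ∃ z ∈ Z, (v : G) = (x : G) ^ t * z := by
    intro v hv
    obtain ⟨x, hx⟩ := (Subgroup.mem_comap.mp hv : _ ∈ φ.range)
    rw [hφ] at hx
    refine ⟨x, ((x ^ t)⁻¹ * v : V), ?_, ?_⟩
    · have h2 : (x ^ t)⁻¹ * v ∈ Z.subgroupOf V := by
        rw [← QuotientGroup.ker_mk' (Z.subgroupOf V), MonoidHom.mem_ker, map_mul, map_inv, hx,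
          inv_mul_cancel]
      exact Subgroup.mem_subgroupOf.mp h2
    · push_cast
      rw [mul_inv_cancel_left]
  have habR : ∀ v ∈ R.map V.subtype, ∀ w ∈ R.map V.subtype, v * w = w * v := by
    rintro _ ⟨v, hv, rfl⟩ _ ⟨w, hw, rfl⟩
    obtain ⟨x, z, hz, hvx⟩ := hR v hv
    obtain ⟨y, z', hz', hwy⟩ := hR w hw
    rw [Subgroup.subtype_apply, Subgroup.subtype_apply, hvx, hwy]
    have h1 : ⁅(x : G) ^ t, (y : G) ^ t⁆ = 1 := by
      rw [comm_pow (hZ (hV x x.2 y y.2)), ht x x.2 y y.2]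
    have h2 : (x : G) ^ t * (y : G) ^ t = (y : G) ^ t * (x : G) ^ t :=
      commutatorElement_eq_one_iff_mul_comm.mp h1
    calc (x : G) ^ t * z * ((y : G) ^ t * z') = (x : G) ^ t * (z * (y : G) ^ t) * z' := by
          simp only [mul_assoc]
      _ = (x : G) ^ t * ((y : G) ^ t * z) * z' := by rw [hcen z hz]
      _ = ((x : G) ^ t * (y : G) ^ t) * (z * z') := by simp only [mul_assoc]
      _ = ((y : G) ^ t * (x : G) ^ t) * (z' * z) := by rw [h2, hcen z' hz' z]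
      _ = (y : G) ^ t * ((x : G) ^ t * z') * z := by simp only [mul_assoc]
      _ = (y : G) ^ t * (z' * (x : G) ^ t) * z := by rw [hcen z' hz']
      _ = (y : G) ^ t * z' * ((x : G) ^ t * z) := by simp only [mul_assoc]
  have hcR : Nat.card φ.range ≤ p ^ m := by
    have h1 : Nat.card (R.map V.subtype) ≤ p ^ m := hm _ habR
    have h2 : Nat.card (R.map V.subtype) = Nat.card R :=
      Nat.card_congr (R.equivMapOfInjective V.subtype V.subtype_injective).toEquiv.symm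
    have h3 : Nat.card φ.range ≤ Nat.card R := by
      refine Nat.card_le_card_of_surjective
        (fun v : R => (⟨QuotientGroup.mk' (Z.subgroupOf V) v.1, v.2⟩ : φ.range)) ?_
      rintro ⟨q, hq⟩
      obtain ⟨v, hv⟩ := QuotientGroup.mk'_surjective (Z.subgroupOf V) q
      refine ⟨⟨v, ?_⟩, ?_⟩
      · show QuotientGroup.mk' (Z.subgroupOf V) v ∈ φ.range
        rw [hv]
        exact hq
      · exact Subtype.ext hv
    omega
  refine ⟨φ.ker.map V.subtype, ?_, ?_, ?_, ?_⟩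
  · rintro _ ⟨v, _, rfl⟩
    exact v.2
  · intro z hz
    refine ⟨⟨z, hZV hz⟩, ?_, rfl⟩
    exact (hker _).mpr (pow_mem hz t)
  · have h1 : Nat.card (φ.ker.map V.subtype) = Nat.card φ.ker :=
      Nat.card_congr (φ.ker.equivMapOfInjective V.subtype V.subtype_injective).toEquiv.symm
    have h2 : Nat.card φ.ker * φ.ker.index = Nat.card V := φ.ker.card_mul_index
    rw [Subgroup.index_ker] at h2
    rw [h1, ← h2, mul_comm]
    exact Nat.mul_le_mul_right _ hcR
  · rintro _ ⟨v, hv, rfl⟩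
    exact (hker v).mp hv

end MP828
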