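import Pool.Agent.Lib.MP_828a6d_al.BiDefs

/-! MP_828a6d_al (stream Bi): from additive maps to `HasIso`. -/

namespace MP828

theorem BiDefsB_aux {p m d z : ℕ} (hp : p.Prime) {Q D : Type*} [AddCommGroup Q] [AddCommGroup D]
    [Finite Q] [Finite D] [Module (ZMod p) Q] [Module (ZMod p) D] (hcQ : Nat.card Q = p ^ d)
    (hcD : Nat.card D ≤ p ^ z) (c : Q →+ Q →+ D) (hc : ∀ x, c x x = 0)
    (hiso : ∀ U : AddSubgroup Q, (∀ u ∈ U, ∀ v ∈ U, c u v = 0) → p ^ z * Nat.card U ≤ p ^ m) :
    HasIso p (d + z) m := by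
  have hpf : Fact p.Prime := ⟨hp⟩
  have hQfin : Module.Finite (ZMod p) Q := Module.Finite.of_finite
  have hDfin : Module.Finite (ZMod p) D := Module.Finite.of_finite
  have hfQ : Module.finrank (ZMod p) Q = d := by
    have h := Module.natCard_eq_pow_finrank (K := ZMod p) (V := Q)
    rw [Nat.card_zmod, hcQ] at h
    exact (Nat.pow_right_injective hp.two_le h).symm
  have hfD : Module.finrank (ZMod p) D ≤ z := by
    have h := Module.natCard_eq_pow_finrank (K := ZMod p) (V := D)
    rw [Nat.card_zmod] at h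
    rw [h] at hcD
    exact (Nat.pow_le_pow_iff_right hp.one_lt).1 hcD
  obtain ⟨e⟩ : Nonempty ((Fin d → ZMod p) ≃ₗ[ZMod p] Q) :=
    FiniteDimensional.nonempty_linearEquiv_of_finrank_eq (by rw [hfQ, Module.finrank_fin_fun])
  obtain ⟨f, hf⟩ : ∃ f : D →ₗ[ZMod p] (Fin z → ZMod p), Function.Injective f :=
    finrank_le_iff_exists_linearMap.1 (by rw [Module.finrank_fin_fun]; exact hfD)
  -- the bilinear map
  have hsm1 : ∀ (a : ZMod p) (u v : Q), c (a • u) v = a • c u v := fun a u v =>
    ZMod.map_smul (c.flip v) a u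
  have hsm2 : ∀ (a : ZMod p) (u v : Q), c u (a • v) = a • c u v := fun a u v =>
    ZMod.map_smul (c u) a v
  obtain ⟨β, hβ⟩ : ∃ β : (Fin d → ZMod p) →ₗ[ZMod p] (Fin d → ZMod p) →ₗ[ZMod p] (Fin z → ZMod p),
      ∀ u v, β u v = f (c (e u) (e v)) :=
    ⟨LinearMap.mk₂ (ZMod p) (fun u v => f (c (e u) (e v)))
      (fun u u' v => by rw [map_add, map_add, AddMonoidHom.add_apply, map_add])
      (fun a u v => by rw [map_smul, hsm1, map_smul])
      (fun u v v' => by rw [map_add, map_add, map_add])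
      (fun a u v => by rw [map_smul, hsm2, map_smul]), fun u v => rfl⟩
  refine ⟨d, z, rfl, β, fun v => ?_, fun U hU => ?_⟩
  · rw [hβ, hc, map_zero]
  · have h1 := hiso (U.map e.toLinearMap).toAddSubgroup (fun u hu v hv => by
      obtain ⟨u', hu', rfl⟩ := (Submodule.mem_map).1 hu
      obtain ⟨v', hv', rfl⟩ := (Submodule.mem_map).1 hv
      have h2 := hU u' hu' v' hv'
      rw [hβ] at h2
      exact hf (h2.trans (map_zero f).symm))
    have h3 : Nat.card (U.map e.toLinearMap).toAddSubgroup = p ^ Module.finrank (ZMod p) U := by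
      have h4 : Nat.card (U.map e.toLinearMap).toAddSubgroup = Nat.card U :=
        Nat.card_congr (e.submoduleMap U).symm.toEquiv
      rw [h4, Module.natCard_eq_pow_finrank (K := ZMod p) (V := U), Nat.card_zmod]
    rw [h3, ← pow_add] at h1
    exact (Nat.pow_le_pow_iff_right hp.one_lt).1 h1

/-- From additive maps to `HasIso`. `Q`, `D` finite elementary abelian `p`-groups, `|Q| = p^d`, `|D| ≤ p^z`, `c : Q × Q → D`
biadditive and alternating, such that `p^z |U| ≤ p^m` for every isotropic subgroup `U` of `Q`. Then `HasIso p (d + z) m`.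
Proof. `Module (ZMod p) Q`, `Module (ZMod p) D` (`AddCommGroup.zmodModule`), `finrank Q = d`, `finrank D ≤ z`
(`Module.card_eq_pow_finrank`, `Nat.card_zmod`); linear equivalence `e : (Fin d → ZMod p) ≃ₗ Q` (finrank equality) and an
injective linear map `f : D →ₗ (Fin z → ZMod p)` (finrank inequality, e.g. `LinearMap.exists_injective_of_finrank_le` or via
bases). `β u v = f (c (e u) (e v))`; additive maps are `ZMod p`-linear (`AddMonoidHom.toZModLinearMap`). A totally isotropic
submodule `U` gives the isotropic additive subgroup `U.map e` of `Q`, of order `p^{finrank U}`. -/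
theorem hasIso_of_addHom {p m d z : ℕ} (hp : p.Prime) {Q D : Type*} [AddCommGroup Q] [AddCommGroup D] [Finite Q]
    [Finite D] (hQ : ∀ x : Q, p • x = 0) (hD : ∀ x : D, p • x = 0) (hcQ : Nat.card Q = p ^ d)
    (hcD : Nat.card D ≤ p ^ z) (c : Q →+ Q →+ D) (hc : ∀ x, c x x = 0)
    (hiso : ∀ U : AddSubgroup Q, (∀ u ∈ U, ∀ v ∈ U, c u v = 0) → p ^ z * Nat.card U ≤ p ^ m) :
    HasIso p (d + z) m := by
  have hp0 : NeZero p := ⟨hp.ne_zero⟩
  exact @BiDefsB_aux p m d z hp Q D _ _ _ _ (AddCommGroup.zmodModule hQ)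
    (AddCommGroup.zmodModule hD) hcQ hcD c hc hiso

end MP828
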