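import Pool.Agent.Lib.MP_828a6d_al.BiBa
import Pool.Agent.Lib.MP_828a6d_al.BiDefsB

/-! MP_828a6d_al (stream Bi): the alternating bilinear map of a group of class two. -/

namespace MP828

open scoped commutatorElement

variable {G : Type*} [Group G]

private theorem BiC_left {w : G} (hw : w ∈ Subgroup.center G) (x y : G) : ⁅x * w, y⁆ = ⁅x, y⁆ := by
  have h : ∀ g, g * w = w * g := Subgroup.mem_center_iff.1 hw
  rw [commutatorElement_def, commutatorElement_def, mul_inv_rev]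
  calc x * w * y * (w⁻¹ * x⁻¹) * y⁻¹ = x * (w * y) * (w⁻¹ * x⁻¹) * y⁻¹ := by group
    _ = x * (y * w) * (w⁻¹ * x⁻¹) * y⁻¹ := by rw [h y]
    _ = x * y * x⁻¹ * y⁻¹ := by group

private theorem BiC_right {w : G} (hw : w ∈ Subgroup.center G) (x y : G) : ⁅x, y * w⁆ = ⁅x, y⁆ := by
  rw [← commutatorElement_inv, BiC_left hw, commutatorElement_inv]

private theorem BiC_mul_left {x x' y : G} (h : ⁅x', y⁆ ∈ Subgroup.center G) : ⁅x * x', y⁆ = ⁅x, y⁆ * ⁅x', y⁆ := by
  have h1 : ∀ g, g * ⁅x', y⁆ = ⁅x', y⁆ * g := Subgroup.mem_center_iff.1 h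
  have h2 : ⁅x * x', y⁆ = x * ⁅x', y⁆ * (y * x⁻¹ * y⁻¹) := by
    rw [commutatorElement_def, commutatorElement_def]
    group
  rw [h2, mul_assoc, ← h1, ← mul_assoc]
  congr 1
  rw [commutatorElement_def]
  group

private theorem BiC_mul_right {x y y' : G} (h : ⁅x, y'⁆ ∈ Subgroup.center G) : ⁅x, y * y'⁆ = ⁅x, y⁆ * ⁅x, y'⁆ := by
  have h1 : ∀ g, g * ⁅x, y'⁆ = ⁅x, y'⁆ * g := Subgroup.mem_center_iff.1 h
  have h2 : ⁅x, y * y'⁆ = x * y * x⁻¹ * (⁅x, y'⁆ * y⁻¹) := by
    rw [commutatorElement_def, commutatorElement_def]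
    group
  rw [h2, ← h1, ← mul_assoc]
  rfl

/-- The elements of order `p` of a central subgroup. -/
private def BiC_D (Z : Subgroup G) (hZ : Z ≤ Subgroup.center G) (p : ℕ) : Subgroup G where
  carrier := {w | w ∈ Z ∧ w ^ p = 1}
  one_mem' := ⟨Z.one_mem, one_pow p⟩
  mul_mem' := by
    rintro a b ⟨ha, ha'⟩ ⟨hb, hb'⟩
    refine ⟨Z.mul_mem ha hb, ?_⟩
    have hc : Commute a b := (Subgroup.mem_center_iff.1 (hZ hb) a)
    rw [hc.mul_pow, ha', hb', one_mul]
  inv_mem' := by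
    rintro a ⟨ha, ha'⟩
    refine ⟨Z.inv_mem ha, ?_⟩
    rw [inv_pow, ha', inv_one]

private theorem BiC_card {V : Subgroup G} [Finite G] (N : Subgroup V) [N.Normal] (U : Subgroup (V ⧸ N)) :
    Nat.card ((U.comap (QuotientGroup.mk' N)).map V.subtype : Subgroup G) = Nat.card N * Nat.card U := by
  have h1 : Nat.card ((U.comap (QuotientGroup.mk' N)).map V.subtype : Subgroup G) =
      Nat.card (U.comap (QuotientGroup.mk' N) : Subgroup V) :=
    Subgroup.card_map_of_injective V.subtype_injective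
  have h2 := Subgroup.card_mul_index (U.comap (QuotientGroup.mk' N))
  have h3 := Subgroup.card_mul_index U
  have h4 : (U.comap (QuotientGroup.mk' N)).index = U.index :=
    Subgroup.index_comap_of_surjective U (QuotientGroup.mk'_surjective N)
  have h5 := Subgroup.card_eq_card_quotient_mul_card_subgroup N
  have h6 : 0 < U.index := Nat.pos_of_ne_zero Subgroup.index_ne_zero_of_finite
  rw [h1]
  refine Nat.eq_of_mul_eq_mul_right h6 ?_
  rw [← h4, h2, h5, ← h3, h4]
  ring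

/-- **From groups to bilinear maps.** `V ≤ G`, `Z ≤ V` central in `G`, `[V, V] ≤ Z`, `x^p ∈ Z` for `x ∈ V`, `|Z| = p^z`,
`|V| = p^{d+z}`, abelian subgroups of order `≤ p^m`: `HasIso p (d + z) m`.
Proof. `hasIso_of_addHom` with `Q = Additive (V ⧸ Z.subgroupOf V)` (commutative, since `[V, V] ≤ Z`; `p • x = 0`; order `p^d`),
`D = Additive D₀`, `D₀ = {w ∈ Z : w^p = 1}` (a commutative group, `|D₀| ≤ |Z| = p^z`), and `c (x Z) (y Z) = ⁅x, y⁆`, well
defined, biadditive (`⁅x x', y⁆ = ⁅x, y⁆ ⁅x', y⁆` for central commutators), alternating (`⁅x, x⁆ = 1`), with values in `D₀`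
because `⁅x, y⁆^p = ⁅x^p, y⁆ = 1` (`comm_pow`). For an isotropic subgroup `U ≤ Q` the preimage `P ≤ V` of `U` (a subgroup of
`G`, `Z ≤ P`) is abelian, and `|P| = p^z |U| ≤ p^m`. (It may be convenient to define `c` by `QuotientGroup.lift` twice, or with
chosen representatives `Quotient.out`, using that `⁅x z, y z'⁆ = ⁅x, y⁆` for central `z, z'`.) -/
theorem bil_of_group [Finite G] {p m d z : ℕ} (hp : p.Prime)
    (hm : ∀ H : Subgroup G, (∀ x ∈ H, ∀ y ∈ H, x * y = y * x) → Nat.card H ≤ p ^ m) {Z V : Subgroup G}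
    (hZ : Z ≤ Subgroup.center G) (hZV : Z ≤ V) (hV : ∀ x ∈ V, ∀ y ∈ V, ⁅x, y⁆ ∈ Z)
    (hpow : ∀ x ∈ V, x ^ p ∈ Z) (hcZ : Nat.card Z = p ^ z) (hcV : Nat.card V = p ^ (d + z)) :
    HasIso p (d + z) m := by
  classical
  have := Fact.mk hp
  let N : Subgroup V := Z.subgroupOf V
  have hNc : ∀ w : V, w ∈ N → (w : G) ∈ Subgroup.center G := fun w hw => hZ (Subgroup.mem_subgroupOf.1 hw)
  have hNn : N.Normal := by
    refine ⟨fun n hn g => ?_⟩
    have h1 : g * n * g⁻¹ = n := by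
      refine Subtype.ext ?_
      have h2 := Subgroup.mem_center_iff.1 (hNc n hn) (g : G)
      show (g : G) * n * (g : G)⁻¹ = n
      rw [h2, mul_inv_cancel_right]
    rw [h1]
    exact hn
  have hcen : ∀ x y : V, ⁅(x : G), (y : G)⁆ ∈ Subgroup.center G := fun x y => hZ (hV x x.2 y y.2)
  let : CommGroup (V ⧸ N) :=
    { (inferInstance : Group (V ⧸ N)) with
      mul_comm := by
        intro a b
        obtain ⟨x, rfl⟩ := QuotientGroup.mk_surjective a
        obtain ⟨y, rfl⟩ := QuotientGroup.mk_surjective b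
        show ((x * y : V) : V ⧸ N) = ((y * x : V) : V ⧸ N)
        rw [QuotientGroup.eq]
        refine Subgroup.mem_subgroupOf.2 ?_
        have h1 : (((x * y)⁻¹ * (y * x) : V) : G) = ⁅((y : G)⁻¹), ((x : G)⁻¹)⁆ := by
          rw [commutatorElement_def]
          push_cast
          group
        rw [h1]
        exact hV _ (V.inv_mem y.2) _ (V.inv_mem x.2) }
  let D₀ : Subgroup G := BiC_D Z hZ p
  let : CommGroup D₀ :=
    { (inferInstance : Group D₀) with
      mul_comm := by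
        intro a b
        exact Subtype.ext (Subgroup.mem_center_iff.1 (hZ b.2.1) (a : G)) }
  have hD : ∀ x y : V, ⁅(x : G), (y : G)⁆ ∈ D₀ := by
    intro x y
    refine ⟨hV x x.2 y y.2, ?_⟩
    have h1 := comm_pow (hcen x y) p 1
    rw [mul_one, pow_one] at h1
    rw [← h1]
    have h2 := Subgroup.mem_center_iff.1 (hZ (hpow x x.2)) (y : G)
    rw [commutatorElement_eq_one_iff_mul_comm]
    exact h2.symm
  let cf : V ⧸ N → V ⧸ N → D₀ := fun a b => ⟨⁅((Quotient.out a : V) : G), ((Quotient.out b : V) : G)⁆, hD _ _⟩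
  have hcf : ∀ x y : V, ((cf (x : V ⧸ N) (y : V ⧸ N) : D₀) : G) = ⁅(x : G), (y : G)⁆ := by
    intro x y
    have h1 : (x : V)⁻¹ * (Quotient.out (x : V ⧸ N)) ∈ N := by
      rw [← QuotientGroup.eq]
      exact (QuotientGroup.out_eq' (x : V ⧸ N)).symm
    have h2 : (y : V)⁻¹ * (Quotient.out (y : V ⧸ N)) ∈ N := by
      rw [← QuotientGroup.eq]
      exact (QuotientGroup.out_eq' (y : V ⧸ N)).symm
    have h3 : ((Quotient.out (x : V ⧸ N) : V) : G) = (x : G) * (((x : V)⁻¹ * (Quotient.out (x : V ⧸ N)) : V) : G) := by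
      push_cast
      group
    have h4 : ((Quotient.out (y : V ⧸ N) : V) : G) = (y : G) * (((y : V)⁻¹ * (Quotient.out (y : V ⧸ N)) : V) : G) := by
      push_cast
      group
    show ⁅((Quotient.out (x : V ⧸ N) : V) : G), ((Quotient.out (y : V ⧸ N) : V) : G)⁆ = _
    rw [h3, h4, BiC_left (hNc _ h1), BiC_right (hNc _ h2)]
  have hcl : ∀ a a' b : V ⧸ N, cf (a * a') b = cf a b * cf a' b := by
    intro a a' b
    obtain ⟨x, rfl⟩ := QuotientGroup.mk_surjective a
    obtain ⟨x', rfl⟩ := QuotientGroup.mk_surjective a'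
    obtain ⟨y, rfl⟩ := QuotientGroup.mk_surjective b
    refine Subtype.ext ?_
    have e : ((x : V ⧸ N) * (x' : V ⧸ N)) = ((x * x' : V) : V ⧸ N) := rfl
    show ((cf ((x : V ⧸ N) * (x' : V ⧸ N)) (y : V ⧸ N) : D₀) : G) = (cf (x : V ⧸ N) (y : V ⧸ N) : G) * (cf (x' : V ⧸ N) (y : V ⧸ N) : G)
    rw [e, hcf, hcf, hcf]
    exact BiC_mul_left (hcen x' y)
  have hcr : ∀ a b b' : V ⧸ N, cf a (b * b') = cf a b * cf a b' := by
    intro a b b'
    obtain ⟨x, rfl⟩ := QuotientGroup.mk_surjective a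
    obtain ⟨y, rfl⟩ := QuotientGroup.mk_surjective b
    obtain ⟨y', rfl⟩ := QuotientGroup.mk_surjective b'
    refine Subtype.ext ?_
    have e : ((y : V ⧸ N) * (y' : V ⧸ N)) = ((y * y' : V) : V ⧸ N) := rfl
    show ((cf (x : V ⧸ N) ((y : V ⧸ N) * (y' : V ⧸ N)) : D₀) : G) = (cf (x : V ⧸ N) (y : V ⧸ N) : G) * (cf (x : V ⧸ N) (y' : V ⧸ N) : G)
    rw [e, hcf, hcf, hcf]
    exact BiC_mul_right (hcen x y')
  let c : Additive (V ⧸ N) →+ Additive (V ⧸ N) →+ Additive D₀ :=
    AddMonoidHom.mk' (fun a => AddMonoidHom.mk' (fun b => Additive.ofMul (cf a.toMul b.toMul))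
      (fun b b' => congrArg Additive.ofMul (hcr a.toMul b.toMul b'.toMul)))
      (fun a a' => by
        refine AddMonoidHom.ext fun b => ?_
        exact congrArg Additive.ofMul (hcl a.toMul a'.toMul b.toMul))
  have hNcard : Nat.card N = p ^ z := by
    rw [← hcZ]
    exact Nat.card_congr (Subgroup.subgroupOfEquivOfLe hZV).toEquiv
  have hQcard : Nat.card (V ⧸ N) = p ^ d := by
    have h1 := Subgroup.card_eq_card_quotient_mul_card_subgroup N
    rw [hcV, hNcard, pow_add] at h1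
    exact (Nat.eq_of_mul_eq_mul_right (pow_pos hp.pos z) h1).symm
  refine hasIso_of_addHom hp (Q := Additive (V ⧸ N)) (D := Additive D₀) ?_ ?_ ?_ ?_ c ?_ ?_
  · intro x
    obtain ⟨v, hv⟩ := QuotientGroup.mk_surjective (x.toMul)
    have h1 : (x.toMul) ^ p = 1 := by
      rw [← hv, ← QuotientGroup.mk_pow, QuotientGroup.eq_one_iff]
      exact Subgroup.mem_subgroupOf.2 (hpow v v.2)
    exact congrArg Additive.ofMul h1
  · intro x
    have h1 : (x.toMul) ^ p = 1 := Subtype.ext x.toMul.2.2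
    exact congrArg Additive.ofMul h1
  · exact hQcard
  · rw [← hcZ]
    exact Subgroup.card_le_of_le (fun w hw => hw.1)
  · intro x
    obtain ⟨v, hv⟩ := QuotientGroup.mk_surjective (x.toMul)
    have h1 : cf x.toMul x.toMul = 1 := by
      rw [← hv]
      refine Subtype.ext ?_
      rw [hcf]
      exact commutatorElement_self _
    exact congrArg Additive.ofMul h1
  · intro U hU
    let U' : Subgroup (V ⧸ N) :=
      { carrier := {a | Additive.ofMul a ∈ U}
        one_mem' := U.zero_mem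
        mul_mem' := fun ha hb => U.add_mem ha hb
        inv_mem' := fun ha => U.neg_mem ha }
    have h1 := BiC_card N U'
    have h2 : Nat.card U' = Nat.card U := rfl
    rw [← h2, ← hNcard, ← h1]
    refine hm _ ?_
    rintro x ⟨x', hx', rfl⟩ y ⟨y', hy', rfl⟩
    have hx2 : Additive.ofMul ((x' : V ⧸ N)) ∈ U := hx'
    have hy2 : Additive.ofMul ((y' : V ⧸ N)) ∈ U := hy'
    have h3 := hU _ hx2 _ hy2
    have h4 : cf (x' : V ⧸ N) (y' : V ⧸ N) = 1 := h3
    have h5 := hcf x' y'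
    rw [h4] at h5
    have h6 : ⁅(x' : G), (y' : G)⁆ = 1 := h5.symm
    exact commutatorElement_eq_one_iff_mul_comm.1 h6

end MP828
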