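import Pool.Agent.Lib.MP_828a6d_al.BiDefsB

/-! MP_828a6d_al (stream Bi): direct sums. -/

namespace MP828

/-- A linear map onto the first factor: dimensions of a subspace of a product. -/
private theorem BiD_finrank {p d₁ d₂ : ℕ} [Fact p.Prime]
    (V : Submodule (ZMod p) ((Fin d₁ → ZMod p) × (Fin d₂ → ZMod p))) :
    Module.finrank (ZMod p) V =
      Module.finrank (ZMod p) (V.map (LinearMap.fst (ZMod p) (Fin d₁ → ZMod p) (Fin d₂ → ZMod p))) +
      Module.finrank (ZMod p)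
        (V.comap (LinearMap.inr (ZMod p) (Fin d₁ → ZMod p) (Fin d₂ → ZMod p))) := by
  have h1 := LinearMap.finrank_range_add_finrank_ker
    ((LinearMap.fst (ZMod p) (Fin d₁ → ZMod p) (Fin d₂ → ZMod p)).domRestrict V)
  rw [LinearMap.range_domRestrict] at h1
  rw [← h1]
  congr 1
  refine LinearEquiv.finrank_eq
    { toFun := fun x => ⟨(x.1.1).2, ?_⟩
      invFun := fun y => ⟨⟨((0 : Fin d₁ → ZMod p), (y.1 : Fin d₂ → ZMod p)), ?_⟩, ?_⟩
      map_add' := ?_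
      map_smul' := ?_
      left_inv := ?_
      right_inv := ?_ }
  · rw [Submodule.mem_comap]
    have h2 : (x.1.1).1 = 0 := x.2
    have h3 : LinearMap.inr (ZMod p) (Fin d₁ → ZMod p) (Fin d₂ → ZMod p) (x.1.1).2 = x.1.1 := by
      rw [LinearMap.inr_apply, ← h2]
    rw [h3]
    exact x.1.2
  · intro x y
    rfl
  · intro a x
    rfl
  · exact y.2
  · rfl
  · intro x
    apply Subtype.ext
    apply Subtype.ext
    have h2 : (x.1.1).1 = 0 := x.2
    exact Prod.ext h2.symm rfl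
  · intro y
    rfl

/-- **Direct sums.** Proof: `hasIso_of_addHom` with `Q = F^{d₁} × F^{d₂}`, `D = F^{z₁} × F^{z₂}`,
`c (x₁, x₂) (y₁, y₂) = (β₁ x₁ y₁, β₂ x₂ y₂)`. For an isotropic additive subgroup `U ≤ Q`: `U₁ = pr₁ U` is isotropic for `β₁`
and `U₂ = {x₂ : (0, x₂) ∈ U}` for `β₂`, `|U| = |U₁| |U₂|`; as `F_p`-subspaces (`AddSubgroup.toZModSubmodule`,
`|U_i| = p^{dim U_i}`) `z_i + dim U_i ≤ k_i`. So `p^{z₁ + z₂} |U| ≤ p^{k₁ + k₂}`. The result is
`HasIso p ((d₁ + d₂) + (z₁ + z₂)) (k₁ + k₂)`. -/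
theorem hasIso_add {p n₁ n₂ k₁ k₂ : ℕ} (hp : p.Prime) (h₁ : HasIso p n₁ k₁) (h₂ : HasIso p n₂ k₂) :
    HasIso p (n₁ + n₂) (k₁ + k₂) := by
  have : Fact p.Prime := ⟨hp⟩
  obtain ⟨d₁, z₁, rfl, β₁, ha₁, hi₁⟩ := h₁
  obtain ⟨d₂, z₂, rfl, β₂, ha₂, hi₂⟩ := h₂
  have e : d₁ + z₁ + (d₂ + z₂) = (d₁ + d₂) + (z₁ + z₂) := by omega
  rw [e]
  refine hasIso_of_addHom hp (Q := (Fin d₁ → ZMod p) × (Fin d₂ → ZMod p))
    (D := (Fin z₁ → ZMod p) × (Fin z₂ → ZMod p)) ?_ ?_ ?_ ?_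
    (AddMonoidHom.mk' (fun x => AddMonoidHom.mk' (fun y => (β₁ x.1 y.1, β₂ x.2 y.2)) ?_) ?_) ?_ ?_
  · intro x
    apply Prod.ext
    · funext i
      simp
    · funext i
      simp
  · intro x
    apply Prod.ext
    · funext i
      simp
    · funext i
      simp
  · rw [Nat.card_prod, Nat.card_eq_fintype_card, Nat.card_eq_fintype_card]
    simp [ZMod.card, pow_add]
  · rw [Nat.card_prod, Nat.card_eq_fintype_card, Nat.card_eq_fintype_card]
    simp [ZMod.card, pow_add]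
  · intro y y'
    simp [map_add]
  · intro x x'
    ext y <;> simp [map_add]
  · intro x
    show (β₁ x.1 x.1, β₂ x.2 x.2) = 0
    rw [ha₁, ha₂]
    rfl
  · intro U hU
    have hU' : ∀ u ∈ U, ∀ v ∈ U, β₁ u.1 v.1 = 0 ∧ β₂ u.2 v.2 = 0 := by
      intro u hu v hv
      have h := hU u hu v hv
      have h2 : (β₁ u.1 v.1, β₂ u.2 v.2) = (0 : (Fin z₁ → ZMod p) × (Fin z₂ → ZMod p)) := h
      exact ⟨congrArg Prod.fst h2, congrArg Prod.snd h2⟩
    have hc : Nat.card U = p ^ Module.finrank (ZMod p) (AddSubgroup.toZModSubmodule p U) := by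
      have h3 : Nat.card U = Nat.card (AddSubgroup.toZModSubmodule p U) := rfl
      have hf := Fintype.ofFinite (AddSubgroup.toZModSubmodule p U)
      rw [h3, Nat.card_eq_fintype_card,
        Module.card_eq_pow_finrank (K := ZMod p) (V := AddSubgroup.toZModSubmodule p U), ZMod.card]
    have h1 := hi₁ ((AddSubgroup.toZModSubmodule p U).map
      (LinearMap.fst (ZMod p) (Fin d₁ → ZMod p) (Fin d₂ → ZMod p))) (by
        rintro _ ⟨u, hu, rfl⟩ _ ⟨v, hv, rfl⟩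
        exact (hU' u hu v hv).1)
    have h2 := hi₂ ((AddSubgroup.toZModSubmodule p U).comap
      (LinearMap.inr (ZMod p) (Fin d₁ → ZMod p) (Fin d₂ → ZMod p))) (by
        intro u hu v hv
        exact (hU' _ hu _ hv).2)
    have h3 := BiD_finrank (AddSubgroup.toZModSubmodule p U)
    rw [hc, h3, ← pow_add]
    exact Nat.pow_le_pow_right hp.pos (by omega)

end MP828
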