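import Mathlib

/-! MP_828a6d_al (stream Bi): alternating bilinear maps over `F_p` and their totally isotropic subspaces. -/

namespace MP828

/-- For some `d + z = n` there is an alternating bilinear map `β : F_p^d × F_p^d → F_p^z` all of whose totally isotropic
subspaces `U` satisfy `z + dim U ≤ k`. -/
def HasIso (p n k : ℕ) : Prop :=
  ∃ d z : ℕ, d + z = n ∧
    ∃ β : (Fin d → ZMod p) →ₗ[ZMod p] (Fin d → ZMod p) →ₗ[ZMod p] (Fin z → ZMod p),
      (∀ v, β v v = 0) ∧
      ∀ U : Submodule (ZMod p) (Fin d → ZMod p), (∀ u ∈ U, ∀ v ∈ U, β u v = 0) →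
        z + Module.finrank (ZMod p) U ≤ k

/-- `μ_p(n)`: the least `k` with `HasIso p n k`. -/
noncomputable def mu (p n : ℕ) : ℕ := sInf {k | HasIso p n k}

/-- `HasIso p n n`: `d = n`, `z = 0`, `β = 0`. (`p` prime, so that `finrank` of a submodule of `F_p^n` is at most `n`.) -/
theorem hasIso_self {p : ℕ} (hp : p.Prime) (n : ℕ) : HasIso p n n := by
  have : Fact p.Prime := ⟨hp⟩
  refine ⟨n, 0, by simp, 0, by simp, fun U _ => ?_⟩
  have h := Submodule.finrank_le U
  rw [Module.finrank_fin_fun] at h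
  omega

/-- `HasIso p n (mu p n)` (`Nat.sInf_mem`). -/
theorem hasIso_mu {p : ℕ} (hp : p.Prime) (n : ℕ) : HasIso p n (mu p n) := by
  exact Nat.sInf_mem (s := {k | HasIso p n k}) ⟨n, hasIso_self hp n⟩

theorem mu_le_of {p n k : ℕ} (h : HasIso p n k) : mu p n ≤ k := by
  exact Nat.sInf_le h

end MP828
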