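import Pool.Agent.Lib.MP_828a6d_al.BiEb

/-! MP_828a6d_al (stream Bi): the bound `μ_p(n) ≤ 2 (⌊√(2n)⌋ + 1)`. -/

namespace MP828

/-- `μ_p(n) ≤ 2 (⌊√(2n)⌋ + 1)`. Proof: `t = ⌊√(2n)⌋ + 1`, `t² > 2 n`. If `t ≤ n`: `z = t`, `d = n - t`, `k = t + 1` in
`exists_random` (`2 d ≤ 2 n < t · t = z (k-1)`), isotropic subspaces have dimension `≤ t`. If `t > n` use `hasIso_self`. -/
theorem mu_le_sqrt {p : ℕ} (hp : p.Prime) (n : ℕ) : mu p n ≤ 2 * (Nat.sqrt (2 * n) + 1) := by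
  have hs := Nat.lt_succ_sqrt (2 * n)
  rw [Nat.succ_eq_add_one] at hs
  generalize Nat.sqrt (2 * n) + 1 = t at hs ⊢
  by_cases ht : t ≤ n
  · refine mu_le_of ⟨n - t, t, by omega, ?_⟩
    have h : 2 * (n - t) < t * ((t + 1) - 1) := by
      rw [Nat.add_sub_cancel]
      omega
    obtain ⟨β, h1, h2⟩ := exists_random hp h
    refine ⟨β, h1, fun U hU => ?_⟩
    have := h2 U hU
    omega
  · have h1 := mu_le_of (hasIso_self hp n)
    omega

end MP828
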