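import Pool.Agent.Lib.MP_828a6d_al.BiDefs

/-! MP_828a6d_al (stream Bi): bilinear maps with prescribed values. -/

namespace MP828

/-- For linearly independent `u : Fin k → F^d` the additive map `b ↦ (b(u_i, u_j) - b(u_j, u_i))_{i < j}` from bilinear maps
`F^d × F^d → F^z` to `{(i, j) : i < j} → F^z` is surjective: with functionals `f_i`, `f_i(u_j) = δ_ij` (extend `u` to a basis),
`b(x, y) = ∑_{i<j} f_i(x) f_j(y) c_ij`. -/
theorem surj_pairs {F : Type*} [Field F] {d z k : ℕ} {u : Fin k → (Fin d → F)} (hu : LinearIndependent F u)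
    (c : Fin k → Fin k → (Fin z → F)) :
    ∃ b : (Fin d → F) →ₗ[F] (Fin d → F) →ₗ[F] (Fin z → F),
      ∀ i j, i < j → b (u i) (u j) - b (u j) (u i) = c i j := by
  classical
  obtain ⟨g, hg⟩ := LinearMap.exists_leftInverse_of_injective (Fintype.linearCombination F u)
    (LinearMap.ker_eq_bot.mpr hu.fintypeLinearCombination_injective)
  have hgu : ∀ j, g (u j) = Pi.single j 1 := by
    intro j
    have h1 := LinearMap.congr_fun hg (Pi.single j 1)
    rw [LinearMap.comp_apply, LinearMap.id_apply, Fintype.linearCombination_apply_single,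
      one_smul] at h1
    exact h1
  refine ⟨LinearMap.mk₂ F (fun x y => ∑ i, ∑ j, if i < j then (g x i * g y j) • c i j else 0)
    ?_ ?_ ?_ ?_, ?_⟩
  · intro x x' y
    rw [← Finset.sum_add_distrib]
    refine Finset.sum_congr rfl fun i _ => ?_
    rw [← Finset.sum_add_distrib]
    refine Finset.sum_congr rfl fun j _ => ?_
    split_ifs
    · rw [map_add, Pi.add_apply, add_mul, add_smul]
    · rw [add_zero]
  · intro a x y
    rw [Finset.smul_sum]
    refine Finset.sum_congr rfl fun i _ => ?_
    rw [Finset.smul_sum]
    refine Finset.sum_congr rfl fun j _ => ?_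
    split_ifs
    · rw [map_smul, Pi.smul_apply, smul_eq_mul, mul_assoc, mul_smul]
    · rw [smul_zero]
  · intro x y y'
    rw [← Finset.sum_add_distrib]
    refine Finset.sum_congr rfl fun i _ => ?_
    rw [← Finset.sum_add_distrib]
    refine Finset.sum_congr rfl fun j _ => ?_
    split_ifs
    · rw [map_add, Pi.add_apply, mul_add, add_smul]
    · rw [add_zero]
  · intro a x y
    rw [Finset.smul_sum]
    refine Finset.sum_congr rfl fun i _ => ?_
    rw [Finset.smul_sum]
    refine Finset.sum_congr rfl fun j _ => ?_
    split_ifs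
    · rw [map_smul, Pi.smul_apply, smul_eq_mul, mul_left_comm, mul_smul]
    · rw [smul_zero]
  · have key : ∀ i j, (∑ i', ∑ j', if i' < j' then (g (u i) i' * g (u j) j') • c i' j' else 0)
        = if i < j then c i j else 0 := by
      intro i j
      rw [Finset.sum_eq_single i, Finset.sum_eq_single j]
      · rw [hgu, hgu, Pi.single_eq_same, Pi.single_eq_same, mul_one, one_smul]
      · intro j' _ hj
        rw [hgu j, Pi.single_eq_of_ne hj, mul_zero, zero_smul, ite_self]
      · intro h
        exact absurd (Finset.mem_univ _) h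
      · intro i' _ hi
        refine Finset.sum_eq_zero fun j' _ => ?_
        rw [hgu i, Pi.single_eq_of_ne hi, zero_mul, zero_smul, ite_self]
      · intro h
        exact absurd (Finset.mem_univ _) h
    intro i j hij
    rw [LinearMap.mk₂_apply, LinearMap.mk₂_apply, key, key, if_pos hij, if_neg (not_lt.mpr hij.le),
      sub_zero]

end MP828
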