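import Pool.Agent.Lib.MP_828a6d_al.BiEa

/-! MP_828a6d_al (stream Bi): random bilinear maps. -/

namespace MP828

/-- the map to the differences -/
def BiEb_phi {F : Type*} [Field F] {d z k : ℕ} (u : Fin k → (Fin d → F)) :
    ((Fin d → F) →ₗ[F] (Fin d → F) →ₗ[F] (Fin z → F)) →ₗ[F]
      ((j : Fin k) × Fin (j : ℕ) → (Fin z → F)) where
  toFun b q := b (u ⟨q.2, q.2.2.trans q.1.2⟩) (u q.1) - b (u q.1) (u ⟨q.2, q.2.2.trans q.1.2⟩)
  map_add' b b' := by
    funext q
    simp only [LinearMap.add_apply, Pi.add_apply]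
    abel
  map_smul' c b := by
    funext q
    simp only [LinearMap.smul_apply, Pi.smul_apply, smul_sub, RingHom.id_apply]

theorem BiEb_surj {F : Type*} [Field F] {d z k : ℕ} {u : Fin k → (Fin d → F)}
    (hu : LinearIndependent F u) : Function.Surjective (BiEb_phi (z := z) u) := by
  intro c
  classical
  obtain ⟨b, hb⟩ := surj_pairs hu (z := z) (fun i j => if h : (i : ℕ) < (j : ℕ) then c ⟨j, ⟨i, h⟩⟩ else 0)
  refine ⟨b, ?_⟩
  funext q
  obtain ⟨j, i⟩ := q
  have h1 := hb ⟨i, i.2.trans j.2⟩ j (by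
    rw [Fin.lt_def]
    exact i.2)
  rw [dif_pos i.2] at h1
  exact h1

theorem BiEb_card {F : Type*} [Field F] [Fintype F] {d z k : ℕ} {u : Fin k → (Fin d → F)}
    (hu : LinearIndependent F u) :
    Nat.card (LinearMap.ker (BiEb_phi (z := z) u)) * Nat.card ((j : Fin k) × Fin (j : ℕ) → (Fin z → F)) =
      Nat.card ((Fin d → F) →ₗ[F] (Fin d → F) →ₗ[F] (Fin z → F)) := by
  have h1 := Submodule.card_eq_card_quotient_mul_card (R := F)
    (M := (Fin d → F) →ₗ[F] (Fin d → F) →ₗ[F] (Fin z → F)) (LinearMap.ker (BiEb_phi (z := z) u))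
  have h2 := Nat.card_congr
    (LinearMap.quotKerEquivOfSurjective (R := F) (M := (Fin d → F) →ₗ[F] (Fin d → F) →ₗ[F] (Fin z → F))
      (M₂ := (j : Fin k) × Fin (j : ℕ) → (Fin z → F)) (BiEb_phi (z := z) u) (BiEb_surj hu)).toEquiv
  rw [h1, h2]

theorem BiEb_I (k : ℕ) : Fintype.card ((j : Fin k) × Fin (j : ℕ)) * 2 = k * (k - 1) := by
  rw [Fintype.card_sigma]
  simp only [Fintype.card_fin]
  rw [Fin.sum_univ_eq_sum_range (fun i => i) k]
  exact Finset.sum_range_id_mul_two k

/-- **Counting.** `2 d < z (k - 1)`: some alternating `β : F_p^d × F_p^d → F_p^z` has no isotropic subspace of dimension `k`.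
Proof. Let `𝓑` be the finite additive group of all bilinear maps `b` (`|𝓑| = p^{d² z}`, not needed). For each linearly
independent `u : Fin k → F^d` the subgroup `𝓑_u = {b : b(u_i, u_j) = b(u_j, u_i) for i < j}` is the kernel of a surjective
homomorphism onto `{(i,j) : i < j} → F^z` (`surj_pairs`), a group of order `p^{z k (k-1)/2}`, so
`|𝓑_u| p^{z k (k-1)/2} = |𝓑|`. There are at most `p^{d k}` tuples `u`, and `d k < z k (k-1)/2`, so the union of the `𝓑_u` is not
`𝓑`. For `b` outside, `β(x, y) = b(x, y) - b(y, x)`. A totally isotropic `U` with `dim U ≥ k` contains a linearly independent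
`k`-tuple, contradiction. -/
theorem exists_random {p d z k : ℕ} (hp : p.Prime) (h : 2 * d < z * (k - 1)) :
    ∃ β : (Fin d → ZMod p) →ₗ[ZMod p] (Fin d → ZMod p) →ₗ[ZMod p] (Fin z → ZMod p),
      (∀ v, β v v = 0) ∧
      ∀ U : Submodule (ZMod p) (Fin d → ZMod p), (∀ u ∈ U, ∀ v ∈ U, β u v = 0) →
        Module.finrank (ZMod p) U < k := by
  classical
  have : Fact p.Prime := ⟨hp⟩
  have hk : 2 ≤ k := by
    by_contra hlt
    have : k - 1 = 0 := by omega
    rw [this, mul_zero] at h
    exact absurd h (Nat.not_lt_zero _)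
  -- a bilinear map outside of all kernels
  obtain ⟨b, hb⟩ : ∃ b : (Fin d → ZMod p) →ₗ[ZMod p] (Fin d → ZMod p) →ₗ[ZMod p] (Fin z → ZMod p),
      ∀ u : Fin k → (Fin d → ZMod p), LinearIndependent (ZMod p) u → b ∉ LinearMap.ker (BiEb_phi u) := by
    by_contra hno
    push Not at hno
    have : Finite ((Fin d → ZMod p) →ₗ[ZMod p] (Fin d → ZMod p) →ₗ[ZMod p] (Fin z → ZMod p)) :=
      Module.finite_of_finite (ZMod p)
    have : Fintype ((Fin d → ZMod p) →ₗ[ZMod p] (Fin d → ZMod p) →ₗ[ZMod p] (Fin z → ZMod p)) :=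
      Fintype.ofFinite _
    set B := (Fin d → ZMod p) →ₗ[ZMod p] (Fin d → ZMod p) →ₗ[ZMod p] (Fin z → ZMod p) with hB
    set A : Finset (Fin k → (Fin d → ZMod p)) :=
      Finset.univ.filter (fun u => LinearIndependent (ZMod p) u) with hA
    set w : ℕ := Nat.card ((j : Fin k) × Fin (j : ℕ) → (Fin z → ZMod p)) with hw
    have h1 : (Finset.univ : Finset B) ⊆ A.biUnion (fun u => Finset.univ.filter
        (fun b : B => b ∈ LinearMap.ker (BiEb_phi u))) := by
      intro b _
      obtain ⟨u, hu, hbu⟩ := hno b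
      rw [Finset.mem_biUnion]
      exact ⟨u, Finset.mem_filter.2 ⟨Finset.mem_univ _, hu⟩, Finset.mem_filter.2 ⟨Finset.mem_univ _, hbu⟩⟩
    have h2 : Nat.card B ≤ ∑ u ∈ A, Nat.card (LinearMap.ker (BiEb_phi (d := d) (F := ZMod p) (z := z) u)) := by
      rw [Nat.card_eq_fintype_card, ← Finset.card_univ]
      refine (Finset.card_le_card h1).trans (Finset.card_biUnion_le.trans ?_)
      apply Finset.sum_le_sum
      intro u _
      rw [Nat.card_eq_fintype_card, ← Fintype.card_subtype]
    have h3 : Nat.card B * w ≤ A.card * Nat.card B := by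
      calc Nat.card B * w ≤ (∑ u ∈ A, Nat.card (LinearMap.ker (BiEb_phi (d := d) (F := ZMod p) (z := z) u))) * w :=
            Nat.mul_le_mul_right w h2
        _ = ∑ u ∈ A, Nat.card (LinearMap.ker (BiEb_phi (d := d) (F := ZMod p) (z := z) u)) * w := Finset.sum_mul _ _ _
        _ = ∑ u ∈ A, Nat.card B := by
            apply Finset.sum_congr rfl
            intro u hu
            exact BiEb_card (Finset.mem_filter.1 hu).2
        _ = A.card * Nat.card B := by rw [Finset.sum_const, smul_eq_mul]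
    have hBpos : 0 < Nat.card B := Nat.card_pos
    have h4 : w ≤ A.card := by
      rw [mul_comm (A.card)] at h3
      exact Nat.le_of_mul_le_mul_left h3 hBpos
    have h5 : A.card ≤ p ^ (d * k) := by
      refine (Finset.card_le_univ A).trans ?_
      rw [Fintype.card_fun, Fintype.card_fun, ZMod.card, Fintype.card_fin, Fintype.card_fin, ← pow_mul]
    have h6 : w = p ^ (z * Fintype.card ((j : Fin k) × Fin (j : ℕ))) := by
      rw [hw, Nat.card_eq_fintype_card, Fintype.card_fun, Fintype.card_fun, ZMod.card, Fintype.card_fin,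
        ← pow_mul]
    have h7 : z * Fintype.card ((j : Fin k) × Fin (j : ℕ)) ≤ d * k := by
      rw [h6] at h4
      exact (Nat.pow_le_pow_iff_right hp.one_lt).1 (h4.trans h5)
    have h8 := BiEb_I k
    have h9 : z * (k * (k - 1)) ≤ 2 * (d * k) := by
      rw [← h8]
      calc z * (Fintype.card ((j : Fin k) × Fin (j : ℕ)) * 2) =
            (z * Fintype.card ((j : Fin k) × Fin (j : ℕ))) * 2 := by ring
        _ ≤ (d * k) * 2 := Nat.mul_le_mul_right 2 h7
        _ = 2 * (d * k) := by ring
    have h10 : 2 * d * k < z * (k - 1) * k := Nat.mul_lt_mul_of_pos_right h (by omega)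
    have e1 : z * (k * (k - 1)) = z * (k - 1) * k := by ring
    have e2 : 2 * (d * k) = 2 * d * k := by ring
    omega
  refine ⟨b - b.flip, ?_, ?_⟩
  · intro v
    simp
  · intro U hU
    by_contra hlt
    rw [not_lt] at hlt
    let e := Module.finBasis (ZMod p) U
    let u : Fin k → (Fin d → ZMod p) := fun i => (e (Fin.castLE hlt i) : Fin d → ZMod p)
    have hu : LinearIndependent (ZMod p) u := by
      have h1 : LinearIndependent (ZMod p) (fun i : Fin k => e (Fin.castLE hlt i)) :=
        e.linearIndependent.comp _ (Fin.castLE_injective hlt)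
      exact h1.map' U.subtype (Submodule.ker_subtype U)
    apply hb u hu
    rw [LinearMap.mem_ker]
    funext q
    have h1 := hU (u ⟨q.2, q.2.2.trans q.1.2⟩) (e _).2 (u q.1) (e _).2
    rw [LinearMap.sub_apply, LinearMap.sub_apply, LinearMap.flip_apply] at h1
    exact h1

end MP828
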