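import Pool.Agent.Lib.MP_828a6d_al.ClF
import Pool.Agent.Lib.MP_828a6d_al.BiA
import Pool.Agent.Lib.MP_828a6d_al.BiB
import Pool.Agent.Lib.MP_828a6d_al.BiC
import Pool.Agent.Lib.MP_828a6d_al.BiD
import Pool.Agent.Lib.MP_828a6d_al.BiE

/-! MP_828a6d_al (stream Bi): the comparison of `m_p(n)` and `μ_p(n)`. -/

namespace MP828

open scoped commutatorElement

/-- A `p`-group of order `p^n` with abelian subgroups of order `≤ p^m`: `HasIso p n' m` for some `n' ≤ n` with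
`n ≤ n' + clE m s + m (k + 1)`, if `m ≤ 2^k`.
Proof. `V` from `exists_class_two`. In the group `G₁ = ↥V` (abelian subgroups map to abelian subgroups of `G` of the same order)
let `Z = Subgroup.center G₁`; `⁅x, y⁆ ∈ Z` since `it V V 2 = ⁅⁅V, V⁆, V⁆ = ⊥`. `exists_elem` gives `V₁ ≤ G₁`; `bil_of_group`
for `V₁` with `|Z| = p^z`, `|V₁| = p^{n'}`, `d = n' - z`. -/
theorem hasIso_of_group {G : Type*} [Group G] [Finite G] {p m n s k : ℕ} (hp : p.Prime) (hn : Nat.card G = p ^ n)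
    (hm : ∀ H : Subgroup G, (∀ x ∈ H, ∀ y ∈ H, x * y = y * x) → Nat.card H ≤ p ^ m) (hs : 1 ≤ s)
    (hk : m ≤ 2 ^ k) :
    ∃ n' ≤ n, n ≤ n' + clE m s + m * (k + 1) ∧ HasIso p n' m := by
  have : Fact p.Prime := ⟨hp⟩
  have hG : IsPGroup p G := IsPGroup.of_card hn
  obtain ⟨V, hVc, hV2⟩ := exists_class_two hp hG hm hs
  have hGV : IsPGroup p V := hG.to_subgroup V
  have hmV : ∀ H : Subgroup V, (∀ x ∈ H, ∀ y ∈ H, x * y = y * x) → Nat.card H ≤ p ^ m := by
    intro H hH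
    have h1 := hm (H.map V.subtype) (by
      rintro x ⟨x', hx', rfl⟩ y ⟨y', hy', rfl⟩
      rw [← map_mul, ← map_mul, hH x' hx' y' hy'])
    rwa [Subgroup.card_map_of_injective V.subtype_injective] at h1
  have hab : ∀ x y : V, ⁅x, y⁆ ∈ Subgroup.center V := by
    intro x y
    rw [Subgroup.mem_center_iff]
    intro w
    have h1 : ⁅⁅(x : G), (y : G)⁆, (w : G)⁆ ∈ it V V 2 := by
      rw [it_succ, it_succ, it_zero]
      exact Subgroup.commutator_mem_commutator (Subgroup.commutator_mem_commutator x.2 y.2) w.2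
    rw [hV2, Subgroup.mem_bot, commutatorElement_eq_one_iff_mul_comm] at h1
    exact Subtype.ext h1.symm
  obtain ⟨V₁, hZV, hV₁c, hpow⟩ := exists_elem hp hGV hmV (Z := Subgroup.center V) le_rfl hab hk
  obtain ⟨z, hz⟩ := exists_card_eq_pow hp hGV (Subgroup.center V)
  obtain ⟨n', hn'⟩ := exists_card_eq_pow hp hGV V₁
  have hzn : z ≤ n' := by
    have h1 : Nat.card (Subgroup.center V) ≤ Nat.card V₁ := Subgroup.card_le_of_le hZV
    rw [hz, hn'] at h1
    exact (Nat.pow_le_pow_iff_right hp.one_lt).1 h1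
  have hiso := bil_of_group hp hmV (Z := Subgroup.center V) (V := V₁) (d := n' - z) (z := z) le_rfl hZV
    (fun x _ y _ => hab x y) hpow hz (by rw [hn', Nat.sub_add_cancel hzn])
  rw [Nat.sub_add_cancel hzn] at hiso
  refine ⟨n', ?_, ?_, hiso⟩
  · have h1 : Nat.card V₁ ≤ Nat.card V := Subgroup.card_le_card_group V₁
    have h2 : Nat.card V ≤ Nat.card G := Subgroup.card_le_card_group V
    have h3 := h1.trans h2
    rw [hn', hn] at h3
    exact (Nat.pow_le_pow_iff_right hp.one_lt).1 h3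
  · have h1 : p ^ n ≤ p ^ (clE m s + (m * (k + 1) + n')) := by
      rw [← hn, pow_add, pow_add, ← hn']
      exact hVc.trans (Nat.mul_le_mul_left _ hV₁c)
    have h2 := (Nat.pow_le_pow_iff_right hp.one_lt).1 h1
    omega

/-- `μ_p(n) ≤ m + 2 (⌊√(2 δ)⌋ + 1)` with `m = m_p(n)`, `δ = clE m s + m (k + 1)`.
Proof. `exists_group` (Final.lean), `hasIso_of_group` (`n' ≤ n`), `hasIso_add` with `hasIso_mu` for `n - n' ≤ δ`, `mu_le_sqrt`,
`mu_le_of`. -/
theorem mu_le_mset_add {p s k : ℕ} (hp : p.Prime) (n : ℕ) (hs : 1 ≤ s) (hk : sSup (mset p n) ≤ 2 ^ k) :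
    mu p n ≤ sSup (mset p n) +
      2 * (Nat.sqrt (2 * (clE (sSup (mset p n)) s + sSup (mset p n) * (k + 1))) + 1) := by
  obtain ⟨G, hG, hc, hm⟩ := exists_group (n := n) hp
  have hfin : Finite G := Nat.finite_of_card_ne_zero (by rw [hc]; exact pow_ne_zero _ hp.ne_zero)
  obtain ⟨n', hn', hnn, hiso⟩ := hasIso_of_group hp hc hm hs hk
  have h1 := mu_le_of (hasIso_add hp hiso (hasIso_mu hp (n - n')))
  rw [Nat.add_sub_cancel' hn'] at h1
  have h2 := mu_le_sqrt hp (n - n')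
  have h3 : Nat.sqrt (2 * (n - n')) ≤
      Nat.sqrt (2 * (clE (sSup (mset p n)) s + sSup (mset p n) * (k + 1))) :=
    Nat.sqrt_le_sqrt (by omega)
  omega

end MP828
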