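import Pool.Agent.Lib.MP_828a6d_al.ClG
import Pool.Agent.Lib.MP_828a6d_al.BiF

/-! MP_828a6d_al (stream Bi): `m_p(n) ≤ μ_p(n) ≤ m_p(n) + C n^{7/16}`. -/

namespace MP828

/-- Proof. `m = m_p(n)`. If `n = 0` then `mu p 0 = 0` (`hasIso_self`). Let `n ≥ 1`. `s = qf m`, `k = kf m` (Asym.lean:
`m ≤ m^2 ≤ 2 ^ kf m`, `kf m = 2 (Nat.log 2 m + 1) ≤ 34 m^{1/8}` by `Asym_log` for `m ≥ 1`). `clE m s ≤ 18 m^{7/4}` (`clE_le`),
`m (k + 1) ≤ 35 m^{9/8} ≤ 35 m^{7/4}`; so `δ ≤ 53 m^{7/4}`, and `m ≤ mu p n ≤ 2 (√(2n) + 1) ≤ 5 √n` (`mset_le_mu`,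
`mu_le_sqrt`). Hence `δ ≤ 53 · 5^{7/4} n^{7/8} ≤ 1000 n^{7/8}` and `mu p n ≤ m + 2 (√(2 δ) + 1) ≤ m + 100 n^{7/16}`
(`mu_le_mset_add`). Any explicit constant may be used instead of `100` in the proof; the statement has `∃ C`. -/
theorem mu_le_106 {p : ℕ} (hp : p.Prime) (n : ℕ) :
    (mu p n : ℝ) ≤ ((sSup (mset p n) : ℕ) : ℝ) + 106 * (n : ℝ) ^ (7 / 16 : ℝ) := by
  rcases Nat.eq_zero_or_pos n with hn0 | hn
  · subst hn0
    have h1 : mu p 0 ≤ 0 := mu_le_of (hasIso_self hp 0)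
    have h2 : (mu p 0 : ℝ) = 0 := by exact_mod_cast Nat.le_zero.1 h1
    rw [h2]
    positivity
  obtain ⟨m, hmdef⟩ : ∃ m, m = sSup (mset p n) := ⟨_, rfl⟩
  have hn1 : (1 : ℝ) ≤ n := by exact_mod_cast hn
  have hmmu : m ≤ mu p n := hmdef ▸ mset_le_mu hp n
  have hk : m ≤ 2 ^ kf m := (Nat.le_self_pow (by norm_num) m).trans (le_kf_pow m)
  have hadd := mu_le_mset_add (p := p) (s := qf m) (k := kf m) hp n (one_le_qf m) (hmdef ▸ hk)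
  rw [← hmdef] at hadd ⊢
  set δ : ℕ := clE m (qf m) + m * (kf m + 1) with hδ
  -- the bound for `δ`
  have hm0 : (0 : ℝ) ≤ m := Nat.cast_nonneg _
  have hδle : (δ : ℝ) ≤ 53 * (m : ℝ) ^ (7 / 4 : ℝ) := by
    have h1 := clE_le m
    have h2 : (m : ℝ) * ((kf m : ℝ) + 1) ≤ 35 * (m : ℝ) ^ (7 / 4 : ℝ) := by
      rcases Nat.eq_zero_or_pos m with h0 | hpos
      · rw [h0]
        simp
      · have hm1 : (1 : ℝ) ≤ m := by exact_mod_cast hpos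
        have h3 := Asym_log m hpos
        have h4 : (1 : ℝ) ≤ (m : ℝ) ^ (1 / 8 : ℝ) := Real.one_le_rpow hm1 (by norm_num)
        have h5 : (kf m : ℝ) + 1 ≤ 35 * (m : ℝ) ^ (1 / 8 : ℝ) := by
          unfold kf
          push_cast
          linarith
        calc (m : ℝ) * ((kf m : ℝ) + 1) ≤ m * (35 * (m : ℝ) ^ (1 / 8 : ℝ)) :=
              mul_le_mul_of_nonneg_left h5 hm0
          _ = 35 * ((m : ℝ) ^ (1 : ℝ) * (m : ℝ) ^ (1 / 8 : ℝ)) := by rw [Real.rpow_one]; ring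
          _ = 35 * (m : ℝ) ^ (9 / 8 : ℝ) := by
            rw [← Real.rpow_add (by linarith)]
            norm_num
          _ ≤ 35 * (m : ℝ) ^ (7 / 4 : ℝ) :=
            mul_le_mul_of_nonneg_left (Real.rpow_le_rpow_of_exponent_le hm1 (by norm_num)) (by norm_num)
    rw [hδ]
    push_cast
    linarith
  -- the bound for `m`
  have hm5 : (m : ℝ) ≤ 5 * (n : ℝ) ^ (1 / 2 : ℝ) := by
    have h1 : (m : ℝ) ≤ 2 * ((Nat.sqrt (2 * n) : ℝ) + 1) := by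
      exact_mod_cast hmmu.trans (mu_le_sqrt hp n)
    have h2 : (Nat.sqrt (2 * n) : ℝ) ≤ Real.sqrt (2 * n) := by
      have := Real.nat_sqrt_le_real_sqrt (a := 2 * n)
      push_cast at this
      exact this
    have h3 : Real.sqrt (2 * n) ≤ 3 / 2 * Real.sqrt n := by
      rw [Real.sqrt_le_left (by positivity), mul_pow, Real.sq_sqrt (by positivity)]
      nlinarith
    have h4 : 1 ≤ Real.sqrt n := Real.one_le_sqrt.2 hn1
    rw [← Real.sqrt_eq_rpow]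
    linarith
  have hm74 : (m : ℝ) ^ (7 / 4 : ℝ) ≤ 25 * (n : ℝ) ^ (7 / 8 : ℝ) := by
    calc (m : ℝ) ^ (7 / 4 : ℝ) ≤ (5 * (n : ℝ) ^ (1 / 2 : ℝ)) ^ (7 / 4 : ℝ) :=
          Real.rpow_le_rpow hm0 hm5 (by norm_num)
      _ = (5 : ℝ) ^ (7 / 4 : ℝ) * (n : ℝ) ^ (7 / 8 : ℝ) := by
        rw [Real.mul_rpow (by norm_num) (by positivity), ← Real.rpow_mul (by positivity)]
        norm_num
      _ ≤ 25 * (n : ℝ) ^ (7 / 8 : ℝ) := by
        refine mul_le_mul_of_nonneg_right ?_ (by positivity)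
        calc (5 : ℝ) ^ (7 / 4 : ℝ) ≤ (5 : ℝ) ^ (2 : ℝ) :=
              Real.rpow_le_rpow_of_exponent_le (by norm_num) (by norm_num)
          _ = 25 := by norm_num
  have hsq : (Nat.sqrt (2 * δ) : ℝ) ≤ 52 * (n : ℝ) ^ (7 / 16 : ℝ) := by
    have h1 : (Nat.sqrt (2 * δ) : ℝ) ≤ Real.sqrt (2 * δ) := by
      have := Real.nat_sqrt_le_real_sqrt (a := 2 * δ)
      push_cast at this
      exact this
    refine h1.trans ((Real.sqrt_le_left (by positivity)).2 ?_)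
    have h2 : (52 * (n : ℝ) ^ (7 / 16 : ℝ)) ^ 2 = 2704 * (n : ℝ) ^ (7 / 8 : ℝ) := by
      rw [mul_pow, ← Real.rpow_natCast ((n : ℝ) ^ (7 / 16 : ℝ)) 2, ← Real.rpow_mul (by positivity)]
      norm_num
    rw [h2]
    have h3 : (0 : ℝ) ≤ (n : ℝ) ^ (7 / 8 : ℝ) := by positivity
    linarith
  have hone : (1 : ℝ) ≤ (n : ℝ) ^ (7 / 16 : ℝ) := Real.one_le_rpow hn1 (by norm_num)
  have hfin : (mu p n : ℝ) ≤ m + 2 * ((Nat.sqrt (2 * δ) : ℝ) + 1) := by exact_mod_cast hadd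
  linarith

theorem mu_le_real : ∃ C : ℝ, ∀ p : ℕ, p.Prime → ∀ n : ℕ,
    (mu p n : ℝ) ≤ ((sSup (mset p n) : ℕ) : ℝ) + C * (n : ℝ) ^ (7 / 16 : ℝ) :=
  ⟨106, fun _ hp n => mu_le_106 hp n⟩

end MP828
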