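import Pool.Agent.Lib.MP_828a6d_al.Defs

/-! MP_828a6d_al (stream Cl): iterated commutators `it K H k = [K, H, …, H]` (`k` times `H`); `it H H k` is the `(k+1)`-st term
of the lower central series of `H`, computed inside `G`. -/

namespace MP828

open scoped commutatorElement

variable {G : Type*} [Group G]

/-- `it K H k = [K, H, …, H]`, `k` times `H`. In particular `it H H k = γ_{k+1}(H)` as a subgroup of `G`. -/
def it (K H : Subgroup G) : ℕ → Subgroup G
  | 0 => K
  | k + 1 => ⁅it K H k, H⁆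

@[simp] theorem it_zero (K H : Subgroup G) : it K H 0 = K := rfl

theorem it_succ (K H : Subgroup G) (k : ℕ) : it K H (k + 1) = ⁅it K H k, H⁆ := rfl

/-- Monotone in both arguments (`Subgroup.commutator_mono`). -/
theorem it_mono {K K' H H' : Subgroup G} (hK : K ≤ K') (hH : H ≤ H') (k : ℕ) : it K H k ≤ it K' H' k := by
  induction k with
  | zero => exact hK
  | succ k ih => exact Subgroup.commutator_mono ih hH

/-- `[[K, H, …(i)], H, …(j)] = [K, H, …(i + j)]`. -/
theorem it_it (K H : Subgroup G) (i j : ℕ) : it (it K H i) H j = it K H (i + j) := by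
  induction j with
  | zero => rfl
  | succ j ih => rw [it_succ, ih, ← Nat.add_assoc, it_succ]

theorem it_comm (K H : Subgroup G) (j : ℕ) : it ⁅K, H⁆ H j = it K H (j + 1) := by
  have h := it_it K H 1 j
  rw [Nat.add_comm 1 j] at h
  exact h

/-- All `it K H k` are normal when `K` and `H` are (`Subgroup.commutator_normal`). -/
instance it_normal (K H : Subgroup G) [K.Normal] [H.Normal] (k : ℕ) : (it K H k).Normal := by
  induction k with
  | zero => assumption
  | succ k ih =>
    rw [it_succ]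
    exact Subgroup.commutator_normal _ _

/-- Images under homomorphisms (`Subgroup.map_commutator`). -/
theorem it_map {G' : Type*} [Group G'] (f : G →* G') (K H : Subgroup G) (k : ℕ) :
    (it K H k).map f = it (K.map f) (H.map f) k := by
  induction k with
  | zero => rfl
  | succ k ih => rw [it_succ, it_succ, Subgroup.map_commutator, ih]

/-- `it H H (k+1) ≤ it H H k ≤ H` for every subgroup `H`.
Proof: `it H H k ≤ H` by induction (`⁅A, H⁆ ≤ H` for `A ≤ H`: `Subgroup.commutator_le`), and `it H H (k+1) ≤ it H H k` by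
induction with `Subgroup.commutator_mono` (`it H H 1 = ⁅H, H⁆ ≤ H`). -/
theorem it_self_antitone (H : Subgroup G) {j k : ℕ} (hjk : j ≤ k) : it H H k ≤ it H H j := by
  have h : ∀ k, it H H (k + 1) ≤ it H H k := by
    intro k
    induction k with
    | zero =>
      change ⁅H, H⁆ ≤ H
      rw [Subgroup.commutator_le]
      intro x hx y hy
      rw [commutatorElement_def]
      exact H.mul_mem (H.mul_mem (H.mul_mem hx hy) (H.inv_mem hx)) (H.inv_mem hy)
    | succ k ih => exact Subgroup.commutator_mono ih le_rfl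
  exact antitone_nat_of_succ_le h hjk

/-- **Three subgroups lemma** modulo a normal subgroup `L`.
Proof: apply `Subgroup.commutator_commutator_eq_bot_of_rotate` to the images in `G ⧸ L` (`Subgroup.map_commutator`;
`X ≤ L ↔ X.map (QuotientGroup.mk' L) = ⊥`, `Subgroup.map_eq_bot_iff`, `QuotientGroup.ker_mk'`). -/
theorem three_subgroups {A B C L : Subgroup G} [L.Normal] (h1 : ⁅⁅B, C⁆, A⁆ ≤ L) (h2 : ⁅⁅C, A⁆, B⁆ ≤ L) :
    ⁅⁅A, B⁆, C⁆ ≤ L := by
  have key : ∀ X : Subgroup G, X ≤ L ↔ X.map (QuotientGroup.mk' L) = ⊥ := by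
    intro X
    rw [Subgroup.map_eq_bot_iff, QuotientGroup.ker_mk']
  rw [key, Subgroup.map_commutator, Subgroup.map_commutator] at h1 h2 ⊢
  exact Subgroup.commutator_commutator_eq_bot_of_rotate h1 h2

/-- **Lemma A.** `[γ_{k+1}(H), K] ≤ [K, H, …, H]` (`k + 1` times `H`) for normal `H`, `K`.
Proof by induction on `k` for all normal `K`: `k = 0`: `⁅H, K⁆ = ⁅K, H⁆` (`Subgroup.commutator_comm`). Step:
`it H H (k+1) = ⁅it H H k, H⁆`; by `three_subgroups` (`A = it H H k`, `B = H`, `C = K`, `L = it K H (k+2)`) it is enough that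
`⁅⁅H, K⁆, it H H k⁆ ≤ L` and `⁅⁅K, it H H k⁆, H⁆ ≤ L`. The first is `⁅it H H k, ⁅K, H⁆⁆ ≤ it ⁅K, H⁆ H (k+1) = it K H (k+2)`
(induction hypothesis for the normal subgroup `⁅K, H⁆`, `it_comm`), the second is `≤ ⁅it K H (k+1), H⁆`. -/
theorem comm_it_le (H : Subgroup G) [H.Normal] (k : ℕ) (K : Subgroup G) [K.Normal] :
    ⁅it H H k, K⁆ ≤ it K H (k + 1) := by
  induction k generalizing K with
  | zero =>
    change ⁅H, K⁆ ≤ ⁅K, H⁆
    rw [Subgroup.commutator_comm]
  | succ k ih =>
    rw [it_succ]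
    apply three_subgroups
    · rw [Subgroup.commutator_comm, Subgroup.commutator_comm H K]
      have h := ih ⁅K, H⁆
      rw [it_comm] at h
      exact h
    · rw [Subgroup.commutator_comm K]
      exact Subgroup.commutator_mono (ih K) le_rfl

/-- `[γ_{i+1}, γ_{j+1}] ≤ γ_{i+j+2}` for the lower central series of `G`: `comm_it_le` with `H = ⊤`, `K = it ⊤ ⊤ j`, `it_it`. -/
theorem comm_gamma (i j : ℕ) :
    ⁅it (⊤ : Subgroup G) ⊤ i, it (⊤ : Subgroup G) ⊤ j⁆ ≤ it (⊤ : Subgroup G) ⊤ (i + j + 1) := by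
  have h := comm_it_le (⊤ : Subgroup G) i (it (⊤ : Subgroup G) ⊤ j)
  rw [it_it] at h
  have e : j + (i + 1) = i + j + 1 := by omega
  rw [e] at h
  exact h

/-- `γ_{k+1}(G)` is abelian if `G` has class `≤ k + 2` and `k ≥ 1` (`2 k + 1 ≥ k + 2`). -/
theorem gamma_abelian {k : ℕ} (hk : 1 ≤ k) (hc : it (⊤ : Subgroup G) ⊤ (k + 2) = ⊥) :
    ∀ x ∈ it (⊤ : Subgroup G) ⊤ k, ∀ y ∈ it (⊤ : Subgroup G) ⊤ k, x * y = y * x := by
  intro x hx y hy
  have h1 := comm_gamma (G := G) k k
  have h2 : it (⊤ : Subgroup G) ⊤ (k + k + 1) ≤ it (⊤ : Subgroup G) ⊤ (k + 2) :=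
    it_self_antitone _ (by omega)
  have h3 : ⁅x, y⁆ ∈ (⊥ : Subgroup G) := by
    rw [← hc]
    exact h2 (h1 (Subgroup.commutator_mem_commutator hx hy))
  rw [Subgroup.mem_bot, commutatorElement_eq_one_iff_mul_comm] at h3
  exact h3

end MP828
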