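import Pool.Agent.Lib.MP_828a6d_al.ClA

/-! MP_828a6d_al (stream Cl): `[γ_{k+1}(H), G] ≤ N₀` for `H = {g : [g, γ_{k+1}(G)] ≤ N₀}`. -/

namespace MP828

open scoped commutatorElement

variable {G : Type*} [Group G]

/-- **Lemma A, applied.** `E = γ_{k+1}(G) = it ⊤ ⊤ k`, `N₀` normal, `H = rl E N₀ = {g | ∀ x ∈ E, ⁅g, x⁆ ∈ N₀}` (normal, by
`rl_normal`). Then `⁅x, g⁆ ∈ N₀` for `x ∈ γ_{k+1}(H)`, `g ∈ G`.
Proof. `⁅it H H k, ⊤⁆ ≤ it ⊤ H (k+1) = ⁅it ⊤ H k, H⁆ ≤ ⁅it ⊤ ⊤ k, H⁆ ≤ N₀` (`comm_it_le`, `it_mono`,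
`Subgroup.commutator_le`, `rl_comm'`). -/
theorem rl_gamma {k : ℕ} {N₀ : Subgroup G} [N₀.Normal] {x g : G}
    (hx : x ∈ it (rl (it (⊤ : Subgroup G) ⊤ k) N₀) (rl (it (⊤ : Subgroup G) ⊤ k) N₀) k) :
    ⁅x, g⁆ ∈ N₀ := by
  have h1 : ⁅x, g⁆ ∈ ⁅it (rl (it (⊤ : Subgroup G) ⊤ k) N₀) (rl (it (⊤ : Subgroup G) ⊤ k) N₀) k,
      (⊤ : Subgroup G)⁆ := Subgroup.commutator_mem_commutator hx (Subgroup.mem_top g)
  have h2 := comm_it_le (rl (it (⊤ : Subgroup G) ⊤ k) N₀) k (⊤ : Subgroup G) h1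
  rw [it_succ] at h2
  refine (Subgroup.commutator_le.2 ?_) h2
  intro a ha b hb
  exact rl_comm' hb (it_mono le_rfl le_top k ha)

theorem ClB_mem {k : ℕ} {g x : G} (hx : x ∈ it (⊤ : Subgroup G) ⊤ k) :
    ⁅g, x⁆ ∈ it (⊤ : Subgroup G) ⊤ (k + 1) := by
  rw [it_succ, Subgroup.commutator_comm]
  exact Subgroup.commutator_mem_commutator (Subgroup.mem_top g) hx

theorem ClB_central {k : ℕ} (hc : it (⊤ : Subgroup G) ⊤ (k + 2) = ⊥) {y : G}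
    (hy : y ∈ it (⊤ : Subgroup G) ⊤ (k + 1)) : y ∈ Subgroup.center G := by
  rw [Subgroup.mem_center_iff]
  intro g
  have h1 : ⁅g, y⁆ ∈ it (⊤ : Subgroup G) ⊤ (k + 1 + 1) := ClB_mem hy
  rw [hc, Subgroup.mem_bot, commutatorElement_eq_one_iff_mul_comm] at h1
  exact h1

/-- In a group with `γ_{k+3} = 1` (`it ⊤ ⊤ (k+2) = ⊥`) the commutators `⁅g, x⁆`, `x ∈ E = γ_{k+1}`, are central.
(`⁅g, x⁆ ∈ it ⊤ ⊤ (k+1)`, and `⁅it ⊤ ⊤ (k+1), ⊤⁆ = ⊥`.) -/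
theorem comm_E_central {k : ℕ} (hc : it (⊤ : Subgroup G) ⊤ (k + 2) = ⊥) {g x : G}
    (hx : x ∈ it (⊤ : Subgroup G) ⊤ k) : ⁅g, x⁆ ∈ Subgroup.center G := by
  exact ClB_central hc (ClB_mem hx)

/-- Every subgroup `N₀ ≤ γ_{k+2}(G) = it ⊤ ⊤ (k+1)` is normal when `γ_{k+3} = 1` (it is central). -/
theorem normal_of_le_gamma {k : ℕ} (hc : it (⊤ : Subgroup G) ⊤ (k + 2) = ⊥) {N₀ : Subgroup G}
    (h : N₀ ≤ it (⊤ : Subgroup G) ⊤ (k + 1)) : N₀.Normal := by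
  refine ⟨fun n hn g => ?_⟩
  have h1 := Subgroup.mem_center_iff.1 (ClB_central hc (h hn)) g
  rw [h1, mul_inv_cancel_right]
  exact hn

/-- **The pairing** of a character `ψ : E → ℂˣ`, `E = γ_{k+1}(G)`: `g ↦ (x ↦ ψ ⁅g, x⁆)` is a homomorphism
`G →* (E →* ℂˣ)`, when `γ_{k+3} = 1`. (`⁅g h, x⁆ = ⁅g, x⁆ ⁅h, x⁆` and `⁅g, x y⁆ = ⁅g, x⁆ ⁅g, y⁆` because the commutators
with elements of `E` are central; `⁅g, x⁆ ∈ it ⊤ ⊤ (k+1) ≤ E`.) Stated as an existence. -/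
theorem cl_pairing {k : ℕ} (hc : it (⊤ : Subgroup G) ⊤ (k + 2) = ⊥)
    (ψ : (it (⊤ : Subgroup G) ⊤ k : Subgroup G) →* ℂˣ) :
    ∃ β : G →* ((it (⊤ : Subgroup G) ⊤ k : Subgroup G) →* ℂˣ),
      ∀ (g : G) (x : (it (⊤ : Subgroup G) ⊤ k : Subgroup G)) (h : ⁅g, (x : G)⁆ ∈ it (⊤ : Subgroup G) ⊤ k),
        β g x = ψ ⟨⁅g, (x : G)⁆, h⟩ := by
  have hm : ∀ (g : G) (x : (it (⊤ : Subgroup G) ⊤ k : Subgroup G)),
      ⁅g, (x : G)⁆ ∈ it (⊤ : Subgroup G) ⊤ k :=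
    fun g x => it_self_antitone ⊤ (Nat.le_succ k) (ClB_mem x.2)
  have hcen : ∀ (g : G) (x : (it (⊤ : Subgroup G) ⊤ k : Subgroup G)) (h : G),
      h * ⁅g, (x : G)⁆ = ⁅g, (x : G)⁆ * h :=
    fun g x h => Subgroup.mem_center_iff.1 (comm_E_central hc x.2) h
  let φ : G → ((it (⊤ : Subgroup G) ⊤ k : Subgroup G) →* ℂˣ) := fun g =>
    MonoidHom.mk' (fun x => ψ ⟨⁅g, (x : G)⁆, hm g x⟩) (by
      intro x y
      rw [← map_mul]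
      congr 1
      apply Subtype.ext
      show ⁅g, (x : G) * (y : G)⁆ = ⁅g, (x : G)⁆ * ⁅g, (y : G)⁆
      have e : ⁅g, (x : G) * (y : G)⁆ = ⁅g, (x : G)⁆ * ((x : G) * ⁅g, (y : G)⁆ * (x : G)⁻¹) := by
        simp only [commutatorElement_def]; group
      rw [e, hcen g y, mul_inv_cancel_right])
  refine ⟨MonoidHom.mk' φ ?_, fun g x h => rfl⟩
  intro g h
  refine MonoidHom.ext fun x => ?_
  show ψ ⟨⁅g * h, (x : G)⁆, hm (g * h) x⟩ =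
    ψ ⟨⁅g, (x : G)⁆, hm g x⟩ * ψ ⟨⁅h, (x : G)⁆, hm h x⟩
  rw [← map_mul]
  congr 1
  apply Subtype.ext
  show ⁅g * h, (x : G)⁆ = ⁅g, (x : G)⁆ * ⁅h, (x : G)⁆
  have e : ⁅g * h, (x : G)⁆ = (g * ⁅h, (x : G)⁆ * g⁻¹) * ⁅g, (x : G)⁆ := by
    simp only [commutatorElement_def]; group
  rw [e, hcen h x, mul_inv_cancel_right, hcen g x]

end MP828
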