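import Pool.Agent.Lib.MP_828a6d_al.Defs

/-! MP_828a6d_al: elementary counting in finite groups. -/

namespace MP828

open scoped commutatorElement

variable {G : Type*} [Group G]

/-- Fibre count. Proof: partition `S` into the fibres of `f`; a nonempty fibre `{g ∈ S : f g = t}` with a
member `h` is contained in `h • (S ⊓ K)` (as `h⁻¹ g ∈ S` and `∈ K`), so has at most `|S ⊓ K|` elements.
(E.g. `Set.ncard_le_mul_..`/`Finset.card_le_mul_card_image` with `S.toFinset`, or an injection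
`S → T × (S ⊓ K)`, `g ↦ (f g, h(f g)⁻¹ g)` with `h(t)` a chosen member of the fibre.) -/
theorem card_le_of_fibers [Finite G] {β : Type*} (S K : Subgroup G) (f : G → β) (T : Set β)
    (hT : T.Finite) (hmap : ∀ g ∈ S, f g ∈ T)
    (hf : ∀ g ∈ S, ∀ h ∈ S, f g = f h → h⁻¹ * g ∈ K) :
    Nat.card S ≤ T.ncard * Nat.card (S ⊓ K : Subgroup G) := by
  classical
  have : Finite T := hT.to_subtype
  -- a chosen member of each nonempty fibre
  have hch : ∀ t : β, ∃ h : G, (∃ g ∈ S, f g = t) → h ∈ S ∧ f h = t := by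
    intro t
    by_cases ht : ∃ g ∈ S, f g = t
    · obtain ⟨g, hg, hgt⟩ := ht
      exact ⟨g, fun _ => ⟨hg, hgt⟩⟩
    · exact ⟨1, fun h => absurd h ht⟩
  choose h hh using hch
  have hh' : ∀ g ∈ S, h (f g) ∈ S ∧ f (h (f g)) = f g := fun g hg => hh (f g) ⟨g, hg, rfl⟩
  let Φ : S → T × (S ⊓ K : Subgroup G) := fun g =>
    (⟨f g.1, hmap g.1 g.2⟩, ⟨(h (f g.1))⁻¹ * g.1,
      S.mul_mem (S.inv_mem (hh' g.1 g.2).1) g.2,
      hf g.1 g.2 (h (f g.1)) (hh' g.1 g.2).1 (hh' g.1 g.2).2.symm⟩)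
  have hΦ : Function.Injective Φ := by
    intro g g' hgg
    have h1 : f g.1 = f g'.1 := congrArg (fun x => (x.1 : β)) hgg
    have h2 : (h (f g.1))⁻¹ * g.1 = (h (f g'.1))⁻¹ * g'.1 := congrArg (fun x => (x.2 : G)) hgg
    rw [h1] at h2
    exact Subtype.ext (mul_left_cancel h2)
  have h3 := Nat.card_le_card_of_injective Φ hΦ
  rwa [Nat.card_prod, Nat.card_coe_set_eq] at h3

theorem Count_card_mul [Finite G] (S K : Subgroup G) :
    Nat.card (S ⊓ K : Subgroup G) * K.relIndex S = Nat.card S := by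
  have h1 := Subgroup.card_mul_index (K.subgroupOf S)
  rw [← Subgroup.inf_subgroupOf_left K S,
    Nat.card_congr (Subgroup.subgroupOfEquivOfLe (inf_le_left : S ⊓ K ≤ S)).toEquiv] at h1
  rw [← h1, Subgroup.relIndex, Subgroup.inf_subgroupOf_left]

/-- Monotonicity of the index: if `|S| ≤ a |S ∩ K|` and `S' ≤ S` then `|S'| ≤ a |S' ∩ K|`.
Proof: `|S : S ∩ K| = K.relIndex S` and `K.relIndex S' ≤ K.relIndex S` (Mathlib
`Subgroup.relIndex_le_of_le_right` or similar), `Subgroup.relIndex_mul_card`/`card_mul_index`.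
Or apply `card_le_of_fibers`-type injection `S' / (S' ⊓ K) → S / (S ⊓ K)`. -/
theorem card_inf_le [Finite G] {S' S K : Subgroup G} (h : S' ≤ S) {a : ℕ}
    (hc : Nat.card S ≤ a * Nat.card (S ⊓ K : Subgroup G)) :
    Nat.card S' ≤ a * Nat.card (S' ⊓ K : Subgroup G) := by
  have h1 := Count_card_mul S K
  have h2 := Count_card_mul S' K
  have h0 : 0 < Nat.card (S ⊓ K : Subgroup G) := Nat.card_pos
  have h3 : K.relIndex S ≤ a := by
    by_contra hlt
    push Not at hlt
    have := Nat.mul_lt_mul_of_pos_left hlt h0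
    rw [h1, mul_comm _ a] at this
    omega
  have h4 : K.relIndex S' ≤ K.relIndex S := by
    refine Subgroup.relIndex_le_of_le_right h ?_
    exact Subgroup.index_ne_zero_of_finite
  calc Nat.card S' = Nat.card (S' ⊓ K : Subgroup G) * K.relIndex S' := h2.symm
    _ ≤ Nat.card (S' ⊓ K : Subgroup G) * a := Nat.mul_le_mul_left _ (h4.trans h3)
    _ = _ := mul_comm _ _

theorem card_inf_inf [Finite G] {S H K : Subgroup G} {a b : ℕ}
    (h1 : Nat.card S ≤ a * Nat.card (S ⊓ H : Subgroup G))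
    (h2 : Nat.card S ≤ b * Nat.card (S ⊓ K : Subgroup G)) :
    Nat.card S ≤ a * b * Nat.card (S ⊓ H ⊓ K : Subgroup G) := by
  have h3 := card_inf_le (S' := S ⊓ H) inf_le_left h2
  calc Nat.card S ≤ a * Nat.card (S ⊓ H : Subgroup G) := h1
    _ ≤ a * (b * Nat.card (S ⊓ H ⊓ K : Subgroup G)) := Nat.mul_le_mul_left _ h3
    _ = _ := by ring

/-- Finite iteration of `card_inf_inf` (induction on `j`, with `Fin.cons`/`Fin.init`, or prove it for a
`Finset` of indices). -/
theorem card_iInf [Finite G] {S : Subgroup G} {a j : ℕ} (K : Fin j → Subgroup G)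
    (h : ∀ i, Nat.card S ≤ a * Nat.card (S ⊓ K i : Subgroup G)) :
    Nat.card S ≤ a ^ j * Nat.card (S ⊓ ⨅ i, K i : Subgroup G) := by
  induction j with
  | zero => simp
  | succ j ih =>
    have h1 := ih (fun i => K i.succ) (fun i => h i.succ)
    have h2 := card_inf_inf (h 0) h1
    have e : S ⊓ ⨅ i, K i = S ⊓ K 0 ⊓ ⨅ i : Fin j, K i.succ := by
      ext g
      simp only [Subgroup.mem_inf, Subgroup.mem_iInf, Fin.forall_fin_succ, and_assoc]
    rw [e, pow_succ, mul_comm (a ^ j) a]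
    exact h2

end MP828
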