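import Pool.Agent.Lib.MP_828a6d_al.Defs

/-! MP_828a6d_al: characters of a finite abelian subgroup. -/

namespace MP828

variable {G : Type*} [Group G]

/-- the commutative group structure -/
@[reducible] def Dual_cg {A : Subgroup G} (hab : ∀ x ∈ A, ∀ y ∈ A, x * y = y * x) : CommGroup A :=
  { (inferInstance : Group A) with
    mul_comm := fun a b => Subtype.ext (hab a a.2 b b.2) }

/-- Characters separate: `A` finite abelian, `D, T ≤ A`, `¬ T ≤ D` ⇒ some `ψ : A →* ℂˣ` is trivial on `D`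
and nontrivial on `T`. Proof: make `A` a `CommGroup` (from `hab`), `D' = D.subgroupOf A`; pick `x ∈ T \ D`;
its class in `A ⧸ D'` is `≠ 1`; Mathlib `CommGroup.exists_apply_ne_one_of_hasEnoughRootsOfUnity`
(for `A ⧸ D'` and `ℂ`, exponent) gives a character of `A ⧸ D'`, compose with `QuotientGroup.mk'`. -/
theorem exists_char [Finite G] {A D T : Subgroup G} (hab : ∀ x ∈ A, ∀ y ∈ A, x * y = y * x)
    (hD : D ≤ A) (hT : T ≤ A) (hTD : ¬ T ≤ D) :
    ∃ ψ : A →* ℂˣ, (∀ x : A, (x : G) ∈ D → ψ x = 1) ∧ ∃ x : A, (x : G) ∈ T ∧ ψ x ≠ 1 := by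
  letI : CommGroup A := Dual_cg hab
  obtain ⟨x, hxT, hxD⟩ := Set.not_subset.1 hTD
  have h1 : (⟨x, hT hxT⟩ : A) ∉ D.subgroupOf A := by
    rw [Subgroup.mem_subgroupOf]
    exact hxD
  have h2 := (CommGroup.forall_monoidHom_apply_eq_one_iff ℂ (D.subgroupOf A) ⟨x, hT hxT⟩)
  rw [← not_iff_not] at h2
  have h3 := h2.2 h1
  push Not at h3
  obtain ⟨φ, hφ, hx⟩ := h3
  refine ⟨φ, ?_, ⟨x, hT hxT⟩, hxT, hx⟩
  intro y hy
  exact hφ y (by rw [Subgroup.mem_subgroupOf]; exact hy)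

/-- The character group of a finite abelian group is finite, of the same order (Mathlib
`CommGroup.monoidHom_mulEquiv_of_hasEnoughRootsOfUnity` or `card_monoidHom_of_hasEnoughRootsOfUnity`). -/
theorem card_char [Finite G] {A : Subgroup G} (hab : ∀ x ∈ A, ∀ y ∈ A, x * y = y * x) :
    Finite (A →* ℂˣ) ∧ Nat.card (A →* ℂˣ) = Nat.card A := by
  letI : CommGroup A := Dual_cg hab
  have h := CommGroup.card_monoidHom_of_hasEnoughRootsOfUnity A ℂ
  have h0 : Nat.card A ≠ 0 := Nat.card_pos.ne'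
  constructor
  · exact Nat.finite_of_card_ne_zero (by rw [h]; exact h0)
  · exact h

end MP828
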