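import Pool.Agent.Lib.MP_828a6d_al.Count

/-! MP_828a6d_al: generators relative to a subgroup, and the basic centralizer count. -/

namespace MP828

open scoped commutatorElement
variable {G : Type*} [Group G]

theorem exists_gens [Finite G] {p : ℕ} (hp : p.Prime) (hG : IsPGroup p G) {V W : Subgroup G}
    (hVW : V ≤ W) {r : ℕ} (hc : Nat.card W ≤ p ^ r * Nat.card V) :
    ∃ x : Fin r → G, (∀ i, x i ∈ W) ∧ V ⊔ Subgroup.closure (Set.range x) = W := by
  haveI := Fact.mk hp
  induction r generalizing V with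
  | zero =>
    have : V = W := Subgroup.eq_of_le_of_card_ge hVW (by simpa using hc)
    exact ⟨Fin.elim0, fun i => i.elim0, by rw [Set.range_eq_empty]; simp [this]⟩
  | succ r ih =>
    by_cases hW : W ≤ V
    · have : V = W := le_antisymm hVW hW
      refine ⟨fun _ => 1, fun _ => W.one_mem, ?_⟩
      subst this
      rw [sup_eq_left, Subgroup.closure_le]
      rintro _ ⟨i, rfl⟩
      exact V.one_mem
    · obtain ⟨y, hyW, hyV⟩ := SetLike.not_le_iff_exists.1 hW
      have h1 : V ≤ V ⊔ Subgroup.zpowers y := le_sup_left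
      have h2 : V ⊔ Subgroup.zpowers y ≤ W := sup_le hVW (by rwa [Subgroup.zpowers_le])
      have hy' : y ∈ V ⊔ Subgroup.zpowers y :=
        (le_sup_right : Subgroup.zpowers y ≤ V ⊔ Subgroup.zpowers y) (Subgroup.mem_zpowers y)
      have hne : Nat.card V < Nat.card (V ⊔ Subgroup.zpowers y : Subgroup G) := by
        by_contra hcon
        push Not at hcon
        have := Subgroup.eq_of_le_of_card_ge h1 hcon
        rw [← this] at hy'
        exact hyV hy'
      have h3 : p * Nat.card V ≤ Nat.card (V ⊔ Subgroup.zpowers y : Subgroup G) := by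
        obtain ⟨a, ha⟩ := IsPGroup.iff_card.1 (hG.to_subgroup V)
        obtain ⟨b, hb⟩ := IsPGroup.iff_card.1 (hG.to_subgroup (V ⊔ Subgroup.zpowers y))
        rw [ha, hb] at hne ⊢
        have hab : a < b := (Nat.pow_lt_pow_iff_right hp.one_lt).1 hne
        calc p * p ^ a = p ^ (a + 1) := by ring
          _ ≤ p ^ b := Nat.pow_le_pow_right hp.pos hab
      obtain ⟨x, hx, hx2⟩ := ih h2 (by
        calc Nat.card W ≤ p ^ (r + 1) * Nat.card V := hc
          _ = p ^ r * (p * Nat.card V) := by ring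
          _ ≤ _ := Nat.mul_le_mul_left _ h3)
      refine ⟨Fin.cons y x, ?_, ?_⟩
      · intro i
        refine Fin.cases ?_ (fun j => ?_) i
        · simpa using hyW
        · simpa using hx j
      · rw [Fin.range_cons, Set.insert_eq, Subgroup.closure_union, ← Subgroup.zpowers_eq_closure,
          ← sup_assoc, hx2]

theorem ncard_mk_image' [Finite G] (V U : Subgroup G) :
    ((fun g : G => (QuotientGroup.mk g : G ⧸ V)) '' (U : Set G)).ncard *
      Nat.card (U ⊓ V : Subgroup G) = Nat.card U := by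
  have h1 : ((fun g : G => (QuotientGroup.mk g : G ⧸ V)) '' (U : Set G)) =
      MulAction.orbit U ((1 : G) : G ⧸ V) := by
    ext z
    constructor
    · rintro ⟨g, hg, rfl⟩
      refine ⟨⟨g, hg⟩, ?_⟩
      show ((g * 1 : G) : G ⧸ V) = _
      rw [mul_one]
    · rintro ⟨⟨g, hg⟩, rfl⟩
      refine ⟨g, hg, ?_⟩
      show ((g : G) : G ⧸ V) = ((g * 1 : G) : G ⧸ V)
      rw [mul_one]
  have h2 : MulAction.stabilizer U ((1 : G) : G ⧸ V) = V.subgroupOf U := by
    ext ⟨g, hg⟩
    rw [MulAction.mem_stabilizer_iff, Subgroup.mem_subgroupOf]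
    show ((g * 1 : G) : G ⧸ V) = ((1 : G) : G ⧸ V) ↔ g ∈ V
    rw [mul_one, QuotientGroup.eq]
    simp
  have h3 := MulAction.index_stabilizer U ((1 : G) : G ⧸ V)
  have h4 : Nat.card (V.subgroupOf U) = Nat.card (U ⊓ V : Subgroup G) := by
    rw [← Subgroup.inf_subgroupOf_left]
    exact Nat.card_congr (Subgroup.subgroupOfEquivOfLe inf_le_left).toEquiv
  rw [h1, ← h3, h2, ← h4, mul_comm]
  exact Subgroup.card_mul_index _

theorem ncard_mk_image [Finite G] {V U : Subgroup G} (h : V ≤ U) :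
    ((fun g : G => (QuotientGroup.mk g : G ⧸ V)) '' (U : Set G)).ncard * Nat.card V
      = Nat.card U := by
  have := ncard_mk_image' V U
  rwa [inf_eq_right.2 h] at this

theorem Gens_mem_cm {V : Subgroup G} [hV : V.Normal] {g h a : G}
    (e : (QuotientGroup.mk ⁅g, a⁆ : G ⧸ V) = QuotientGroup.mk ⁅h, a⁆) :
    a ∈ cm (h⁻¹ * g) V := by
  rw [mem_cm]
  rw [QuotientGroup.eq] at e
  -- e : ⁅g,a⁆⁻¹ * ⁅h,a⁆ ∈ V
  have e2 : ⁅h⁻¹ * g, a⁆ = h⁻¹ * (⁅g, a⁆ * (⁅g, a⁆⁻¹ * ⁅h, a⁆)⁻¹ * ⁅g, a⁆⁻¹) * h := by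
    simp only [commutatorElement_def]; group
  have h1 := hV.conj_mem _ (V.inv_mem e) ⁅g, a⁆
  have h2 := hV.conj_mem _ h1 h⁻¹
  rw [e2]
  simpa using h2

theorem gen_count [Finite G] {p : ℕ} (hp : p.Prime) {S T A U V : Subgroup G} [hA : A.Normal]
    [hV : V.Normal] (hVU : V ≤ U) {u l : ℕ} (hU : Nat.card U ≤ p ^ u * Nat.card V)
    (x : Fin l → G) (hAx : A ≤ T ⊔ Subgroup.closure (Set.range x))
    (hSU : ∀ g ∈ S, ∀ i, ⁅g, x i⁆ ∈ U) (hST : ∀ g ∈ S, ∀ a ∈ T, ⁅g, a⁆ ∈ V) :
    Nat.card S ≤ p ^ (u * l) * Nat.card (S ⊓ rl A V : Subgroup G) := by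
  classical
  set I : Set (G ⧸ V) := (fun g : G => (QuotientGroup.mk g : G ⧸ V)) '' (U : Set G) with hI
  have hIc : I.ncard ≤ p ^ u := by
    have h1 := ncard_mk_image hVU
    rw [← hI] at h1
    rw [← h1] at hU
    exact Nat.le_of_mul_le_mul_right hU Nat.card_pos
  set J : Set (Fin l → G ⧸ V) := Set.pi Set.univ (fun _ => I) with hJ
  have hJc : J.ncard ≤ p ^ (u * l) := by
    have : J.ncard = I.ncard ^ l := by
      rw [← Nat.card_coe_set_eq, hJ]
      rw [Nat.card_congr (Equiv.Set.univPi (fun _ : Fin l => I)), Nat.card_pi]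
      simp [Nat.card_coe_set_eq]
    rw [this, pow_mul]
    exact Nat.pow_le_pow_left hIc l
  have key := card_le_of_fibers S (rl A V) (fun g => fun i => (QuotientGroup.mk ⁅g, x i⁆ : G ⧸ V)) J
    (Set.toFinite _) (fun g hg => by
      rw [hJ, Set.mem_univ_pi]
      intro i
      exact ⟨_, hSU g hg i, rfl⟩)
    (fun g hg h hh e => by
      have hle : T ⊔ Subgroup.closure (Set.range x) ≤ cm (h⁻¹ * g) V := by
        refine sup_le ?_ ?_
        · intro a ha
          apply Gens_mem_cm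
          rw [QuotientGroup.eq]
          exact V.mul_mem (V.inv_mem (hST g hg a ha)) (hST h hh a ha)
        · rw [Subgroup.closure_le]
          rintro _ ⟨i, rfl⟩
          exact Gens_mem_cm (congrFun e i)
      intro a ha
      exact hle (hAx ha))
  exact key.trans (Nat.mul_le_mul_right _ hJc)

end MP828
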