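import Mathlib

/-! MP_828a6d_al: independence of characters. -/

namespace MP828

/-- Independence of characters: `β : M₁ →* (M₂ →* ℂˣ)` injective, `H ≤ M₁`; then
`|H| · |{y : ∀ h ∈ H, β h y = 1}| ≤ |M₂|`. Proof: `L = {y : ∀ h ∈ H, β h y = 1}` is a normal subgroup of `M₂`
(an intersection of kernels). The `|H|` characters `β h` (`h ∈ H`) are pairwise distinct and factor through
`M₂ ⧸ L` (`QuotientGroup.lift`), giving `|H|` distinct monoid homs `M₂ ⧸ L → ℂ`, which are linearly
independent (`linearIndependent_monoidHom`) in the space of functions `M₂ ⧸ L → ℂ` of dimension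
`|M₂ ⧸ L|`; so `|H| ≤ |M₂ ⧸ L|`; multiply by `|L|`. -/
theorem card_perp {M₁ M₂ : Type*} [Group M₁] [Group M₂] [Finite M₁] [Finite M₂]
    (β : M₁ →* (M₂ →* ℂˣ)) (hβ : Function.Injective β) (H : Subgroup M₁) :
    Nat.card H * Nat.card {y : M₂ // ∀ h ∈ H, β h y = 1} ≤ Nat.card M₂ := by
  classical
  have := Fintype.ofFinite M₁
  have := Fintype.ofFinite M₂
  let L : Subgroup M₂ :=
    { carrier := {y | ∀ h ∈ H, β h y = 1}
      one_mem' := fun h _ => map_one (β h)
      mul_mem' := fun {a b} ha hb h hh => by rw [map_mul, ha h hh, hb h hh, one_mul]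
      inv_mem' := fun {a} ha h hh => by rw [map_inv, ha h hh, inv_one] }
  have hL : ∀ y, y ∈ L ↔ ∀ h ∈ H, β h y = 1 := fun y => Iff.rfl
  have hnorm : L.Normal := by
    refine ⟨fun n hn g => ?_⟩
    rw [hL] at hn ⊢
    intro h hh
    rw [map_mul, map_mul, hn h hh, mul_one, ← map_mul, mul_inv_cancel, map_one]
  have hcardL : Nat.card {y : M₂ // ∀ h ∈ H, β h y = 1} = Nat.card L := rfl
  -- the characters of the quotient
  let χ : H → (M₂ ⧸ L →* ℂ) := fun h =>
    (Units.coeHom ℂ).comp (QuotientGroup.lift L (β h.1) fun y hy => hy h.1 h.2)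
  have hχ : ∀ (h : H) (y : M₂), χ h (y : M₂ ⧸ L) = ((β h.1 y : ℂˣ) : ℂ) := fun h y => rfl
  have hinj : Function.Injective χ := by
    intro h h' heq
    apply Subtype.ext
    apply hβ
    ext y
    have := DFunLike.congr_fun heq (y : M₂ ⧸ L)
    rw [hχ, hχ] at this
    exact this
  have hli : LinearIndependent ℂ (fun h : H => (χ h : M₂ ⧸ L → ℂ)) :=
    (linearIndependent_monoidHom (M₂ ⧸ L) ℂ).comp χ hinj
  have h1 : Nat.card H ≤ Nat.card (M₂ ⧸ L) := by
    have := hli.fintype_card_le_finrank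
    rw [Module.finrank_fintype_fun_eq_card] at this
    rwa [Nat.card_eq_fintype_card, Nat.card_eq_fintype_card]
  rw [hcardL]
  calc Nat.card H * Nat.card L ≤ Nat.card (M₂ ⧸ L) * Nat.card L := Nat.mul_le_mul_right _ h1
    _ = Nat.card M₂ := (Subgroup.card_eq_card_quotient_mul_card_subgroup L).symm

end MP828
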