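import Pool.Agent.Lib.MP_828a6d_al.ClB
import Pool.Agent.Lib.MP_828a6d_al.PairB
import Pool.Agent.Lib.MP_828a6d_al.Dual
import Pool.Agent.Lib.MP_828a6d_al.Count
import Pool.Agent.Lib.MP_828a6d_al.Gens

/-! MP_828a6d_al (stream Cl): the class step for one character. -/

namespace MP828

open scoped commutatorElement

variable {G : Type*} [Group G]

/-- **One character.** `E = γ_{k+1}(G) = it ⊤ ⊤ k`, class `≤ k + 2` (`it ⊤ ⊤ (k+2) = ⊥`), `k ≥ 1`, abelian subgroups of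
order `≤ p^m`, and `|E| ≤ p^e |γ_{k+1}(H)|` for every subgroup `H` with `|G| ≤ p^m |H|`. For a character `ψ` of `E` there is a
subgroup `H` of index `≤ p^e` with `ψ ⁅g, x⁆ = 1` for `g ∈ H`, `x ∈ E`.
Proof. `N₀ = kerG ψ ⊓ it ⊤ ⊤ (k+1)` is normal (`normal_of_le_gamma`); `H = rl E N₀`; by `mem_kerG`, `g ∈ H` iff `β g = 1` for
the pairing `β` of `cl_pairing`. `E' = {x ∈ E : ∀ g, ⁅g, x⁆ ∈ N₀}`. `card_perp` for the injective pairing
`G ⧸ β.ker →* (E →* ℂˣ)` (`QuotientGroup.kerLift`) and `⊤` gives `|G| |E'| ≤ |E| |H|` (`|G| = |G ⧸ β.ker| |β.ker|`,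
`β.ker = H`). So `|G| ≤ |E| |H| ≤ p^m |H|` (`gamma_abelian`), hence `|E| ≤ p^e |it H H k| ≤ p^e |E'|` by `rl_gamma`
(and `it H H k ≤ it ⊤ ⊤ k`), so `|G| |E'| ≤ |E| |H| ≤ p^e |E'| |H|`, and `|G| ≤ p^e |H|`. -/
theorem one_char [Finite G] {p m e k : ℕ} (hp : p.Prime) (hk : 1 ≤ k)
    (hm : ∀ H : Subgroup G, (∀ x ∈ H, ∀ y ∈ H, x * y = y * x) → Nat.card H ≤ p ^ m)
    (hc : it (⊤ : Subgroup G) ⊤ (k + 2) = ⊥)
    (hst : ∀ H : Subgroup G, Nat.card G ≤ p ^ m * Nat.card H →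
      Nat.card (it (⊤ : Subgroup G) ⊤ k : Subgroup G) ≤ p ^ e * Nat.card (it H H k : Subgroup G))
    (ψ : (it (⊤ : Subgroup G) ⊤ k : Subgroup G) →* ℂˣ) :
    ∃ H : Subgroup G, Nat.card G ≤ p ^ e * Nat.card H ∧
      ∀ g ∈ H, ∀ x ∈ it (⊤ : Subgroup G) ⊤ k, ∃ h : ⁅g, x⁆ ∈ it (⊤ : Subgroup G) ⊤ k, ψ ⟨⁅g, x⁆, h⟩ = 1 := by
  classical
  let E : Subgroup G := it (⊤ : Subgroup G) ⊤ k
  let N₀ : Subgroup G := kerG ψ ⊓ it (⊤ : Subgroup G) ⊤ (k + 1)
  have hN₀ : N₀.Normal := normal_of_le_gamma hc inf_le_right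
  let H : Subgroup G := rl E N₀
  obtain ⟨β, hβ⟩ := cl_pairing hc ψ
  have hmem : ∀ (g : G) (x : G), x ∈ E → ⁅g, x⁆ ∈ E :=
    fun g x hx => it_self_antitone ⊤ (Nat.le_succ k) (ClB_mem hx)
  have hHβ : H = β.ker := by
    ext g
    rw [MonoidHom.mem_ker]
    constructor
    · intro hg
      refine MonoidHom.ext fun x => ?_
      obtain ⟨h, h1⟩ := mem_kerG.1 (hg x.1 x.2).1
      rw [hβ g x h, h1, MonoidHom.one_apply]
    · intro hg x hx
      refine ⟨mem_kerG.2 ⟨hmem g x hx, ?_⟩, ClB_mem hx⟩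
      have h1 := hβ g ⟨x, hx⟩ (hmem g x hx)
      rw [hg, MonoidHom.one_apply] at h1
      exact h1.symm
  have h2 := card_perp (QuotientGroup.kerLift β) (QuotientGroup.kerLift_injective β) ⊤
  have h3 : Nat.card (⊤ : Subgroup (G ⧸ β.ker)) = Nat.card (G ⧸ β.ker) := Subgroup.card_top
  rw [h3] at h2
  have h4 : Nat.card G = Nat.card (G ⧸ β.ker) * Nat.card H := by
    rw [hHβ]; exact Subgroup.card_eq_card_quotient_mul_card_subgroup _
  have h5 : Nat.card (it H H k : Subgroup G) ≤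
      Nat.card {y : E // ∀ h ∈ (⊤ : Subgroup (G ⧸ β.ker)), QuotientGroup.kerLift β h y = 1} := by
    have hx : ∀ x : (it H H k : Subgroup G), (x : G) ∈ E := fun x => it_mono le_top le_top k x.2
    refine Nat.card_le_card_of_injective
      (fun x : (it H H k : Subgroup G) =>
        (⟨⟨(x : G), hx x⟩, ?_⟩ : {y : E // ∀ h ∈ (⊤ : Subgroup (G ⧸ β.ker)),
          QuotientGroup.kerLift β h y = 1})) ?_
    · intro h _
      induction h using QuotientGroup.induction_on with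
      | H g =>
        rw [QuotientGroup.kerLift_mk]
        have h6 : ⁅(x : G), g⁆ ∈ N₀ := rl_gamma x.2
        have h7 : ⁅g, (x : G)⁆ ∈ N₀ := by
          have := N₀.inv_mem h6
          rwa [commutatorElement_inv] at this
        obtain ⟨h, h8⟩ := mem_kerG.1 h7.1
        rw [hβ g ⟨(x : G), hx x⟩ h]
        exact h8
    · intro x y hxy
      have h6 := congrArg (fun z : {y : E // ∀ h ∈ (⊤ : Subgroup (G ⧸ β.ker)),
          QuotientGroup.kerLift β h y = 1} => ((z : E) : G)) hxy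
      exact Subtype.ext h6
  set a := Nat.card (G ⧸ β.ker) with ha
  set e' := Nat.card {y : E // ∀ h ∈ (⊤ : Subgroup (G ⧸ β.ker)), QuotientGroup.kerLift β h y = 1}
    with he'
  have he0 : 0 < e' := lt_of_lt_of_le Nat.card_pos h5
  have hEm : Nat.card E ≤ p ^ m := hm E (gamma_abelian hk hc)
  have h6 : a ≤ Nat.card E := le_trans (Nat.le_mul_of_pos_right a he0) h2
  have h7 : Nat.card G ≤ p ^ m * Nat.card H := by
    rw [h4]
    exact Nat.mul_le_mul_right _ (h6.trans hEm)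
  have h8 : Nat.card E ≤ p ^ e * e' := (hst H h7).trans (Nat.mul_le_mul_left _ h5)
  have h9 : a ≤ p ^ e := Nat.le_of_mul_le_mul_right (h2.trans h8) he0
  refine ⟨H, ?_, ?_⟩
  · rw [h4]
    exact Nat.mul_le_mul_right _ h9
  · intro g hg x hx
    exact mem_kerG.1 (hg x hx).1

end MP828
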