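import Pool.Agent.Lib.MP_828a6d_al.ClCa
import Pool.Agent.Lib.MP_828a6d_al.ClCb

/-! MP_828a6d_al (stream Cl): the class step. -/

namespace MP828

open scoped commutatorElement

variable {G : Type*} [Group G]

/-- **The class step.** Under the same hypotheses the centralizer `C = rl E ⊥` of `E = γ_{k+1}(G)` has index `≤ p^{e m}`.
Proof. `exists_chars` for `E` (`|E| ≤ p^m`), `one_char` for each `ψ i` gives `H i`; `card_iInf` (with `S = ⊤`) gives
`|G| ≤ (p^e)^m |⊤ ⊓ ⨅ H i|` and `⨅ H i ≤ rl E ⊥`: for `g` in it and `x ∈ E` all `ψ i ⁅g, x⁆ = 1`, so `⁅g, x⁆ = 1`. -/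
theorem class_step [Finite G] {p m e k : ℕ} (hp : p.Prime) (hG : IsPGroup p G) (hk : 1 ≤ k)
    (hm : ∀ H : Subgroup G, (∀ x ∈ H, ∀ y ∈ H, x * y = y * x) → Nat.card H ≤ p ^ m)
    (hc : it (⊤ : Subgroup G) ⊤ (k + 2) = ⊥)
    (hst : ∀ H : Subgroup G, Nat.card G ≤ p ^ m * Nat.card H →
      Nat.card (it (⊤ : Subgroup G) ⊤ k : Subgroup G) ≤ p ^ e * Nat.card (it H H k : Subgroup G)) :
    Nat.card G ≤ p ^ (e * m) * Nat.card (rl (it (⊤ : Subgroup G) ⊤ k) ⊥ : Subgroup G) := by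
  have hab := gamma_abelian hk hc
  have hE := hm _ hab
  obtain ⟨ψ, hψ⟩ := exists_chars hp hG hab hE
  choose H hH1 hH2 using fun i => one_char hp hk hm hc hst (ψ i)
  have h1 : ∀ i, Nat.card (⊤ : Subgroup G) ≤ p ^ e * Nat.card (⊤ ⊓ H i : Subgroup G) := by
    intro i
    rw [top_inf_eq, Subgroup.card_top]
    exact hH1 i
  have h2 := card_iInf H h1
  rw [top_inf_eq, Subgroup.card_top, ← pow_mul] at h2
  refine h2.trans (Nat.mul_le_mul_left _ (Subgroup.card_le_of_le ?_))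
  intro g hg x hx
  rw [Subgroup.mem_iInf] at hg
  rw [Subgroup.mem_bot]
  rcases Nat.eq_zero_or_pos m with hm0 | hm0
  · subst hm0
    have h3 := hψ ⟨x, hx⟩ (fun i => i.elim0)
    have h4 : x = 1 := congrArg Subtype.val h3
    rw [h4]
    exact commutatorElement_one_right g
  · obtain ⟨h, -⟩ := hH2 ⟨0, hm0⟩ g (hg _) x hx
    have h3 := hψ ⟨⁅g, x⁆, h⟩ (fun i => by
      obtain ⟨h', h''⟩ := hH2 i g (hg _) x hx
      exact h'')
    exact congrArg Subtype.val h3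

end MP828
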