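import Pool.Agent.Lib.MP_828a6d_al.ClB
import Pool.Agent.Lib.MP_828a6d_al.PairB
import Pool.Agent.Lib.MP_828a6d_al.Dual
import Pool.Agent.Lib.MP_828a6d_al.Count
import Pool.Agent.Lib.MP_828a6d_al.Gens

/-! MP_828a6d_al (stream Cl): characters of a finite abelian `p`-group. -/

namespace MP828

open scoped commutatorElement

variable {G : Type*} [Group G]

/-- `m` characters of a finite abelian `p`-group `E` of order `≤ p^m` which together are injective.
Proof: the dual group `E →* ℂˣ` (a commutative group; give `E` the structure `Dual_cg hab` if needed) has `|E| ≤ p^m` elements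
(`card_char`), so it is a finite `p`-group generated by `m` elements `ψ i` (`exists_gens` with `V = ⊥`, `W = ⊤`). If
`ψ i x = 1` for all `i` then `χ x = 1` for all `χ` (the `χ` with `χ x = 1` form a subgroup), so `x = 1` (`exists_char` with
`D = ⊥`, `T = zpowers x`, `A = E`). -/
theorem exists_chars [Finite G] {p m : ℕ} (hp : p.Prime) (hG : IsPGroup p G) {E : Subgroup G}
    (hab : ∀ x ∈ E, ∀ y ∈ E, x * y = y * x) (hE : Nat.card E ≤ p ^ m) :
    ∃ ψ : Fin m → (E →* ℂˣ), ∀ x : E, (∀ i, ψ i x = 1) → x = 1 := by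
  classical
  have := Fact.mk hp
  obtain ⟨hfin, hcard⟩ := card_char hab
  have : Finite (E →* ℂˣ) := hfin
  have hP : IsPGroup p (E →* ℂˣ) := by
    obtain ⟨n, hn⟩ := IsPGroup.iff_card.1 (hG.to_subgroup E)
    exact IsPGroup.of_card (n := n) (by rw [hcard, hn])
  obtain ⟨ψ, -, hψ⟩ := exists_gens hp hP (V := (⊥ : Subgroup (E →* ℂˣ))) (W := ⊤) bot_le (r := m) (by
    rw [Subgroup.card_top, Subgroup.card_bot, mul_one, hcard]
    exact hE)
  rw [bot_sup_eq] at hψ
  refine ⟨ψ, fun x hx => ?_⟩
  have hall : ∀ χ : E →* ℂˣ, χ x = 1 := by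
    intro χ
    have hχ : χ ∈ Subgroup.closure (Set.range ψ) := by rw [hψ]; exact Subgroup.mem_top _
    induction hχ using Subgroup.closure_induction with
    | mem χ h =>
      obtain ⟨i, rfl⟩ := h
      exact hx i
    | one => exact MonoidHom.one_apply x
    | mul χ χ' _ _ h h' => rw [MonoidHom.mul_apply, h, h', mul_one]
    | inv χ _ h => rw [MonoidHom.inv_apply, h, inv_one]
  by_contra hne
  have hT : ¬ Subgroup.zpowers (x : G) ≤ ⊥ := by
    intro h
    have h1 : (x : G) ∈ (⊥ : Subgroup G) := h (Subgroup.mem_zpowers _)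
    rw [Subgroup.mem_bot] at h1
    exact hne (Subtype.ext h1)
  obtain ⟨χ, -, y, hy, hχy⟩ := exists_char (A := E) (D := ⊥) (T := Subgroup.zpowers (x : G)) hab bot_le
    (by rw [Subgroup.zpowers_le]; exact x.2) hT
  obtain ⟨k, hk⟩ := Subgroup.mem_zpowers_iff.1 hy
  have hyk : y = x ^ k := by
    apply Subtype.ext
    rw [Subgroup.coe_zpow]
    exact hk.symm
  rw [hyk, map_zpow, hall χ, one_zpow] at hχy
  exact hχy rfl

end MP828
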