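import Pool.Agent.Lib.MP_828a6d_al.FlagA

/-! MP_828a6d_al: normal subgroups in finite `p`-groups and the index of centralizers of sections. -/

namespace MP828

open scoped commutatorElement

variable {G : Type*} [Group G]

/-- Normal subgroups of all intermediate orders (induction on `j` with `normal_step`; if
`|U| = p^j |V| < p^k |V| = |W|` then `U < W`). -/
theorem exists_normal_between [Finite G] {p : ℕ} (hp : p.Prime) (hG : IsPGroup p G)
    {V W : Subgroup G} [hV : V.Normal] [hW : W.Normal] (h : V ≤ W) {k j : ℕ}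
    (hk : Nat.card W = p ^ k * Nat.card V) (hj : j ≤ k) :
    ∃ U : Subgroup G, U.Normal ∧ V ≤ U ∧ U ≤ W ∧ Nat.card U = p ^ j * Nat.card V := by
  induction j with
  | zero => exact ⟨V, hV, le_refl V, h, by rw [pow_zero, one_mul]⟩
  | succ j ih =>
    obtain ⟨U, hU, hVU, hUW, hcard⟩ := ih (by omega)
    have hpos : 0 < Nat.card V := Nat.card_pos
    have hne : U ≠ W := by
      intro he
      rw [he, hk] at hcard
      have h1 := Nat.eq_of_mul_eq_mul_right hpos hcard
      have h2 := Nat.pow_right_injective hp.two_le h1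
      omega
    haveI := hU
    obtain ⟨U', hU', h1, h2, h3, -⟩ := normal_step hp hG (lt_of_le_of_ne hUW hne)
    exact ⟨U', hU', hVU.trans h1, h2, by rw [h3, hcard]; ring⟩

/-- `|G| ≤ p^{k(k-1)/2} |rl W V|` when `V ≤ W` are normal and `|W| = p^k |V|`.
Induction on `k`. `k = 0`: `W = V` and `rl W V = ⊤` (`rl_self`). Step `k + 1`: take `W'` normal,
`V ≤ W' ≤ W`, `|W'| = p^k |V|` (`exists_normal_between`); `normal_step` applied to `W' < W` gives `U` with
`|U| = p |W'| = |W|`, so `U = W`, `W = W' ⊔ zpowers x`, `⁅g, x⁆ ∈ W'` for all `g`. By `gen_count` with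
`S = rl W' V`, `T = W'`, `A = W`, `U = W'`, `V = V`, `l = 1` (`x : Fin 1 → G` constant), `u = k`:
`|rl W' V| ≤ p^k |rl W' V ⊓ rl W V| ≤ p^k |rl W V|`. Combine with the induction hypothesis
`|G| ≤ p^{k(k-1)/2} |rl W' V|` and `k(k-1)/2 + k = (k+1)k/2`. -/
theorem card_le_rl [Finite G] {p : ℕ} (hp : p.Prime) (hG : IsPGroup p G) {V W : Subgroup G}
    [hV : V.Normal] [hW : W.Normal] (h : V ≤ W) {k : ℕ}
    (hk : Nat.card W = p ^ k * Nat.card V) :
    Nat.card G ≤ p ^ (k * (k - 1) / 2) * Nat.card (rl W V : Subgroup G) := by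
  induction k generalizing W with
  | zero =>
    have h1 : V = W := Subgroup.eq_of_le_of_card_ge h (by rw [hk, pow_zero, one_mul])
    have h2 : (rl W V : Subgroup G) = ⊤ := rl_self W V h1.symm.le
    rw [h2, Subgroup.card_top]
    simp
  | succ k ih =>
    obtain ⟨W', hW', hVW', hW'W, hcard⟩ := exists_normal_between hp hG h hk (Nat.le_succ k)
    haveI := hW'
    have hpos : 0 < Nat.card V := Nat.card_pos
    have hne : W' ≠ W := by
      intro he
      rw [he, hk] at hcard
      have h1 := Nat.eq_of_mul_eq_mul_right hpos hcard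
      have h2 := Nat.pow_right_injective hp.two_le h1
      omega
    obtain ⟨U, hU, hW'U, hUW, hcU, x, hx, hgx, hsup⟩ :=
      normal_step hp hG (lt_of_le_of_ne hW'W hne)
    have hUW' : U = W := by
      apply Subgroup.eq_of_le_of_card_ge hUW
      rw [hcU, hcard, hk]
      apply le_of_eq
      ring
    have hih := ih hVW' hcard
    have hgc := gen_count hp (S := rl W' V) (T := W') (A := W) (U := W') (V := V) hVW'
      (u := k) (l := 1) hcard.le (fun _ => x)
      (by
        rw [← hUW', ← hsup, Set.range_const, ← Subgroup.zpowers_eq_closure])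
      (fun g _ _ => hgx g) (fun g hg a ha => hg a ha)
    have hle : Nat.card (rl W' V ⊓ rl W V : Subgroup G) ≤ Nat.card (rl W V : Subgroup G) :=
      Subgroup.card_le_of_le inf_le_right
    have he : k * (k - 1) / 2 + k = (k + 1) * (k + 1 - 1) / 2 := by
      rcases k with _ | k
      · simp
      · have : (k + 1 + 1) * (k + 1 + 1 - 1) = (k + 1) * (k + 1 - 1) + 2 * (k + 1) := by
          simp only [Nat.add_sub_cancel]
          ring
        rw [this]
        omega
    calc Nat.card G ≤ p ^ (k * (k - 1) / 2) * Nat.card (rl W' V : Subgroup G) := hih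
      _ ≤ p ^ (k * (k - 1) / 2) * (p ^ (k * 1) * Nat.card (rl W' V ⊓ rl W V : Subgroup G)) :=
        Nat.mul_le_mul_left _ hgc
      _ ≤ p ^ (k * (k - 1) / 2) * (p ^ (k * 1) * Nat.card (rl W V : Subgroup G)) :=
        Nat.mul_le_mul_left _ (Nat.mul_le_mul_left _ hle)
      _ = p ^ (k * (k - 1) / 2 + k) * Nat.card (rl W V : Subgroup G) := by
        rw [pow_add, mul_one]
        ring
      _ = _ := by rw [he]

/-- A maximal normal abelian subgroup `A` of a finite `p`-group is its own centralizer.
Proof: choose `A` normal abelian of maximal order. `C = rl A ⊥` (the centralizer) is normal and contains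
`A`. If `A < C`, `normal_step` gives `U` normal, `A ≤ U ≤ C`, `U = A ⊔ zpowers x`, `|U| = p |A|`;
`x ∈ C` commutes with `A`, so `U` is abelian (closure of a commuting set), contradicting maximality. -/
theorem exists_maxAb [Finite G] {p : ℕ} (hp : p.Prime) (hG : IsPGroup p G) :
    ∃ (A : Subgroup G) (_ : A.Normal), (∀ x ∈ A, ∀ y ∈ A, x * y = y * x) ∧ rl A ⊥ = A := by
  haveI : Nonempty {A : Subgroup G // A.Normal ∧ ∀ x ∈ A, ∀ y ∈ A, x * y = y * x} :=
    ⟨⟨⊥, inferInstance, by
      intro x hx y hy
      rw [Subgroup.mem_bot] at hx hy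
      rw [hx, hy]⟩⟩
  obtain ⟨⟨A, hAn, hab⟩, hmax⟩ := Finite.exists_max
    (fun A : {A : Subgroup G // A.Normal ∧ ∀ x ∈ A, ∀ y ∈ A, x * y = y * x} =>
      Nat.card (A : Subgroup G))
  haveI := hAn
  refine ⟨A, hAn, hab, ?_⟩
  have hAC : A ≤ rl A ⊥ := fun a ha => mem_rl_bot.2 fun x hx => hab a ha x hx
  by_contra hne
  obtain ⟨U, hU, hAU, hUC, hcU, x, hx, -, hsup⟩ :=
    normal_step hp hG (lt_of_le_of_ne hAC (Ne.symm hne))
  have hcx : ∀ a ∈ A, x * a = a * x := mem_rl_bot.1 (hUC hx)
  have h1 : ∀ u ∈ U, (∀ a ∈ A, u * a = a * u) ∧ u * x = x * u := by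
    have hle : U ≤ Subgroup.centralizer ((A : Set G) ∪ {x}) := by
      rw [← hsup]
      apply sup_le
      · intro a ha
        rw [Subgroup.mem_centralizer_iff]
        rintro b (hb | hb)
        · exact hab b hb a ha
        · rw [Set.mem_singleton_iff] at hb
          rw [hb]
          exact hcx a ha
      · rw [Subgroup.zpowers_le, Subgroup.mem_centralizer_iff]
        rintro b (hb | hb)
        · exact (hcx b hb).symm
        · rw [Set.mem_singleton_iff] at hb
          rw [hb]
    intro u hu
    have h := Subgroup.mem_centralizer_iff.1 (hle hu)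
    exact ⟨fun a ha => (h a (Or.inl ha)).symm, (h x (Or.inr rfl)).symm⟩
  have h2 : U ≤ Subgroup.centralizer (U : Set G) := by
    conv_lhs => rw [← hsup]
    apply sup_le
    · intro a ha
      rw [Subgroup.mem_centralizer_iff]
      intro u hu
      exact (h1 u hu).1 a ha
    · rw [Subgroup.zpowers_le, Subgroup.mem_centralizer_iff]
      intro u hu
      exact (h1 u hu).2
  have h3 := hmax ⟨U, hU, fun u hu v hv => (Subgroup.mem_centralizer_iff.1 (h2 hv) u hu)⟩
  simp only at h3
  rw [hcU] at h3
  have hpos : 0 < Nat.card A := Nat.card_pos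
  have := hp.two_le
  nlinarith

end MP828
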