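import Pool.Agent.Lib.MP_828a6d_al.SkewG

/-! MP_828a6d_al: most of `Y` centralizes `[A, x]`. -/

namespace MP828

open scoped commutatorElement

variable {G : Type*} [Group G]

/-- Consequence: most of `Y = YB A B N` centralizes `[A, x]`, for `x` centralizing `B`.
Proof. `skew_group` for `Y = YB A B N` (`N ≤ A ≤ Y` by `le_YB`, `YB_centr`, `YB_comm`). It remains to see
that `y ∈ Y`, `⁅x, y⁆ ∈ N` imply that `y` commutes with `⁅x, a⁆` for all `a ∈ A`: let `ν = ⁅x, y⁆ ∈ N ≤ A`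
and `β = ⁅y, a⁆ ∈ B` (`y ∈ MB A B`). Then `y x y⁻¹ = ν' x` with `ν' = ν⁻¹`-conjugate in `N`
(`y x y⁻¹ = ⁅y, x⁆ x`, `⁅y, x⁆ = ν⁻¹`), `y a y⁻¹ = β a`, so
`y ⁅x, a⁆ y⁻¹ = ⁅ν⁻¹ x, β a⁆ = ν⁻¹ · x β a x⁻¹ · ν · (β a)⁻¹`. Here `x β a x⁻¹ ∈ A` commutes with `ν ∈ A`, so this
is `x β a x⁻¹ (β a)⁻¹ = (x β x⁻¹) (x a x⁻¹) a⁻¹ β⁻¹ = β (x a x⁻¹ a⁻¹) β⁻¹ = ⁅x, a⁆`
(`x` centralizes `β ∈ B`; everything in the abelian group `A`). -/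
theorem card_kill [Finite G] {p m k : ℕ} (hp : p.Prime) (hG : IsPGroup p G)
    (hGc : Nat.card G ≤ p ^ (2 ^ k))
    (hm : ∀ H : Subgroup G, (∀ x ∈ H, ∀ y ∈ H, x * y = y * x) → Nat.card H ≤ p ^ m)
    {A B N : Subgroup G} [hA : A.Normal] [hB : B.Normal] [hN : N.Normal]
    (hab : ∀ x ∈ A, ∀ y ∈ A, x * y = y * x) (hBN : B ≤ N) (hNA : N ≤ A)
    {x : G} (hxB : x ∈ rl B ⊥) (hx2 : ∀ z ∈ N, ⁅x, ⁅x, z⁆⁆ = 1)
    (hodd : (∀ z ∈ N, ⁅x, z⁆ = 1) ∨ p ≠ 2) :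
    Nat.card (YB A B N) ≤ p ^ (m * (k + 1)) *
      Nat.card (YB A B N ⊓ Subgroup.centralizer {z | ∃ a ∈ A, z = ⁅x, a⁆} : Subgroup G) := by
  have h0 := skew_group hp hG hGc hm (Y := YB A B N) (N := N)
    (fun z hz => le_YB hab hBN hNA (hNA hz)) YB_centr YB_comm hx2 hodd
  refine h0.trans (Nat.mul_le_mul_left _ ?_)
  have hle : (YB A B N ⊓ cm x N : Subgroup G) ≤
      YB A B N ⊓ Subgroup.centralizer {z | ∃ a ∈ A, z = ⁅x, a⁆} := by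
    intro y hy
    refine ⟨hy.1, ?_⟩
    refine Subgroup.mem_centralizer_iff.2 ?_
    rintro z ⟨a, ha, rfl⟩
    have hn : ⁅x, y⁆ ∈ N := mem_cm.1 hy.2
    have hnA : ⁅x, y⁆⁻¹ ∈ A := A.inv_mem (hNA hn)
    have hβ : ⁅y, a⁆ ∈ B := hy.1.1.1.2 a ha
    have hβA : ⁅y, a⁆ ∈ A := hNA (hBN hβ)
    have hxβ : x * ⁅y, a⁆ = ⁅y, a⁆ * x := mem_rl_bot.1 hxB _ hβ
    have ha' : x * a * x⁻¹ ∈ A := hA.conj_mem a ha x
    have e1 : y * x * y⁻¹ = ⁅x, y⁆⁻¹ * x := by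
      simp only [commutatorElement_def]; group
    have e2 : y * a * y⁻¹ = ⁅y, a⁆ * a := by
      simp only [commutatorElement_def]; group
    have e3 : y * ⁅x, a⁆ * y⁻¹ = (y * x * y⁻¹) * (y * a * y⁻¹) * (y * x * y⁻¹)⁻¹ *
        (y * a * y⁻¹)⁻¹ := by
      simp only [commutatorElement_def]; group
    set n := ⁅x, y⁆⁻¹ with hnd
    set β := ⁅y, a⁆ with hβd
    have e4 : y * ⁅x, a⁆ * y⁻¹ = ⁅x, a⁆ := by
      rw [e3, e1, e2]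
      calc n * x * (β * a) * (n * x)⁻¹ * (β * a)⁻¹
          = n * ((x * β) * a * x⁻¹) * n⁻¹ * a⁻¹ * β⁻¹ := by group
        _ = n * (β * (x * a * x⁻¹)) * n⁻¹ * a⁻¹ * β⁻¹ := by rw [hxβ]; group
        _ = (β * (x * a * x⁻¹)) * n * n⁻¹ * a⁻¹ * β⁻¹ := by
          rw [hab n hnA _ (A.mul_mem hβA ha')]
        _ = β * (x * a * x⁻¹ * a⁻¹) * β⁻¹ := by group
        _ = (x * a * x⁻¹ * a⁻¹) * β * β⁻¹ := by
          rw [hab β hβA _ (A.mul_mem ha' (A.inv_mem ha))]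
        _ = ⁅x, a⁆ := by
          simp only [commutatorElement_def]; group
    calc ⁅x, a⁆ * y = (y * ⁅x, a⁆ * y⁻¹) * y := by rw [e4]
      _ = y * ⁅x, a⁆ := by group
  exact Nat.card_mono (Set.toFinite _) hle

end MP828
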