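import Pool.Agent.Lib.MP_828a6d_al.ImHull
import Pool.Agent.Lib.MP_828a6d_al.SkewK
import Pool.Agent.Lib.MP_828a6d_al.Gens
import Pool.Agent.Lib.MP_828a6d_al.Flag

/-! MP_828a6d_al: the core estimate. -/

namespace MP828

open scoped commutatorElement

variable {G : Type*} [Group G]

/-- The order of a subgroup of a `p`-group is a power of `p`. -/
theorem exists_card_eq_pow [Finite G] {p : ℕ} (hp : p.Prime) (hG : IsPGroup p G) (H : Subgroup G) :
    ∃ t, Nat.card H = p ^ t := by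
  haveI : Fact p.Prime := ⟨hp⟩
  exact (hG.to_subgroup H).exists_card_eq

theorem core [Finite G] {p m k : ℕ} (hp : p.Prime) (hG : IsPGroup p G)
    (hGc : Nat.card G ≤ p ^ (2 ^ k))
    (hm : ∀ H : Subgroup G, (∀ x ∈ H, ∀ y ∈ H, x * y = y * x) → Nat.card H ≤ p ^ m)
    {A B N K : Subgroup G} [hA : A.Normal] [hB : B.Normal] [hN : N.Normal] [hKn : K.Normal]
    (hab : ∀ x ∈ A, ∀ y ∈ A, x * y = y * x) (hcent : rl A ⊥ = A) (hBN : B ≤ N) (hNA : N ≤ A)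
    (hK : ∀ x ∈ K, x ∈ rl B ⊥ ∧ (∀ z ∈ N, ⁅x, ⁅x, z⁆⁆ = 1) ∧
      ((∀ z ∈ N, ⁅x, z⁆ = 1) ∨ p ≠ 2))
    {α b h j : ℕ} (hAc : Nat.card A = p ^ α) (hBc : Nat.card B = p ^ b) (hj : 1 ≤ j)
    (hhj : α ≤ h * j) :
    ∃ (T : Subgroup G) (_ : T.Normal) (t : ℕ), N ≤ T ∧ T ≤ A ∧ Nat.card T = p ^ t ∧
      t ≤ α ∧ b ≤ t ∧
      Nat.card K ≤ p ^ (h * α) * Nat.card (K ⊓ rl A T : Subgroup G) ∧
      Nat.card (YB A B N) ≤ p ^ (j * (m * (k + 1)) + b * (α - t) + α) := by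
  obtain ⟨T, hTn, hNT, hTA, hKT, w, hwK, hTw⟩ :=
    exists_imHull hp hG (K := K) (N := N) (A := A) hab hNA hAc.le hj hhj
  obtain ⟨t, ht⟩ := exists_card_eq_pow hp hG T
  have hp1 : 1 < p := hp.one_lt
  have htα : t ≤ α := by
    have := Subgroup.card_le_of_le hTA
    rw [ht, hAc] at this
    exact (Nat.pow_le_pow_iff_right hp1).1 this
  have hbt : b ≤ t := by
    have := Subgroup.card_le_of_le (hBN.trans hNT)
    rw [ht, hBc] at this
    exact (Nat.pow_le_pow_iff_right hp1).1 this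
  refine ⟨T, hTn, t, hNT, hTA, ht, htα, hbt, hKT, ?_⟩
  set Y := YB A B N with hY
  -- each `[A, w i]` is centralized by most of `Y`
  have h1 : ∀ i, Nat.card Y ≤ p ^ (m * (k + 1)) *
      Nat.card (Y ⊓ Subgroup.centralizer {z | ∃ a ∈ A, z = ⁅w i, a⁆} : Subgroup G) := by
    intro i
    obtain ⟨hx1, hx2, hx3⟩ := hK (w i) (hwK i)
    exact card_kill hp hG hGc hm hab hBN hNA hx1 hx2 hx3
  have h2 := card_iInf (S := Y) (fun i => Subgroup.centralizer {z | ∃ a ∈ A, z = ⁅w i, a⁆}) h1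
  have h3 : (Y ⊓ ⨅ i, Subgroup.centralizer {z | ∃ a ∈ A, z = ⁅w i, a⁆} : Subgroup G)
      ≤ Y ⊓ rl T ⊥ := by
    intro y hy
    refine ⟨hy.1, mem_rl_bot.2 ?_⟩
    have hyc : ∀ i, y ∈ Subgroup.centralizer {z | ∃ a ∈ A, z = ⁅w i, a⁆} := by
      intro i
      exact (Subgroup.mem_iInf.1 hy.2) i
    have hsub : N ⊔ Subgroup.closure {z | ∃ i, ∃ a ∈ A, z = ⁅w i, a⁆} ≤
        Subgroup.centralizer {y} := by
      refine sup_le ?_ ?_
      · intro z hz
        rw [Subgroup.mem_centralizer_singleton_iff]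
        exact (YB_centr y hy.1 z hz).symm
      · rw [Subgroup.closure_le]
        rintro z ⟨i, a, ha, rfl⟩
        show _ ∈ Subgroup.centralizer {y}
        rw [Subgroup.mem_centralizer_singleton_iff]
        have := Subgroup.mem_centralizer_iff.1 (hyc i) ⁅w i, a⁆ ⟨a, ha, rfl⟩
        exact this
    intro z hz
    have := hsub (hTw hz)
    rw [Subgroup.mem_centralizer_singleton_iff] at this
    exact this.symm
  have h4 : Nat.card Y ≤ p ^ (j * (m * (k + 1))) * Nat.card (Y ⊓ rl T ⊥ : Subgroup G) := by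
    calc Nat.card Y ≤ (p ^ (m * (k + 1))) ^ j * _ := h2
      _ ≤ (p ^ (m * (k + 1))) ^ j * Nat.card (Y ⊓ rl T ⊥ : Subgroup G) :=
        Nat.mul_le_mul_left _ (Subgroup.card_le_of_le h3)
      _ = _ := by rw [← pow_mul]; ring_nf
  -- count `Y ⊓ rl T ⊥`
  have hAT : Nat.card A ≤ p ^ (α - t) * Nat.card T := by
    rw [hAc, ht, ← pow_add]
    exact Nat.pow_le_pow_right hp1.le (by omega)
  obtain ⟨x, hx, hxA⟩ := exists_gens hp hG hTA hAT
  have h5 : Nat.card (Y ⊓ rl T ⊥ : Subgroup G) ≤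
      p ^ (b * (α - t)) * Nat.card (Y ⊓ rl T ⊥ ⊓ rl A ⊥ : Subgroup G) := by
    refine gen_count hp (T := T) (U := B) bot_le (u := b) ?_ x hxA.ge ?_ ?_
    · rw [hBc]; simp
    · intro g hg i
      have : g ∈ MB A B := YB_le_MB hg.1
      exact this.2 _ (hx i)
    · intro g hg a ha
      exact hg.2 a ha
  have h6 : Nat.card (Y ⊓ rl T ⊥ ⊓ rl A ⊥ : Subgroup G) ≤ p ^ α := by
    rw [← hAc]
    refine Subgroup.card_le_of_le ?_
    intro g hg
    have := hg.2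
    rwa [hcent] at this
  calc Nat.card Y ≤ p ^ (j * (m * (k + 1))) * Nat.card (Y ⊓ rl T ⊥ : Subgroup G) := h4
    _ ≤ p ^ (j * (m * (k + 1))) * (p ^ (b * (α - t)) * p ^ α) :=
      Nat.mul_le_mul_left _ (h5.trans (Nat.mul_le_mul_left _ h6))
    _ = p ^ (j * (m * (k + 1)) + b * (α - t) + α) := by rw [pow_add, pow_add]; ring

/-- `|rl B ⊥ ⊓ rl T B ⊓ rl A T| ≤ p^{(t-b)(α-t)} |M_B|`. -/
theorem Q_count [Finite G] {p : ℕ} (hp : p.Prime) (hG : IsPGroup p G)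
    {A B T : Subgroup G} [hA : A.Normal] [hB : B.Normal] [hT : T.Normal] (hBT : B ≤ T)
    (hTA : T ≤ A) {α b t : ℕ} (hAc : Nat.card A = p ^ α) (hBc : Nat.card B = p ^ b)
    (hTc : Nat.card T = p ^ t) (hbt : b ≤ t) (htα : t ≤ α) :
    Nat.card (rl B ⊥ ⊓ rl T B ⊓ rl A T : Subgroup G) ≤
      p ^ ((t - b) * (α - t)) * Nat.card (MB A B) := by
  have hp1 : 1 < p := hp.one_lt
  have hAT : Nat.card A ≤ p ^ (α - t) * Nat.card T := by
    rw [hAc, hTc, ← pow_add]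
    exact Nat.pow_le_pow_right hp1.le (by omega)
  obtain ⟨x, hx, hxA⟩ := exists_gens hp hG hTA hAT
  have h5 : Nat.card (rl B ⊥ ⊓ rl T B ⊓ rl A T : Subgroup G) ≤
      p ^ ((t - b) * (α - t)) *
        Nat.card (rl B ⊥ ⊓ rl T B ⊓ rl A T ⊓ rl A B : Subgroup G) := by
    refine gen_count hp (T := T) (U := T) hBT (u := t - b) ?_ x hxA.ge ?_ ?_
    · rw [hBc, hTc, ← pow_add]
      exact Nat.pow_le_pow_right hp1.le (by omega)
    · intro g hg i
      exact hg.2 _ (hx i)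
    · intro g hg a ha
      exact hg.1.2 a ha
  refine h5.trans (Nat.mul_le_mul_left _ (Subgroup.card_le_of_le ?_))
  intro g hg
  exact ⟨hg.1.1.1, hg.2⟩

/-- `|G| ≤ p^{b(b-1)/2 + (t-b)(t-b-1)/2} |rl B ⊥ ⊓ rl T B|`. -/
theorem P_count [Finite G] {p : ℕ} (hp : p.Prime) (hG : IsPGroup p G)
    {B T : Subgroup G} [hB : B.Normal] [hT : T.Normal] (hBT : B ≤ T)
    {b t : ℕ} (hBc : Nat.card B = p ^ b) (hTc : Nat.card T = p ^ t) (hbt : b ≤ t) :
    Nat.card G ≤ p ^ (b * (b - 1) / 2 + (t - b) * (t - b - 1) / 2) *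
      Nat.card (rl B ⊥ ⊓ rl T B : Subgroup G) := by
  have h1 : Nat.card G ≤ p ^ (b * (b - 1) / 2) * Nat.card (rl B ⊥ : Subgroup G) := by
    refine card_le_rl hp hG bot_le ?_
    rw [hBc]; simp
  have h2 : Nat.card G ≤ p ^ ((t - b) * (t - b - 1) / 2) *
      Nat.card (rl T B : Subgroup G) := by
    refine card_le_rl hp hG hBT ?_
    rw [hBc, hTc, ← pow_add]
    congr 1; omega
  have e : Nat.card (⊤ : Subgroup G) = Nat.card G := Subgroup.card_top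
  have h3 := card_inf_inf (S := (⊤ : Subgroup G)) (H := rl B ⊥) (K := rl T B)
    (a := p ^ (b * (b - 1) / 2)) (b := p ^ ((t - b) * (t - b - 1) / 2))
    (by rw [e, top_inf_eq]; exact h1) (by rw [e, top_inf_eq]; exact h2)
  rw [e, top_inf_eq, ← pow_add] at h3
  exact h3

end MP828
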