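import Pool.Agent.Lib.MP_828a6d_al.ClA
import Pool.Agent.Lib.MP_828a6d_al.Core

/-! MP_828a6d_al (stream Cl): stable subgroups. -/

namespace MP828

open scoped commutatorElement

variable {G : Type*} [Group G]

/-- **Stable subgroup.** `|γ_{k+1}(V)| ≤ p^m`, `m < (e + 1) L`: there is `V₁ ≤ V` of index `≤ p^{m L}` such that every
`V' ≤ V₁` with `|V₁| ≤ p^m |V'|` has `|γ_{k+1}(V₁)| ≤ p^e |γ_{k+1}(V')|`.
Proof (compare `exists_stable` in TwoStable.lean). Suppose not. By induction on `l ≤ L` there is `V₁ ≤ V`,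
`|V| ≤ p^{m l} |V₁|`, `p^{(e+1) l} |it V₁ V₁ k| ≤ |it V V k|`: `l = 0`: `V₁ = V`. Step: `V₁` violates the conclusion, so there
is `V' ≤ V₁` with `|V₁| ≤ p^m |V'|` and `p^e |it V' V' k| < |it V₁ V₁ k|`, hence (orders of subgroups of a `p`-group are
powers of `p`) `p^{e+1} |it V' V' k| ≤ |it V₁ V₁ k|`. At `l = L`: `p^{(e+1) L} ≤ |it V V k| ≤ p^m`, contradiction. -/
theorem exists_stable_it [Finite G] {p m e L k : ℕ} (hp : p.Prime) (hG : IsPGroup p G) (V : Subgroup G)
    (hV : Nat.card (it V V k : Subgroup G) ≤ p ^ m) (heL : m < (e + 1) * L) :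
    ∃ V₁ ≤ V, Nat.card V ≤ p ^ (m * L) * Nat.card V₁ ∧
      ∀ V' ≤ V₁, Nat.card V₁ ≤ p ^ m * Nat.card V' →
        Nat.card (it V₁ V₁ k : Subgroup G) ≤ p ^ e * Nat.card (it V' V' k : Subgroup G) := by
  by_contra hcon
  push Not at hcon
  have hp1 : 1 < p := hp.one_lt
  have hp0 : 0 < p := hp.pos
  have key : ∀ l ≤ L, ∃ V₁ : Subgroup G, V₁ ≤ V ∧ Nat.card V ≤ p ^ (m * l) * Nat.card V₁ ∧
      p ^ ((e + 1) * l) * Nat.card (it V₁ V₁ k : Subgroup G) ≤ Nat.card (it V V k : Subgroup G) := by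
    intro l
    induction l with
    | zero =>
      intro _
      refine ⟨V, le_refl _, ?_, ?_⟩
      · simp
      · simp
    | succ l ih =>
      intro hl
      obtain ⟨V₁, h2, h3, h4⟩ := ih (by omega)
      have h3' : Nat.card V ≤ p ^ (m * L) * Nat.card V₁ :=
        h3.trans (Nat.mul_le_mul_right _ (Nat.pow_le_pow_right hp0 (Nat.mul_le_mul_left m (by omega))))
      obtain ⟨V', g2, g3, g4⟩ := hcon V₁ h2 h3'
      refine ⟨V', g2.trans h2, ?_, ?_⟩
      · calc Nat.card V ≤ p ^ (m * l) * Nat.card V₁ := h3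
          _ ≤ p ^ (m * l) * (p ^ m * Nat.card V') := Nat.mul_le_mul_left _ g3
          _ = p ^ (m * (l + 1)) * Nat.card V' := by
            rw [← mul_assoc, ← pow_add, Nat.mul_succ]
      · obtain ⟨a, ha⟩ := exists_card_eq_pow hp hG (it V₁ V₁ k : Subgroup G)
        obtain ⟨b, hb⟩ := exists_card_eq_pow hp hG (it V' V' k : Subgroup G)
        rw [ha, hb, ← pow_add] at g4
        have h5 : e + b < a := (Nat.pow_lt_pow_iff_right hp1).1 g4
        have h6 : p ^ (e + 1) * Nat.card (it V' V' k : Subgroup G) ≤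
            Nat.card (it V₁ V₁ k : Subgroup G) := by
          rw [ha, hb, ← pow_add]
          exact Nat.pow_le_pow_right hp0 (by omega)
        calc p ^ ((e + 1) * (l + 1)) * Nat.card (it V' V' k : Subgroup G)
            = p ^ ((e + 1) * l) * (p ^ (e + 1) * Nat.card (it V' V' k : Subgroup G)) := by
              rw [← mul_assoc, ← pow_add, Nat.mul_succ]
          _ ≤ p ^ ((e + 1) * l) * Nat.card (it V₁ V₁ k : Subgroup G) := Nat.mul_le_mul_left _ h6
          _ ≤ _ := h4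
  obtain ⟨V₁, -, -, h4⟩ := key L (le_refl _)
  have h5 : 1 ≤ Nat.card (it V₁ V₁ k : Subgroup G) := Nat.card_pos
  have h6 : p ^ ((e + 1) * L) ≤ p ^ m := by
    calc p ^ ((e + 1) * L) = p ^ ((e + 1) * L) * 1 := (mul_one _).symm
      _ ≤ p ^ ((e + 1) * L) * Nat.card (it V₁ V₁ k : Subgroup G) := Nat.mul_le_mul_left _ h5
      _ ≤ Nat.card (it V V k : Subgroup G) := h4
      _ ≤ p ^ m := hV
  have h7 := (Nat.pow_le_pow_iff_right hp1).1 h6
  omega

end MP828
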