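import Pool.Agent.Lib.MP_828a6d_al.ClC
import Pool.Agent.Lib.MP_828a6d_al.ClDa

/-! MP_828a6d_al (stream Cl): the reduction to class two. -/

namespace MP828

open scoped commutatorElement

variable {G : Type*} [Group G]

theorem ClD_top (V : Subgroup G) : (⊤ : Subgroup V).map V.subtype = V := by
  rw [← MonoidHom.range_eq_map, Subgroup.range_subtype]

theorem ClD_it (V : Subgroup G) (k : ℕ) :
    (it (⊤ : Subgroup V) ⊤ k).map V.subtype = it V V k := by
  rw [it_map, ClD_top]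

theorem ClD_bot (V : Subgroup G) {j : ℕ} (h : it V V j = ⊥) :
    it (⊤ : Subgroup V) ⊤ j = ⊥ := by
  rw [← Subgroup.map_eq_bot_iff_of_injective _ V.subtype_injective, ClD_it, h]

theorem ClD_abel {k : ℕ} (hk : 1 ≤ k) (V : Subgroup G) (hV : it V V (k + 2) = ⊥) :
    ∀ x ∈ it V V k, ∀ y ∈ it V V k, x * y = y * x := by
  intro x hx y hy
  rw [← ClD_it V k] at hx hy
  obtain ⟨a, ha, rfl⟩ := hx
  obtain ⟨b, hb, rfl⟩ := hy
  rw [← map_mul, ← map_mul, gamma_abelian hk (ClD_bot V hV) a ha b hb]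

/-- **One class down.** `k ≥ 1`, `V` of class `≤ k + 2`: there is `V' ≤ V` of class `≤ k + 1` and index `≤ p^{m L + e m}`.
Proof. `|it V V k| ≤ p^m`, since it is abelian (`gamma_abelian` in the group `V`, or directly) . `V₁` from
`exists_stable_it`. Apply `class_step` to the group `↥V₁`: subgroups `H` of `↥V₁` correspond to `H.map V₁.subtype ≤ V₁`, of the
same order, and `(it H H k).map V₁.subtype = it (H.map _) (H.map _) k` (`it_map`), `(⊤ : Subgroup V₁).map V₁.subtype = V₁`;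
abelian subgroups map to abelian ones. Let `C = rl (it ⊤ ⊤ k) ⊥ ≤ ↥V₁` and `V' = C.map V₁.subtype`:
`it C C (k+1) = ⁅it C C k, C⁆ ≤ ⁅it ⊤ ⊤ k, C⁆ = ⊥`. -/
theorem class_down [Finite G] {p m e L k : ℕ} (hp : p.Prime) (hG : IsPGroup p G) (hk : 1 ≤ k)
    (hm : ∀ H : Subgroup G, (∀ x ∈ H, ∀ y ∈ H, x * y = y * x) → Nat.card H ≤ p ^ m)
    (heL : m < (e + 1) * L) (V : Subgroup G) (hV : it V V (k + 2) = ⊥) :
    ∃ V' ≤ V, Nat.card V ≤ p ^ (m * L + e * m) * Nat.card V' ∧ it V' V' (k + 1) = ⊥ := by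
  have hab := ClD_abel hk V hV
  obtain ⟨V₁, hV₁, hc₁, hst⟩ := exists_stable_it hp hG V (hm _ hab) heL
  have hbot : it V₁ V₁ (k + 2) = ⊥ := by
    rw [eq_bot_iff, ← hV]
    exact it_mono hV₁ hV₁ _
  have hstep := class_step (G := V₁) (e := e) hp (hG.to_subgroup V₁) hk
    (fun H hH => by
      rw [← Subgroup.card_map_of_injective (K := H) V₁.subtype_injective]
      refine hm _ ?_
      rintro _ ⟨a, ha, rfl⟩ _ ⟨b, hb, rfl⟩
      rw [← map_mul, ← map_mul, hH a ha b hb])
    (ClD_bot V₁ hbot)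
    (fun H hH => by
      have h1 : Nat.card (it (⊤ : Subgroup V₁) ⊤ k : Subgroup V₁) =
          Nat.card (it V₁ V₁ k : Subgroup G) := by
        rw [← ClD_it V₁ k, Subgroup.card_map_of_injective V₁.subtype_injective]
      have h2 : Nat.card (it H H k : Subgroup V₁) =
          Nat.card (it (H.map V₁.subtype) (H.map V₁.subtype) k : Subgroup G) := by
        rw [← it_map, Subgroup.card_map_of_injective V₁.subtype_injective]
      rw [h1, h2]
      refine hst _ (Subgroup.map_subtype_le H) ?_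
      rw [Subgroup.card_map_of_injective V₁.subtype_injective]
      exact hH)
  refine ⟨(rl (it (⊤ : Subgroup V₁) ⊤ k) ⊥ : Subgroup V₁).map V₁.subtype,
    (Subgroup.map_subtype_le _).trans hV₁, ?_, ?_⟩
  · rw [Subgroup.card_map_of_injective V₁.subtype_injective]
    calc Nat.card V ≤ p ^ (m * L) * Nat.card V₁ := hc₁
      _ ≤ p ^ (m * L) * (p ^ (e * m) *
          Nat.card (rl (it (⊤ : Subgroup V₁) ⊤ k) ⊥ : Subgroup V₁)) :=
          Nat.mul_le_mul_left _ hstep
      _ = _ := by rw [pow_add]; ring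
  · rw [← it_map, Subgroup.map_eq_bot_iff_of_injective _ V₁.subtype_injective, it_succ, eq_bot_iff,
      Subgroup.commutator_le]
    intro a ha b hb
    exact rl_comm' hb (it_mono le_top le_top k ha)

/-- **Down to class two.** `V` of class `≤ c + 2`: there is `V' ≤ V` of class `≤ 2` and index `≤ p^{c (m L + e m)}`.
Induction on `c` with `class_down` (`k = c`). -/
theorem to_class_two [Finite G] {p m e L : ℕ} (hp : p.Prime) (hG : IsPGroup p G)
    (hm : ∀ H : Subgroup G, (∀ x ∈ H, ∀ y ∈ H, x * y = y * x) → Nat.card H ≤ p ^ m)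
    (heL : m < (e + 1) * L) (c : ℕ) (V : Subgroup G) (hV : it V V (c + 2) = ⊥) :
    ∃ V' ≤ V, Nat.card V ≤ p ^ (c * (m * L + e * m)) * Nat.card V' ∧ it V' V' 2 = ⊥ := by
  induction c generalizing V with
  | zero =>
    refine ⟨V, le_rfl, ?_, hV⟩
    rw [Nat.zero_mul, pow_zero, one_mul]
  | succ c ih =>
    obtain ⟨V₁, h1, h2, h3⟩ := class_down (k := c + 1) hp hG (Nat.succ_le_succ (Nat.zero_le c)) hm
      heL V hV
    obtain ⟨V₂, h4, h5, h6⟩ := ih V₁ h3
    refine ⟨V₂, h4.trans h1, ?_, h6⟩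
    calc Nat.card V ≤ p ^ (m * L + e * m) * Nat.card V₁ := h2
      _ ≤ p ^ (m * L + e * m) * (p ^ (c * (m * L + e * m)) * Nat.card V₂) :=
          Nat.mul_le_mul_left _ h5
      _ = _ := by
          rw [← mul_assoc, ← pow_add]
          congr 2
          ring

end MP828
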