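import Pool.Agent.Lib.MP_828a6d_al.TwoLayA

/-! MP_828a6d_al (stream Two): commutators of the groups `lay w`. -/

namespace MP828

open scoped commutatorElement

variable {G : Type*} [Group G]

theorem lay_antitone {L : ℕ → Subgroup G} (hL : ∀ i, (L i).Normal) (hmono : ∀ i, L (i + 1) ≤ L i)
    {w w' : ℕ} (h : w ≤ w') : lay L hL w' ≤ lay L hL w := by
  have hanti : Antitone L := antitone_nat_of_succ_le hmono
  intro g hg
  rw [mem_lay] at hg ⊢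
  intro i a ha
  exact hanti (Nat.add_le_add_left h i) (hg i a ha)

/-- `[lay w, lay w] ≤ lay (2 w)` for `L 0` abelian.
Proof. All `L i` lie in the abelian group `A = L 0`. For `u = g h`, `v = h g`, `a ∈ L i`:
`g h a h⁻¹ g⁻¹ = ⁅g, ⁅h, a⁆⁆ ⁅h, a⁆ ⁅g, a⁆ a`, with `⁅g, ⁅h, a⁆⁆ ∈ L (i + 2w)`, and symmetrically for `h g`; the factors
commute, so `(gh) a (gh)⁻¹ · ((hg) a (hg)⁻¹)⁻¹ ∈ L (i + 2w)`. Now `⁅g, h⁆ = (g h)(h g)⁻¹`; apply this to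
`a = (h g)⁻¹ b (h g)`, `b ∈ L i`: `⁅g,h⁆ b ⁅g,h⁆⁻¹ b⁻¹ ∈ L (i + 2 w)`. -/
theorem comm_lay {L : ℕ → Subgroup G} (hL : ∀ i, (L i).Normal) (hmono : ∀ i, L (i + 1) ≤ L i)
    (hab : ∀ x ∈ L 0, ∀ y ∈ L 0, x * y = y * x) {w : ℕ} {g h : G} (hg : g ∈ lay L hL w)
    (hh : h ∈ lay L hL w) : ⁅g, h⁆ ∈ lay L hL (2 * w) := by
  have hanti : Antitone L := antitone_nat_of_succ_le hmono
  have h0 : ∀ i, L i ≤ L 0 := fun i => hanti (Nat.zero_le i)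
  have key : ∀ u ∈ lay L hL w, ∀ v ∈ lay L hL w, ∀ i, ∀ a ∈ L i,
      ∃ c ∈ L (i + 2 * w), u * v * a * (u * v)⁻¹ = c * (⁅v, a⁆ * ⁅u, a⁆ * a) := by
    intro u hu v hv i a ha
    refine ⟨⁅u, ⁅v, a⁆⁆, ?_, ?_⟩
    · have h1 := mem_lay.1 hv i a ha
      have h2 := mem_lay.1 hu _ _ h1
      have e : i + w + w = i + 2 * w := by ring
      rwa [e] at h2
    · simp only [commutatorElement_def]
      group
  rw [mem_lay]
  intro i b hb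
  have ha : (h * g)⁻¹ * b * (h * g) ∈ L i := by
    have := (hL i).conj_mem b hb (h * g)⁻¹
    simpa using this
  obtain ⟨c, hc, e1⟩ := key g hg h hh i _ ha
  obtain ⟨c', hc', e2⟩ := key h hh g hg i _ ha
  set a := (h * g)⁻¹ * b * (h * g) with hadef
  have e3 : ⁅h, a⁆ * ⁅g, a⁆ = ⁅g, a⁆ * ⁅h, a⁆ :=
    hab _ (h0 _ (mem_lay.1 hh i a ha)) _ (h0 _ (mem_lay.1 hg i a ha))
  have e4 : h * g * a * (h * g)⁻¹ = b := by
    rw [hadef]
    group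
  have e5 : g * h * a * (g * h)⁻¹ = ⁅g, h⁆ * b * ⁅g, h⁆⁻¹ := by
    rw [hadef]
    simp only [commutatorElement_def]
    group
  have e6 : ⁅⁅g, h⁆, b⁆ = c * c'⁻¹ := by
    have : ⁅⁅g, h⁆, b⁆ = (g * h * a * (g * h)⁻¹) * (h * g * a * (h * g)⁻¹)⁻¹ := by
      rw [e5, e4, commutatorElement_def ⁅g, h⁆ b]
    rw [this, e1, e2, e3]
    group
  rw [e6]
  exact (L _).mul_mem hc ((L _).inv_mem hc')

/-- `lay w` centralizes `L 0` when `s ≤ w` and `L s = ⊥`. -/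
theorem lay_centralizes {L : ℕ → Subgroup G} (hL : ∀ i, (L i).Normal) {s w : ℕ}
    (hbot : ∀ i, s ≤ i → L i = ⊥) (hw : s ≤ w) {g : G} (hg : g ∈ lay L hL w) :
    ∀ a ∈ L 0, g * a = a * g := by
  intro a ha
  have h := mem_lay.1 hg 0 a ha
  rw [Nat.zero_add, hbot w hw, Subgroup.mem_bot, commutatorElement_eq_one_iff_mul_comm] at h
  exact h

end MP828
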