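import Pool.Agent.Lib.MP_828a6d_al.ClA
import Pool.Agent.Lib.MP_828a6d_al.TwoLayB

/-! MP_828a6d_al (stream Cl): a subgroup of small index and bounded class. -/

namespace MP828

open scoped commutatorElement

variable {G : Type*} [Group G]

/-- `[lay w, lay w'] ≤ lay (w + w')` for `L 0` abelian. Same proof as `comm_lay` in TwoLayB.lean: all `L i` lie in the abelian
group `A = L 0`. For `a ∈ L i`: `g h a h⁻¹ g⁻¹ = ⁅g, ⁅h, a⁆⁆ ⁅h, a⁆ ⁅g, a⁆ a` with `⁅g, ⁅h, a⁆⁆ ∈ L (i + w' + w)`, symmetrically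
for `h g`; the factors commute, so `(gh) a (gh)⁻¹ ((hg) a (hg)⁻¹)⁻¹ ∈ L (i + w + w')`. Now `⁅g, h⁆ = (g h)(h g)⁻¹`; apply
this to `a = (h g)⁻¹ b (h g)`, `b ∈ L i`. -/
theorem comm_lay_gen {L : ℕ → Subgroup G} (hL : ∀ i, (L i).Normal) (hmono : ∀ i, L (i + 1) ≤ L i)
    (hab : ∀ x ∈ L 0, ∀ y ∈ L 0, x * y = y * x) {w w' : ℕ} {g h : G} (hg : g ∈ lay L hL w)
    (hh : h ∈ lay L hL w') : ⁅g, h⁆ ∈ lay L hL (w + w') := by
  have hanti : Antitone L := antitone_nat_of_succ_le hmono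
  have h0 : ∀ i, L i ≤ L 0 := fun i => hanti (Nat.zero_le i)
  have key : ∀ (w1 w2 : ℕ) (u v : G), u ∈ lay L hL w1 → v ∈ lay L hL w2 → ∀ i, ∀ a ∈ L i,
      ∃ c ∈ L (i + w2 + w1), u * v * a * (u * v)⁻¹ = c * (⁅v, a⁆ * ⁅u, a⁆ * a) := by
    intro w1 w2 u v hu hv i a ha
    refine ⟨⁅u, ⁅v, a⁆⁆, ?_, ?_⟩
    · have h1 := mem_lay.1 hv i a ha
      exact mem_lay.1 hu _ _ h1
    · simp only [commutatorElement_def]
      group
  rw [mem_lay]
  intro i b hb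
  have ha : (h * g)⁻¹ * b * (h * g) ∈ L i := by
    have := (hL i).conj_mem b hb (h * g)⁻¹
    simpa using this
  obtain ⟨c, hc, e1⟩ := key w w' g h hg hh i _ ha
  obtain ⟨c', hc', e2⟩ := key w' w h g hh hg i _ ha
  set a := (h * g)⁻¹ * b * (h * g) with hadef
  have e3 : ⁅h, a⁆ * ⁅g, a⁆ = ⁅g, a⁆ * ⁅h, a⁆ :=
    hab _ (h0 _ (mem_lay.1 hh i a ha)) _ (h0 _ (mem_lay.1 hg i a ha))
  have e4 : h * g * a * (h * g)⁻¹ = b := by
    rw [hadef]
    group
  have e5 : g * h * a * (g * h)⁻¹ = ⁅g, h⁆ * b * ⁅g, h⁆⁻¹ := by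
    rw [hadef]
    simp only [commutatorElement_def]
    group
  have e6 : ⁅⁅g, h⁆, b⁆ = c * c'⁻¹ := by
    have : ⁅⁅g, h⁆, b⁆ = (g * h * a * (g * h)⁻¹) * (h * g * a * (h * g)⁻¹)⁻¹ := by
      rw [e5, e4, commutatorElement_def ⁅g, h⁆ b]
    rw [this, e1, e2, e3]
    group
  have i1 : i + w' + w = i + (w + w') := by omega
  have i2 : i + w + w' = i + (w + w') := by omega
  rw [i1] at hc
  rw [i2] at hc'
  rw [e6]
  exact (L _).mul_mem hc ((L _).inv_mem hc')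

/-- With `V = lay L 1`: `it V V j ≤ lay L (j + 1)` (induction, `comm_lay_gen`, `Subgroup.commutator_le`). -/
theorem it_lay_le {L : ℕ → Subgroup G} (hL : ∀ i, (L i).Normal) (hmono : ∀ i, L (i + 1) ≤ L i)
    (hab : ∀ x ∈ L 0, ∀ y ∈ L 0, x * y = y * x) (j : ℕ) :
    it (lay L hL 1) (lay L hL 1) j ≤ lay L hL (j + 1) := by
  induction j with
  | zero => exact le_refl _
  | succ j ih =>
    rw [it_succ]
    exact Subgroup.commutator_le.2 fun g hg h hh => comm_lay_gen hL hmono hab (ih hg) hh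

/-- `rl (L 0) ⊥ = L 0` and `L i = ⊥` for `i ≥ s`: `it V V (2 s) = ⊥` for `V = lay L 1`.
Proof: `it V V s ≤ lay L (s+1) ≤ rl (L 0) ⊥ = L 0` (`it_lay_le`, `lay_centralizes`, `mem_rl_bot`); by induction on `j`
`it V V (s + j) ≤ L j` (`⁅L j, V⁆ ≤ L (j+1)` by `mem_lay`, up to an inverse); and `L s = ⊥`. -/
theorem it_lay_bot {L : ℕ → Subgroup G} (hL : ∀ i, (L i).Normal) (hmono : ∀ i, L (i + 1) ≤ L i)
    (hab : ∀ x ∈ L 0, ∀ y ∈ L 0, x * y = y * x) (hA : @rl G _ (L 0) ⊥ (hL 0) = L 0) {s : ℕ}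
    (hbot : ∀ i, s ≤ i → L i = ⊥) :
    it (lay L hL 1) (lay L hL 1) (2 * s) = ⊥ := by
  have h1 : it (lay L hL 1) (lay L hL 1) s ≤ L 0 := by
    intro g hg
    have hg2 := it_lay_le hL hmono hab s hg
    have := hL 0
    rw [← hA]
    exact mem_rl_bot.2 (lay_centralizes hL hbot (Nat.le_succ s) hg2)
  have h2 : ∀ j, it (lay L hL 1) (lay L hL 1) (s + j) ≤ L j := by
    intro j
    induction j with
    | zero => exact h1
    | succ j ih =>
      rw [← Nat.add_assoc, it_succ]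
      refine Subgroup.commutator_le.2 fun x hx v hv => ?_
      have h3 := (L (j + 1)).inv_mem (mem_lay.1 hv j x (ih hx))
      rwa [commutatorElement_inv] at h3
  have h3 := h2 s
  rw [hbot s le_rfl, ← Nat.two_mul] at h3
  exact (eq_bot_iff).2 h3

/-- **Bounded class.** `s ≥ 1`, abelian subgroups of order `≤ p^m`: there is a subgroup `V` of class `≤ 2 s` and index
`≤ p^{s (a (a-1)/2)}`, `a = m / s + 1`.
Proof. `A` from `exists_maxAb` (Flag.lean), `|A| = p^α` (`exists_card_eq_pow` in Core.lean, or `IsPGroup`), `α ≤ m ≤ a s`;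
`exists_layers`, `card_le_lay`, `it_lay_bot`. -/
theorem exists_bounded_class [Finite G] {p m : ℕ} (hp : p.Prime) (hG : IsPGroup p G)
    (hm : ∀ H : Subgroup G, (∀ x ∈ H, ∀ y ∈ H, x * y = y * x) → Nat.card H ≤ p ^ m) {s : ℕ} (hs : 1 ≤ s) :
    ∃ V : Subgroup G, Nat.card G ≤ p ^ (s * ((m / s + 1) * (m / s) / 2)) * Nat.card V ∧
      it V V (2 * s) = ⊥ := by
  obtain ⟨A, hAn, hab, hA⟩ := exists_maxAb hp hG
  have : Fact p.Prime := ⟨hp⟩
  obtain ⟨α, hα⟩ := (hG.to_subgroup A).exists_card_eq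
  have h1 : α ≤ m := by
    have h2 := hm A hab
    rw [hα] at h2
    exact (Nat.pow_le_pow_iff_right hp.one_lt).1 h2
  have h2 : α ≤ (m / s + 1) * s := by
    have h3 := Nat.div_add_mod m s
    have h4 := Nat.mod_lt m (show 0 < s by omega)
    have h5 : (m / s + 1) * s = s * (m / s) + s := by ring
    omega
  obtain ⟨L, hLn, hL0, hmono, hbot, hj⟩ := exists_layers hp hG hα h2
  subst hL0
  refine ⟨lay L hLn 1, ?_, it_lay_bot hLn hmono hab hA hbot⟩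
  have h3 := card_le_lay hp hG hLn hmono hbot hj
  rwa [Nat.add_sub_cancel] at h3

end MP828
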