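import Pool.Agent.Lib.MP_828a6d_al.ClA
import Pool.Agent.Lib.MP_828a6d_al.Gens
import Pool.Agent.Lib.MP_828a6d_al.Flag
import Pool.Agent.Lib.MP_828a6d_al.Core

/-! MP_828a6d_al (stream Cl): groups of class two. -/

namespace MP828

open scoped commutatorElement

variable {G : Type*} [Group G]

private theorem ClFa_top [Finite G] {p m n : ℕ} (hp : p.Prime) (hG : IsPGroup p G)
    (hm : ∀ H : Subgroup G, (∀ x ∈ H, ∀ y ∈ H, x * y = y * x) → Nat.card H ≤ p ^ m)
    (hV : it (⊤ : Subgroup G) ⊤ 2 = ⊥) (hn : Nat.card G = p ^ n) : 4 * n ≤ m ^ 2 + 4 * m := by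
  obtain ⟨A, hAn, hab, hA⟩ := exists_maxAb hp hG
  obtain ⟨a, ha⟩ := exists_card_eq_pow hp hG A
  have ham : a ≤ m := by
    have h2 := hm A hab
    rw [ha] at h2
    exact (Nat.pow_le_pow_iff_right hp.one_lt).1 h2
  obtain ⟨D, hD⟩ : ∃ D : Subgroup G, D = ⁅(⊤ : Subgroup G), ⊤⁆ := ⟨_, rfl⟩
  have hDn : D.Normal := by
    rw [hD]
    infer_instance
  have hD2 : ⁅D, (⊤ : Subgroup G)⁆ = ⊥ := by
    rw [hD]
    exact hV
  have hDc : ∀ d ∈ D, ∀ g : G, ⁅g, d⁆ = 1 := by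
    intro d hd g
    have h1 : ⁅d, g⁆ ∈ ⁅D, (⊤ : Subgroup G)⁆ := Subgroup.commutator_mem_commutator hd (Subgroup.mem_top g)
    rw [hD2, Subgroup.mem_bot] at h1
    rw [← commutatorElement_inv, h1, inv_one]
  have hDA : D ≤ A := by
    intro d hd
    rw [← hA]
    refine mem_rl_bot.2 fun x _ => ?_
    exact (commutatorElement_eq_one_iff_mul_comm.1 (hDc d hd x)).symm
  obtain ⟨z, hz⟩ := exists_card_eq_pow hp hG D
  have hza : z ≤ a := by
    have h2 := Subgroup.card_le_of_le hDA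
    rw [hz, ha] at h2
    exact (Nat.pow_le_pow_iff_right hp.one_lt).1 h2
  obtain ⟨x, hxA, hx⟩ := exists_gens hp hG hDA (r := a - z) (by
    rw [ha, hz, ← pow_add]
    exact Nat.pow_le_pow_right hp.pos (by omega))
  have h1 := gen_count hp (S := (⊤ : Subgroup G)) (T := D) (A := A) (U := D) (V := (⊥ : Subgroup G)) bot_le
    (u := z) (by rw [hz, Subgroup.card_bot, mul_one]) x (le_of_eq hx.symm)
    (fun g _ i => by
      rw [hD]
      exact Subgroup.commutator_mem_commutator (Subgroup.mem_top g) (Subgroup.mem_top (x i)))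
    (fun g _ d hd => by
      rw [hDc d hd g]
      exact one_mem _)
  rw [Subgroup.card_top, hn, top_inf_eq, hA, ha, ← pow_add] at h1
  have h2 : n ≤ z * (a - z) + a := (Nat.pow_le_pow_iff_right hp.one_lt).1 h1
  obtain ⟨b, rfl⟩ := Nat.exists_eq_add_of_le hza
  rw [Nat.add_sub_cancel_left] at h2
  have h3 : 4 * (z * b) ≤ (z + b) ^ 2 := by
    rcases Nat.le_total z b with h4 | h4
    · obtain ⟨c, rfl⟩ := Nat.exists_eq_add_of_le h4
      nlinarith [Nat.zero_le (c * c)]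
    · obtain ⟨c, rfl⟩ := Nat.exists_eq_add_of_le h4
      nlinarith [Nat.zero_le (c * c)]
  have h4 : (z + b) ^ 2 ≤ m ^ 2 := Nat.pow_le_pow_left ham 2
  omega

/-- **Class two groups.** `|V| = p^n`, `V` of class `≤ 2`, abelian subgroups of order `≤ p^m`: `4 n ≤ m² + 4 m`.
Proof. Apply the following to the group `G := ↥V` (so assume `V = ⊤`). `A` from `exists_maxAb`, `|A| = p^a`, `a ≤ m`;
`D = it ⊤ ⊤ 1 = ⁅⊤, ⊤⁆` is central (`⁅D, ⊤⁆ = ⊥`), so `D ≤ rl A ⊥ = A`, `|D| = p^z`, `z ≤ a`. `exists_gens` (`V = D`, `W = A`,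
`r = a - z`): `x : Fin (a - z) → G`, `D ⊔ closure (range x) = A`. `gen_count` with `S = ⊤`, `T = D`, `A`, `U = D`, `V = ⊥`,
`u = z`, `l = a - z`: `|G| ≤ p^{z (a - z)} |rl A ⊥| = p^{z (a - z) + a}`, and `4 z (a - z) ≤ a²`. -/
theorem class_two_bound [Finite G] {p m n : ℕ} (hp : p.Prime) (hG : IsPGroup p G)
    (hm : ∀ H : Subgroup G, (∀ x ∈ H, ∀ y ∈ H, x * y = y * x) → Nat.card H ≤ p ^ m)
    (V : Subgroup G) (hV : it V V 2 = ⊥) (hn : Nat.card V = p ^ n) : 4 * n ≤ m ^ 2 + 4 * m := by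
  have hGV : IsPGroup p V := hG.to_subgroup V
  have htop : (⊤ : Subgroup V).map V.subtype = V := by
    rw [← MonoidHom.range_eq_map, Subgroup.range_subtype]
  refine ClFa_top hp hGV (fun H hH => ?_) ?_ hn
  · have h1 := hm (H.map V.subtype) (by
      rintro _ ⟨x, hx, rfl⟩ _ ⟨y, hy, rfl⟩
      rw [← map_mul, ← map_mul, hH x hx y hy])
    rwa [Subgroup.card_map_of_injective V.subtype_injective] at h1
  · rw [← Subgroup.map_eq_bot_iff_of_injective _ V.subtype_injective, it_map, htop]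
    exact hV

end MP828
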