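import Pool.Agent.Lib.MP_828a6d_al.ClD
import Pool.Agent.Lib.MP_828a6d_al.ClE
import Pool.Agent.Lib.MP_828a6d_al.ClFa

/-! MP_828a6d_al (stream Cl): the class two subgroup and the inequality `4 n ≤ m² + o(m²)`. -/

namespace MP828

open scoped commutatorElement

variable {G : Type*} [Group G]

/-- The exponent of the index of the class two subgroup. -/
def clE (m s : ℕ) : ℕ := s * ((m / s + 1) * (m / s) / 2) + (2 * s - 2) * (2 * m * (Nat.sqrt m + 1))

/-- **Class two subgroup.** `exists_bounded_class`, then `to_class_two` with `c = 2 s - 2`, `e = L = √m + 1`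
(`m < (√m + 1)² ≤ (e + 1) L`, `Nat.sqrt_lt_self`/`Nat.lt_succ_sqrt`). -/
theorem exists_class_two [Finite G] {p m : ℕ} (hp : p.Prime) (hG : IsPGroup p G)
    (hm : ∀ H : Subgroup G, (∀ x ∈ H, ∀ y ∈ H, x * y = y * x) → Nat.card H ≤ p ^ m) {s : ℕ} (hs : 1 ≤ s) :
    ∃ V : Subgroup G, Nat.card G ≤ p ^ clE m s * Nat.card V ∧ it V V 2 = ⊥ := by
  obtain ⟨V, hV, hb⟩ := exists_bounded_class hp hG hm hs
  have hL : m < (Nat.sqrt m + 1 + 1) * (Nat.sqrt m + 1) := by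
    have h := Nat.lt_succ_sqrt m
    have h' : (Nat.sqrt m).succ * (Nat.sqrt m).succ ≤ (Nat.sqrt m + 1 + 1) * (Nat.sqrt m + 1) :=
      Nat.mul_le_mul (by simp) (le_refl _)
    exact lt_of_lt_of_le h h'
  have h2 : 2 * s = (2 * s - 2) + 2 := by omega
  rw [h2] at hb
  obtain ⟨V', -, hV', hb'⟩ := to_class_two hp hG hm hL (2 * s - 2) V hb
  refine ⟨V', ?_, hb'⟩
  have he : p ^ clE m s = p ^ (s * ((m / s + 1) * (m / s) / 2)) *
      p ^ ((2 * s - 2) * (m * (Nat.sqrt m + 1) + (Nat.sqrt m + 1) * m)) := by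
    rw [← pow_add]
    congr 1
    unfold clE
    ring
  calc Nat.card G ≤ _ := hV
    _ ≤ p ^ (s * ((m / s + 1) * (m / s) / 2)) *
        (p ^ ((2 * s - 2) * (m * (Nat.sqrt m + 1) + (Nat.sqrt m + 1) * m)) * Nat.card V') :=
      Nat.mul_le_mul_left _ hV'
    _ = p ^ clE m s * Nat.card V' := by rw [he, mul_assoc]

/-- **The inequality.** `|G| = p^n`: `4 n ≤ m² + 4 m + 4 clE m s`. -/
theorem main_ineq [Finite G] {p m n : ℕ} (hp : p.Prime) (hn : Nat.card G = p ^ n)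
    (hm : ∀ H : Subgroup G, (∀ x ∈ H, ∀ y ∈ H, x * y = y * x) → Nat.card H ≤ p ^ m) {s : ℕ} (hs : 1 ≤ s) :
    4 * n ≤ m ^ 2 + 4 * m + 4 * clE m s := by
  have hG : IsPGroup p G := IsPGroup.of_card hn
  obtain ⟨V, hV, hb⟩ := exists_class_two hp hG hm hs
  obtain ⟨t, ht⟩ := exists_card_eq_pow hp hG V
  have h1 := class_two_bound hp hG hm V hb ht
  rw [hn, ht, ← pow_add] at hV
  have h2 := (Nat.pow_le_pow_iff_right hp.one_lt).1 hV
  omega

end MP828
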