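import Pool.Agent.Lib.MP_828a6d_al.ClF
import Pool.Agent.Lib.MP_828a6d_al.Final

/-! MP_828a6d_al (stream Cl): real asymptotics. -/

namespace MP828

open scoped commutatorElement

/-- With `s = qf m ≈ m^{1/4}` (Asym.lean: `one_le_qf`, `le_qf_pow : m ≤ qf m ^ 4`, `Asym_qf : qf m ≤ 2 m^{1/4}`) the exponent
is at most `18 m^{7/4}`.
Proof. `m = 0` is trivial (both sides `0`). `m ≥ 1`: `m / s ≤ m^{3/4}` (as `s ≥ m^{1/4}`), `s ≤ 2 m^{1/4} ≤ 2 m`,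
`s ((m/s + 1)(m/s)/2) ≤ (m + s) (m/s) / 2 ≤ (3/2) m^{7/4}`, and
`(2 s - 2) · 2 m (√m + 1) ≤ (2 s) (4 m^{3/2}) ≤ 16 m^{7/4}`. -/
theorem clE_le (m : ℕ) : (clE m (qf m) : ℝ) ≤ 18 * (m : ℝ) ^ (7 / 4 : ℝ) := by
  rcases Nat.eq_zero_or_pos m with rfl | hm
  · unfold clE
    simp
  set a : ℝ := (m : ℝ) ^ (1 / 4 : ℝ) with ha
  have hm1 : (1 : ℝ) ≤ m := by exact_mod_cast hm
  have ha1 : 1 ≤ a := Real.one_le_rpow hm1 (by norm_num)
  have ha0 : 0 < a := by linarith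
  have ha4 : a ^ 4 = m := by
    rw [ha, ← Real.rpow_natCast, ← Real.rpow_mul (by positivity)]
    norm_num
  have ha7 : a ^ 7 = (m : ℝ) ^ (7 / 4 : ℝ) := by
    rw [ha, ← Real.rpow_natCast, ← Real.rpow_mul (by positivity)]
    norm_num
  set s := qf m with hs
  have hs1 : 1 ≤ s := one_le_qf m
  have hsR1 : (1 : ℝ) ≤ s := by exact_mod_cast hs1
  have hs2 : (s : ℝ) ≤ 2 * a := Asym_qf m hm
  have hs3 : a ≤ s := by
    have h1 : (m : ℝ) ≤ (s : ℝ) ^ 4 := by exact_mod_cast le_qf_pow m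
    rw [← ha4] at h1
    exact le_of_pow_le_pow_left₀ (by norm_num) (by positivity) h1
  set D := m / s with hD
  have hDs : (s : ℝ) * D ≤ a ^ 4 := by
    rw [ha4]
    exact_mod_cast Nat.mul_div_le m s
  have hD0 : (0 : ℝ) ≤ D := Nat.cast_nonneg _
  have hD3 : (D : ℝ) ≤ a ^ 3 := by
    have h1 : a * D ≤ a * a ^ 3 := by
      calc a * D ≤ s * D := mul_le_mul_of_nonneg_right hs3 hD0
        _ ≤ a ^ 4 := hDs
        _ = a * a ^ 3 := by ring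
    exact le_of_mul_le_mul_left h1 ha0
  have hq : (Nat.sqrt m : ℝ) ≤ a ^ 2 := by
    have h1 : ((Nat.sqrt m : ℕ) : ℝ) ^ 2 ≤ (a ^ 2) ^ 2 := by
      have h2 : (Nat.sqrt m) ^ 2 ≤ m := Nat.sqrt_le' m
      calc ((Nat.sqrt m : ℕ) : ℝ) ^ 2 ≤ m := by exact_mod_cast h2
        _ = (a ^ 2) ^ 2 := by rw [← ha4]; ring
    exact le_of_pow_le_pow_left₀ (by norm_num) (by positivity) h1
  have h1 : (((D + 1) * D / 2 : ℕ) : ℝ) ≤ ((D : ℝ) + 1) * D / 2 := by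
    have := Nat.cast_div_le (α := ℝ) (m := (D + 1) * D) (n := 2)
    push_cast at this
    exact this
  have h2 : ((2 * s - 2 : ℕ) : ℝ) ≤ 4 * a := by
    have h3 : (2 * s - 2 : ℕ) ≤ 2 * s := Nat.sub_le _ _
    have h4 : ((2 * s - 2 : ℕ) : ℝ) ≤ 2 * s := by exact_mod_cast h3
    linarith
  have hfirst : (s : ℝ) * (((D + 1) * D / 2 : ℕ) : ℝ) ≤ 3 / 2 * a ^ 7 := by
    calc (s : ℝ) * (((D + 1) * D / 2 : ℕ) : ℝ) ≤ s * (((D : ℝ) + 1) * D / 2) :=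
          mul_le_mul_of_nonneg_left h1 (by linarith)
      _ = (s * D + s) * D / 2 := by ring
      _ ≤ (a ^ 4 + 2 * a) * a ^ 3 / 2 := by
          apply div_le_div_of_nonneg_right _ (by norm_num)
          apply mul_le_mul (add_le_add hDs hs2) hD3 hD0 (by positivity)
      _ ≤ (a ^ 4 + 2 * a ^ 4) * a ^ 3 / 2 := by
          apply div_le_div_of_nonneg_right _ (by norm_num)
          apply mul_le_mul_of_nonneg_right _ (by positivity)
          have h5 : a ≤ a ^ 4 := le_self_pow₀ ha1 (by norm_num)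
          linarith
      _ = 3 / 2 * a ^ 7 := by ring
  have hsecond : ((2 * s - 2 : ℕ) : ℝ) * (2 * m * ((Nat.sqrt m : ℝ) + 1)) ≤ 16 * a ^ 7 := by
    have h6 : 2 * (m : ℝ) * ((Nat.sqrt m : ℝ) + 1) ≤ 4 * a ^ 6 := by
      have h7 : (1 : ℝ) ≤ a ^ 2 := one_le_pow₀ ha1
      calc 2 * (m : ℝ) * ((Nat.sqrt m : ℝ) + 1) ≤ 2 * a ^ 4 * (a ^ 2 + a ^ 2) := by
            rw [← ha4]
            apply mul_le_mul_of_nonneg_left (by linarith) (by positivity)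
        _ = 4 * a ^ 6 := by ring
    calc ((2 * s - 2 : ℕ) : ℝ) * (2 * m * ((Nat.sqrt m : ℝ) + 1)) ≤ (4 * a) * (4 * a ^ 6) :=
          mul_le_mul h2 h6 (by positivity) (by positivity)
      _ = 16 * a ^ 7 := by ring
  have hcl : (clE m s : ℝ) = (s : ℝ) * (((D + 1) * D / 2 : ℕ) : ℝ) +
      ((2 * s - 2 : ℕ) : ℝ) * (2 * m * ((Nat.sqrt m : ℝ) + 1)) := by
    unfold clE
    rw [← hD, Nat.cast_add, Nat.cast_mul, Nat.cast_mul]
    push_cast
    ring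
  rw [hcl, ← ha7]
  have : 0 < a ^ 7 := by positivity
  linarith

/-- **Explicit lower bound.** `2 √n - 76 n^{3/8} ≤ m_p(n)` for every prime `p` and every `n`.
Proof. `m = sSup (mset p n)`, the group `G` from `exists_group` (Final.lean), finite. `main_ineq` with `s = qf m` and `clE_le`:
`4 n ≤ m² + 4 m + 72 m^{7/4} ≤ m² + 76 m^{7/4} ≤ (m + 38 m^{3/4})²` (`m ≥ 1`; if `m = 0` then `n = 0`), so
`2 √n ≤ m + 38 m^{3/4}`. If `m ≥ 2 √n` we are done; otherwise `m^{3/4} ≤ (2 √n)^{3/4} ≤ 2 n^{3/8}`. (`0 ^ (3/8) = 0`.) -/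
theorem explicit_two {p : ℕ} (hp : p.Prime) (n : ℕ) :
    2 * Real.sqrt (n : ℝ) - 76 * (n : ℝ) ^ (3 / 8 : ℝ) ≤ ((sSup (mset p n) : ℕ) : ℝ) := by
  obtain ⟨G, hG, hc, hmG⟩ := exists_group (n := n) hp
  have hfin : Finite G := Nat.finite_of_card_ne_zero (by rw [hc]; exact pow_ne_zero _ hp.ne_zero)
  set m := sSup (mset p n) with hmdef
  have h1 := main_ineq hp hc hmG (s := qf m) (one_le_qf m)
  have h2 : 4 * (n : ℝ) ≤ (m : ℝ) ^ 2 + 4 * m + 4 * (clE m (qf m) : ℝ) := by exact_mod_cast h1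
  have h3 := clE_le m
  rcases Nat.eq_zero_or_pos m with hm | hm
  · rw [hm] at h2 h3
    rw [hm]
    have h4 : ((0 : ℕ) : ℝ) ^ (7 / 4 : ℝ) = 0 := by
      rw [Nat.cast_zero]
      exact Real.zero_rpow (by norm_num)
    rw [h4] at h3
    have h5 : (n : ℝ) ≤ 0 := by
      rw [Nat.cast_zero] at h2
      have e : (0 : ℝ) ^ 2 + 4 * 0 = 0 := by norm_num
      rw [e] at h2
      linarith
    have h6 : (n : ℝ) = 0 := le_antisymm h5 (Nat.cast_nonneg n)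
    rw [h6, Real.sqrt_zero, Real.zero_rpow (by norm_num)]
    simp
  set a : ℝ := (m : ℝ) ^ (1 / 4 : ℝ) with ha
  have hm1 : (1 : ℝ) ≤ m := by exact_mod_cast hm
  have ha1 : 1 ≤ a := Real.one_le_rpow hm1 (by norm_num)
  have ha0 : 0 < a := by linarith
  have ha4 : a ^ 4 = m := by
    rw [ha, ← Real.rpow_natCast, ← Real.rpow_mul (by positivity)]
    norm_num
  have ha7 : a ^ 7 = (m : ℝ) ^ (7 / 4 : ℝ) := by
    rw [ha, ← Real.rpow_natCast, ← Real.rpow_mul (by positivity)]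
    norm_num
  have ha3 : a ^ 3 = (m : ℝ) ^ (3 / 4 : ℝ) := by
    rw [ha, ← Real.rpow_natCast, ← Real.rpow_mul (by positivity)]
    norm_num
  rw [← ha7] at h3
  rw [← ha4] at h2
  have h47 : a ^ 4 ≤ a ^ 7 := pow_le_pow_right₀ ha1 (by norm_num)
  have h4 : 4 * (n : ℝ) ≤ (a ^ 4 + 38 * a ^ 3) ^ 2 := by
    have e : (a ^ 4 + 38 * a ^ 3) ^ 2 = (a ^ 4) ^ 2 + 76 * a ^ 7 + 1444 * a ^ 6 := by ring
    rw [e]
    have : 0 < a ^ 6 := by positivity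
    linarith
  have h5 : 2 * Real.sqrt (n : ℝ) ≤ a ^ 4 + 38 * a ^ 3 := by
    have e : 2 * Real.sqrt (n : ℝ) = Real.sqrt (4 * n) := by
      rw [Real.sqrt_mul (by norm_num)]
      congr 1
      rw [show (4 : ℝ) = 2 ^ 2 by norm_num]
      exact (Real.sqrt_sq (by norm_num)).symm
    rw [e]
    exact Real.sqrt_le_iff.2 ⟨by positivity, h4⟩
  rw [← ha4]
  rcases le_or_gt (2 * Real.sqrt (n : ℝ)) (a ^ 4) with h6 | h6
  · have : 0 ≤ (n : ℝ) ^ (3 / 8 : ℝ) := by positivity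
    linarith
  · have h7 : a ^ 3 ≤ 2 * (n : ℝ) ^ (3 / 8 : ℝ) := by
      rw [ha3]
      rw [ha4] at h6
      calc (m : ℝ) ^ (3 / 4 : ℝ) ≤ (2 * Real.sqrt (n : ℝ)) ^ (3 / 4 : ℝ) :=
            Real.rpow_le_rpow (by positivity) h6.le (by norm_num)
        _ = (2 : ℝ) ^ (3 / 4 : ℝ) * (n : ℝ) ^ (3 / 8 : ℝ) := by
            rw [Real.mul_rpow (by norm_num) (Real.sqrt_nonneg _), Real.sqrt_eq_rpow,
              ← Real.rpow_mul (Nat.cast_nonneg n)]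
            norm_num
        _ ≤ 2 * (n : ℝ) ^ (3 / 8 : ℝ) := by
            apply mul_le_mul_of_nonneg_right _ (by positivity)
            calc (2 : ℝ) ^ (3 / 4 : ℝ) ≤ (2 : ℝ) ^ (1 : ℝ) :=
                  Real.rpow_le_rpow_of_exponent_le (by norm_num) (by norm_num)
              _ = 2 := Real.rpow_one 2
    linarith

end MP828
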