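import Pool.Agent.Lib.MP_828a6d_al.ClG
import Pool.Agent.Lib.MP_828a6d_al.BiB

/-! MP_828a6d_al (stream Cl): the structure theorem: a subgroup `V` of class at most `2` with `V / Z(V)` elementary abelian. -/

namespace MP828

open scoped commutatorElement

theorem ClH_log (m : ℕ) : (m : ℝ) * ((Nat.log 2 m : ℝ) + 2) ≤ 2 * (m : ℝ) ^ (7 / 4 : ℝ) := by
  rcases Nat.eq_zero_or_pos m with rfl | hm
  · have h0 : ((0 : ℕ) : ℝ) ^ (7 / 4 : ℝ) = 0 := by
      rw [Nat.cast_zero]; exact Real.zero_rpow (by norm_num)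
    rw [h0]; simp
  have hm1 : (1 : ℝ) ≤ m := by exact_mod_cast hm
  have hm0 : (0 : ℝ) < m := by linarith
  have hl0 : 0 ≤ Real.log m := Real.log_nonneg hm1
  have h1 : (Nat.log 2 m : ℝ) * Real.log 2 ≤ Real.log m := by
    rw [← Real.log_pow]
    apply Real.log_le_log (by positivity)
    exact_mod_cast Nat.pow_log_le_self 2 (by omega)
  have h2 := Real.log_two_gt_d9
  have h3 : (Nat.log 2 m : ℝ) ≤ 3 / 2 * Real.log m := by
    have h4 : (0 : ℝ) ≤ Nat.log 2 m := Nat.cast_nonneg _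
    nlinarith
  have h5 : 1 + 3 / 4 * Real.log m ≤ (m : ℝ) ^ (3 / 4 : ℝ) := by
    rw [Real.rpow_def_of_pos hm0]
    have := Real.add_one_le_exp (Real.log m * (3 / 4))
    linarith
  have h6 : (m : ℝ) ^ (7 / 4 : ℝ) = m * (m : ℝ) ^ (3 / 4 : ℝ) := by
    rw [show (7 / 4 : ℝ) = 1 + 3 / 4 by norm_num, Real.rpow_add hm0, Real.rpow_one]
  rw [h6]
  have h7 : (Nat.log 2 m : ℝ) + 2 ≤ 2 * (m : ℝ) ^ (3 / 4 : ℝ) := by linarith
  calc (m : ℝ) * ((Nat.log 2 m : ℝ) + 2) ≤ m * (2 * (m : ℝ) ^ (3 / 4 : ℝ)) :=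
        mul_le_mul_of_nonneg_left h7 hm0.le
    _ = 2 * (m * (m : ℝ) ^ (3 / 4 : ℝ)) := by ring

/-- **Structure theorem.** -/
theorem class_two_elem {G : Type*} [Group G] [Finite G] {p m : ℕ} (hp : p.Prime) (hG : IsPGroup p G)
    (hm : ∀ H : Subgroup G, (∀ x ∈ H, ∀ y ∈ H, x * y = y * x) → Nat.card H ≤ p ^ m) :
    ∃ V : Subgroup G, (∀ x ∈ V, ∀ y ∈ V, ∀ z ∈ V, ⁅⁅x, y⁆, z⁆ = 1) ∧
      (∀ x ∈ V, ∀ y ∈ V, ⁅x ^ p, y⁆ = 1) ∧
      (Nat.card G : ℝ) ≤ (p : ℝ) ^ (20 * (m : ℝ) ^ (7 / 4 : ℝ)) * (Nat.card V : ℝ) := by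
  obtain ⟨V, hVc, hV2⟩ := exists_class_two hp hG hm (s := qf m) (one_le_qf m)
  have hGV : IsPGroup p V := hG.to_subgroup V
  have hmV : ∀ H : Subgroup V, (∀ x ∈ H, ∀ y ∈ H, x * y = y * x) → Nat.card H ≤ p ^ m := by
    intro H hH
    have h1 := hm (H.map V.subtype) (by
      rintro x ⟨x', hx', rfl⟩ y ⟨y', hy', rfl⟩
      rw [← map_mul, ← map_mul, hH x' hx' y' hy'])
    rwa [Subgroup.card_map_of_injective V.subtype_injective] at h1
  have hcl : ∀ x ∈ V, ∀ y ∈ V, ∀ w ∈ V, ⁅⁅x, y⁆, w⁆ = 1 := by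
    intro x hx y hy w hw
    have h1 : ⁅⁅x, y⁆, w⁆ ∈ it V V 2 := by
      rw [it_succ, it_succ, it_zero]
      exact Subgroup.commutator_mem_commutator (Subgroup.commutator_mem_commutator hx hy) hw
    rwa [hV2, Subgroup.mem_bot] at h1
  have hab : ∀ x y : V, ⁅x, y⁆ ∈ Subgroup.center V := by
    intro x y
    rw [Subgroup.mem_center_iff]
    intro w
    have h1 := hcl x x.2 y y.2 w w.2
    rw [commutatorElement_eq_one_iff_mul_comm] at h1
    exact Subtype.ext h1.symm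
  have hk : m ≤ 2 ^ (Nat.log 2 m + 1) := (Nat.lt_pow_succ_log_self (by norm_num) m).le
  obtain ⟨V₁, hZV, hV₁c, hpow⟩ := exists_elem hp hGV hmV (Z := Subgroup.center V) le_rfl hab hk
  have hle : V₁.map V.subtype ≤ V := Subgroup.map_subtype_le V₁
  refine ⟨V₁.map V.subtype, fun x hx y hy z hz => hcl x (hle hx) y (hle hy) z (hle hz), ?_, ?_⟩
  · rintro x ⟨x', hx', rfl⟩ y ⟨y', hy', rfl⟩
    rw [commutatorElement_eq_one_iff_mul_comm, ← map_pow, ← map_mul, ← map_mul,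
      Subgroup.mem_center_iff.1 (hpow x' hx') y']
  · rw [Subgroup.card_map_of_injective V.subtype_injective]
    have h1 : Nat.card G ≤ p ^ (clE m (qf m) + m * (Nat.log 2 m + 1 + 1)) * Nat.card V₁ := by
      rw [pow_add, mul_assoc]
      exact hVc.trans (Nat.mul_le_mul_left _ hV₁c)
    have h2 : (Nat.card G : ℝ) ≤
        (p : ℝ) ^ (clE m (qf m) + m * (Nat.log 2 m + 1 + 1)) * (Nat.card V₁ : ℝ) := by
      exact_mod_cast h1
    refine h2.trans (mul_le_mul_of_nonneg_right ?_ (Nat.cast_nonneg _))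
    rw [← Real.rpow_natCast]
    apply Real.rpow_le_rpow_of_exponent_le (by exact_mod_cast hp.one_le)
    have h3 := clE_le m
    have h4 := ClH_log m
    push_cast
    have e : (m : ℝ) * ((Nat.log 2 m : ℝ) + 1 + 1) = m * ((Nat.log 2 m : ℝ) + 2) := by ring
    rw [e]
    linarith

end MP828
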