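import Pool.Agent.Lib.MP_828a6d_al.Defs

/-! MP_828a6d_al: the bilinear form of a character. -/

namespace MP828

open scoped commutatorElement

variable {G : Type*} [Group G]

/-- The bilinear form `(x, y) ↦ ψ(⁅x, y⁆)` on `M = M_B`, for a character `ψ` of `A` trivial on `B`.
`⁅x x', y⁆ = x ⁅x', y⁆ x⁻¹ · ⁅x, y⁆` and, as `⁅x', y⁆ ∈ A` (`MB_comm`) and `x ∈ rl A B`,
`x ⁅x', y⁆ x⁻¹ = ⁅x, ⁅x', y⁆⁆ ⁅x', y⁆ ∈ B ⁅x', y⁆`; similarly `⁅x, y y'⁆ = ⁅x, y⁆ · y ⁅x, y'⁆ y⁻¹`; `ψ` is trivial on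
`B`. Both statements are `MonoidHom` laws. -/
theorem exists_pairing {A B : Subgroup G} [hAn : A.Normal] [hBn : B.Normal]
    (hab : ∀ x ∈ A, ∀ y ∈ A, x * y = y * x) (hcent : rl A ⊥ = A) (hBA : B ≤ A)
    (ψ : A →* ℂˣ) (hψ : ∀ x : A, (x : G) ∈ B → ψ x = 1) :
    ∃ β : MB A B →* (MB A B →* ℂˣ), ∀ x y : MB A B,
      β x y = ψ ⟨⁅(x : G), (y : G)⁆, MB_comm hab hcent x.2 y.2⟩ := by
  have conj : ∀ (u : G) (hu : u ∈ MB A B) (c : G) (hc : c ∈ A) (hc' : u * c * u⁻¹ ∈ A),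
      ψ ⟨u * c * u⁻¹, hc'⟩ = ψ ⟨c, hc⟩ := by
    intro u hu c hc hc'
    have h1 : ⁅u, c⁆ ∈ B := hu.2 c hc
    have e : (⟨u * c * u⁻¹, hc'⟩ : A) = ⟨⁅u, c⁆, hBA h1⟩ * ⟨c, hc⟩ := by
      apply Subtype.ext
      show u * c * u⁻¹ = ⁅u, c⁆ * c
      simp only [commutatorElement_def]; group
    rw [e, map_mul, hψ ⟨⁅u, c⁆, hBA h1⟩ h1, one_mul]
  have hr : ∀ x y z : MB A B,
      ψ ⟨⁅(x : G), ((y * z : MB A B) : G)⁆, MB_comm hab hcent x.2 (y * z).2⟩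
        = ψ ⟨⁅(x : G), (y : G)⁆, MB_comm hab hcent x.2 y.2⟩
          * ψ ⟨⁅(x : G), (z : G)⁆, MB_comm hab hcent x.2 z.2⟩ := by
    intro x y z
    have hz := MB_comm hab hcent x.2 z.2
    have hc' : (y : G) * ⁅(x : G), (z : G)⁆ * (y : G)⁻¹ ∈ A := hAn.conj_mem _ hz _
    rw [← conj y y.2 _ hz hc', ← map_mul]
    congr 1
    apply Subtype.ext
    show ⁅(x : G), (y : G) * (z : G)⁆ = ⁅(x : G), (y : G)⁆ * ((y : G) * ⁅(x : G), (z : G)⁆ * (y : G)⁻¹)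
    simp only [commutatorElement_def]; group
  have hl : ∀ x y z : MB A B,
      ψ ⟨⁅((x * y : MB A B) : G), (z : G)⁆, MB_comm hab hcent (x * y).2 z.2⟩
        = ψ ⟨⁅(x : G), (z : G)⁆, MB_comm hab hcent x.2 z.2⟩
          * ψ ⟨⁅(y : G), (z : G)⁆, MB_comm hab hcent y.2 z.2⟩ := by
    intro x y z
    have hz := MB_comm hab hcent y.2 z.2
    have hc' : (x : G) * ⁅(y : G), (z : G)⁆ * (x : G)⁻¹ ∈ A := hAn.conj_mem _ hz _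
    rw [mul_comm (ψ ⟨⁅(x : G), (z : G)⁆, MB_comm hab hcent x.2 z.2⟩),
      ← conj x x.2 _ hz hc', ← map_mul]
    congr 1
    apply Subtype.ext
    show ⁅(x : G) * (y : G), (z : G)⁆ = ((x : G) * ⁅(y : G), (z : G)⁆ * (x : G)⁻¹) * ⁅(x : G), (z : G)⁆
    simp only [commutatorElement_def]; group
  refine ⟨MonoidHom.mk' (fun x => MonoidHom.mk' (fun y =>
      ψ ⟨⁅(x : G), (y : G)⁆, MB_comm hab hcent x.2 y.2⟩) (hr x)) ?_, fun x y => rfl⟩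
  intro x y
  apply MonoidHom.ext
  intro z
  exact hl x y z

end MP828
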