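import Pool.Agent.Lib.MP_828a6d_al.Gens

/-! MP_828a6d_al: centralizing a subgroup generated by few commutators. -/

namespace MP828

open scoped commutatorElement

variable {G : Type*} [Group G]

theorem CommB_comm {A B : Subgroup G} [hAn : A.Normal] [hBn : B.Normal]
    (hab : ∀ x ∈ A, ∀ y ∈ A, x * y = y * x) (hBA : B ≤ A) {z x y : G} (hz : z ∈ MB A B)
    (hx : x ∈ MB A B) (hy : y ∈ MB A B) (hzx : ⁅z, x⁆ ∈ B) (hzy : ⁅z, y⁆ ∈ B) :
    z * ⁅x, y⁆ = ⁅x, y⁆ * z := by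
  have hb : ∀ u ∈ MB A B, ∀ b ∈ B, u * b = b * u := fun u hu b hb => mem_rl_bot.1 hu.1 b hb
  obtain ⟨b, hb1⟩ : ∃ b, b = ⁅z, x⁆ := ⟨_, rfl⟩
  obtain ⟨b', hb2⟩ : ∃ b', b' = ⁅z, y⁆ := ⟨_, rfl⟩
  obtain ⟨c, hc⟩ : ∃ c, c = ⁅x, y⁆ := ⟨_, rfl⟩
  rw [← hb1] at hzx
  rw [← hb2] at hzy
  have hcM : c ∈ MB A B := by
    rw [hc, commutatorElement_def]
    exact mul_mem (mul_mem (mul_mem hx hy) (inv_mem hx)) (inv_mem hy)
  have h1 : x * b' = b' * x := hb x hx b' hzy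
  have h2 : y * b = b * y := hb y hy b hzx
  have h5 : b * b' = b' * b := hab b (hBA hzx) b' (hBA hzy)
  have h6 : c * (b * b') = (b * b') * c := hb c hcM (b * b') (B.mul_mem hzx hzy)
  have e1 : z * c * z⁻¹ = (b * x) * (b' * y) * (b * x)⁻¹ * (b' * y)⁻¹ := by
    rw [hb1, hb2, hc]
    simp only [commutatorElement_def]; group
  have e2 : (b * x) * (b' * y) * (b * x)⁻¹ * (b' * y)⁻¹ = b * (x * b') * y * x⁻¹ * (y * b)⁻¹ * b'⁻¹ := by
    group
  have e3 : b * (b' * x) * y * x⁻¹ * (b * y)⁻¹ * b'⁻¹ = (b * b') * c * (b' * b)⁻¹ := by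
    rw [hc]
    simp only [commutatorElement_def]; group
  rw [e2, h1, h2, e3, ← h5, ← h6] at e1
  have e4 : z * c * z⁻¹ = c := by
    rw [e1]; group
  rw [← hc]
  calc z * c = (z * c * z⁻¹) * z := by group
    _ = c * z := by rw [e4]

/-- The centralizer part. `X` a finite family of `r` elements of `M = M_B`; `D` a subgroup with
`D ≤ B ⊔ ⟨⁅x, y⁆ : x, y ∈ X⟩`. Then `|M| ≤ p^{r α} |M ∩ {z : z centralizes D}|`.
Proof. `Z = {z ∈ M : ⁅z, X i⁆ ∈ B ∀ i}`. `card_le_of_fibers` with `S = M`, `f z = fun i => (⁅z, X i⁆ mod B)`,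
values in `mk '' A` (`MB_comm`), number of values `≤ (|A|/|B|)^r ≤ p^{α r}` (`ncard_mk_image`); equal values
give `h⁻¹ g ∈ K := {z : ⁅z, X i⁆ ∈ B ∀ i}` (a subgroup, `⨅ i, cm`-like; `⁅g, x⁆ ≡ ⁅h, x⁆ mod B` iff `h⁻¹ g`
commutes with `x` mod `B`). Elements `z ∈ M ∩ K` centralize `B` (as `z ∈ rl B ⊥`) and `⁅x, y⁆` for
`x, y ∈ X`: `z x z⁻¹ = b x`, `z y z⁻¹ = b' y` with `b, b' ∈ B` and `B` is centralized by `M ∋ x, y`, so
`z ⁅x, y⁆ z⁻¹ = ⁅b x, b' y⁆ = ⁅x, y⁆`. The centralizer of `z` being a subgroup, `z` centralizes `D`. -/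
theorem card_centralizing [Finite G] {p α r : ℕ} (hp : p.Prime) {A B D : Subgroup G}
    [hAn : A.Normal] [hBn : B.Normal] [hDn : D.Normal]
    (hab : ∀ x ∈ A, ∀ y ∈ A, x * y = y * x) (hcent : rl A ⊥ = A) (hBA : B ≤ A)
    (hAc : Nat.card A ≤ p ^ α) (X : Fin r → G) (hX : ∀ i, X i ∈ MB A B)
    (hD : D ≤ B ⊔ Subgroup.closure {z | ∃ i j, z = ⁅X i, X j⁆}) :
    Nat.card (MB A B) ≤ p ^ (r * α) * Nat.card (MB A B ⊓ rl D ⊥ : Subgroup G) := by
  have hK : ∀ z : G, z ∈ (⨅ i, cm (X i) B) → ∀ i, ⁅z, X i⁆ ∈ B := by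
    intro z hz i
    have h1 : z ∈ cm (X i) B := (Subgroup.mem_iInf.1 hz) i
    have h2 := B.inv_mem (mem_cm.1 h1)
    rwa [commutatorElement_inv] at h2
  have hcount := card_le_of_fibers (MB A B) (⨅ i, cm (X i) B)
    (fun z => fun i : Fin r => (QuotientGroup.mk ⁅z, X i⁆ : G ⧸ B))
    (Set.pi Set.univ fun _ : Fin r => (fun g : G => (QuotientGroup.mk g : G ⧸ B)) '' (A : Set G))
    (Set.toFinite _) ?_ ?_
  · have hT : (Set.pi Set.univ fun _ : Fin r =>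
        (fun g : G => (QuotientGroup.mk g : G ⧸ B)) '' (A : Set G)).ncard
        = ((fun g : G => (QuotientGroup.mk g : G ⧸ B)) '' (A : Set G)).ncard ^ r := by
      rw [← Nat.card_coe_set_eq, ← Nat.card_coe_set_eq]
      rw [Nat.card_congr (Equiv.Set.univPi (fun _ : Fin r =>
        (fun g : G => (QuotientGroup.mk g : G ⧸ B)) '' (A : Set G)))]
      rw [Nat.card_pi, Finset.prod_const, Finset.card_univ, Fintype.card_fin]
    have h1 := ncard_mk_image (V := B) (U := A) hBA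
    have h2 : 0 < Nat.card B := Nat.card_pos
    have h3 : ((fun g : G => (QuotientGroup.mk g : G ⧸ B)) '' (A : Set G)).ncard ≤ p ^ α := by
      refine le_trans ?_ hAc
      rw [← h1]
      exact Nat.le_mul_of_pos_right _ h2
    have h4 : Nat.card (MB A B ⊓ (⨅ i, cm (X i) B) : Subgroup G)
        ≤ Nat.card (MB A B ⊓ rl D ⊥ : Subgroup G) := by
      apply Subgroup.card_le_of_le
      rintro z ⟨hzM, hzK⟩
      refine ⟨hzM, mem_rl_bot.2 ?_⟩
      intro d hd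
      have hzX := hK z hzK
      have hle : B ⊔ Subgroup.closure {z | ∃ i j, z = ⁅X i, X j⁆} ≤ Subgroup.centralizer {z} := by
        apply sup_le
        · intro b hb
          rw [Subgroup.mem_centralizer_singleton_iff]
          exact (mem_rl_bot.1 hzM.1 b hb).symm
        · rw [Subgroup.closure_le]
          rintro w ⟨i, j, rfl⟩
          show ⁅X i, X j⁆ ∈ Subgroup.centralizer {z}
          rw [Subgroup.mem_centralizer_singleton_iff]
          exact (CommB_comm hab hBA hzM (hX i) (hX j) (hzX i) (hzX j)).symm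
      have h5 := hle (hD hd)
      rw [Subgroup.mem_centralizer_singleton_iff] at h5
      exact h5.symm
    calc Nat.card (MB A B) ≤ _ := hcount
      _ ≤ p ^ (r * α) * Nat.card (MB A B ⊓ rl D ⊥ : Subgroup G) := by
        apply Nat.mul_le_mul _ h4
        rw [hT, mul_comm r α, pow_mul]
        exact Nat.pow_le_pow_left h3 r
  · intro g hg i _
    exact ⟨⁅g, X i⁆, MB_comm hab hcent hg (hX i), rfl⟩
  · intro g hg h hh hgh
    rw [Subgroup.mem_iInf]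
    intro i
    have h1 : (QuotientGroup.mk ⁅g, X i⁆ : G ⧸ B) = QuotientGroup.mk ⁅h, X i⁆ := congrFun hgh i
    rw [QuotientGroup.eq] at h1
    have h2 := hBn.conj_mem _ h1 ⁅g, X i⁆
    have h3 := hBn.conj_mem _ h2 h⁻¹
    rw [mem_cm]
    have e : ⁅X i, h⁻¹ * g⁆ = h⁻¹ * (⁅g, X i⁆ * (⁅g, X i⁆⁻¹ * ⁅h, X i⁆) * ⁅g, X i⁆⁻¹) * h⁻¹⁻¹ := by
      simp only [commutatorElement_def]; group
    rw [e]
    exact h3

end MP828
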