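import Pool.Agent.Lib.MP_828a6d_al.PairCount

/-! MP_828a6d_al: the pairing lemma. -/

namespace MP828

/-- The same count for a pairing `β : M →* (M →* ℂˣ)` with left kernel `β.ker`, `|M| ≥ p^{3s} |β.ker|`:
`p^{s²} · #{(x, y) ∈ M^{2s} × M^s : β(x_i)(y_j) = 1 ∀ i j} ≤ 2 |M|^{3s}`.
Proof: `M₁ = M ⧸ β.ker` (a `p`-group, `|M₁| · |β.ker| = |M|`, so `|M₁| ≥ p^{3s}`), `β̄ : M₁ →* (M →* ℂˣ)` the
induced injective map (`QuotientGroup.kerLift`); the map `(x, y) ↦ (mk ∘ x, y)` from the bad pairs of `β` to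
those of `β̄` has all fibres of size `|β.ker|^{2s}`, so `#bad(β) ≤ |β.ker|^{2s} #bad(β̄)`; multiply
`pair_count` by `|β.ker|^{2s}`. -/
theorem pair_count_ker {p s : ℕ} (hp : p.Prime) {M : Type*} [Group M] [Finite M]
    (hM : IsPGroup p M) (β : M →* (M →* ℂˣ)) (hβ : p ^ (3 * s) * Nat.card β.ker ≤ Nat.card M) :
    p ^ (s ^ 2) * Nat.card {xy : (Fin (2 * s) → M) × (Fin s → M) //
      ∀ i j, β (xy.1 i) (xy.2 j) = 1} ≤ 2 * (Nat.card M ^ (2 * s) * Nat.card M ^ s) := by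
  classical
  have hK0 : 0 < Nat.card β.ker := Nat.card_pos
  have hcard := Subgroup.card_eq_card_quotient_mul_card_subgroup β.ker
  have h1 : p ^ (3 * s) ≤ Nat.card (M ⧸ β.ker) := by
    rw [hcard] at hβ
    exact Nat.le_of_mul_le_mul_right hβ hK0
  have h2 := pair_count (s := s) hp (hM.to_quotient β.ker) h1 (QuotientGroup.kerLift β)
    (QuotientGroup.kerLift_injective β)
  -- the injection
  have hmem : ∀ g : M, (Quotient.out (QuotientGroup.mk g : M ⧸ β.ker))⁻¹ * g ∈ β.ker := by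
    intro g
    apply QuotientGroup.eq.1
    exact QuotientGroup.out_eq' _
  let F : {xy : (Fin (2 * s) → M) × (Fin s → M) // ∀ i j, β (xy.1 i) (xy.2 j) = 1} →
      (Fin (2 * s) → β.ker) × {xy : (Fin (2 * s) → M ⧸ β.ker) × (Fin s → M) //
        ∀ i j, QuotientGroup.kerLift β (xy.1 i) (xy.2 j) = 1} := fun xy =>
    (fun i => ⟨_, hmem (xy.1.1 i)⟩, ⟨(fun i => QuotientGroup.mk (xy.1.1 i), xy.1.2), fun i j => by
      show QuotientGroup.kerLift β (QuotientGroup.mk (xy.1.1 i)) (xy.1.2 j) = 1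
      rw [QuotientGroup.kerLift_mk]
      exact xy.2 i j⟩)
  have hF : Function.Injective F := by
    rintro ⟨⟨x, y⟩, h⟩ ⟨⟨x', y'⟩, h'⟩ he
    have e1 := congrArg Prod.fst he
    have e2 := congrArg (fun z => z.2.1.1) he
    have e3 := congrArg (fun z => z.2.1.2) he
    have e3' : y = y' := e3
    have e2' : ∀ i, (QuotientGroup.mk (x i) : M ⧸ β.ker) = QuotientGroup.mk (x' i) :=
      fun i => congrFun e2 i
    have e1' : ∀ i, (Quotient.out (QuotientGroup.mk (x i) : M ⧸ β.ker))⁻¹ * x i =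
        (Quotient.out (QuotientGroup.mk (x' i) : M ⧸ β.ker))⁻¹ * x' i :=
      fun i => congrArg Subtype.val (congrFun e1 i)
    have e4 : x = x' := by
      funext i
      have h3 := e1' i
      rw [e2' i] at h3
      exact mul_left_cancel h3
    subst e3' e4
    rfl
  have h3 := Nat.card_le_card_of_injective F hF
  rw [Nat.card_prod, Nat.card_fun, Nat.card_fin] at h3
  calc p ^ (s ^ 2) * Nat.card {xy : (Fin (2 * s) → M) × (Fin s → M) //
        ∀ i j, β (xy.1 i) (xy.2 j) = 1}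
      ≤ p ^ (s ^ 2) * (Nat.card β.ker ^ (2 * s) *
        Nat.card {xy : (Fin (2 * s) → M ⧸ β.ker) × (Fin s → M) //
          ∀ i j, QuotientGroup.kerLift β (xy.1 i) (xy.2 j) = 1}) := Nat.mul_le_mul_left _ h3
    _ = Nat.card β.ker ^ (2 * s) * (p ^ (s ^ 2) *
        Nat.card {xy : (Fin (2 * s) → M ⧸ β.ker) × (Fin s → M) //
          ∀ i j, QuotientGroup.kerLift β (xy.1 i) (xy.2 j) = 1}) := by ring
    _ ≤ Nat.card β.ker ^ (2 * s) * (2 * (Nat.card (M ⧸ β.ker) ^ (2 * s) * Nat.card M ^ s)) :=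
        Nat.mul_le_mul_left _ h2
    _ = 2 * ((Nat.card (M ⧸ β.ker) * Nat.card β.ker) ^ (2 * s) * Nat.card M ^ s) := by
        rw [mul_pow]
        ring
    _ = 2 * (Nat.card M ^ (2 * s) * Nat.card M ^ s) := by rw [← hcard]

/-- **Pairing lemma**. At most `p^w` pairings `β_i`, `w + 2 ≤ s²`, each with `|M| ≥ p^{3s} |ker β_i|`. Then
there are `2s` elements `X₁` and `s` elements `X₂` such that every `β_i` is nontrivial on `X₁ × X₂`.
Proof: otherwise every pair of tuples is bad for some `i`, so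
`|M|^{3s} ≤ ∑_i #bad(β_i)` and, by `pair_count_ker`,
`p^{s²} |M|^{3s} ≤ p^w · 2 |M|^{3s} ≤ p^{w+1} |M|^{3s} < p^{s²} |M|^{3s}`, a contradiction
(`2 ≤ p`, `w + 1 < s²`). -/
theorem pairing {p s w : ℕ} (hp : p.Prime) {M : Type*} [Group M] [Finite M] (hM : IsPGroup p M)
    {ι : Type*} [Finite ι] (hι : Nat.card ι ≤ p ^ w) (hw : w + 2 ≤ s ^ 2)
    (β : ι → M →* (M →* ℂˣ)) (hβ : ∀ i, p ^ (3 * s) * Nat.card (β i).ker ≤ Nat.card M) :
    ∃ (X₁ : Fin (2 * s) → M) (X₂ : Fin s → M), ∀ i, ∃ a b, β i (X₁ a) (X₂ b) ≠ 1 := by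
  classical
  by_contra hcon
  push Not at hcon
  haveI : Fintype ι := Fintype.ofFinite ι
  choose c hc using hcon
  let F : (Fin (2 * s) → M) × (Fin s → M) →
      (i : ι) × {xy : (Fin (2 * s) → M) × (Fin s → M) // ∀ a b, β i (xy.1 a) (xy.2 b) = 1} :=
    fun xy => ⟨c xy.1 xy.2, ⟨xy, hc xy.1 xy.2⟩⟩
  have hF : Function.Injective F := by
    intro xy xy' he
    have h1 : (F xy).2.1 = (F xy').2.1 := by rw [he]
    exact h1
  have h1 := Nat.card_le_card_of_injective F hF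
  rw [Nat.card_sigma, Nat.card_prod, Nat.card_fun, Nat.card_fun, Nat.card_fin, Nat.card_fin] at h1
  set T : ℕ := Nat.card M ^ (2 * s) * Nat.card M ^ s with hT
  have hT0 : 0 < T := by
    have : 0 < Nat.card M := Nat.card_pos
    positivity
  have h2 : p ^ (s ^ 2) * T ≤ Nat.card ι * (2 * T) := by
    calc p ^ (s ^ 2) * T ≤ p ^ (s ^ 2) * ∑ i : ι, Nat.card {xy : (Fin (2 * s) → M) × (Fin s → M) //
          ∀ a b, β i (xy.1 a) (xy.2 b) = 1} := Nat.mul_le_mul_left _ h1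
      _ = ∑ i : ι, p ^ (s ^ 2) * Nat.card {xy : (Fin (2 * s) → M) × (Fin s → M) //
          ∀ a b, β i (xy.1 a) (xy.2 b) = 1} := by rw [Finset.mul_sum]
      _ ≤ ∑ _i : ι, 2 * T := Finset.sum_le_sum fun i _ => pair_count_ker hp hM (β i) (hβ i)
      _ = Nat.card ι * (2 * T) := by
          rw [Finset.sum_const, Finset.card_univ, Nat.card_eq_fintype_card, smul_eq_mul]
  have h3 : p ^ (s ^ 2) * T < p ^ (s ^ 2) * T := by
    calc p ^ (s ^ 2) * T ≤ Nat.card ι * (2 * T) := h2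
      _ ≤ p ^ w * (p * T) := Nat.mul_le_mul hι (Nat.mul_le_mul_right _ hp.two_le)
      _ = p ^ (w + 1) * T := by ring
      _ < p ^ (s ^ 2) * T := by
          apply Nat.mul_lt_mul_of_pos_right _ hT0
          exact Nat.pow_lt_pow_right hp.one_lt (by omega)
  exact lt_irrefl _ h3

end MP828
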