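import Pool.Agent.Lib.MP_828a6d_al.HullChain
import Pool.Agent.Lib.MP_828a6d_al.Dual
import Pool.Agent.Lib.MP_828a6d_al.CommA
import Pool.Agent.Lib.MP_828a6d_al.CommB
import Pool.Agent.Lib.MP_828a6d_al.Pairing

/-! MP_828a6d_al: the commutator hull lemma. -/

namespace MP828

open scoped commutatorElement

variable {G : Type*} [Group G]

/-- **Commutator hull**. There is a normal `N`, `B ≤ N ≤ A`, with `|M_B| ≤ p^{6 s α} |Y|`, `Y = YB A B N`.
Proof. Let `M = MB A B`. `exists_hull` with `W := M`, `K := M`, `N := B`, `A := A`, `q := p^{3s}`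
(`M ≤ rl M A` by `MB_comm`): get `N` normal, `B ≤ N ≤ A`, `|M| ≤ p^{3 s α} |M ⊓ rl M N|` and
(*) every `V`, `B ≤ V ≤ A`, `¬ N ≤ V` has `p^{3s} |M ⊓ rl M V| < |M|`.
Let `ι = {ψ : A →* ℂˣ // trivial on B, nontrivial on N}`, `|ι| ≤ |A| = p^α` (`card_char`); for `ψ ∈ ι` let `β_ψ`
be the pairing of `exists_pairing`; its left kernel consists of the `x ∈ M` with `⁅x, y⁆ ∈ kerG ψ` for all
`y ∈ M`, so `|β_ψ.ker| ≤ |M ⊓ rl M (kerG ψ)|` and (*) applies to `V = kerG ψ`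
(`B ≤ kerG ψ ≤ A`, `¬ N ≤ kerG ψ`). The pairing lemma with `w = α` gives `X₁ : Fin (2s) → M`,
`X₂ : Fin s → M` with every `ψ ∈ ι` nontrivial on some `⁅X₁ a, X₂ b⁆`. Put `X : Fin (3 s) → G` the
concatenation. Then `N ≤ D := B ⊔ closure {⁅X i, X j⁆}`: otherwise (`D ≤ A`) `exists_char` gives `ψ` trivial
on `D` and nontrivial on `N`, so `ψ ∈ ι`, contradiction. `card_centralizing` (with `D := N`, `r = 3 s`) gives
`|M| ≤ p^{3 s α} |M ⊓ rl N ⊥|`. Combine the two bounds with `card_inf_inf`. -/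
theorem exists_commHull [Finite G] {p α s : ℕ} (hp : p.Prime) (hG : IsPGroup p G)
    {A B : Subgroup G} [hAn : A.Normal] [hBn : B.Normal]
    (hab : ∀ x ∈ A, ∀ y ∈ A, x * y = y * x) (hcent : rl A ⊥ = A) (hBA : B ≤ A)
    (hAc : Nat.card A = p ^ α) (hs : α + 2 ≤ s ^ 2) :
    ∃ (N : Subgroup G) (_ : N.Normal), B ≤ N ∧ N ≤ A ∧
      Nat.card (MB A B) ≤ p ^ (6 * s * α) * Nat.card (YB A B N) := by
  classical
  have hM : IsPGroup p (MB A B) := hG.to_subgroup _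
  have hMA : MB A B ≤ rl (MB A B) A := fun x hx y hy => MB_comm hab hcent hx hy
  obtain ⟨N, hN, hBN, hNA, hcard, hmin⟩ := exists_hull (W := MB A B) (K := MB A B) (N := B) (A := A)
    (α := α) (q := p ^ (3 * s)) hp hG hBA hMA (Nat.one_le_pow _ _ hp.pos) hAc.le
  have := hN
  obtain ⟨hfin, hchar⟩ := card_char (A := A) hab
  -- the characters
  let ι : Type _ := {ψ : A →* ℂˣ // (∀ x : A, (x : G) ∈ B → ψ x = 1) ∧ ¬ N ≤ kerG ψ}
  have : Finite ι := Subtype.finite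
  have hι : Nat.card ι ≤ p ^ α := by
    rw [← hAc, ← hchar]
    exact Nat.card_le_card_of_injective (fun ψ : ι => ψ.1) Subtype.val_injective
  have hβex : ∀ ψ : ι, ∃ β : MB A B →* (MB A B →* ℂˣ), ∀ x y : MB A B,
      β x y = ψ.1 ⟨⁅(x : G), (y : G)⁆, MB_comm hab hcent x.2 y.2⟩ :=
    fun ψ => exists_pairing hab hcent hBA ψ.1 ψ.2.1
  choose β hβ using hβex
  have hker : ∀ ψ : ι, p ^ (3 * s) * Nat.card (β ψ).ker ≤ Nat.card (MB A B) := by
    intro ψ
    have h1 : p ^ (3 * s) * Nat.card (MB A B ⊓ rl (MB A B) (kerG ψ.1) : Subgroup G) <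
        Nat.card (MB A B) := by
      apply hmin
      · intro b hb
        rw [mem_kerG]
        exact ⟨hBA hb, ψ.2.1 ⟨b, hBA hb⟩ hb⟩
      · exact kerG_le _
      · exact ψ.2.2
    have h2 : Nat.card (β ψ).ker ≤ Nat.card (MB A B ⊓ rl (MB A B) (kerG ψ.1) : Subgroup G) := by
      apply Nat.card_le_card_of_injective (fun x : (β ψ).ker =>
        (⟨(x.1 : G), x.1.2, fun y hy => by
          rw [mem_kerG]
          refine ⟨MB_comm hab hcent x.1.2 hy, ?_⟩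
          have h3 : β ψ x.1 = 1 := x.2
          rw [← hβ ψ x.1 ⟨y, hy⟩, h3]
          rfl⟩ : (MB A B ⊓ rl (MB A B) (kerG ψ.1) : Subgroup G)))
      intro x y hxy
      have h4 : (x.1 : G) = y.1 := congrArg
        (Subtype.val : (MB A B ⊓ rl (MB A B) (kerG ψ.1) : Subgroup G) → G) hxy
      exact Subtype.ext (Subtype.ext h4)
    exact (Nat.mul_le_mul_left _ h2).trans h1.le
  obtain ⟨X₁, X₂, hX⟩ := pairing hp hM hι hs β hker
  -- the concatenation
  let X : Fin (3 * s) → G := fun i =>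
    if h : (i : ℕ) < 2 * s then (X₁ ⟨i, h⟩ : G) else (X₂ ⟨i - 2 * s, by omega⟩ : G)
  have hX1 : ∀ a : Fin (2 * s), X ⟨a, by omega⟩ = X₁ a := by
    intro a
    show (if h : (a : ℕ) < 2 * s then (X₁ ⟨a, h⟩ : G) else _) = _
    rw [dif_pos a.2]
  have hX2 : ∀ b : Fin s, X ⟨2 * s + b, by omega⟩ = X₂ b := by
    intro b
    show (if h : 2 * s + (b : ℕ) < 2 * s then (X₁ ⟨2 * s + b, h⟩ : G)
      else (X₂ ⟨2 * s + b - 2 * s, by omega⟩ : G)) = _
    rw [dif_neg (by omega)]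
    have e : (⟨2 * s + b - 2 * s, by omega⟩ : Fin s) = b := Fin.ext (by simp)
    rw [e]
  have hXM : ∀ i, X i ∈ MB A B := by
    intro i
    show (if h : (i : ℕ) < 2 * s then (X₁ ⟨i, h⟩ : G) else (X₂ ⟨i - 2 * s, by omega⟩ : G)) ∈ MB A B
    split_ifs
    · exact (X₁ _).2
    · exact (X₂ _).2
  set C : Subgroup G := Subgroup.closure {z | ∃ i j, z = ⁅X i, X j⁆} with hC
  have hCA : C ≤ A := by
    rw [hC, Subgroup.closure_le]
    rintro _ ⟨i, j, rfl⟩
    exact MB_comm hab hcent (hXM i) (hXM j)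
  have hND : N ≤ B ⊔ C := by
    by_contra hcon
    obtain ⟨ψ, hψ1, x, hxN, hψx⟩ := exists_char hab (sup_le hBA hCA) hNA hcon
    have hψB : ∀ y : A, (y : G) ∈ B → ψ y = 1 := fun y hy => hψ1 y (Subgroup.mem_sup_left hy)
    have hψN : ¬ N ≤ kerG ψ := by
      intro h
      obtain ⟨_, h2⟩ := mem_kerG.1 (h hxN)
      exact hψx h2
    obtain ⟨a, b, hab'⟩ := hX ⟨ψ, hψB, hψN⟩
    apply hab'
    rw [hβ]
    apply hψ1
    apply Subgroup.mem_sup_right
    apply Subgroup.subset_closure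
    refine ⟨⟨a, by omega⟩, ⟨2 * s + b, by omega⟩, ?_⟩
    rw [hX1, hX2]
  have hcen := card_centralizing (p := p) (α := α) (r := 3 * s) (D := N) hp hab hcent hBA hAc.le X
    hXM hND
  have hfinal := card_inf_inf hcen hcard
  refine ⟨N, hN, hBN, hNA, ?_⟩
  have e1 : p ^ (3 * s * α) * (p ^ (3 * s)) ^ α = p ^ (6 * s * α) := by
    rw [← pow_mul, ← pow_add]
    congr 1
    ring
  rw [e1] at hfinal
  exact hfinal

end MP828
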