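import Mathlib

/-! MP_828a6d_al: basic definition `rl W V = {g | ∀ x ∈ W, ⁅g, x⁆ ∈ V}` (elements acting trivially on `W`
modulo `V`), a subgroup as soon as `W` is normal. -/

namespace MP828

open scoped commutatorElement

variable {G : Type*} [Group G]

/-- `rl W V` : the elements `g` with `⁅g, x⁆ ∈ V` for every `x ∈ W`. A subgroup when `W` is normal. -/
def rl (W V : Subgroup G) [hW : W.Normal] : Subgroup G where
  carrier := {g | ∀ x ∈ W, ⁅g, x⁆ ∈ V}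
  one_mem' := by
    intro x _
    simp only [commutatorElement_one_left]
    exact V.one_mem
  mul_mem' := by
    intro g h hg hh x hx
    have h1 : ⁅h, x⁆ ∈ V := hh x hx
    have h2 : ⁅h, x⁆ ∈ W := by
      have : h * x * h⁻¹ ∈ W := hW.conj_mem x hx h
      rw [commutatorElement_def]
      exact W.mul_mem this (W.inv_mem hx)
    have h3 : ⁅g, ⁅h, x⁆⁆ ∈ V := hg _ h2
    have h4 : ⁅g, x⁆ ∈ V := hg x hx
    have e : ⁅g * h, x⁆ = ⁅g, ⁅h, x⁆⁆ * ⁅h, x⁆ * ⁅g, x⁆ := by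
      simp only [commutatorElement_def]; group
    show ⁅g * h, x⁆ ∈ V
    rw [e]
    exact V.mul_mem (V.mul_mem h3 h1) h4
  inv_mem' := by
    intro g hg x hx
    have hx' : g⁻¹ * x * g ∈ W := by
      have := hW.conj_mem x hx g⁻¹
      simpa using this
    have h1 : ⁅g, g⁻¹ * x * g⁆ ∈ V := hg _ hx'
    have e : ⁅g⁻¹, x⁆ = (⁅g, g⁻¹ * x * g⁆)⁻¹ := by
      simp only [commutatorElement_def]; group
    show ⁅g⁻¹, x⁆ ∈ V
    rw [e]
    exact V.inv_mem h1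

theorem mem_rl {W V : Subgroup G} [W.Normal] {g : G} :
    g ∈ rl W V ↔ ∀ x ∈ W, ⁅g, x⁆ ∈ V := Iff.rfl

theorem rl_mono {W V V' : Subgroup G} [W.Normal] (h : V ≤ V') : rl W V ≤ rl W V' :=
  fun _ hg x hx => h (hg x hx)

theorem rl_anti {W W' V : Subgroup G} [W.Normal] [W'.Normal] (h : W ≤ W') : rl W' V ≤ rl W V :=
  fun _ hg x hx => hg x (h hx)

theorem rl_inf (W V V' : Subgroup G) [W.Normal] : rl W (V ⊓ V') = rl W V ⊓ rl W V' := by
  ext g
  constructor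
  · intro h
    exact ⟨fun x hx => (h x hx).1, fun x hx => (h x hx).2⟩
  · intro h x hx
    exact ⟨h.1 x hx, h.2 x hx⟩

theorem rl_self (W V : Subgroup G) [hW : W.Normal] (h : W ≤ V) : rl W V = ⊤ := by
  rw [eq_top_iff]
  intro g _ x hx
  apply h
  rw [commutatorElement_def]
  exact W.mul_mem (hW.conj_mem x hx g) (W.inv_mem hx)

/-- Membership in `rl W V` is preserved by conjugation. -/
instance rl_normal (W V : Subgroup G) [hW : W.Normal] [hV : V.Normal] : (rl W V).Normal := by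
  refine ⟨fun g hg h x hx => ?_⟩
  have hx' : h⁻¹ * x * h ∈ W := by
    have := hW.conj_mem x hx h⁻¹
    simpa using this
  have h1 : ⁅g, h⁻¹ * x * h⁆ ∈ V := hg _ hx'
  have e : ⁅h * g * h⁻¹, x⁆ = h * ⁅g, h⁻¹ * x * h⁆ * h⁻¹ := by
    simp only [commutatorElement_def]; group
  rw [e]
  exact hV.conj_mem _ h1 h

/-- `rl W ⊥` is the centralizer of `W`. -/
theorem mem_rl_bot {W : Subgroup G} [W.Normal] {g : G} :
    g ∈ rl W ⊥ ↔ ∀ x ∈ W, g * x = x * g := by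
  constructor
  · intro h x hx
    have := h x hx
    rw [Subgroup.mem_bot, commutatorElement_eq_one_iff_mul_comm] at this
    exact this
  · intro h x hx
    rw [Subgroup.mem_bot, commutatorElement_eq_one_iff_mul_comm]
    exact h x hx

/-- For `g ∈ rl W V`, `V` normal: also `⁅x, g⁆ ∈ V`. -/
theorem rl_comm' {W V : Subgroup G} [W.Normal] {g x : G} (hg : g ∈ rl W V) (hx : x ∈ W) :
    ⁅x, g⁆ ∈ V := by
  have := V.inv_mem (hg x hx)
  rwa [commutatorElement_inv] at this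

/-- For a normal subgroup `R`: the elements `y` commuting with `x` modulo `R`. -/
def cm (x : G) (R : Subgroup G) [hR : R.Normal] : Subgroup G where
  carrier := {y | ⁅x, y⁆ ∈ R}
  one_mem' := by
    show ⁅x, (1 : G)⁆ ∈ R
    rw [commutatorElement_one_right]
    exact R.one_mem
  mul_mem' := by
    intro y z hy hz
    have e : ⁅x, y * z⁆ = ⁅x, y⁆ * (y * ⁅x, z⁆ * y⁻¹) := by
      simp only [commutatorElement_def]; group
    show ⁅x, y * z⁆ ∈ R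
    rw [e]
    exact R.mul_mem hy (hR.conj_mem _ hz y)
  inv_mem' := by
    intro y hy
    have e : ⁅x, y⁻¹⁆ = y⁻¹ * ⁅x, y⁆⁻¹ * (y⁻¹)⁻¹ := by
      simp only [commutatorElement_def]; group
    show ⁅x, y⁻¹⁆ ∈ R
    rw [e]
    exact hR.conj_mem _ (R.inv_mem hy) y⁻¹

theorem mem_cm {x : G} {R : Subgroup G} [R.Normal] {y : G} : y ∈ cm x R ↔ ⁅x, y⁆ ∈ R := Iff.rfl

/-- `M_B = C(B) ∩ C(A/B)`. -/
def MB (A B : Subgroup G) [A.Normal] [B.Normal] : Subgroup G := rl B ⊥ ⊓ rl A B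

instance MB_normal (A B : Subgroup G) [A.Normal] [B.Normal] : (MB A B).Normal := by
  unfold MB; infer_instance

/-- `Y = M_B ∩ C(N) ∩ {g : [g, M_B] ≤ N}`. -/
def YB (A B N : Subgroup G) [A.Normal] [B.Normal] [N.Normal] : Subgroup G :=
  MB A B ⊓ rl N ⊥ ⊓ rl (MB A B) N

instance YB_normal (A B N : Subgroup G) [A.Normal] [B.Normal] [N.Normal] :
    (YB A B N).Normal := by
  unfold YB; infer_instance

/-- `[M_B, M_B] ≤ A` when `A` is abelian, `B ≤ A` and `C(A) = A`. -/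
theorem MB_comm {A B : Subgroup G} [hAn : A.Normal] [B.Normal]
    (hab : ∀ x ∈ A, ∀ y ∈ A, x * y = y * x) (hcent : rl A ⊥ = A)
    {x y : G} (hx : x ∈ MB A B) (hy : y ∈ MB A B) : ⁅x, y⁆ ∈ A := by
  rw [← hcent, mem_rl_bot]
  intro a ha
  -- conjugation: `x a x⁻¹ = β_x a` with `β_x ∈ B`, and `x, y` centralize `B`
  have key : ∀ u v : G, u ∈ MB A B → v ∈ MB A B → ∀ c ∈ A,
      u * (v * c * v⁻¹) * u⁻¹ = ⁅v, c⁆ * ⁅u, c⁆ * c := by
    intro u v hu hv c hc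
    have h1 : ⁅v, c⁆ ∈ B := hv.2 c hc
    have h2 : u * ⁅v, c⁆ = ⁅v, c⁆ * u := (mem_rl_bot.1 hu.1) _ h1
    have e1 : v * c * v⁻¹ = ⁅v, c⁆ * c := by simp only [commutatorElement_def]; group
    have e2 : u * (⁅v, c⁆ * c) * u⁻¹ = (u * ⁅v, c⁆) * c * u⁻¹ := by group
    rw [e1, e2, h2]
    have e3 : ⁅v, c⁆ * u * c * u⁻¹ = ⁅v, c⁆ * (⁅u, c⁆ * c) := by
      simp only [commutatorElement_def]; group
    rw [e3]; group
  have hA1 : ∀ u : G, ∀ c ∈ A, ⁅u, c⁆ ∈ A := by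
    intro u c hc
    rw [commutatorElement_def]
    exact A.mul_mem (hAn.conj_mem c hc u) (A.inv_mem hc)
  have k : ∀ c ∈ A, x * (y * c * y⁻¹) * x⁻¹ = y * (x * c * x⁻¹) * y⁻¹ := by
    intro c hc
    rw [key x y hx hy c hc, key y x hy hx c hc,
      hab _ (hA1 y c hc) _ (hA1 x c hc)]
  -- apply `k` to `c = (y x)⁻¹ a (y x)`
  have hc : (y * x)⁻¹ * a * (y * x) ∈ A := by
    have := hAn.conj_mem a ha (y * x)⁻¹
    simpa using this
  have := k _ hc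
  have e4 : y * (x * ((y * x)⁻¹ * a * (y * x)) * x⁻¹) * y⁻¹ = a := by group
  have e5 : x * (y * ((y * x)⁻¹ * a * (y * x)) * y⁻¹) * x⁻¹ = ⁅x, y⁆ * a * ⁅x, y⁆⁻¹ := by
    simp only [commutatorElement_def]; group
  rw [e4, e5] at this
  calc ⁅x, y⁆ * a = (⁅x, y⁆ * a * ⁅x, y⁆⁻¹) * ⁅x, y⁆ := by group
    _ = a * ⁅x, y⁆ := by rw [this]

/-- `A ≤ M_B` when `A` is abelian and `B ≤ A`. -/
theorem le_MB {A B : Subgroup G} [A.Normal] [B.Normal]
    (hab : ∀ x ∈ A, ∀ y ∈ A, x * y = y * x) (hBA : B ≤ A) : A ≤ MB A B := by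
  intro a ha
  refine ⟨mem_rl_bot.2 ?_, ?_⟩
  · intro x hx
    exact hab a ha x (hBA hx)
  · intro x hx
    have : ⁅a, x⁆ = 1 := commutatorElement_eq_one_iff_mul_comm.2 (hab a ha x hx)
    rw [this]; exact B.one_mem

theorem YB_le_MB {A B N : Subgroup G} [A.Normal] [B.Normal] [N.Normal] : YB A B N ≤ MB A B :=
  fun _ h => h.1.1

/-- `N ≤ Y` when `B ≤ N ≤ A`. -/
theorem le_YB {A B N : Subgroup G} [A.Normal] [B.Normal] [N.Normal]
    (hab : ∀ x ∈ A, ∀ y ∈ A, x * y = y * x) (hBN : B ≤ N) (hNA : N ≤ A) : A ≤ YB A B N := by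
  intro a ha
  have hM : a ∈ MB A B := le_MB hab (hBN.trans hNA) ha
  refine ⟨⟨hM, mem_rl_bot.2 ?_⟩, ?_⟩
  · intro x hx
    exact hab a ha x (hNA hx)
  · intro y hy
    have h1 : ⁅y, a⁆ ∈ B := hy.2 a ha
    have h2 := N.inv_mem (hBN h1)
    rwa [commutatorElement_inv] at h2

/-- The elements of `Y` centralize `N`. -/
theorem YB_centr {A B N : Subgroup G} [A.Normal] [B.Normal] [N.Normal] :
    ∀ y ∈ YB A B N, ∀ z ∈ N, y * z = z * y := fun _ hy z hz => (mem_rl_bot.1 hy.1.2) z hz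

/-- `[Y, Y] ≤ N`. -/
theorem YB_comm {A B N : Subgroup G} [A.Normal] [B.Normal] [N.Normal] :
    ∀ y ∈ YB A B N, ∀ y' ∈ YB A B N, ⁅y, y'⁆ ∈ N := fun _ hy y' hy' => hy.2 y' (YB_le_MB hy')

/-- The kernel of a character `ψ : A → ℂˣ`, as a subgroup of `G`. -/
def kerG {A : Subgroup G} (ψ : A →* ℂˣ) : Subgroup G := ψ.ker.map A.subtype

theorem mem_kerG {A : Subgroup G} {ψ : A →* ℂˣ} {x : G} :
    x ∈ kerG ψ ↔ ∃ h : x ∈ A, ψ ⟨x, h⟩ = 1 := by
  unfold kerG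
  rw [Subgroup.mem_map]
  constructor
  · rintro ⟨y, hy, rfl⟩
    exact ⟨y.2, hy⟩
  · rintro ⟨h, hx⟩
    exact ⟨⟨x, h⟩, hx, rfl⟩

theorem kerG_le {A : Subgroup G} (ψ : A →* ℂˣ) : kerG ψ ≤ A := by
  intro x hx
  exact (mem_kerG.1 hx).1

end MP828
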