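import Pool.Agent.Lib.MP_828a6d_al.Gens

/-! MP_828a6d_al: one normal step in a finite `p`-group. -/

namespace MP828

open scoped commutatorElement

variable {G : Type*} [Group G]

theorem FlagA_fixed [Finite G] {p : ℕ} (hp : p.Prime) (hG : IsPGroup p G) {W : Subgroup G}
    [hW : W.Normal] (h : W ≠ ⊥) : ∃ x ∈ W, orderOf x = p ∧ ∀ g : G, g * x = x * g := by
  have : Fact p.Prime := ⟨hp⟩
  have : Nontrivial W := (Subgroup.nontrivial_iff_ne_bot W).2 h
  have hW1 : IsPGroup p W := hG.to_subgroup W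
  have hcard : p ∣ Nat.card W := by
    obtain ⟨n, hn, hc⟩ := hW1.nontrivial_iff_card.1 inferInstance
    rw [hc]
    exact dvd_pow_self p (by omega)
  have hG' : IsPGroup p (ConjAct G) := hG.of_equiv ConjAct.toConjAct
  have h1 : (1 : W) ∈ MulAction.fixedPoints (ConjAct G) W := fun g => smul_one g
  obtain ⟨b, hb, hne⟩ := hG'.exists_fixed_point_of_prime_dvd_card_of_fixed_point W hcard h1
  -- `b` is central
  have hbc : ∀ g : G, g * (b : G) = b * g := by
    intro g
    have h2 := hb (ConjAct.toConjAct g)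
    have h3 : g * (b : G) * g⁻¹ = b := by
      have h4 : ((ConjAct.toConjAct g • b : W) : G) = (b : G) := congrArg (fun w : W => (w : G)) h2
      rw [ConjAct.Subgroup.val_conj_smul, ConjAct.smul_def, ConjAct.ofConjAct_toConjAct] at h4
      exact h4
    calc g * (b : G) = g * b * g⁻¹ * g := by group
      _ = b * g := by rw [h3]
  have hb1 : (b : G) ≠ 1 := fun h2 => hne (Subtype.ext h2.symm)
  -- a power of `b` has order `p`
  obtain ⟨k, hk⟩ := (IsPGroup.iff_orderOf.1 hG) (b : G)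
  have hk0 : k ≠ 0 := by
    rintro rfl
    rw [pow_zero, orderOf_eq_one_iff] at hk
    exact hb1 hk
  refine ⟨(b : G) ^ p ^ (k - 1), W.pow_mem b.2 _, ?_, ?_⟩
  · have hk2 : orderOf (b : G) = p ^ (k - 1) * p := by
      rw [hk, ← pow_succ, Nat.sub_add_cancel (Nat.one_le_iff_ne_zero.2 hk0)]
    have hpos : 0 < p ^ (k - 1) := pow_pos hp.pos _
    rw [orderOf_pow_of_dvd hpos.ne' ⟨p, hk2⟩, hk2, Nat.mul_div_cancel_left _ hpos]
  · intro g
    exact ((show Commute g (b : G) from hbc g).pow_right _).eq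

/-- One normal step: `V < W` both normal in the finite `p`-group `G`. Then there is a normal `U`,
`V ≤ U ≤ W`, `|U| = p |V|`, `U = V ⊔ zpowers x`, `⁅g, x⁆ ∈ V` for all `g ∈ G`.
Proof: `Ḡ = G ⧸ V` is a finite `p`-group and `W̄ = W.map (mk' V) ≠ ⊥` is normal, so `W̄ ∩ Z(Ḡ) ≠ ⊥`
(`G` acts on `W̄` by conjugation: `IsPGroup.card_modEq_card_fixedPoints`, or Mathlib's lemma for normal
subgroups of nilpotent groups / `p`-groups meeting the centre). Choose an element of order `p` in
`W̄ ∩ Z(Ḡ)`, lift it to `x ∈ W` (`Subgroup.mem_map`), put `U = V ⊔ zpowers x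
= (zpowers x̄).comap (mk' V)`; normal because `zpowers x̄` is central; `|U| = |V| · p`; commutators
`⁅g, x⁆` map to `1` in `Ḡ`. -/
theorem normal_step [Finite G] {p : ℕ} (hp : p.Prime) (hG : IsPGroup p G) {V W : Subgroup G}
    [hV : V.Normal] [hW : W.Normal] (h : V < W) :
    ∃ U : Subgroup G, U.Normal ∧ V ≤ U ∧ U ≤ W ∧ Nat.card U = p * Nat.card V ∧
      ∃ x ∈ U, (∀ g : G, ⁅g, x⁆ ∈ V) ∧ V ⊔ Subgroup.zpowers x = U := by
  set π : G →* G ⧸ V := QuotientGroup.mk' V with hπ
  have hsurj : Function.Surjective π := QuotientGroup.mk'_surjective V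
  have : (W.map π).Normal := hW.map π hsurj
  have hne : W.map π ≠ ⊥ := by
    intro h1
    rw [Subgroup.map_eq_bot_iff, hπ, QuotientGroup.ker_mk'] at h1
    exact h.not_ge h1
  obtain ⟨xb, hxb, hord, hcent⟩ := FlagA_fixed hp (hG.to_quotient V) hne
  obtain ⟨x, hxW, rfl⟩ := Subgroup.mem_map.1 hxb
  have hcomm : ∀ g : G, ⁅g, x⁆ ∈ V := by
    intro g
    rw [← QuotientGroup.ker_mk' V, MonoidHom.mem_ker, ← hπ, map_commutatorElement,
      commutatorElement_eq_one_iff_mul_comm]
    exact hcent (π g)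
  have hU : V ⊔ Subgroup.zpowers x = (Subgroup.zpowers (π x)).comap π := by
    rw [← MonoidHom.map_zpowers, Subgroup.comap_map_eq, hπ, QuotientGroup.ker_mk', sup_comm]
  have hn : (Subgroup.zpowers (π x)).Normal := by
    refine ⟨fun y hy g => ?_⟩
    obtain ⟨k, rfl⟩ := Subgroup.mem_zpowers_iff.1 hy
    have h2 : g * π x ^ k * g⁻¹ = π x ^ k := by
      have h3 : Commute g (π x ^ k) := (show Commute g (π x) from hcent g).zpow_right k
      rw [h3.eq, mul_inv_cancel_right]
    rw [h2]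
    exact hy
  refine ⟨V ⊔ Subgroup.zpowers x, ?_, le_sup_left, ?_, ?_, x, ?_, hcomm, rfl⟩
  · rw [hU]
    exact hn.comap π
  · exact sup_le h.le ((Subgroup.zpowers_le).2 hxW)
  · rw [hU]
    have h1 : Nat.card ((Subgroup.zpowers (π x)).comap π) * ((Subgroup.zpowers (π x)).comap π).index
        = Nat.card G := Subgroup.card_mul_index _
    rw [Subgroup.index_comap_of_surjective _ hsurj] at h1
    have h2 : Nat.card (Subgroup.zpowers (π x)) * (Subgroup.zpowers (π x)).index
        = Nat.card (G ⧸ V) := Subgroup.card_mul_index _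
    have h3 : Nat.card G = Nat.card (G ⧸ V) * Nat.card V := Subgroup.card_eq_card_quotient_mul_card_subgroup V
    rw [Nat.card_zpowers, hord] at h2
    have h4 : (Subgroup.zpowers (π x)).index ≠ 0 := Subgroup.index_ne_zero_of_finite
    refine Nat.eq_of_mul_eq_mul_right (Nat.pos_of_ne_zero h4) ?_
    rw [h1, h3, ← h2]
    ring
  · exact (le_sup_right : Subgroup.zpowers x ≤ _) (Subgroup.mem_zpowers x)

end MP828
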