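import Pool.Agent.Lib.MP_828a6d_al.Count

/-! MP_828a6d_al: the hull of a family of subgroups. -/

namespace MP828

open scoped commutatorElement

variable {G : Type*} [Group G]

theorem HullChain_conj [Finite G] {W K N A : Subgroup G} [hW : W.Normal] [hK : K.Normal]
    [hN : N.Normal] [hA : A.Normal] {q : ℕ} (g : G) (V : Subgroup G)
    (h : N ≤ V ∧ V ≤ A ∧ Nat.card K ≤ q * Nat.card (K ⊓ rl W V : Subgroup G)) :
    N ≤ V.map (MulAut.conj g).toMonoidHom ∧ V.map (MulAut.conj g).toMonoidHom ≤ A ∧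
      Nat.card K ≤ q * Nat.card (K ⊓ rl W (V.map (MulAut.conj g).toMonoidHom) : Subgroup G) := by
  obtain ⟨h1, h2, h3⟩ := h
  refine ⟨?_, ?_, ?_⟩
  · intro x hx
    refine ⟨g⁻¹ * x * g, h1 ?_, ?_⟩
    · have := hN.conj_mem x hx g⁻¹
      simpa using this
    · show g * (g⁻¹ * x * g) * g⁻¹ = x
      group
  · rintro _ ⟨x, hx, rfl⟩
    exact hA.conj_mem x (h2 hx) g
  · refine h3.trans (Nat.mul_le_mul_left _ ?_)
    have h4 : (K ⊓ rl W V : Subgroup G).map (MulAut.conj g).toMonoidHom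
        ≤ K ⊓ rl W (V.map (MulAut.conj g).toMonoidHom) := by
      rintro _ ⟨x, hx, rfl⟩
      refine ⟨hK.conj_mem x hx.1 g, ?_⟩
      intro w hw
      have hw' : g⁻¹ * w * g ∈ W := by
        have := hW.conj_mem w hw g⁻¹
        simpa using this
      refine ⟨⁅x, g⁻¹ * w * g⁆, hx.2 _ hw', ?_⟩
      show g * ⁅x, g⁻¹ * w * g⁆ * g⁻¹ = ⁅g * x * g⁻¹, w⁆
      simp only [commutatorElement_def]; group
    have h5 : Nat.card ((K ⊓ rl W V : Subgroup G).map (MulAut.conj g).toMonoidHom)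
        = Nat.card (K ⊓ rl W V : Subgroup G) :=
      Subgroup.card_map_of_injective (MulAut.conj g).injective
    rw [← h5]
    exact Subgroup.card_le_of_le h4

theorem HullChain_step [Finite G] {p : ℕ} (hp : p.Prime) (hG : IsPGroup p G) {V V' : Subgroup G}
    (h : V' < V) : Nat.card V' * p ≤ Nat.card V := by
  have h1 : Nat.card V' ∣ Nat.card V := Subgroup.card_dvd_of_le h.le
  have : Fact p.Prime := ⟨hp⟩
  obtain ⟨a, ha⟩ := (IsPGroup.iff_card.1 (hG.to_subgroup V))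
  obtain ⟨b, hb⟩ := h1
  have h2 : b ∣ p ^ a := ⟨Nat.card V', by rw [← ha, hb, mul_comm]⟩
  obtain ⟨c, -, hc⟩ := (Nat.dvd_prime_pow hp).1 h2
  have h3 : c ≠ 0 := by
    rintro rfl
    rw [pow_zero] at hc
    rw [hc, mul_one] at hb
    exact h.ne (Subgroup.eq_of_le_of_card_ge h.le hb.le)
  rw [hb, hc]
  apply Nat.mul_le_mul_left
  exact Nat.le_self_pow h3 p

/-- **Hull**. `W, K, N, A` normal, `N ≤ A`, `K ≤ rl W A`, `|A| ≤ p^α`, `q ≥ 1`. Let
`ℱ = {V : N ≤ V ≤ A, |K| ≤ q |K ∩ rl W V|}` and `T = sInf ℱ`. Then `T` is normal, `N ≤ T ≤ A`,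
`|K| ≤ q^α |K ∩ rl W T|`, and every `V` with `N ≤ V ≤ A`, `¬ T ≤ V` has `q |K ∩ rl W V| < |K|`.
Proof. `A ∈ ℱ` since `K ⊓ rl W A = K`, `q ≥ 1`. The last claim is immediate: `V ∉ ℱ` (else `T ≤ V`).
Normality: for `g ∈ G` the automorphism `MulAut.conj g` maps `W, K, N, A` to themselves and
`K ⊓ rl W V` onto `K ⊓ rl W (V^g)`, so `V ∈ ℱ ⇒ V.map (MulAut.conj g).toMonoidHom ∈ ℱ` (same cardinalities);
hence if `x ∈ T` and `V ∈ ℱ` then `x ∈ g⁻¹ V g` so `g x g⁻¹ ∈ V`.
Chain: consider the set of pairs `(V, i)` with `T ≤ V ≤ A`, `|V| p^i ≤ p^α`, `|K| ≤ q^i |K ∩ rl W V|`;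
it contains `(A, 0)`. Take a pair with `|V|` minimal. If `V = T` then `i ≤ α` (as `|V| ≥ 1`) and
`q^i ≤ q^α`. Otherwise `V ≰ T = sInf ℱ`, so there is `V' ∈ ℱ` with `¬ V ≤ V'`; then `V ⊓ V' < V`, so
`p |V ⊓ V'| ≤ |V|` (`p`-groups), `rl_inf` and `card_inf_le`/`card_inf_inf` give
`|K| ≤ q^{i+1} |K ∩ rl W (V ⊓ V')|`: the pair `(V ⊓ V', i + 1)` contradicts minimality. -/
theorem exists_hull [Finite G] {p : ℕ} (hp : p.Prime) (hG : IsPGroup p G)
    {W K N A : Subgroup G} [hW : W.Normal] [hK : K.Normal] [hN : N.Normal] [hA : A.Normal]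
    (hNA : N ≤ A) (hKA : K ≤ rl W A) {α q : ℕ} (hq : 1 ≤ q) (hAc : Nat.card A ≤ p ^ α) :
    ∃ T : Subgroup G, T.Normal ∧ N ≤ T ∧ T ≤ A ∧
      Nat.card K ≤ q ^ α * Nat.card (K ⊓ rl W T : Subgroup G) ∧
      ∀ V : Subgroup G, N ≤ V → V ≤ A → ¬ T ≤ V →
        q * Nat.card (K ⊓ rl W V : Subgroup G) < Nat.card K := by
  obtain ⟨F, hF⟩ : ∃ F : Set (Subgroup G), F = {V | N ≤ V ∧ V ≤ A ∧
      Nat.card K ≤ q * Nat.card (K ⊓ rl W V : Subgroup G)} := ⟨_, rfl⟩
  have hAF : A ∈ F := by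
    rw [hF]
    refine ⟨hNA, le_refl A, ?_⟩
    rw [inf_eq_left.2 hKA]
    exact Nat.le_mul_of_pos_left _ hq
  obtain ⟨T, hT⟩ : ∃ T : Subgroup G, T = sInf F := ⟨_, rfl⟩
  have hTA : T ≤ A := hT ▸ sInf_le hAF
  have hNT : N ≤ T := by
    rw [hT]
    apply le_sInf
    intro V hV
    rw [hF] at hV
    exact hV.1
  have hpp : 0 < p := hp.pos
  refine ⟨T, ?_, hNT, hTA, ?_, ?_⟩
  · refine ⟨fun x hx g => ?_⟩
    rw [hT, Subgroup.mem_sInf]
    intro V hV
    have hV2 : V.map (MulAut.conj g⁻¹).toMonoidHom ∈ F := by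
      rw [hF] at hV ⊢
      exact HullChain_conj g⁻¹ V hV
    rw [hT, Subgroup.mem_sInf] at hx
    obtain ⟨y, hy, hyx⟩ := hx _ hV2
    have e : g * x * g⁻¹ = y := by
      rw [← hyx]
      show g * (g⁻¹ * y * g⁻¹⁻¹) * g⁻¹ = y
      group
    rw [e]
    exact hy
  · -- chain argument
    have main : ∀ n : ℕ, ∀ (V : Subgroup G) (i : ℕ), Nat.card V ≤ n → T ≤ V → V ≤ A →
        Nat.card V * p ^ i ≤ p ^ α → Nat.card K ≤ q ^ i * Nat.card (K ⊓ rl W V : Subgroup G) →
        Nat.card K ≤ q ^ α * Nat.card (K ⊓ rl W T : Subgroup G) := by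
      intro n
      induction n with
      | zero =>
        intro V i h0
        have : 0 < Nat.card V := Nat.card_pos
        omega
      | succ n ih =>
        intro V i hn hTV hVA hc hk
        by_cases hVT : V ≤ T
        · have e : V = T := le_antisymm hVT hTV
          rw [e] at hk
          refine hk.trans (Nat.mul_le_mul_right _ ?_)
          apply Nat.pow_le_pow_right hq
          have h1 : 0 < Nat.card V := Nat.card_pos
          have h2 : p ^ i ≤ p ^ α := (Nat.le_mul_of_pos_left _ h1).trans hc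
          exact (Nat.pow_le_pow_iff_right hp.one_lt).1 h2
        · have h1 : ∃ V' ∈ F, ¬ V ≤ V' := by
            by_contra hcon
            push Not at hcon
            apply hVT
            rw [hT]
            exact le_sInf hcon
          obtain ⟨V', hV', hnle⟩ := h1
          have hTV' : T ≤ V' := hT ▸ sInf_le hV'
          have hlt : V ⊓ V' < V := lt_of_le_of_ne inf_le_left (fun h => hnle (inf_eq_left.1 h))
          have hstep := HullChain_step hp hG hlt
          have hV'k : Nat.card K ≤ q * Nat.card (K ⊓ rl W V' : Subgroup G) := by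
            rw [hF] at hV'
            exact hV'.2.2
          have hcomb := card_inf_inf hk hV'k
          have e1 : K ⊓ rl W V ⊓ rl W V' = K ⊓ rl W (V ⊓ V') := by
            rw [rl_inf, inf_assoc]
          rw [e1] at hcomb
          have hp2 := hp.two_le
          have hpos : 0 < Nat.card (V ⊓ V' : Subgroup G) := Nat.card_pos
          refine ih (V ⊓ V') (i + 1) ?_ (le_inf hTV hTV') (inf_le_left.trans hVA) ?_ ?_
          · nlinarith
          · calc Nat.card (V ⊓ V' : Subgroup G) * p ^ (i + 1)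
                = (Nat.card (V ⊓ V' : Subgroup G) * p) * p ^ i := by rw [pow_succ]; ring
              _ ≤ Nat.card V * p ^ i := Nat.mul_le_mul_right _ hstep
              _ ≤ p ^ α := hc
          · rw [pow_succ]
            exact hcomb
    exact main (Nat.card A) A 0 (le_refl _) hTA (le_refl _) (by simpa using hAc) (by
      rw [inf_eq_left.2 hKA]; simp)
  · intro V hNV hVA hTV
    by_contra hcon
    push Not at hcon
    apply hTV
    rw [hT]
    apply sInf_le
    rw [hF]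
    exact ⟨hNV, hVA, hcon⟩

end MP828
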