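import Pool.Agent.Lib.MP_828a6d_al.HullChain
import Pool.Agent.Lib.MP_828a6d_al.Dual

/-! MP_828a6d_al: the image hull lemma. -/

namespace MP828

open scoped commutatorElement

variable {G : Type*} [Group G]

/-- Union bound. If `|ι| ≤ q^j`, `j ≥ 1` and every `S i ⊆ K` has `q |S i| < |K|`, some tuple
`w : Fin j → K` avoids being contained in any `S i`. Proof: the tuples with all entries in `S i` number
`|S i|^j` and `q^j |S i|^j < |K|^j` (`Nat.pow_lt_pow_left`, `j ≠ 0`); if every tuple was bad then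
`|K|^j ≤ ∑_i |S i|^j`, so `q^j |K|^j ≤ ∑_i q^j |S i|^j < |ι| |K|^j ≤ q^j |K|^j` (for `ι` nonempty; for
`ι` empty any tuple works). -/
theorem exists_hit {ι K : Type*} [Finite ι] [Finite K] [Nonempty K] (S : ι → Set K) (q j : ℕ)
    (hj : 1 ≤ j) (hι : Nat.card ι ≤ q ^ j) (hS : ∀ i, q * (S i).ncard < Nat.card K) :
    ∃ w : Fin j → K, ∀ i, ∃ a, w a ∉ S i := by
  classical
  by_contra hcon
  push Not at hcon
  have := Fintype.ofFinite ι
  have := Fintype.ofFinite K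
  obtain ⟨i0, _⟩ := hcon (fun _ => Classical.arbitrary K)
  have hcov : (Finset.univ : Finset (Fin j → K)) ⊆ Finset.univ.biUnion
      (fun i : ι => Fintype.piFinset (fun _ : Fin j => (S i).toFinset)) := by
    intro w _
    obtain ⟨i, hi⟩ := hcon w
    rw [Finset.mem_biUnion]
    refine ⟨i, Finset.mem_univ _, ?_⟩
    rw [Fintype.mem_piFinset]
    intro a
    rw [Set.mem_toFinset]
    exact hi a
  have h1 : (Nat.card K) ^ j ≤ ∑ i : ι, (S i).ncard ^ j := by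
    have h2 := (Finset.card_le_card hcov).trans Finset.card_biUnion_le
    simp only [Fintype.card_piFinset_const, Finset.card_univ, Fintype.card_fun,
      Fintype.card_fin] at h2
    rw [Nat.card_eq_fintype_card]
    refine h2.trans (le_of_eq ?_)
    apply Finset.sum_congr rfl
    intro i _
    rw [Set.ncard_eq_toFinset_card']
  have h3 : ∑ i : ι, (q * (S i).ncard) ^ j < ∑ _i : ι, (Nat.card K) ^ j := by
    apply Finset.sum_lt_sum_of_nonempty ⟨i0, Finset.mem_univ _⟩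
    intro i _
    exact Nat.pow_lt_pow_left (hS i) (by omega)
  have h4 : ∑ i : ι, (q * (S i).ncard) ^ j = q ^ j * ∑ i : ι, (S i).ncard ^ j := by
    rw [Finset.mul_sum]
    apply Finset.sum_congr rfl
    intro i _
    rw [mul_pow]
  have h5 : ∑ _i : ι, (Nat.card K) ^ j = Nat.card ι * (Nat.card K) ^ j := by
    rw [Finset.sum_const, Finset.card_univ, smul_eq_mul, Nat.card_eq_fintype_card (α := ι)]
  rw [h4, h5] at h3
  have h6 := Nat.mul_le_mul_right ((Nat.card K) ^ j) hι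
  have h7 := Nat.mul_le_mul_left (q ^ j) h1
  omega

/-- **Image hull**. `K, N, A` normal, `N ≤ A` abelian, `|A| ≤ p^α`, `α ≤ h j`, `j ≥ 1`. There is a normal `T`,
`N ≤ T ≤ A`, with `|K| ≤ p^{h α} |K ∩ rl A T|` and `T ≤ N ⊔ ⟨⁅w_i, a⁆ : i < j, a ∈ A⟩` for some
`w_1, …, w_j ∈ K`.
Proof. `exists_hull` with `W := A`, `K := K`, `N := N`, `A := A`, `q := p^h` (`K ≤ rl A A = ⊤` by
`rl_self`; `(p^h)^α = p^{h α}`) gives `T`. Let `ι = {ψ : A →* ℂˣ // (∀ x : A, x ∈ N → ψ x = 1) ∧ ∃ x : A,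
x ∈ T ∧ ψ x ≠ 1}`; by `card_char` it is finite with at most `|A| ≤ p^α ≤ (p^h)^j` elements. For `ψ ∈ ι`,
`V = kerG ψ` satisfies `N ≤ V ≤ A`, `¬ T ≤ V`, so `p^h |K ∩ rl A V| < |K|`. `exists_hit` with the sets
`S ψ = {w : K | w ∈ rl A (kerG ψ)}` gives `w : Fin j → K` such that for each `ψ ∈ ι` some
`w i ∉ rl A (kerG ψ)`, i.e. some `a ∈ A` has `⁅w i, a⁆ ∉ kerG ψ`. Let `D = N ⊔ closure {⁅w i, a⁆}`; `D ≤ A`
(commutators with elements of the normal subgroup `A`). If `¬ T ≤ D`, `exists_char` gives `ψ` trivial on `D`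
and nontrivial on `T`, so `ψ ∈ ι`, but all `⁅w i, a⁆ ∈ kerG ψ`: contradiction. -/
theorem exists_imHull [Finite G] {p : ℕ} (hp : p.Prime) (hG : IsPGroup p G)
    {K N A : Subgroup G} [hK : K.Normal] [hN : N.Normal] [hA : A.Normal]
    (hab : ∀ x ∈ A, ∀ y ∈ A, x * y = y * x) (hNA : N ≤ A) {α h j : ℕ}
    (hAc : Nat.card A ≤ p ^ α) (hj : 1 ≤ j) (hhj : α ≤ h * j) :
    ∃ T : Subgroup G, T.Normal ∧ N ≤ T ∧ T ≤ A ∧
      Nat.card K ≤ p ^ (h * α) * Nat.card (K ⊓ rl A T : Subgroup G) ∧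
      ∃ w : Fin j → G, (∀ i, w i ∈ K) ∧
        T ≤ N ⊔ Subgroup.closure {z | ∃ i, ∃ a ∈ A, z = ⁅w i, a⁆} := by
  have hKA : K ≤ rl A A := by
    rw [rl_self A A le_rfl]
    exact le_top
  have hq : 1 ≤ p ^ h := Nat.one_le_pow _ _ hp.pos
  obtain ⟨T, hTn, hNT, hTA, hcard, hmin⟩ :=
    exists_hull hp hG (W := A) (K := K) (N := N) (A := A) hNA hKA hq hAc
  have hfin : Finite (A →* ℂˣ) := (card_char hab).1
  have hcardA : Nat.card (A →* ℂˣ) = Nat.card A := (card_char hab).2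
  let ι : Type _ := {ψ : A →* ℂˣ // (∀ x : A, (x : G) ∈ N → ψ x = 1) ∧
    ∃ x : A, (x : G) ∈ T ∧ ψ x ≠ 1}
  let S : ι → Set K := fun ψ => {w : K | (w : G) ∈ rl A (kerG ψ.1)}
  have hι : Nat.card ι ≤ (p ^ h) ^ j := by
    calc Nat.card ι ≤ Nat.card (A →* ℂˣ) :=
          Nat.card_le_card_of_injective (Subtype.val : ι → (A →* ℂˣ)) Subtype.val_injective
      _ = Nat.card A := hcardA
      _ ≤ p ^ α := hAc
      _ ≤ p ^ (h * j) := Nat.pow_le_pow_right hp.pos hhj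
      _ = (p ^ h) ^ j := pow_mul _ _ _
  have hS : ∀ i, p ^ h * (S i).ncard < Nat.card K := by
    intro i
    have e : (S i).ncard = Nat.card (K ⊓ rl A (kerG i.1) : Subgroup G) := by
      rw [← Set.ncard_image_of_injective (S i) (Subtype.val_injective : Function.Injective
        (Subtype.val : K → G))]
      have e2 : (Subtype.val : K → G) '' (S i) = ((K ⊓ rl A (kerG i.1) : Subgroup G) : Set G) := by
        ext g
        constructor
        · rintro ⟨x, hx, rfl⟩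
          exact ⟨x.2, hx⟩
        · rintro ⟨h1, h2⟩
          exact ⟨⟨g, h1⟩, h2, rfl⟩
      rw [e2]
      exact (Nat.card_coe_set_eq _).symm
    rw [e]
    apply hmin
    · intro x hx
      exact mem_kerG.2 ⟨hNA hx, i.2.1 ⟨x, hNA hx⟩ hx⟩
    · exact kerG_le _
    · intro hle
      obtain ⟨x, hxT, hx1⟩ := i.2.2
      obtain ⟨_, h2⟩ := mem_kerG.1 (hle hxT)
      exact hx1 h2
  obtain ⟨w, hw⟩ := exists_hit S (p ^ h) j hj hι hS
  refine ⟨T, hTn, hNT, hTA, ?_, fun i => (w i : G), fun i => (w i).2, ?_⟩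
  · rw [pow_mul]
    exact hcard
  · by_contra hTD
    have hcomm : ∀ g : G, ∀ a ∈ A, ⁅g, a⁆ ∈ A := by
      intro g a ha
      rw [commutatorElement_def]
      exact A.mul_mem (hA.conj_mem a ha g) (A.inv_mem ha)
    have hD : N ⊔ Subgroup.closure {z | ∃ i, ∃ a ∈ A, z = ⁅(w i : G), a⁆} ≤ A := by
      refine sup_le hNA ((Subgroup.closure_le _).2 ?_)
      rintro z ⟨i, a, ha, rfl⟩
      exact hcomm _ a ha
    obtain ⟨ψ, h1, h2⟩ := exists_char hab hD hTA hTD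
    obtain ⟨a, ha⟩ := hw ⟨ψ, fun x hx => h1 x (Subgroup.mem_sup_left hx), h2⟩
    apply ha
    intro x hx
    refine mem_kerG.2 ⟨hcomm _ x hx, h1 _ (Subgroup.mem_sup_right (Subgroup.subset_closure ?_))⟩
    exact ⟨a, x, hx, rfl⟩

end MP828
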