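import Pool.Agent.Lib.MP_828a6d_al.Defs

/-! MP_828a6d_al: a Nakayama type lemma. -/

namespace MP828

open scoped commutatorElement

variable {G : Type*} [Group G]

/-- Nakayama: `G` finite `p`-group (nilpotent), `T ≤ A` normal, `A` abelian, `z ∈ G` and `x_i ∈ G` with
`⁅x_i, z⁆ ∈ rl A T` (they commute on `A / T`). If `A ≤ T ⊔ ⟨⁅x_i, a⁆ : a ∈ A⟩ ⊔ ⟨g_1, …, g_l⟩` and
`⁅z, g_t⁆ ∈ T` for all `t`, then `z ∈ rl A T`.
Proof. `A_z = {a ∈ A : ⁅z, a⁆ ∈ T} = A ⊓ cm z T`, a subgroup of `A` containing `T` and the `g_t`. It is invariant under conjugation by `x = x_i`: `⁅x, z⁆ = ρ ∈ R = rl A T`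
(normal), so `z x = ρ' x z` with `ρ' = ⁅z, x⁆ ∈ R`, and for `a ∈ A_z`, `z a z⁻¹ = τ a` (`τ ∈ T`):
`z (x a x⁻¹) z⁻¹ = ρ' x (z a z⁻¹) x⁻¹ ρ'⁻¹ = ρ' (x τ x⁻¹) (x a x⁻¹) ρ'⁻¹ ≡ x a x⁻¹ mod T`.
Let `D = closure {⁅x_i, a⁆ : i, a ∈ A}`; `A ≤ A_z ⊔ D`. Let `L 0 = A`, `L (i+1) = ⁅⊤, L i⁆` (normal
subgroups, `L (i+1) ≤ L i ≤ A`, `L c = ⊥` for some `c` since `G` is nilpotent: `L i ≤ lowerCentralSeries`
or use `Subgroup.commutator` chain with `IsPGroup.isNilpotent`). Claim `A ≤ A_z ⊔ L i` for all `i`, by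
induction: `i = 0` clear. If `A ≤ A_z ⊔ L i`, write `a = u l` (`u ∈ A_z`, `l ∈ L i`, both in the abelian group
`A`, `Subgroup.mem_sup`): `⁅x_j, u l⁆ = ⁅x_j, u⁆ · u ⁅x_j, l⁆ u⁻¹ ∈ A_z · L (i+1)`; so `D ≤ A_z ⊔ L (i+1)` and
`A ≤ A_z ⊔ D ≤ A_z ⊔ L (i+1)`. With `i = c`: `A ≤ A_z`, i.e. `z ∈ rl A T`. -/
theorem nakayama [Finite G] {p : ℕ} (hp : p.Prime) (hG : IsPGroup p G) {T A : Subgroup G}
    [hT : T.Normal] [hA : A.Normal] (hab : ∀ x ∈ A, ∀ y ∈ A, x * y = y * x) (hTA : T ≤ A)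
    {j l : ℕ} (x : Fin j → G) (g : Fin l → G) (hg : ∀ t, g t ∈ A) {z : G}
    (hxz : ∀ i, ⁅x i, z⁆ ∈ rl A T)
    (hgen : A ≤ (T ⊔ Subgroup.closure {y | ∃ i, ∃ a ∈ A, y = ⁅x i, a⁆}) ⊔
      Subgroup.closure (Set.range g))
    (hz : ∀ t, ⁅z, g t⁆ ∈ T) : z ∈ rl A T := by
  set Az : Subgroup G := A ⊓ cm z T with hAz
  set D : Subgroup G := Subgroup.closure {y | ∃ i, ∃ a ∈ A, y = ⁅x i, a⁆} with hD
  have hTz : T ≤ Az := by
    intro t ht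
    refine ⟨hTA ht, ?_⟩
    show ⁅z, t⁆ ∈ T
    rw [commutatorElement_def]
    exact T.mul_mem (hT.conj_mem t ht z) (T.inv_mem ht)
  have hgz : Subgroup.closure (Set.range g) ≤ Az := by
    rw [Subgroup.closure_le]
    rintro _ ⟨t, rfl⟩
    exact ⟨hg t, hz t⟩
  have hconj : ∀ i, ∀ a ∈ Az, x i * a * (x i)⁻¹ ∈ Az := by
    intro i a ha
    refine ⟨hA.conj_mem a ha.1 _, ?_⟩
    show ⁅z, x i * a * (x i)⁻¹⁆ ∈ T
    have hρ : ⁅z, x i⁆ ∈ rl A T := by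
      have := (rl A T).inv_mem (hxz i)
      rwa [commutatorElement_inv] at this
    have h1 : ⁅⁅z, x i⁆, x i * a * (x i)⁻¹⁆ ∈ T := hρ _ (hA.conj_mem a ha.1 _)
    have h2 : ⁅z, x i⁆ * (x i * ⁅z, a⁆ * (x i)⁻¹) * ⁅z, x i⁆⁻¹ ∈ T :=
      hT.conj_mem _ (hT.conj_mem _ ha.2 _) _
    have e : ⁅z, x i * a * (x i)⁻¹⁆ = (⁅z, x i⁆ * (x i * ⁅z, a⁆ * (x i)⁻¹) * ⁅z, x i⁆⁻¹) *
        ⁅⁅z, x i⁆, x i * a * (x i)⁻¹⁆ := by
      simp only [commutatorElement_def]; group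
    rw [e]
    exact T.mul_mem h2 h1
  have hAD : A ≤ Az ⊔ D := by
    refine hgen.trans (sup_le (sup_le (hTz.trans le_sup_left) le_sup_right)
      (hgz.trans le_sup_left))
  have hstep : ∀ i, A ≤ Az ⊔ (A ⊓ (⊤ : Subgroup G).lowerCentralSeries i) := by
    intro i
    induction i with
    | zero =>
      refine le_trans ?_ le_sup_right
      exact le_inf le_rfl le_top
    | succ i ih =>
      refine hAD.trans (sup_le le_sup_left ?_)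
      rw [hD, Subgroup.closure_le]
      rintro _ ⟨t, a, ha, rfl⟩
      have h1 : a ∈ ((Az ⊔ (A ⊓ (⊤ : Subgroup G).lowerCentralSeries i) : Subgroup G) : Set G) :=
        ih ha
      rw [Subgroup.mul_normal] at h1
      obtain ⟨u, hu, v, hv, rfl⟩ := h1
      have hu' : u ∈ Az := hu
      have hv' : v ∈ A ⊓ (⊤ : Subgroup G).lowerCentralSeries i := hv
      have h2 : ⁅x t, u⁆ ∈ Az := by
        rw [commutatorElement_def]
        exact Az.mul_mem (hconj t u hu') (Az.inv_mem hu')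
      have h3 : ⁅x t, v⁆ ∈ A ⊓ (⊤ : Subgroup G).lowerCentralSeries (i + 1) := by
        constructor
        · show ⁅x t, v⁆ ∈ A
          rw [commutatorElement_def]
          exact A.mul_mem (hA.conj_mem v hv'.1 _) (A.inv_mem hv'.1)
        · show ⁅x t, v⁆ ∈ (⊤ : Subgroup G).lowerCentralSeries (i + 1)
          rw [← commutatorElement_inv]
          apply Subgroup.inv_mem
          rw [Subgroup.lowerCentralSeries_succ]
          exact Subgroup.commutator_mem_commutator hv'.2 (Subgroup.mem_top _)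
      have h4 : u * ⁅x t, v⁆ * u⁻¹ ∈ A ⊓ (⊤ : Subgroup G).lowerCentralSeries (i + 1) :=
        Subgroup.Normal.conj_mem inferInstance _ h3 u
      have e : ⁅x t, u * v⁆ = ⁅x t, u⁆ * (u * ⁅x t, v⁆ * u⁻¹) := by
        simp only [commutatorElement_def]; group
      show ⁅x t, u * v⁆ ∈ Az ⊔ (A ⊓ (⊤ : Subgroup G).lowerCentralSeries (i + 1))
      rw [e]
      exact Subgroup.mul_mem _ (Subgroup.mem_sup_left h2) (Subgroup.mem_sup_right h4)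
  have : Fact p.Prime := ⟨hp⟩
  have hnil : Group.IsNilpotent G := hG.isNilpotent
  obtain ⟨n, hn⟩ := Subgroup.nilpotent_iff_lowerCentralSeries.1 hnil
  have h1 := hstep n
  rw [hn, inf_bot_eq, sup_bot_eq] at h1
  intro a ha
  exact (h1 ha).2

end MP828
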