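import Pool.Agent.Lib.MP_828a6d_al.ImHull
import Pool.Agent.Lib.MP_828a6d_al.Nak
import Pool.Agent.Lib.MP_828a6d_al.Gens

/-! MP_828a6d_al: an approximate version of Schur's bound `|Γ| ≤ p^{v²/4}`. -/

namespace MP828

open scoped commutatorElement

variable {G : Type*} [Group G]

theorem Schur_comm {T : Subgroup G} [hT : T.Normal] {g h x : G}
    (he : (QuotientGroup.mk ⁅g, x⁆ : G ⧸ T) = QuotientGroup.mk ⁅h, x⁆) : ⁅h⁻¹ * g, x⁆ ∈ T := by
  have h1 : ⁅g, x⁆ * ⁅h, x⁆⁻¹ ∈ T := by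
    have h2 := QuotientGroup.eq.1 he
    have h3 := T.inv_mem h2
    have h4 : (⁅g, x⁆⁻¹ * ⁅h, x⁆)⁻¹ = ⁅h, x⁆⁻¹ * ⁅g, x⁆ := by group
    rw [h4] at h3
    exact hT.mem_comm h3
  have h5 := hT.conj_mem _ h1 h⁻¹
  have e : ⁅h⁻¹ * g, x⁆ = h⁻¹ * (⁅g, x⁆ * ⁅h, x⁆⁻¹) * h⁻¹⁻¹ := by
    simp only [commutatorElement_def]
    group
  rw [e]
  exact h5

theorem Schur_ncard [Finite G] {T W : Subgroup G} (r : ℕ) :
    {f : Fin r → G ⧸ T | ∀ t, f t ∈ (fun g : G => (QuotientGroup.mk g : G ⧸ T)) '' (W : Set G)}.ncard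
      = ((fun g : G => (QuotientGroup.mk g : G ⧸ T)) '' (W : Set G)).ncard ^ r := by
  rw [← Nat.card_coe_set_eq, ← Nat.card_coe_set_eq]
  have e := Nat.card_congr (Equiv.subtypePiEquivPi (β := fun _ : Fin r => G ⧸ T)
    (p := fun _ b => b ∈ (fun g : G => (QuotientGroup.mk g : G ⧸ T)) '' (W : Set G)))
  rw [Nat.card_fun, Nat.card_fin] at e
  exact e

/-- **Approximate Schur bound**. `P, T, A` normal, `T ≤ A` abelian, `|A| = p^v |T| ≤ p^α`, `α ≤ h j`, `j ≥ 1`,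
and every `x ∈ P` commutes modulo `R = rl A T` with a subgroup of `P` of index `≤ p^e`. Then
`|P| ≤ p^{h α + e j + w (v - w)} |P ∩ R|` for some `w ≤ v`.
Proof. `exists_imHull` with `K := P`, `N := T`: get `W` normal, `T ≤ W ≤ A`, `|P| ≤ p^{h α} |P ⊓ rl A W|` and
`x : Fin j → P` with `W ≤ T ⊔ ⟨⁅x_i, a⁆⟩`. Let `|W| = p^w |T|`, `|A| = p^{v-w} |W|` (powers of `p`;
`Nat.card` of subgroups of a `p`-group, `w ≤ v`). Let `P' = P ⊓ rl A W ⊓ ⨅ i, cm (x i) R`; by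
`card_inf_le` and `card_iInf`: `|P ⊓ rl A W| ≤ (p^e)^j |P'|`. Choose (`exists_gens`) `g : Fin (v-w) → A` with
`W ⊔ closure (range g) = A`. Then `|P'| ≤ p^{w (v-w)} |P' ⊓ R|` by `card_le_of_fibers` with
`f y = fun t => (⁅y, g t⁆ mod T)`, values in `mk '' W` (`y ∈ rl A W`), `(|W|/|T|)^{v-w}` values; if
`f y = f y'` then `z = y'⁻¹ y ∈ P'` has `⁅z, g t⁆ ∈ T`, `⁅x i, z⁆ ∈ R`, and `nakayama` gives `z ∈ R`. -/
theorem schur_count [Finite G] {p : ℕ} (hp : p.Prime) (hG : IsPGroup p G)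
    {P T A : Subgroup G} [hP : P.Normal] [hT : T.Normal] [hA : A.Normal]
    (hab : ∀ x ∈ A, ∀ y ∈ A, x * y = y * x) (hTA : T ≤ A) {α v e h j : ℕ}
    (hAc : Nat.card A ≤ p ^ α) (hv : Nat.card A = p ^ v * Nat.card T) (hj : 1 ≤ j)
    (hhj : α ≤ h * j)
    (hPe : ∀ x ∈ P, Nat.card P ≤ p ^ e * Nat.card (P ⊓ cm x (rl A T) : Subgroup G)) :
    ∃ w ≤ v, Nat.card P ≤ p ^ (h * α + e * j + w * (v - w)) *
      Nat.card (P ⊓ rl A T : Subgroup G) := by
  classical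
  obtain ⟨W, hW, hTW, hWA, hcard, x, hxP, hWx⟩ :=
    exists_imHull (K := P) (N := T) (A := A) hp hG hab hTA hAc hj hhj
  have := hW
  have : Fact p.Prime := ⟨hp⟩
  obtain ⟨t, ht⟩ := (IsPGroup.iff_card.1 (hG.to_subgroup T))
  obtain ⟨w', hw'⟩ := (IsPGroup.iff_card.1 (hG.to_subgroup W))
  obtain ⟨a, ha⟩ := (IsPGroup.iff_card.1 (hG.to_subgroup A))
  have htw : t ≤ w' := by
    have h1 := Subgroup.card_le_of_le hTW
    rw [ht, hw'] at h1
    exact (Nat.pow_le_pow_iff_right hp.one_lt).1 h1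
  have hwa : w' ≤ a := by
    have h1 := Subgroup.card_le_of_le hWA
    rw [ha, hw'] at h1
    exact (Nat.pow_le_pow_iff_right hp.one_lt).1 h1
  have hav : a = v + t := by
    rw [ha, ht, ← pow_add] at hv
    exact Nat.pow_right_injective hp.two_le hv
  have hcm : Nat.card (P ⊓ rl A W : Subgroup G) ≤ (p ^ e) ^ j *
      Nat.card (P ⊓ rl A W ⊓ ⨅ i, cm (x i) (rl A T) : Subgroup G) :=
    card_iInf (fun i => cm (x i) (rl A T)) (fun i => card_inf_le inf_le_left (hPe (x i) (hxP i)))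
  have hgc : Nat.card A ≤ p ^ (v - (w' - t)) * Nat.card W := by
    rw [ha, hw', ← pow_add]
    exact Nat.pow_le_pow_right hp.pos (by omega)
  obtain ⟨g, hgA, hgW⟩ := exists_gens hp hG hWA hgc
  have hnc : ((fun g : G => (QuotientGroup.mk g : G ⧸ T)) '' (W : Set G)).ncard = p ^ (w' - t) := by
    have h1 := ncard_mk_image hTW
    rw [ht, hw'] at h1
    have h2 : p ^ w' = p ^ (w' - t) * p ^ t := by
      rw [← pow_add]
      congr 1
      omega
    rw [h2] at h1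
    exact Nat.eq_of_mul_eq_mul_right (pow_pos hp.pos t) h1
  have hfib := card_le_of_fibers (P ⊓ rl A W ⊓ ⨅ i, cm (x i) (rl A T)) (rl A T)
    (fun y => fun k : Fin (v - (w' - t)) => (QuotientGroup.mk ⁅y, g k⁆ : G ⧸ T))
    {f : Fin (v - (w' - t)) → G ⧸ T |
      ∀ k, f k ∈ (fun g : G => (QuotientGroup.mk g : G ⧸ T)) '' (W : Set G)}
    (Set.toFinite _) (fun y hy k => ⟨⁅y, g k⁆, hy.1.2 _ (hgA k), rfl⟩) (by
      intro y hy y' hy' he
      have hz := Subgroup.mul_mem _ (Subgroup.inv_mem _ hy') hy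
      refine nakayama hp hG hab hTA x g hgA (z := y'⁻¹ * y) ?_ ?_ ?_
      · intro i
        have h1 := (Subgroup.mem_iInf.1 hz.2) i
        exact mem_cm.1 h1
      · exact hgW.ge.trans (sup_le_sup_right hWx _)
      · intro k
        exact Schur_comm (congrFun he k))
  rw [Schur_ncard, hnc] at hfib
  have hle : Nat.card (P ⊓ rl A W ⊓ (⨅ i, cm (x i) (rl A T)) ⊓ rl A T : Subgroup G) ≤
      Nat.card (P ⊓ rl A T : Subgroup G) :=
    Subgroup.card_le_of_le (inf_le_inf_right _ (inf_le_left.trans inf_le_left))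
  refine ⟨w' - t, by omega, ?_⟩
  calc Nat.card P ≤ p ^ (h * α) * Nat.card (P ⊓ rl A W : Subgroup G) := hcard
    _ ≤ p ^ (h * α) * ((p ^ e) ^ j *
        ((p ^ (w' - t)) ^ (v - (w' - t)) * Nat.card (P ⊓ rl A T : Subgroup G))) := by
        apply Nat.mul_le_mul_left
        refine hcm.trans (Nat.mul_le_mul_left _ ?_)
        exact hfib.trans (Nat.mul_le_mul_left _ hle)
    _ = p ^ (h * α + e * j + (w' - t) * (v - (w' - t))) * Nat.card (P ⊓ rl A T : Subgroup G) := by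
        rw [← pow_mul, ← pow_mul, pow_add, pow_add]
        ring

end MP828
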