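import Pool.Agent.Lib.MP_828a6d_al.Core
import Pool.Agent.Lib.MP_828a6d_al.CommHull
import Pool.Agent.Lib.MP_828a6d_al.Schur
import Pool.Agent.Lib.MP_828a6d_al.Asym

/-! MP_828a6d_al: the two finite inequalities. -/

namespace MP828

open scoped commutatorElement

variable {G : Type*} [Group G]

/-- `[P, P]` centralizes `T` for `P = rl B ⊥ ⊓ rl T B`, `B` abelian. -/
theorem comm_mem_rl_bot {B T : Subgroup G} [B.Normal] [hT : T.Normal]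
    (hab : ∀ x ∈ B, ∀ y ∈ B, x * y = y * x) {x y : G}
    (hx : x ∈ rl B ⊥ ⊓ rl T B) (hy : y ∈ rl B ⊥ ⊓ rl T B) : ⁅x, y⁆ ∈ rl T ⊥ := by
  rw [mem_rl_bot]
  intro a ha
  have key : ∀ u v : G, u ∈ rl B ⊥ ⊓ rl T B → v ∈ rl B ⊥ ⊓ rl T B → ∀ c ∈ T,
      u * (v * c * v⁻¹) * u⁻¹ = ⁅v, c⁆ * ⁅u, c⁆ * c := by
    intro u v hu hv c hc
    have h1 : ⁅v, c⁆ ∈ B := hv.2 c hc
    have h2 : u * ⁅v, c⁆ = ⁅v, c⁆ * u := (mem_rl_bot.1 hu.1) _ h1
    have e1 : v * c * v⁻¹ = ⁅v, c⁆ * c := by simp only [commutatorElement_def]; group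
    have e2 : u * (⁅v, c⁆ * c) * u⁻¹ = (u * ⁅v, c⁆) * c * u⁻¹ := by group
    rw [e1, e2, h2]
    have e3 : ⁅v, c⁆ * u * c * u⁻¹ = ⁅v, c⁆ * (⁅u, c⁆ * c) := by
      simp only [commutatorElement_def]; group
    rw [e3]; group
  have k : ∀ c ∈ T, x * (y * c * y⁻¹) * x⁻¹ = y * (x * c * x⁻¹) * y⁻¹ := by
    intro c hc
    rw [key x y hx hy c hc, key y x hy hx c hc,
      hab _ (hy.2 c hc) _ (hx.2 c hc)]
  have hc : (y * x)⁻¹ * a * (y * x) ∈ T := by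
    have := hT.conj_mem a ha (y * x)⁻¹
    simpa using this
  have := k _ hc
  have e4 : y * (x * ((y * x)⁻¹ * a * (y * x)) * x⁻¹) * y⁻¹ = a := by group
  have e5 : x * (y * ((y * x)⁻¹ * a * (y * x)) * y⁻¹) * x⁻¹ = ⁅x, y⁆ * a * ⁅x, y⁆⁻¹ := by
    simp only [commutatorElement_def]; group
  rw [e4, e5] at this
  calc ⁅x, y⁆ * a = (⁅x, y⁆ * a * ⁅x, y⁆⁻¹) * ⁅x, y⁆ := by group
    _ = a * ⁅x, y⁆ := by rw [this]

/-- Trivial bound `n ≤ m²`. -/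
theorem n_le_sq [Finite G] {p n m : ℕ} (hp : p.Prime) (hn : Nat.card G = p ^ n)
    (hm : ∀ H : Subgroup G, (∀ x ∈ H, ∀ y ∈ H, x * y = y * x) → Nat.card H ≤ p ^ m) :
    n ≤ m ^ 2 := by
  have hG : IsPGroup p G := IsPGroup.of_card hn
  have hp1 : 1 < p := hp.one_lt
  obtain ⟨A, hA, hab, hcent⟩ := exists_maxAb hp hG
  obtain ⟨α, hα⟩ := exists_card_eq_pow hp hG A
  have hαm : α ≤ m := by
    have := hm A hab
    rw [hα] at this
    exact (Nat.pow_le_pow_iff_right hp1).1 this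
  have h1 : Nat.card G ≤ p ^ (α * (α - 1) / 2) * Nat.card (rl A ⊥ : Subgroup G) := by
    refine card_le_rl hp hG bot_le ?_
    rw [hα]; simp
  rw [hcent, hα, hn, ← pow_add] at h1
  have h2 : n ≤ α * (α - 1) / 2 + α := (Nat.pow_le_pow_iff_right hp1).1 h1
  have h3 : α * (α - 1) / 2 + α ≤ α ^ 2 := by
    rcases Nat.eq_zero_or_pos α with h | h
    · subst h; simp
    · obtain ⟨c, rfl⟩ : ∃ c, α = c + 1 := ⟨α - 1, by omega⟩
      have : (c + 1) * (c + 1 - 1) / 2 ≤ (c + 1) * c := by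
        simpa using Nat.div_le_self _ _
      nlinarith [this]
  exact h2.trans (h3.trans (Nat.pow_le_pow_left hαm 2))

theorem card_chain {g P Q M Y c1 c2 c3 c4 c5 p n : ℕ} (hp1 : 1 < p) (hg : g = p ^ n)
    (h1 : g ≤ p ^ c1 * P) (h2 : P ≤ p ^ c2 * Q) (h3 : Q ≤ p ^ c3 * M) (h4 : M ≤ p ^ c4 * Y)
    (h5 : Y ≤ p ^ c5) : n ≤ c1 + c2 + c3 + c4 + c5 := by
  have : p ^ n ≤ p ^ (c1 + c2 + c3 + c4 + c5) := by
    calc p ^ n = g := hg.symm
      _ ≤ p ^ c1 * P := h1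
      _ ≤ p ^ c1 * (p ^ c2 * Q) := Nat.mul_le_mul_left _ h2
      _ ≤ p ^ c1 * (p ^ c2 * (p ^ c3 * M)) :=
        Nat.mul_le_mul_left _ (Nat.mul_le_mul_left _ h3)
      _ ≤ p ^ c1 * (p ^ c2 * (p ^ c3 * (p ^ c4 * Y))) :=
        Nat.mul_le_mul_left _ (Nat.mul_le_mul_left _ (Nat.mul_le_mul_left _ h4))
      _ ≤ p ^ c1 * (p ^ c2 * (p ^ c3 * (p ^ c4 * p ^ c5))) :=
        Nat.mul_le_mul_left _ (Nat.mul_le_mul_left _ (Nat.mul_le_mul_left _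
          (Nat.mul_le_mul_left _ h5)))
      _ = p ^ (c1 + c2 + c3 + c4 + c5) := by simp only [pow_add]; ring
  exact (Nat.pow_le_pow_iff_right hp1).1 this

theorem main_odd [Finite G] {p n m : ℕ} (hp : p.Prime) (hp2 : p ≠ 2)
    (hn : Nat.card G = p ^ n)
    (hm : ∀ H : Subgroup G, (∀ x ∈ H, ∀ y ∈ H, x * y = y * x) → Nat.card H ≤ p ^ m) :
    ∃ α ≤ m, ∀ b ≤ α, ∃ t, b ≤ t ∧ t ≤ α ∧
      n ≤ (b * (b - 1) / 2 + (t - b) * (t - b - 1) / 2) + qf m * m + (t - b) * (α - t)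
        + 6 * ((qf m) ^ 2 + 1) * m + ((qf m) ^ 3 * (m * (kf m + 1)) + b * (α - t) + m) := by
  have hG : IsPGroup p G := IsPGroup.of_card hn
  have hp1 : 1 < p := hp.one_lt
  obtain ⟨A, hA, hab, hcent⟩ := exists_maxAb hp hG
  obtain ⟨α, hα⟩ := exists_card_eq_pow hp hG A
  have hαm : α ≤ m := by
    have := hm A hab
    rw [hα] at this
    exact (Nat.pow_le_pow_iff_right hp1).1 this
  have hGc : Nat.card G ≤ p ^ (2 ^ kf m) := by
    rw [hn]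
    exact Nat.pow_le_pow_right hp1.le ((n_le_sq hp hn hm).trans (le_kf_pow m))
  refine ⟨α, hαm, fun b hb => ?_⟩
  obtain ⟨B, hB, -, hBA, hBc⟩ := exists_normal_between (V := (⊥ : Subgroup G)) (W := A) hp hG
    bot_le (k := α) (j := b) (by rw [hα]; simp) hb
  have hBc' : Nat.card B = p ^ b := by rw [hBc]; simp
  have hq := one_le_qf m
  have hq4 := le_qf_pow m
  have hs : α + 2 ≤ ((qf m) ^ 2 + 1) ^ 2 := by nlinarith [Nat.pos_of_ne_zero (by omega : qf m ≠ 0)]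
  obtain ⟨N, hN, hBN, hNA, hMY⟩ := exists_commHull (s := (qf m) ^ 2 + 1) hp hG hab hcent hBA hα hs
  have hj : 1 ≤ (qf m) ^ 3 := Nat.one_le_pow _ _ (by omega)
  have hhj : α ≤ qf m * (qf m) ^ 3 := by
    calc α ≤ m := hαm
      _ ≤ qf m ^ 4 := hq4
      _ = _ := by ring
  obtain ⟨T, hT, t, hNT, hTA, hTc, htα, hbt, hKT, hY⟩ :=
    core (K := rl B ⊥ ⊓ rl N B) hp hG hGc hm hab hcent hBN hNA (by
      intro x hx
      refine ⟨hx.1, ?_, Or.inr hp2⟩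
      intro z hz
      exact (hx.1 _ (hx.2 z hz))) hα hBc' hj hhj
  refine ⟨t, hbt, htα, ?_⟩
  have h1 := P_count hp hG (hBN.trans hNT) hBc' hTc hbt
  have hPK : (rl B ⊥ ⊓ rl T B : Subgroup G) ≤ rl B ⊥ ⊓ rl N B :=
    inf_le_inf_left _ (rl_anti hNT)
  have h2 := card_inf_le hPK hKT
  have h3 := Q_count hp hG (hBN.trans hNT) hTA hα hBc' hTc hbt htα
  have h := card_chain hp1 hn h1 h2 h3 hMY hY
  have e1 : qf m * α ≤ qf m * m := Nat.mul_le_mul_left _ hαm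
  have e2 : 6 * ((qf m) ^ 2 + 1) * α ≤ 6 * ((qf m) ^ 2 + 1) * m := Nat.mul_le_mul_left _ hαm
  omega

theorem main_all [Finite G] {p n m : ℕ} (hp : p.Prime)
    (hn : Nat.card G = p ^ n)
    (hm : ∀ H : Subgroup G, (∀ x ∈ H, ∀ y ∈ H, x * y = y * x) → Nat.card H ≤ p ^ m) :
    ∃ α ≤ m, ∀ b ≤ α, ∃ t, b ≤ t ∧ t ≤ α ∧ ∃ w ≤ α - t,
      n ≤ (b * (b - 1) / 2 + (t - b) * (t - b - 1) / 2)
        + ((qf m) ^ 2 * m + (qf m) ^ 3 * m + w * (α - t - w)) + (t - b) * (α - t)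
        + 6 * ((qf m) ^ 2 + 1) * m + ((qf m) ^ 3 * (m * (kf m + 1)) + b * (α - t) + m) := by
  have hG : IsPGroup p G := IsPGroup.of_card hn
  have hp1 : 1 < p := hp.one_lt
  obtain ⟨A, hA, hab, hcent⟩ := exists_maxAb hp hG
  obtain ⟨α, hα⟩ := exists_card_eq_pow hp hG A
  have hαm : α ≤ m := by
    have := hm A hab
    rw [hα] at this
    exact (Nat.pow_le_pow_iff_right hp1).1 this
  have hGc : Nat.card G ≤ p ^ (2 ^ kf m) := by
    rw [hn]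
    exact Nat.pow_le_pow_right hp1.le ((n_le_sq hp hn hm).trans (le_kf_pow m))
  refine ⟨α, hαm, fun b hb => ?_⟩
  obtain ⟨B, hB, -, hBA, hBc⟩ := exists_normal_between (V := (⊥ : Subgroup G)) (W := A) hp hG
    bot_le (k := α) (j := b) (by rw [hα]; simp) hb
  have hBc' : Nat.card B = p ^ b := by rw [hBc]; simp
  have hq := one_le_qf m
  have hq4 := le_qf_pow m
  have hs : α + 2 ≤ ((qf m) ^ 2 + 1) ^ 2 := by nlinarith [Nat.pos_of_ne_zero (by omega : qf m ≠ 0)]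
  obtain ⟨N, hN, hBN, hNA, hMY⟩ := exists_commHull (s := (qf m) ^ 2 + 1) hp hG hab hcent hBA hα hs
  have hj : 1 ≤ (qf m) ^ 3 := Nat.one_le_pow _ _ (by omega)
  have hhj : α ≤ qf m * (qf m) ^ 3 := by
    calc α ≤ m := hαm
      _ ≤ qf m ^ 4 := hq4
      _ = _ := by ring
  obtain ⟨T, hT, t, hNT, hTA, hTc, htα, hbt, hKT, hY⟩ :=
    core (K := rl N ⊥) hp hG hGc hm hab hcent hBN hNA (by
      intro x hx
      have hx1 : ∀ z ∈ N, ⁅x, z⁆ = 1 := fun z hz => hx z hz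
      refine ⟨rl_anti hBN hx, ?_, Or.inl hx1⟩
      intro z hz
      rw [hx1 z hz, commutatorElement_one_right]) hα hBc' hj hhj
  refine ⟨t, hbt, htα, ?_⟩
  have hBT : B ≤ T := hBN.trans hNT
  have h1 := P_count hp hG hBT hBc' hTc hbt
  -- commutators of `P` lie in `rl T ⊥`, of which most acts trivially on `A / T`
  have hCT := card_inf_le (rl_anti (V := (⊥ : Subgroup G)) hNT) hKT
  have hPe : ∀ x ∈ (rl B ⊥ ⊓ rl T B : Subgroup G),
      Nat.card (rl B ⊥ ⊓ rl T B : Subgroup G) ≤ p ^ (qf m * α) *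
        Nat.card (rl B ⊥ ⊓ rl T B ⊓ cm x (rl A T) : Subgroup G) := by
    intro x hx
    have hfin : ((fun g : G => (QuotientGroup.mk g : G ⧸ rl A T)) ''
        ((rl T ⊥ : Subgroup G) : Set G)).Finite := Set.toFinite _
    have h6 := card_le_of_fibers (rl B ⊥ ⊓ rl T B) (cm x (rl A T))
      (fun y => (QuotientGroup.mk ⁅x, y⁆ : G ⧸ rl A T)) _ hfin
      (by
        intro y hy
        exact ⟨⁅x, y⁆, comm_mem_rl_bot (fun u hu v hv => hab u (hBA hu) v (hBA hv)) hx hy, rfl⟩)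
      (by
        intro y _ y' _ hyy
        have h7 : ⁅x, y'⁆⁻¹ * ⁅x, y⁆ ∈ rl A T := QuotientGroup.eq.1 hyy.symm
        -- `⁅x, y'⁻¹ y⁆` is a conjugate of it
        have e : ⁅x, y'⁻¹ * y⁆ = y'⁻¹ * (⁅x, y'⁆⁻¹ * ⁅x, y⁆) * (y'⁻¹)⁻¹ := by
          simp only [commutatorElement_def]; group
        show ⁅x, y'⁻¹ * y⁆ ∈ rl A T
        rw [e]
        exact (rl_normal A T).conj_mem _ h7 _)
    have h8 := ncard_mk_image' (rl A T) (rl T ⊥ : Subgroup G)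
    have hpos : 0 < Nat.card (rl T ⊥ ⊓ rl A T : Subgroup G) := Nat.card_pos
    have h9 : ((fun g : G => (QuotientGroup.mk g : G ⧸ rl A T)) ''
        ((rl T ⊥ : Subgroup G) : Set G)).ncard ≤ p ^ (qf m * α) := by
      rw [← h8] at hCT
      exact Nat.le_of_mul_le_mul_right hCT hpos
    exact h6.trans (Nat.mul_le_mul_right _ h9)
  have hv : Nat.card A = p ^ (α - t) * Nat.card T := by
    rw [hα, hTc, ← pow_add]; congr 1; omega
  have hj' : 1 ≤ (qf m) ^ 2 := Nat.one_le_pow _ _ (by omega)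
  have hhj' : α ≤ (qf m) ^ 2 * (qf m) ^ 2 := by
    calc α ≤ m := hαm
      _ ≤ qf m ^ 4 := hq4
      _ = _ := by ring
  obtain ⟨w, hw, h2⟩ := schur_count (P := rl B ⊥ ⊓ rl T B) hp hG hab hTA hα.le hv hj' hhj' hPe
  refine ⟨w, hw, ?_⟩
  have h3 := Q_count hp hG hBT hTA hα hBc' hTc hbt htα
  have h := card_chain hp1 hn h1 h2 h3 hMY hY
  have e1 : (qf m) ^ 2 * α ≤ (qf m) ^ 2 * m := Nat.mul_le_mul_left _ hαm
  have e2 : 6 * ((qf m) ^ 2 + 1) * α ≤ 6 * ((qf m) ^ 2 + 1) * m := Nat.mul_le_mul_left _ hαm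
  have e3 : qf m * α * (qf m) ^ 2 ≤ (qf m) ^ 3 * m := by
    calc qf m * α * (qf m) ^ 2 = (qf m) ^ 3 * α := by ring
      _ ≤ _ := Nat.mul_le_mul_left _ hαm
  omega

end MP828
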