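import Pool.Agent.Lib.MP_828a6d_al.Gens

/-! MP_828a6d_al: tuples generating a small subgroup. -/

namespace MP828

theorem PairA_injOn {M : Type*} [Group M] [Finite M] (n : ℕ) (hn : 0 < n) (H : Subgroup M) :
    ∃ e : M → Fin n, Nat.card H ≤ n → Set.InjOn e (H : Set M) := by
  classical
  by_cases hH : Nat.card H ≤ n
  · refine ⟨fun m => if h : m ∈ H then Fin.castLE hH (Finite.equivFin H ⟨m, h⟩) else ⟨0, hn⟩, ?_⟩
    intro _ a ha b hb hab
    have ha' : a ∈ H := ha
    have hb' : b ∈ H := hb
    simp only [ha', hb', dif_pos] at hab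
    have h1 := (Fin.castLE_injective hH) hab
    have h2 := (Finite.equivFin H).injective h1
    exact congrArg Subtype.val h2
  · exact ⟨fun _ => ⟨0, hn⟩, fun h => absurd h hH⟩

/-- Tuples generating a small subgroup: in a finite `p`-group `M` the number of `x : Fin t → M` with
`|⟨x⟩| < p^s` is at most `|M|^s (p^s)^t`. Proof: for such an `x`, `H = closure (range x)` has
`|H| ≤ p^s |⊥|`, so by `exists_gens` (with `V = ⊥`, `W = H`, `r = s`) there is `z : Fin s → M` with
`closure (range z) = H`; thus `x` lies in the set of tuples with all entries in `closure (range z)`, and this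
closure has `< p^s` elements. Hence the set is contained in `⋃_{z : Fin s → M, |⟨z⟩| < p^s}
{x : ∀ i, x i ∈ closure (range z)}`, a union of `≤ |M|^s` sets of size `≤ (p^s)^t`. -/
theorem card_small_tuples {p : ℕ} (hp : p.Prime) {M : Type*} [Group M] [Finite M]
    (hM : IsPGroup p M) (s t : ℕ) :
    Nat.card {x : Fin t → M // Nat.card (Subgroup.closure (Set.range x)) < p ^ s}
      ≤ Nat.card M ^ s * (p ^ s) ^ t := by
  classical
  have hps : 0 < p ^ s := pow_pos hp.pos s
  choose e he using PairA_injOn (M := M) (p ^ s) hps
  have hz : ∀ x : {x : Fin t → M // Nat.card (Subgroup.closure (Set.range x)) < p ^ s},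
      ∃ z : Fin s → M, Subgroup.closure (Set.range z) = Subgroup.closure (Set.range x.1) := by
    intro x
    have hc : Nat.card (Subgroup.closure (Set.range x.1)) ≤ p ^ s * Nat.card (⊥ : Subgroup M) := by
      rw [Subgroup.card_bot, mul_one]
      exact x.2.le
    obtain ⟨z, _, hz⟩ := exists_gens hp hM bot_le hc
    exact ⟨z, by rwa [bot_sup_eq] at hz⟩
  choose z hz using hz
  let F : {x : Fin t → M // Nat.card (Subgroup.closure (Set.range x)) < p ^ s} →
      (Fin s → M) × (Fin t → Fin (p ^ s)) :=
    fun x => (z x, fun i => e (Subgroup.closure (Set.range (z x))) (x.1 i))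
  have hF : Function.Injective F := by
    intro x y hxy
    have h1 : z x = z y := congrArg Prod.fst hxy
    have h2 : (fun i => e (Subgroup.closure (Set.range (z x))) (x.1 i))
        = fun i => e (Subgroup.closure (Set.range (z y))) (y.1 i) := congrArg Prod.snd hxy
    apply Subtype.ext
    funext i
    have h3 := congrFun h2 i
    simp only [← h1] at h3
    have hle : Nat.card (Subgroup.closure (Set.range (z x))) ≤ p ^ s := by
      rw [hz x]
      exact x.2.le
    refine he _ hle ?_ ?_ h3
    · show x.1 i ∈ Subgroup.closure (Set.range (z x))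
      rw [hz x]
      exact Subgroup.subset_closure ⟨i, rfl⟩
    · show y.1 i ∈ Subgroup.closure (Set.range (z x))
      rw [h1, hz y]
      exact Subgroup.subset_closure ⟨i, rfl⟩
  have h := Nat.card_le_card_of_injective F hF
  rw [Nat.card_prod, Nat.card_fun, Nat.card_fun, Nat.card_fin, Nat.card_fin, Nat.card_fin] at h
  exact h

end MP828
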