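import Pool.Agent.Lib.MP_828a6d_al.PairA
import Pool.Agent.Lib.MP_828a6d_al.PairB

/-! MP_828a6d_al: counting the tuples on which a pairing vanishes. -/

namespace MP828

/-- Number of pairs of tuples annihilated by an injective pairing. `|M₁| ≥ p^{3s}`:
`p^{s²} · #{(x, y) ∈ M₁^{2s} × M₂^s : β(x_i)(y_j) = 1 ∀ i j} ≤ 2 |M₁|^{2s} |M₂|^s`.
Proof. Split according to `H_x = ⟨x⟩` (closure of the range).
(a) `|H_x| < p^s`: at most `|M₁|^s p^{2s²}` tuples `x` (`card_small_tuples` with `t = 2s`) and at most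
`|M₂|^s` tuples `y`; `p^{s²} · |M₁|^s p^{2s²} = p^{3s·s} |M₁|^s ≤ |M₁|^s |M₁|^s = |M₁|^{2s}`.
(b) `|H_x| ≥ p^s`: each `y_j` lies in `{y : ∀ h ∈ H_x, β h y = 1}` (if `β(x_i)(y) = 1` for all `i` then for
all `h ∈ H_x`), which has `≤ |M₂| / p^s` elements by `card_perp`; so at most `(|M₂|/p^s)^s` tuples `y`,
i.e. `p^{s²} · #y ≤ |M₂|^s`, for each of the `≤ |M₁|^{2s}` tuples `x`. Add (a) and (b). -/
theorem pair_count {p s : ℕ} (hp : p.Prime) {M₁ M₂ : Type*} [Group M₁] [Group M₂] [Finite M₁]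
    [Finite M₂] (h1 : IsPGroup p M₁) (hcard : p ^ (3 * s) ≤ Nat.card M₁)
    (β : M₁ →* (M₂ →* ℂˣ)) (hβ : Function.Injective β) :
    p ^ (s ^ 2) * Nat.card {xy : (Fin (2 * s) → M₁) × (Fin s → M₂) //
      ∀ i j, β (xy.1 i) (xy.2 j) = 1} ≤ 2 * (Nat.card M₁ ^ (2 * s) * Nat.card M₂ ^ s) := by
  classical
  have := Fintype.ofFinite M₁
  have := Fintype.ofFinite M₂
  set A := Nat.card M₁ with hA
  set B := Nat.card M₂ with hB
  -- the number of second tuples
  let f : (Fin (2 * s) → M₁) → ℕ := fun x =>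
    Nat.card {y : Fin s → M₂ // ∀ i j, β (x i) (y j) = 1}
  have htot : Nat.card {xy : (Fin (2 * s) → M₁) × (Fin s → M₂) //
      ∀ i j, β (xy.1 i) (xy.2 j) = 1} = ∑ x, f x := by
    rw [Nat.card_congr (Equiv.subtypeProdEquivSigmaSubtype
      (fun (x : Fin (2 * s) → M₁) (y : Fin s → M₂) => ∀ i j, β (x i) (y j) = 1)),
      Nat.card_sigma]
  have hBs : Nat.card (Fin s → M₂) = B ^ s := by
    rw [Nat.card_fun, Nat.card_fin]
  have hAs : Nat.card (Fin (2 * s) → M₁) = A ^ (2 * s) := by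
    rw [Nat.card_fun, Nat.card_fin]
  have hf1 : ∀ x, f x ≤ B ^ s := by
    intro x
    rw [← hBs]
    exact Nat.card_le_card_of_injective _ Subtype.val_injective
  have hf2 : ∀ x, p ^ s ≤ Nat.card (Subgroup.closure (Set.range x)) →
      p ^ (s ^ 2) * f x ≤ B ^ s := by
    intro x hx
    set H := Subgroup.closure (Set.range x) with hH
    set c := Nat.card {y : M₂ // ∀ h ∈ H, β h y = 1} with hc
    have h2 : p ^ s * c ≤ B := le_trans (Nat.mul_le_mul_right _ hx) (card_perp β hβ H)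
    have h3 : f x ≤ c ^ s := by
      have h4 : Nat.card (Fin s → {y : M₂ // ∀ h ∈ H, β h y = 1}) = c ^ s := by
        rw [Nat.card_fun, Nat.card_fin]
      rw [← h4]
      refine Nat.card_le_card_of_injective (fun y j => ⟨y.1 j, fun h hh => ?_⟩) ?_
      · refine Subgroup.closure_induction (p := fun h _ => β h (y.1 j) = 1) ?_ ?_ ?_ ?_ hh
        · rintro _ ⟨i, rfl⟩
          exact y.2 i j
        · rw [map_one]
          rfl
        · intro a b _ _ ha hb
          rw [map_mul, MonoidHom.mul_apply, ha, hb, one_mul]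
        · intro a _ ha
          rw [map_inv, MonoidHom.inv_apply, ha, inv_one]
      · intro y y' h
        apply Subtype.ext
        funext j
        exact congrArg Subtype.val (congrFun h j)
    calc p ^ (s ^ 2) * f x ≤ p ^ (s ^ 2) * c ^ s := Nat.mul_le_mul_left _ h3
      _ = (p ^ s * c) ^ s := by rw [mul_pow, ← pow_mul, sq]
      _ ≤ B ^ s := Nat.pow_le_pow_left h2 s
  let Sm : Finset (Fin (2 * s) → M₁) :=
    Finset.univ.filter fun x => Nat.card (Subgroup.closure (Set.range x)) < p ^ s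
  have hSm : Sm.card ≤ A ^ s * (p ^ s) ^ (2 * s) := by
    have h2 := card_small_tuples hp h1 s (2 * s)
    rwa [Nat.card_eq_fintype_card, Fintype.card_subtype] at h2
  have hSc : (Finset.univ.filter fun x : Fin (2 * s) → M₁ =>
      ¬ Nat.card (Subgroup.closure (Set.range x)) < p ^ s).card ≤ A ^ (2 * s) := by
    rw [← hAs, Nat.card_eq_fintype_card]
    exact Finset.card_le_univ _
  have ha : p ^ (s ^ 2) * (Sm.card * B ^ s) ≤ A ^ (2 * s) * B ^ s := by
    calc p ^ (s ^ 2) * (Sm.card * B ^ s)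
        ≤ p ^ (s ^ 2) * ((A ^ s * (p ^ s) ^ (2 * s)) * B ^ s) := by gcongr
      _ = A ^ s * (p ^ (3 * s)) ^ s * B ^ s := by ring
      _ ≤ A ^ s * A ^ s * B ^ s := by gcongr
      _ = A ^ (2 * s) * B ^ s := by ring
  rw [htot, ← Finset.sum_filter_add_sum_filter_not Finset.univ
    (fun x : Fin (2 * s) → M₁ => Nat.card (Subgroup.closure (Set.range x)) < p ^ s), mul_add]
  have hb1 : p ^ (s ^ 2) * ∑ x ∈ Sm, f x ≤ A ^ (2 * s) * B ^ s := by
    refine le_trans (Nat.mul_le_mul_left _ ?_) ha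
    calc ∑ x ∈ Sm, f x ≤ ∑ x ∈ Sm, B ^ s := Finset.sum_le_sum fun x _ => hf1 x
      _ = Sm.card * B ^ s := by rw [Finset.sum_const, smul_eq_mul]
  have hb2 : p ^ (s ^ 2) * ∑ x ∈ Finset.univ.filter (fun x : Fin (2 * s) → M₁ =>
      ¬ Nat.card (Subgroup.closure (Set.range x)) < p ^ s), f x ≤ A ^ (2 * s) * B ^ s := by
    rw [Finset.mul_sum]
    calc ∑ x ∈ Finset.univ.filter (fun x : Fin (2 * s) → M₁ =>
          ¬ Nat.card (Subgroup.closure (Set.range x)) < p ^ s), p ^ (s ^ 2) * f x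
        ≤ ∑ x ∈ Finset.univ.filter (fun x : Fin (2 * s) → M₁ =>
          ¬ Nat.card (Subgroup.closure (Set.range x)) < p ^ s), B ^ s :=
          Finset.sum_le_sum fun x hx => hf2 x (not_lt.mp (Finset.mem_filter.mp hx).2)
      _ = (Finset.univ.filter (fun x : Fin (2 * s) → M₁ =>
          ¬ Nat.card (Subgroup.closure (Set.range x)) < p ^ s)).card * B ^ s := by
          rw [Finset.sum_const, smul_eq_mul]
      _ ≤ A ^ (2 * s) * B ^ s := Nat.mul_le_mul_right _ hSc
  calc _ ≤ A ^ (2 * s) * B ^ s + A ^ (2 * s) * B ^ s := add_le_add hb1 hb2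
    _ = 2 * (A ^ (2 * s) * B ^ s) := by ring

end MP828
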