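import Pool.Agent.Lib.MP_828a6d_al.SkewDef

/-! MP_828a6d_al: iterates of an additive endomorphism, nilpotency. -/

namespace MP828

variable {E C : Type*} [AddCommGroup E] [AddCommGroup C]

/-- the iterate as an additive homomorphism -/
def skewB_it (D : E →+ E) (n : ℕ) : E →+ E := (show AddMonoid.End E from D) ^ n

theorem skewB_it_apply (D : E →+ E) (n : ℕ) (x : E) : skewB_it D n x = D^[n] x := rfl

/-- Rank bookkeeping: `|D^s E| = |D^{s+j} E| · |D^s (ker D^{s+j})|`.
Proof: `D^j` maps `D^s E` onto `D^{s+j} E` with kernel `D^s E ∩ ker D^j = D^s (ker D^{s+j})`.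
(`AddSubgroup.map`, first isomorphism theorem: `Nat.card` of the range of the restricted map.) -/
theorem card_iterate_range [Finite E] (D : E →+ E) (s j : ℕ) :
    Nat.card (Set.range (D^[s])) =
      Nat.card (Set.range (D^[s + j])) * Nat.card ((D^[s]) '' {x | D^[s + j] x = 0}) := by
  let f : (skewB_it D s).range →+ E := (skewB_it D j).comp (skewB_it D s).range.subtype
  have h1 : Nat.card f.ker * f.ker.index = Nat.card (skewB_it D s).range :=
    AddSubgroup.card_mul_index f.ker
  rw [AddSubgroup.index_ker] at h1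
  have h2 : (f.range : Set E) = Set.range (D^[s + j]) := by
    ext y
    constructor
    · rintro ⟨⟨_, x, rfl⟩, rfl⟩
      refine ⟨x, ?_⟩
      rw [add_comm, Function.iterate_add_apply]
      rfl
    · rintro ⟨x, rfl⟩
      refine ⟨⟨_, x, rfl⟩, ?_⟩
      rw [add_comm, Function.iterate_add_apply]
      rfl
  have h3 : Set.range (fun h : f.ker => (h.1.1 : E)) = (D^[s]) '' {x | D^[s + j] x = 0} := by
    ext y
    constructor
    · rintro ⟨⟨⟨_, x, rfl⟩, hx⟩, rfl⟩
      refine ⟨x, ?_, rfl⟩
      show D^[s + j] x = 0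
      rw [add_comm, Function.iterate_add_apply]
      exact hx
    · rintro ⟨x, hx, rfl⟩
      refine ⟨⟨⟨_, x, rfl⟩, ?_⟩, rfl⟩
      have hx' : D^[s + j] x = 0 := hx
      rw [add_comm, Function.iterate_add_apply] at hx'
      exact hx'
  have h4 : Nat.card f.ker = Nat.card ((D^[s]) '' {x | D^[s + j] x = 0}) := by
    rw [← h3]
    exact (Nat.card_range_of_injective (f := fun h : f.ker => (h.1.1 : E))
      (fun a b hab => Subtype.ext (Subtype.ext hab))).symm
  have h5 : Nat.card f.range = Nat.card (Set.range (D^[s + j])) := by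
    rw [← h2]
    rfl
  have h6 : Nat.card (skewB_it D s).range = Nat.card (Set.range (D^[s])) := by
    have : ((skewB_it D s).range : Set E) = Set.range (D^[s]) := rfl
    rw [← this]
    rfl
  rw [← h6, ← h1, h4, h5, mul_comm]

/-- `φ - 1` is nilpotent -/
theorem skewB_nil {p e a : ℕ} (hp : p.Prime) (hE : Nat.card E = p ^ e)
    (φ : E ≃+ E) (hφ : ∀ x, (φ : E → E)^[p ^ a] x = x) : ∃ n, ∀ x, (Dφ φ)^[n] x = 0 := by
  let D : AddMonoid.End E := Dφ φ
  let F : AddMonoid.End E := φ.toAddMonoidHom
  have hF : D + 1 = F := by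
    ext x
    show (φ x - x) + x = φ x
    abel
  have hF1 : F ^ p ^ a = 1 := by
    ext x
    rw [AddMonoid.End.coe_pow]
    exact hφ x
  obtain ⟨r, hr⟩ := (Commute.one_right D).exists_add_pow_prime_pow_eq hp a
  rw [hF, hF1, one_pow] at hr
  have h1 : D ^ p ^ a = (p : AddMonoid.End E) * (-(D * 1 * r)) := by
    have h0 : D ^ p ^ a + p * D * 1 * r = 0 := by
      have : D ^ p ^ a + p * D * 1 * r = (D ^ p ^ a + 1 + p * D * 1 * r) - 1 := by abel
      rw [this, ← hr, sub_self]
    rw [eq_neg_of_add_eq_zero_left h0]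
    noncomm_ring
  have h2 : ((p : AddMonoid.End E)) ^ e = 0 := by
    ext x
    rw [← Nat.cast_pow]
    show ((p ^ e : ℕ) : AddMonoid.End E) x = 0
    rw [AddMonoid.End.natCast_apply, ← hE]
    exact card_nsmul_eq_zero'
  refine ⟨p ^ a * e, fun x => ?_⟩
  have h3 : D ^ (p ^ a * e) = 0 := by
    rw [pow_mul, h1, (Nat.cast_commute p _).mul_pow, h2, zero_mul]
  have h4 : (D ^ (p ^ a * e)) x = 0 := by rw [h3]; rfl
  exact h4

theorem skewB_range_eq (D : E →+ E) {i : ℕ}
    (h : Set.range (D^[i + 1]) = Set.range (D^[i])) (n : ℕ) :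
    Set.range (D^[i + n]) = Set.range (D^[i]) := by
  induction n with
  | zero => rfl
  | succ n ih =>
    apply Set.Subset.antisymm
    · rintro _ ⟨x, rfl⟩
      refine ⟨D^[n + 1] x, ?_⟩
      rw [← Function.iterate_add_apply]
    · rintro y hy
      rw [← ih] at hy
      obtain ⟨x, rfl⟩ := hy
      have h1 : D^[i] x ∈ Set.range (D^[i + 1]) := by rw [h]; exact ⟨x, rfl⟩
      obtain ⟨z, hz⟩ := h1
      refine ⟨z, ?_⟩
      rw [show i + (n + 1) = n + (i + 1) by omega, Function.iterate_add_apply, hz,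
        ← Function.iterate_add_apply, add_comm n i]

/-- Nilpotency: a `p`-power order automorphism of a finite abelian `p`-group. If `E` is finite of order
`≤ p^{l}`, `|E|` a power of the prime `p`, and `φ^{p^a} = 1` (as a map), then `(φ - 1)^l = 0`.
Proof: let `E_i = D^i E` (a decreasing chain of `φ`-invariant subgroups). If `E_i ≠ 0` then
`E_{i+1} < E_i`: the restriction of `D` to `E_i` is not injective, because the cyclic `p`-group generated
by `φ` acts on the nontrivial `p`-group `E_i` and so has `≡ |E_i| ≡ 0 (mod p)` fixed points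
(`IsPGroup.card_modEq_card_fixedPoints`), hence a nonzero fixed point, i.e. a nonzero element of `ker D`.
So `|E_{i+1}| ≤ |E_i| / p` as long as `E_i ≠ 0`, and `|E_l| ≤ max(1, p^{l-l}) = 1`. -/
theorem nilpotent_of_pgroup [Finite E] {p l a : ℕ} (hp : p.Prime) (hE : ∃ e ≤ l, Nat.card E = p ^ e)
    (φ : E ≃+ E) (hφ : ∀ x, (φ : E → E)^[p ^ a] x = x) (x : E) : (Dφ φ)^[l] x = 0 := by
  obtain ⟨e, hel, he⟩ := hE
  obtain ⟨n, hn⟩ := skewB_nil hp he φ hφ
  set D := Dφ φ with hD
  have hf : ∀ i, ∃ b ≤ e - i, Nat.card (Set.range (D^[i])) = p ^ b := by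
    intro i
    induction i with
    | zero =>
      refine ⟨e, le_rfl, ?_⟩
      rw [Function.iterate_zero, Set.range_id, Nat.card_univ, he]
    | succ i ih =>
      obtain ⟨b, hb, hc⟩ := ih
      have h1 := card_iterate_range D i 1
      rw [hc] at h1
      have h2 : Nat.card (Set.range (D^[i + 1])) ∣ p ^ b := ⟨_, h1⟩
      obtain ⟨b', hb', hc'⟩ := (Nat.dvd_prime_pow hp).1 h2
      refine ⟨b', ?_, hc'⟩
      by_contra hcon
      have hbb : b' = b := by omega
      have hb0 : 0 < b := by omega
      have hsub : Set.range (D^[i + 1]) ⊆ Set.range (D^[i]) := by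
        rintro _ ⟨x, rfl⟩
        exact ⟨D x, (Function.iterate_succ_apply _ _ _).symm⟩
      have heq : Set.range (D^[i + 1]) = Set.range (D^[i]) := by
        apply Set.eq_of_subset_of_ncard_le hsub
        rw [← Nat.card_coe_set_eq, ← Nat.card_coe_set_eq, hc, hc', hbb]
      have h3 := skewB_range_eq D heq n
      have h4 : Set.range (D^[i + n]) = {0} := by
        ext y
        constructor
        · rintro ⟨x, rfl⟩
          rw [add_comm, Function.iterate_add_apply]
          exact hn _
        · intro hy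
          refine ⟨0, ?_⟩
          rw [Set.mem_singleton_iff.1 hy]
          exact map_zero (skewB_it D (i + n))
      rw [← h3, h4] at hc
      have h5 : Nat.card ({0} : Set E) = 1 := Nat.card_unique
      rw [h5] at hc
      have h6 : 1 < p ^ b := Nat.one_lt_pow (by omega) hp.one_lt
      omega
  obtain ⟨b, hb, hc⟩ := hf l
  have hb0 : b = 0 := by omega
  rw [hb0, pow_zero] at hc
  have h1 : Subsingleton (Set.range (D^[l])) := (Nat.card_eq_one_iff_unique.1 hc).1
  have h2 := @Subsingleton.elim _ h1 ⟨D^[l] x, x, rfl⟩ ⟨0, 0, map_zero (skewB_it D l)⟩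
  exact congrArg Subtype.val h2

end MP828
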