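import Pool.Agent.Lib.MP_828a6d_al.SkewA
import Pool.Agent.Lib.MP_828a6d_al.SkewB

/-! MP_828a6d_al: the skew-adjointness lemma, abstract form. -/

namespace MP828

variable {E C : Type*} [AddCommGroup E] [AddCommGroup C]

/-- **Skew lemma**. If moreover `D^{2^k} = 0` and every isotropic subgroup of `E` has order at most `M₀`
(`M₀ ≥ 1` automatically), then `|E| ≤ M₀^{k+1} |ker D|`.
Proof. Put `f s = Nat.card (Set.range D^[s])`. For `s ≥ 2`, `S = D^s (ker D^{2s-1})` (an `AddSubgroup`) is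
isotropic by `isotropic_general`, so by `card_iterate_range` with `j = s - 1`: `f s ≤ M₀ f (2s - 1)`;
and `f 1 ≤ M₀ f 2` by `isotropic_one`. With `s = 2^i + 1` : `f (2^i + 1) ≤ M₀ f (2^{i+1} + 1)` for `i ≥ 0`
(`2 (2^i + 1) - 1 = 2^{i+1} + 1`), so `f 1 ≤ M₀ f 2 ≤ M₀^{k+1} f (2^k + 1) = M₀^{k+1}` since `D^{2^k+1} = 0`.
Finally `|E| = |D E| |ker D|` (first isomorphism theorem) and `ker D = {x | φ x = x}`. -/
theorem skew_card [Finite E] (c : E →+ E →+ C) (φ : E ≃+ E) (ψ : C →+ C)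
    (hφ : ∀ x y, c (φ x) (φ y) = ψ (c x y)) (hψ : ∀ z, ψ (ψ z) - 2 • ψ z + z = 0)
    (hodd : (∀ z, ψ z = z) ∨ (∀ z : C, 2 • z = 0 → z = 0)) (k M₀ : ℕ)
    (hnil : ∀ x, (Dφ φ)^[2 ^ k] x = 0)
    (hM : ∀ S : AddSubgroup E, (∀ x ∈ S, ∀ y ∈ S, c x y = 0) → Nat.card S ≤ M₀) :
    Nat.card E ≤ M₀ ^ (k + 1) * Nat.card {x : E // φ x = x} := by
  set D := Dφ φ with hD
  -- the isotropic images
  have key : ∀ s t : ℕ, (∀ x y, D^[t] x = 0 → D^[t] y = 0 → c (D^[s] x) (D^[s] y) = 0) →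
      Nat.card ((D^[s]) '' {x | D^[t] x = 0}) ≤ M₀ := by
    intro s t h
    have h1 := hM ((skewB_it D t).ker.map (skewB_it D s)) (by
      rintro _ ⟨x, hx, rfl⟩ _ ⟨y, hy, rfl⟩
      exact h x y hx hy)
    exact h1
  have step : ∀ s, 1 ≤ s → Nat.card (Set.range (D^[s])) ≤ M₀ * Nat.card (Set.range (D^[2 * s - 1])) := by
    intro s hs
    rw [card_iterate_range D s (s - 1), show s + (s - 1) = 2 * s - 1 by omega, mul_comm]
    apply Nat.mul_le_mul_right
    exact key s (2 * s - 1) fun x y _ hy => isotropic_general c φ ψ hφ hψ hs x y hy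
  have step1 : Nat.card (Set.range (D^[1])) ≤ M₀ * Nat.card (Set.range (D^[2])) := by
    rw [card_iterate_range D 1 1, mul_comm]
    apply Nat.mul_le_mul_right
    exact key 1 2 fun x y hx hy => isotropic_one c φ ψ hφ hψ hodd x y hx hy
  have tele : ∀ i, Nat.card (Set.range (D^[2])) ≤ M₀ ^ i * Nat.card (Set.range (D^[2 ^ i + 1])) := by
    intro i
    induction i with
    | zero => simp
    | succ i ih =>
      refine ih.trans ?_
      rw [pow_succ, mul_assoc]
      apply Nat.mul_le_mul_left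
      have := step (2 ^ i + 1) (Nat.le_add_left 1 _)
      rwa [show 2 * (2 ^ i + 1) - 1 = 2 ^ (i + 1) + 1 by rw [pow_succ]; omega] at this
  have hlast : Nat.card (Set.range (D^[2 ^ k + 1])) = 1 := by
    have h1 : Set.range (D^[2 ^ k + 1]) = {0} := by
      ext y
      constructor
      · rintro ⟨x, rfl⟩
        rw [Function.iterate_succ_apply]
        exact hnil _
      · intro hy
        refine ⟨0, ?_⟩
        rw [Set.mem_singleton_iff.1 hy]
        exact map_zero (skewB_it D (2 ^ k + 1))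
    rw [h1]
    exact Nat.card_unique
  have h1 : Nat.card (Set.range (D^[1])) ≤ M₀ ^ (k + 1) := by
    calc Nat.card (Set.range (D^[1])) ≤ M₀ * Nat.card (Set.range (D^[2])) := step1
      _ ≤ M₀ * (M₀ ^ k * Nat.card (Set.range (D^[2 ^ k + 1]))) := Nat.mul_le_mul_left _ (tele k)
      _ = M₀ ^ (k + 1) := by rw [hlast, mul_one, pow_succ, mul_comm]
  have h2 := card_iterate_range D 0 1
  rw [Function.iterate_zero, Set.range_id, Nat.card_univ, Set.image_id, Nat.zero_add] at h2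
  rw [h2]
  have h3 : Nat.card ({x | D^[1] x = 0} : Set E) = Nat.card {x : E // φ x = x} := by
    apply Nat.card_congr
    refine Equiv.subtypeEquivRight fun x => ?_
    show D x = 0 ↔ φ x = x
    rw [hD, Dφ_apply, sub_eq_zero]
  rw [h3]
  exact Nat.mul_le_mul_right _ h1

end MP828
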