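import Pool.Agent.Lib.MP_828a6d_al.SkewDef

/-! MP_828a6d_al: the isotropy of `D^s (ker D^{2s-1})`.

`E`, `C` additive commutative groups, `c : E →+ E →+ C`, `φ` an automorphism of `E`,
`ψ` an endomorphism of `C`, `c (φ x) (φ y) = ψ (c x y)`, `(ψ - 1)² = 0`. Write `D x = φ x - x`. -/

namespace MP828

variable {E C : Type*} [AddCommGroup E] [AddCommGroup C]

/-- `D' = φ⁻¹ - 1` -/
private def SkewA_E (φ : E ≃+ E) (y : E) : E := φ.symm y - y

private theorem SkewA_comm (φ : E ≃+ E) (k : ℕ) (z : E) :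
    (Dφ φ)^[k] (φ.symm z) = φ.symm ((Dφ φ)^[k] z) := by
  have h1 : ∀ z, Dφ φ (φ.symm z) = φ.symm (Dφ φ z) := by
    intro z
    rw [Dφ_apply, Dφ_apply, map_sub, φ.apply_symm_apply, φ.symm_apply_apply]
  induction k generalizing z with
  | zero => rfl
  | succ k ih =>
    rw [Function.iterate_succ_apply, Function.iterate_succ_apply, h1, ih]

private theorem SkewA_kill (φ : E ≃+ E) (k : ℕ) : ∀ z : E, (Dφ φ)^[k] z = 0 →
    (SkewA_E φ)^[k] z = 0 := by
  induction k with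
  | zero => exact fun z h => h
  | succ k ih =>
    intro z h
    rw [Function.iterate_succ_apply]
    apply ih
    have h1 : SkewA_E φ z = -φ.symm (Dφ φ z) := by
      unfold SkewA_E
      rw [Dφ_apply, map_sub, φ.symm_apply_apply]
      abel
    have h2 : ∀ w : E, (Dφ φ)^[k] (-w) = -((Dφ φ)^[k] w) := by
      intro w
      exact Function.Semiconj.iterate_right (f := fun w : E => -w) (ga := Dφ φ) (gb := Dφ φ)
        (fun w => (map_neg (Dφ φ) w).symm) k w |>.symm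
    rw [h1, h2, SkewA_comm, ← Function.iterate_succ_apply, h, map_zero, neg_zero]

/-- `F (x, y) = c (φ x) y - c x (φ⁻¹ y)` -/
private def SkewA_F (c : E →+ E →+ C) (φ : E ≃+ E) (x y : E) : C := c (φ x) y - c x (φ.symm y)

private theorem SkewA_F1 (c : E →+ E →+ C) (φ : E ≃+ E) (ψ : C →+ C)
    (hφ : ∀ x y, c (φ x) (φ y) = ψ (c x y)) (hψ : ∀ z, ψ (ψ z) - 2 • ψ z + z = 0) (x y : E) :
    SkewA_F c φ (Dφ φ x) y = SkewA_F c φ x (SkewA_E φ y) := by
  unfold SkewA_F SkewA_E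
  have h1 := hψ (c x (φ.symm (φ.symm y)))
  have h2 := hφ x (φ.symm (φ.symm y))
  rw [φ.apply_symm_apply] at h2
  have h3 := hφ (φ x) (φ.symm y)
  rw [φ.apply_symm_apply, h2] at h3
  rw [← h3, ← h2, two_nsmul] at h1
  rw [Dφ_apply]
  simp only [map_sub, AddMonoidHom.sub_apply]
  have h4 : c (φ (φ x)) y = c (φ x) (φ.symm y) + c (φ x) (φ.symm y) - c x (φ.symm (φ.symm y)) := by
    rw [← sub_eq_zero, ← h1]
    abel
  rw [h4]
  abel

private theorem SkewA_F2 (c : E →+ E →+ C) (φ : E ≃+ E) (x y : E) :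
    c (Dφ φ x) y = c x (SkewA_E φ y) + SkewA_F c φ x y := by
  unfold SkewA_F SkewA_E
  rw [Dφ_apply]
  simp only [map_sub, AddMonoidHom.sub_apply]
  abel

private theorem SkewA_F3 (c : E →+ E →+ C) (φ : E ≃+ E) (ψ : C →+ C)
    (hφ : ∀ x y, c (φ x) (φ y) = ψ (c x y)) (hψ : ∀ z, ψ (ψ z) - 2 • ψ z + z = 0) (k : ℕ) :
    ∀ x y : E, SkewA_F c φ ((Dφ φ)^[k] x) y = SkewA_F c φ x ((SkewA_E φ)^[k] y) := by
  induction k with
  | zero => exact fun x y => rfl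
  | succ k ih =>
    intro x y
    rw [Function.iterate_succ_apply', Function.iterate_succ_apply, SkewA_F1 c φ ψ hφ hψ, ih]

private theorem SkewA_main (c : E →+ E →+ C) (φ : E ≃+ E) (ψ : C →+ C)
    (hφ : ∀ x y, c (φ x) (φ y) = ψ (c x y)) (hψ : ∀ z, ψ (ψ z) - 2 • ψ z + z = 0) (k : ℕ) :
    ∀ x y : E, c ((Dφ φ)^[k + 1] x) y =
      c x ((SkewA_E φ)^[k + 1] y) + (k + 1) • SkewA_F c φ x ((SkewA_E φ)^[k] y) := by
  induction k with
  | zero =>
    intro x y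
    rw [zero_add, one_nsmul]
    exact SkewA_F2 c φ x y
  | succ k ih =>
    intro x y
    rw [Function.iterate_succ_apply', SkewA_F2, ih x (SkewA_E φ y),
      SkewA_F3 c φ ψ hφ hψ (k + 1) x y, ← Function.iterate_succ_apply,
      ← Function.iterate_succ_apply, add_assoc]
    congr 1
    exact (succ_nsmul _ (k + 1)).symm

/-- The key identity. From `(ψ - 1)² = 0`:
`c (φ² x) (φ² y) - 2 c (φ x) (φ y) + c x y = 0` for all `x, y`. Consequence, for `s ≥ 1`: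
`D^{2s-1} y = 0 ⇒ c (D^s x) (D^s y) = 0` for all `x`.
Proof. Let `F(x, y) = c (φ x) y - c x (φ.symm y)`. Then (replace `y` by `φ.symm (φ.symm y)` in the identity)
`c (φ² x) y - 2 c (φ x) (φ⁻¹ y) + c x (φ⁻² y) = 0`, i.e. `F (φ x, y) = F (x, φ⁻¹ y)`, i.e. with
`D' = φ⁻¹ - 1` : `F (D x, y) = F (x, D' y)` (**), while `F (x, y) = c (D x) y - c x (D' y)` (***).
By induction on `s ≥ 1`: `c (D^s x) y = c x (D'^s y) + s F (x, D'^{s-1} y)`
[step: `c (D^{s+1} x) y = c (D (D^s x)) y = c (D^s x) (D' y) + F (D^s x, y)` by (***), the first term is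
`c x (D'^{s+1} y) + s F (x, D'^s y)` by induction and the second is `F (x, D'^s y)` by (**)].
Now replace `y` by `D^s y`: `D' = -φ⁻¹ D` commutes with `D`, so `D'^{s-1} D^s y = ± φ^{-(s-1)} D^{2s-1} y = 0`
and `D'^s D^s y = 0` too. -/
theorem isotropic_general (c : E →+ E →+ C) (φ : E ≃+ E) (ψ : C →+ C)
    (hφ : ∀ x y, c (φ x) (φ y) = ψ (c x y)) (hψ : ∀ z, ψ (ψ z) - 2 • ψ z + z = 0)
    {s : ℕ} (hs : 1 ≤ s) (x y : E) (hy : (Dφ φ)^[2 * s - 1] y = 0) :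
    c ((Dφ φ)^[s] x) ((Dφ φ)^[s] y) = 0 := by
  obtain ⟨k, rfl⟩ : ∃ k, s = k + 1 := ⟨s - 1, by omega⟩
  have e1 : (Dφ φ)^[k + 1] ((Dφ φ)^[k + 1] y) = 0 := by
    rw [← Function.iterate_add_apply, show k + 1 + (k + 1) = (2 * (k + 1) - 1) + 1 by omega,
      Function.iterate_succ_apply', hy, map_zero]
  have e2 : (Dφ φ)^[k] ((Dφ φ)^[k + 1] y) = 0 := by
    rw [← Function.iterate_add_apply, show k + (k + 1) = 2 * (k + 1) - 1 by omega, hy]
  rw [SkewA_main c φ ψ hφ hψ k, SkewA_kill φ (k + 1) _ e1, SkewA_kill φ k _ e2]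
  unfold SkewA_F
  simp

/-- The case `s = 1` on `ker D²`: if `D² x = D² y = 0` then `c (D x) (D y) = 0`, provided `ψ = 1` or `C` has no
`2`-torsion.
Proof. With `δ = ψ - 1`: `δ (c u v) = c (D u) v + c u (D v) + c (D u) (D v)`. If `D² x = D² y = 0` then
`δ (c (D x) y) = c (D x) (D y)`, `δ (c x (D y)) = c (D x) (D y)`, `δ (c (D x) (D y)) = 0`. So, applying `δ`
to the formula for `(x, y)`: `0 = δ² (c x y) = 2 c (D x) (D y)`. If `ψ = 1` already
`δ (c (D x) y) = 0` gives `c (D x) (D y) = 0`. -/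
theorem isotropic_one (c : E →+ E →+ C) (φ : E ≃+ E) (ψ : C →+ C)
    (hφ : ∀ x y, c (φ x) (φ y) = ψ (c x y)) (hψ : ∀ z, ψ (ψ z) - 2 • ψ z + z = 0)
    (hodd : (∀ z, ψ z = z) ∨ (∀ z : C, 2 • z = 0 → z = 0)) (x y : E)
    (hx : (Dφ φ)^[2] x = 0) (hy : (Dφ φ)^[2] y = 0) :
    c (Dφ φ x) (Dφ φ y) = 0 := by
  have hD : ∀ u, φ u = u + Dφ φ u := by
    intro u
    rw [Dφ_apply]
    abel
  have key : ∀ u v, ψ (c u v) = c u v + c (Dφ φ u) v + c u (Dφ φ v) + c (Dφ φ u) (Dφ φ v) := by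
    intro u v
    rw [← hφ, hD u, hD v]
    simp only [map_add, AddMonoidHom.add_apply]
    abel
  have hx' : Dφ φ (Dφ φ x) = 0 := hx
  have hy' : Dφ φ (Dφ φ y) = 0 := hy
  have kA := key (Dφ φ x) y
  have kB := key x (Dφ φ y)
  have kK := key (Dφ φ x) (Dφ φ y)
  have k0 := key x y
  rw [hx'] at kA kK
  rw [hy'] at kB kK
  simp only [map_zero, AddMonoidHom.zero_apply, add_zero] at kA kB kK
  rcases hodd with h | h
  · rw [h] at kA
    exact (add_eq_left.1 kA.symm)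
  · apply h
    have h1 := hψ (c x y)
    rw [k0, map_add, map_add, map_add, k0, kA, kB, kK, two_nsmul] at h1
    rw [two_nsmul, ← h1]
    abel

end MP828
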