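import Mathlib

/-! MP_828a6d_al: `D = φ - 1`. -/

namespace MP828

variable {E C : Type*} [AddCommGroup E] [AddCommGroup C]

/-- `D = φ - 1` as an additive endomorphism. -/
def Dφ (φ : E ≃+ E) : E →+ E := φ.toAddMonoidHom - AddMonoidHom.id E

theorem Dφ_apply (φ : E ≃+ E) (x : E) : Dφ φ x = φ x - x := rfl

end MP828
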