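import Pool.Agent.Lib.MP_828a6d_al.Count
import Pool.Agent.Lib.MP_828a6d_al.Skew

/-! MP_828a6d_al: the skew lemma for groups. -/

namespace MP828

open scoped commutatorElement

variable {G : Type*} [Group G]

theorem SkewG_iter {Q : Type*} [CommGroup Q] (φ : Q ≃* Q) (n : ℕ) (x : Q) :
    (MulEquiv.toAdditive φ : Additive Q → Additive Q)^[n] (Additive.ofMul x) =
      Additive.ofMul (φ^[n] x) := by
  induction n generalizing x with
  | zero => rfl
  | succ n ih =>
    rw [Function.iterate_succ_apply, Function.iterate_succ_apply]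
    exact ih (φ x)

/-- The multiplicative form of `skew_card` and `nilpotent_of_pgroup`. -/
theorem SkewG_mul {Q Z : Type*} [CommGroup Q] [CommGroup Z] [Finite Q] (c : Q →* Q →* Z)
    (φ : Q ≃* Q) (ψ : Z →* Z) (hφ : ∀ x y, c (φ x) (φ y) = ψ (c x y))
    (hψ : ∀ z, ψ (ψ z) * z = ψ z ^ 2) (hodd : (∀ z, ψ z = z) ∨ (∀ z : Z, z ^ 2 = 1 → z = 1))
    {p k a : ℕ} (hp : p.Prime) (hQ : ∃ e ≤ 2 ^ k, Nat.card Q = p ^ e)
    (hfix : ∀ x, φ^[p ^ a] x = x) (M₀ : ℕ)
    (hM : ∀ S : Subgroup Q, (∀ x ∈ S, ∀ y ∈ S, c x y = 1) → Nat.card S ≤ M₀) :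
    Nat.card Q ≤ M₀ ^ (k + 1) * Nat.card {x : Q // φ x = x} := by
  let c' : Additive Q →+ Additive Q →+ Additive Z :=
    AddMonoidHom.mk' (fun x => AddMonoidHom.mk'
      (fun y => Additive.ofMul (c x.toMul y.toMul)) (by
        intro a b
        rw [toMul_add, map_mul, ofMul_mul])) (by
        intro a b
        refine AddMonoidHom.ext fun y => ?_
        show Additive.ofMul (c (a + b).toMul y.toMul) =
          Additive.ofMul (c a.toMul y.toMul) + Additive.ofMul (c b.toMul y.toMul)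
        rw [toMul_add, map_mul, MonoidHom.mul_apply, ofMul_mul])
  have h := skew_card (E := Additive Q) (C := Additive Z) c' (MulEquiv.toAdditive φ)
    (MonoidHom.toAdditive ψ) ?_ ?_ ?_ k M₀ ?_ ?_
  · exact h
  · intro x y
    exact congrArg Additive.ofMul (hφ x.toMul y.toMul)
  · intro z
    have h1 := hψ z.toMul
    have h2 : ψ (ψ z.toMul) * (ψ z.toMul ^ 2)⁻¹ * z.toMul = 1 := by
      rw [← h1, mul_inv, mul_inv_cancel_left, inv_mul_cancel]
    have h3 := congrArg Additive.ofMul h2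
    rw [ofMul_mul, ofMul_mul, ofMul_inv, ofMul_pow] at h3
    rw [sub_eq_add_neg]
    exact h3
  · rcases hodd with h1 | h1
    · left
      intro z
      exact congrArg Additive.ofMul (h1 z.toMul)
    · right
      intro z hz
      exact congrArg Additive.ofMul (h1 z.toMul (congrArg Additive.toMul hz))
  · intro x
    refine nilpotent_of_pgroup (E := Additive Q) (p := p) (l := 2 ^ k) (a := a) hp hQ (MulEquiv.toAdditive φ) ?_ x
    intro y
    have h1 := SkewG_iter φ (p ^ a) y.toMul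
    rw [hfix] at h1
    exact h1
  · intro S hS
    have h1 := hM (AddSubgroup.toSubgroup' S) (fun x hx y hy => hS x hx y hy)
    exact h1

/-- **Skew lemma, group form**. `Y, N` normal, `N ≤ Y` central in `Y`, `[Y, Y] ≤ N`; `x ∈ G` with
`⁅x, ⁅x, z⁆⁆ = 1` for `z ∈ N`, and (`x` centralizes `N` or `p` odd). `|G| ≤ p^{2^k}` and all abelian subgroups of
`G` have order `≤ p^m`. Then `|Y| ≤ p^{m (k+1)} |{y ∈ Y : ⁅x, y⁆ ∈ N}|`.
Proof. `E = Additive (Y ⧸ N.subgroupOf Y)` (commutative because `[Y, Y] ≤ N`), `C = Additive N`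
(commutative since `N` is central in `Y ≥ N`), `c (ȳ, ȳ') = ⁅y, y'⁆` (well defined and bimultiplicative
because `N` is central in `Y` and commutators of `Y` lie in `N`: `⁅y z, y'⁆ = y ⁅z, y'⁆ y⁻¹ ⁅y, y'⁆
= ⁅z, y'⁆ ⁅y, y'⁆`), `c x x = 0`. `φ` = conjugation by `x` on `Y ⧸ N`, `ψ` = conjugation by `x` on `N`; then
`c (φ x) (φ y) = ψ (c x y)`; `ψ z - z = ⁅x, z⁆`, so `(ψ - 1)² = 0` is the hypothesis `⁅x, ⁅x, z⁆⁆ = 1`
(`x ⁅x,z⁆ x⁻¹ = ⁅x,z⁆`). `C` is a `p`-group, so for `p` odd `2 • z = 0 → z = 0` (the order of `z` divides `2`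
and a power of `p`). Nilpotency of `φ - 1`: `nilpotent_of_pgroup` with `l = 2^k`, `a = 2^k`
(`|E| ≤ |G| ≤ p^{2^k}`, `x^{p^{2^k}} = 1` as the order of `x` is a power of `p` at most `|G|`).
Isotropic subgroups `S` of `E` correspond to subgroups `S̃ = {y ∈ Y : ȳ ∈ S}` of `G` that are abelian
(`⁅y, y'⁆ = c = 1`), so `|S| ≤ |S̃| ≤ p^m`. `skew_card` with `M₀ = p^m` gives
`|E| ≤ p^{m (k+1)} |{e : φ e = e}|`; multiply by `|N|`: `|E| |N| = |Y|` and `|{e : φ e = e}| |N| =
|{y ∈ Y : ⁅x, y⁆ ∈ N}|` (`φ ȳ = ȳ ⟺ x y x⁻¹ y⁻¹ ∈ N`). -/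
theorem skew_group [Finite G] {p m k : ℕ} (hp : p.Prime) (hG : IsPGroup p G)
    (hGc : Nat.card G ≤ p ^ (2 ^ k))
    (hm : ∀ H : Subgroup G, (∀ x ∈ H, ∀ y ∈ H, x * y = y * x) → Nat.card H ≤ p ^ m)
    {Y N : Subgroup G} [hY : Y.Normal] [hN : N.Normal] (hNY : N ≤ Y)
    (hYN : ∀ y ∈ Y, ∀ z ∈ N, y * z = z * y) (hYY : ∀ y ∈ Y, ∀ y' ∈ Y, ⁅y, y'⁆ ∈ N)
    {x : G} (hx2 : ∀ z ∈ N, ⁅x, ⁅x, z⁆⁆ = 1) (hodd : (∀ z ∈ N, ⁅x, z⁆ = 1) ∨ p ≠ 2) :
    Nat.card Y ≤ p ^ (m * (k + 1)) * Nat.card (Y ⊓ cm x N : Subgroup G) := by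
  classical
  have : Fact p.Prime := ⟨hp⟩
  let N' : Subgroup Y := N.subgroupOf Y
  -- the quotient is commutative
  let instQ : CommGroup (Y ⧸ N') :=
    { (inferInstance : Group (Y ⧸ N')) with
      mul_comm := by
        intro a b
        obtain ⟨y, rfl⟩ := QuotientGroup.mk_surjective a
        obtain ⟨y', rfl⟩ := QuotientGroup.mk_surjective b
        rw [← QuotientGroup.mk_mul, ← QuotientGroup.mk_mul, QuotientGroup.eq]
        show ((y * y')⁻¹ * (y' * y) : Y).1 ∈ N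
        have h1 := hYY (y : G)⁻¹ (Y.inv_mem y.2) (y' : G)⁻¹ (Y.inv_mem y'.2)
        have h2 := hN.conj_mem _ h1 ((y' : G)⁻¹ * (y : G)⁻¹ * (y' : G) * (y : G))
        have e : (((y * y')⁻¹ * (y' * y) : Y) : G) = ⁅(y' : G)⁻¹, (y : G)⁻¹⁆ := by
          simp only [commutatorElement_def, Subgroup.coe_mul, Subgroup.coe_inv]
          group
        rw [e]
        exact hYY _ (Y.inv_mem y'.2) _ (Y.inv_mem y.2) }
  let instZ : CommGroup N :=
    { (inferInstance : Group N) with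
      mul_comm := fun a b => Subtype.ext (hYN a.1 (hNY a.2) b.1 b.2) }
  -- the commutator form
  let c0 : Y →* Y →* N := MonoidHom.mk' (fun y => MonoidHom.mk'
    (fun y' => (⟨⁅(y : G), (y' : G)⁆, hYY _ y.2 _ y'.2⟩ : N)) (by
      intro a b
      apply Subtype.ext
      show ⁅(y : G), (a : G) * (b : G)⁆ = ⁅(y : G), (a : G)⁆ * ⁅(y : G), (b : G)⁆
      have e : ⁅(y : G), (a : G) * (b : G)⁆ =
          ⁅(y : G), (a : G)⁆ * ((a : G) * ⁅(y : G), (b : G)⁆ * (a : G)⁻¹) := by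
        simp only [commutatorElement_def]; group
      rw [e, hYN _ a.2 _ (hYY _ y.2 _ b.2), mul_inv_cancel_right])) (by
      intro a b
      ext y'
      show ⁅(a : G) * (b : G), (y' : G)⁆ = ⁅(a : G), (y' : G)⁆ * ⁅(b : G), (y' : G)⁆
      have e : ⁅(a : G) * (b : G), (y' : G)⁆ =
          (a : G) * ⁅(b : G), (y' : G)⁆ * (a : G)⁻¹ * ⁅(a : G), (y' : G)⁆ := by
        simp only [commutatorElement_def]; group
      rw [e, hYN _ a.2 _ (hYY _ b.2 _ y'.2), mul_inv_cancel_right]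
      exact hYN _ (hNY (hYY _ b.2 _ y'.2)) _ (hYY _ a.2 _ y'.2))
  have hc0 : ∀ y y' : Y, ((c0 y y' : N) : G) = ⁅(y : G), (y' : G)⁆ := fun _ _ => rfl
  have hz1 : ∀ y : Y, ∀ n ∈ N', c0 y n = 1 := by
    intro y n hn
    apply Subtype.ext
    rw [hc0]
    exact commutatorElement_eq_one_iff_mul_comm.2 (hYN _ y.2 _ hn)
  let c1 : Y →* (Y ⧸ N') →* N := MonoidHom.mk' (fun y => QuotientGroup.lift N' (c0 y) (hz1 y)) (by
    intro a b
    apply QuotientGroup.monoidHom_ext
    ext y'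
    show ((c0 (a * b) y' : N) : G) = ((c0 a y' * c0 b y' : N) : G)
    rw [map_mul]
    rfl)
  let c : (Y ⧸ N') →* (Y ⧸ N') →* N := QuotientGroup.lift N' c1 (by
    intro n hn
    apply QuotientGroup.monoidHom_ext
    ext y'
    show ⁅(n : G), (y' : G)⁆ = 1
    exact commutatorElement_eq_one_iff_mul_comm.2 (hYN _ y'.2 _ hn).symm)
  have hc : ∀ y y' : Y, ((c (QuotientGroup.mk y) (QuotientGroup.mk y') : N) : G) =
      ⁅(y : G), (y' : G)⁆ := fun _ _ => rfl
  -- the automorphisms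
  have hmapN : N'.map ((MulAut.conjNormal x : MulAut Y) : Y →* Y) = N' := by
    ext y
    constructor
    · rintro ⟨z, hz, rfl⟩
      show ((MulAut.conjNormal x : MulAut Y) z : G) ∈ N
      rw [MulAut.conjNormal_apply]
      exact hN.conj_mem _ hz x
    · intro hy
      refine ⟨(MulAut.conjNormal x : MulAut Y).symm y, ?_, ?_⟩
      · show (((MulAut.conjNormal x : MulAut Y).symm y : Y) : G) ∈ N
        rw [MulAut.conjNormal_symm_apply]
        have := hN.conj_mem _ hy x⁻¹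
        rwa [inv_inv] at this
      · exact (MulAut.conjNormal x : MulAut Y).apply_symm_apply y
  let φ : (Y ⧸ N') ≃* (Y ⧸ N') := QuotientGroup.congr N' N' (MulAut.conjNormal x : MulAut Y) hmapN
  have hφmk : ∀ y : Y, φ (QuotientGroup.mk y) = QuotientGroup.mk ((MulAut.conjNormal x : MulAut Y) y) :=
    fun _ => rfl
  let ψ : N →* N := ((MulAut.conjNormal x : MulAut N) : N →* N)
  have hψv : ∀ z : N, ((ψ z : N) : G) = x * z * x⁻¹ := fun z => MulAut.conjNormal_apply x z
  have hiter : ∀ (n : ℕ) (y : Y), φ^[n] (QuotientGroup.mk y) =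
      QuotientGroup.mk ((MulAut.conjNormal (x ^ n) : MulAut Y) y) := by
    intro n
    induction n with
    | zero =>
      intro y
      rw [pow_zero, map_one]
      rfl
    | succ n ih =>
      intro y
      rw [Function.iterate_succ_apply, hφmk, ih, pow_succ, map_mul]
      rfl
  obtain ⟨gG, hgG⟩ := IsPGroup.iff_card.1 hG
  have hgk : gG ≤ 2 ^ k := by
    rw [hgG] at hGc
    exact (Nat.pow_le_pow_iff_right hp.one_lt).1 hGc
  have hxpow : x ^ (p ^ gG) = 1 := by
    rw [← hgG]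
    exact pow_card_eq_one'
  have hQcard : ∃ e ≤ 2 ^ k, Nat.card (Y ⧸ N') = p ^ e := by
    obtain ⟨e, he⟩ := IsPGroup.iff_card.1 ((hG.to_subgroup Y).to_quotient N')
    refine ⟨e, ?_, he⟩
    have h1 : Nat.card (Y ⧸ N') ≤ Nat.card Y :=
      Nat.card_le_card_of_surjective _ (QuotientGroup.mk_surjective (s := N'))
    have h2 : Nat.card Y ≤ Nat.card G := Subgroup.card_le_card_group Y
    rw [he] at h1
    exact (Nat.pow_le_pow_iff_right hp.one_lt).1 ((h1.trans h2).trans hGc)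
  have hcomm1 : ∀ z : N, ⁅x, (z : G)⁆ = (ψ z : G) * (z : G)⁻¹ := fun z => by
    rw [hψv, commutatorElement_def]
  have main := SkewG_mul (p := p) (k := k) (a := gG) c φ ψ ?_ ?_ ?_ hp hQcard ?_ (p ^ m) ?_
  · -- the final count
    have hcardY := Subgroup.card_eq_card_quotient_mul_card_subgroup N'
    have hfixmem : ∀ q : Y ⧸ N', φ q = q → ((Quotient.out q : Y) : G) ∈ cm x N := by
      intro q hq
      have h1 : (QuotientGroup.mk (Quotient.out q) : Y ⧸ N') = q := QuotientGroup.out_eq' q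
      have h2 : (QuotientGroup.mk ((MulAut.conjNormal x : MulAut Y) (Quotient.out q)) : Y ⧸ N') =
          QuotientGroup.mk (Quotient.out q) := by
        rw [← hφmk, h1, hq]
      have h3 := QuotientGroup.eq.1 h2.symm
      have h4 : ((Quotient.out q : Y) : G)⁻¹ * (x * ((Quotient.out q : Y) : G) * x⁻¹) ∈ N := h3
      show ⁅x, ((Quotient.out q : Y) : G)⁆ ∈ N
      have h5 := hN.conj_mem _ h4 ((Quotient.out q : Y) : G)
      have e : ⁅x, ((Quotient.out q : Y) : G)⁆ = ((Quotient.out q : Y) : G) *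
          (((Quotient.out q : Y) : G)⁻¹ * (x * ((Quotient.out q : Y) : G) * x⁻¹)) *
          ((Quotient.out q : Y) : G)⁻¹ := by
        simp only [commutatorElement_def]
        group
      rw [e]
      exact h5
    have hNmem : ∀ z ∈ N, z ∈ cm x N := by
      intro z hz
      show ⁅x, z⁆ ∈ N
      rw [commutatorElement_def]
      exact N.mul_mem (hN.conj_mem z hz x) (N.inv_mem hz)
    have hinj : Nat.card {q : Y ⧸ N' // φ q = q} * Nat.card N' ≤
        Nat.card (Y ⊓ cm x N : Subgroup G) := by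
      rw [← Nat.card_prod]
      apply Nat.card_le_card_of_injective (fun qn : {q : Y ⧸ N' // φ q = q} × N' =>
        (⟨((Quotient.out qn.1.1 * qn.2.1 : Y) : G), (Quotient.out qn.1.1 * qn.2.1 : Y).2,
          (cm x N).mul_mem (hfixmem _ qn.1.2) (hNmem _ qn.2.2)⟩ : (Y ⊓ cm x N : Subgroup G)))
      rintro ⟨⟨q, hq⟩, ⟨n, hn⟩⟩ ⟨⟨q', hq'⟩, ⟨n', hn'⟩⟩ he
      have h1 := congrArg (Subtype.val : (Y ⊓ cm x N : Subgroup G) → G) he
      have h2 : (Quotient.out q * n : Y) = Quotient.out q' * n' := Subtype.ext h1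
      have h3 : q = q' := by
        have h4 := congrArg (QuotientGroup.mk : Y → Y ⧸ N') h2
        have h5 : (QuotientGroup.mk (Quotient.out q) : Y ⧸ N') = q := QuotientGroup.out_eq' q
        have h6 : (QuotientGroup.mk (Quotient.out q') : Y ⧸ N') = q' := QuotientGroup.out_eq' q'
        rw [QuotientGroup.mk_mul_of_mem _ hn, QuotientGroup.mk_mul_of_mem _ hn', h5, h6] at h4
        exact h4
      subst h3
      have h7 : n = n' := mul_left_cancel h2
      subst h7
      rfl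
    calc Nat.card Y = Nat.card (Y ⧸ N') * Nat.card N' := hcardY
      _ ≤ (p ^ m) ^ (k + 1) * Nat.card {q : Y ⧸ N' // φ q = q} * Nat.card N' :=
          Nat.mul_le_mul_right _ main
      _ = p ^ (m * (k + 1)) * (Nat.card {q : Y ⧸ N' // φ q = q} * Nat.card N') := by
          rw [← pow_mul, mul_assoc]
      _ ≤ p ^ (m * (k + 1)) * Nat.card (Y ⊓ cm x N : Subgroup G) := Nat.mul_le_mul_left _ hinj
  · -- equivariance
    intro a b
    obtain ⟨y, rfl⟩ := QuotientGroup.mk_surjective a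
    obtain ⟨y', rfl⟩ := QuotientGroup.mk_surjective b
    apply Subtype.ext
    rw [hφmk, hφmk, hc, hψv, hc, MulAut.conjNormal_apply, MulAut.conjNormal_apply]
    simp only [commutatorElement_def]
    group
  · -- unipotency
    intro z
    have h1 : x * ⁅x, (z : G)⁆ * x⁻¹ = ⁅x, (z : G)⁆ := by
      have h2 := hx2 z z.2
      rw [commutatorElement_eq_one_iff_mul_comm] at h2
      rw [h2, mul_inv_cancel_right]
    have h3 : ψ (ψ z) = ψ z * z⁻¹ * ψ z := by
      have h4 : ψ z = (ψ z * z⁻¹) * z := by group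
      have h5 : ψ (ψ z * z⁻¹) = ψ z * z⁻¹ := by
        apply Subtype.ext
        rw [hψv]
        have h6 : (((ψ z * z⁻¹ : N)) : G) = ⁅x, (z : G)⁆ := (hcomm1 z).symm
        rw [h6, h1]
      calc ψ (ψ z) = ψ ((ψ z * z⁻¹) * z) := by rw [← h4]
        _ = ψ (ψ z * z⁻¹) * ψ z := map_mul _ _ _
        _ = ψ z * z⁻¹ * ψ z := by rw [h5]
    rw [h3, mul_right_comm (ψ z) z⁻¹ (ψ z), inv_mul_cancel_right, sq]
  · -- two-torsion
    rcases hodd with h1 | h1
    · left
      intro z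
      apply Subtype.ext
      have h2 := h1 z z.2
      rw [hcomm1] at h2
      exact mul_inv_eq_one.1 h2
    · right
      intro z hz
      obtain ⟨l, hl⟩ := (hG.to_subgroup N) z
      have h2 : orderOf z ∣ 2 := orderOf_dvd_of_pow_eq_one hz
      have h3 : orderOf z ∣ p ^ l := orderOf_dvd_of_pow_eq_one hl
      have h4 : Nat.Coprime (p ^ l) 2 :=
        Nat.Coprime.pow_left _ ((Nat.coprime_primes hp Nat.prime_two).2 h1)
      exact orderOf_eq_one_iff.1 (Nat.eq_one_of_dvd_coprimes h4 h3 h2)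
  · intro q
    obtain ⟨y, rfl⟩ := QuotientGroup.mk_surjective q
    rw [hiter, hxpow, map_one]
    rfl
  · -- isotropic subgroups
    intro S hS
    let St : Subgroup G := (S.comap (QuotientGroup.mk' N')).map Y.subtype
    have hSt : ∀ u ∈ St, ∀ v ∈ St, u * v = v * u := by
      rintro _ ⟨y, hy, rfl⟩ _ ⟨y', hy', rfl⟩
      have h1 := congrArg (Subtype.val : N → G) (hS _ hy _ hy')
      exact commutatorElement_eq_one_iff_mul_comm.1 h1
    refine le_trans ?_ (hm St hSt)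
    apply Nat.card_le_card_of_injective (fun s : S => (⟨((Quotient.out s.1 : Y) : G),
      ⟨Quotient.out s.1, by
        show QuotientGroup.mk (Quotient.out s.1) ∈ S
        have h1 : (QuotientGroup.mk (Quotient.out s.1) : Y ⧸ N') = s.1 := QuotientGroup.out_eq' s.1
        rw [h1]
        exact s.2, rfl⟩⟩ : St))
    intro s s' he
    have h1 := congrArg (Subtype.val : St → G) he
    have h2 : (Quotient.out s.1 : Y) = Quotient.out s'.1 := Subtype.ext h1
    have h3 : (QuotientGroup.mk (Quotient.out s.1) : Y ⧸ N') = s.1 := QuotientGroup.out_eq' s.1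
    have h4 : (QuotientGroup.mk (Quotient.out s'.1) : Y ⧸ N') = s'.1 := QuotientGroup.out_eq' s'.1
    apply Subtype.ext
    rw [← h3, ← h4, h2]

end MP828
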