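import Pool.Agent.Lib.MP_828a6d_al.TwoLen

/-! MP_828a6d_al (stream Two): the averaging argument (C2)-(C4).

`H` a finite group acting on the finite abelian `p`-group `W`, `|W| = p^r`, `W₁ ≤ W`. -/

namespace MP828

variable {H W : Type*} [Group H] [AddCommGroup W] [DistribMulAction H W]

/-- The subgroup generated by the `a l`, the `y j • a l` and the `x • a l`. -/
def Bx {k Q : ℕ} (a : Fin k → W) (y : Fin Q → H) (x : H) : AddSubgroup W :=
  AddSubgroup.closure (Set.range a ∪ {w | ∃ j l, w = y j • a l} ∪ {w | ∃ l, w = x • a l})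

/-- The subgroup generated by `u` and the `y j • u`. -/
def Su {Q : ℕ} (y : Fin Q → H) (u : W) : AddSubgroup W :=
  AddSubgroup.closure ({u} ∪ {w | ∃ j, w = y j • u})

/-- The pair `(x, u)` is bad for the data `(a, y)`. -/
def Bad (p d : ℕ) {k Q : ℕ} (a : Fin k → W) (y : Fin Q → H) (x : H) (u : W) : Prop :=
  x • u ∉ Bx a y x ⊔ Su y u ∨
    len p (Bx a y x) + d < len p (Bx a y x ⊔ Su y u ⊔ AddSubgroup.closure {x • u})

/-- The subgroup `S l` of the proof of `card_bad_pos`. -/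
def TwoBadA_S {k Q : ℕ} (X : Fin (Q + 1) → H) (w : Fin (k + 1) → W) (l : Fin (k + 1)) : AddSubgroup W :=
  AddSubgroup.closure ({w l} ∪ {z | ∃ i, z = X i • w l})

theorem TwoBadA_w_mem {k Q : ℕ} (X : Fin (Q + 1) → H) (w : Fin (k + 1) → W) (l : Fin (k + 1)) :
    w l ∈ TwoBadA_S X w l := AddSubgroup.subset_closure (Or.inl rfl)

theorem TwoBadA_Xw_mem {k Q : ℕ} (X : Fin (Q + 1) → H) (w : Fin (k + 1) → W) (l : Fin (k + 1))
    (i : Fin (Q + 1)) : X i • w l ∈ TwoBadA_S X w l := AddSubgroup.subset_closure (Or.inr ⟨i, rfl⟩)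

theorem TwoBadA_Bx_eq {k Q : ℕ} (X : Fin (Q + 1) → H) (w : Fin (k + 1) → W) (l : Fin (k + 1))
    (i : Fin (Q + 1)) :
    Bx (fun l' => w (l.succAbove l')) (fun j => X (i.succAbove j)) (X i) =
      ⨆ l', ⨆ (_ : l' ≠ l), TwoBadA_S X w l' := by
  apply le_antisymm
  · rw [Bx, AddSubgroup.closure_le]
    rintro z ((⟨l', rfl⟩ | ⟨j, l', rfl⟩) | ⟨l', rfl⟩)
    · exact (le_iSup₂_of_le (l.succAbove l') (Fin.succAbove_ne l l') le_rfl :
        TwoBadA_S X w (l.succAbove l') ≤ _) (TwoBadA_w_mem X w _)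
    · exact (le_iSup₂_of_le (l.succAbove l') (Fin.succAbove_ne l l') le_rfl :
        TwoBadA_S X w (l.succAbove l') ≤ _) (TwoBadA_Xw_mem X w _ _)
    · exact (le_iSup₂_of_le (l.succAbove l') (Fin.succAbove_ne l l') le_rfl :
        TwoBadA_S X w (l.succAbove l') ≤ _) (TwoBadA_Xw_mem X w _ _)
  · refine iSup₂_le fun l' hl' => ?_
    obtain ⟨l'', rfl⟩ := Fin.exists_succAbove_eq hl'
    rw [TwoBadA_S, AddSubgroup.closure_le]
    rintro z (hz | ⟨i', rfl⟩)
    · rw [Set.mem_singleton_iff] at hz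
      subst hz
      exact AddSubgroup.subset_closure (Or.inl (Or.inl ⟨l'', rfl⟩))
    · by_cases hi : i' = i
      · subst hi
        exact AddSubgroup.subset_closure (Or.inr ⟨l'', rfl⟩)
      · obtain ⟨j, rfl⟩ := Fin.exists_succAbove_eq hi
        exact AddSubgroup.subset_closure (Or.inl (Or.inr ⟨j, l'', rfl⟩))

theorem TwoBadA_Su_le {k Q : ℕ} (X : Fin (Q + 1) → H) (w : Fin (k + 1) → W) (l : Fin (k + 1))
    (i : Fin (Q + 1)) :
    Su (fun j => X (i.succAbove j)) (w l) ≤ TwoBadA_S X w l := by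
  rw [Su, AddSubgroup.closure_le]
  rintro z (hz | ⟨j, rfl⟩)
  · rw [Set.mem_singleton_iff] at hz
    subst hz
    exact TwoBadA_w_mem X w l
  · exact TwoBadA_Xw_mem X w l _

theorem TwoBadA_sup_le {k Q : ℕ} (X : Fin (Q + 1) → H) (w : Fin (k + 1) → W) (l : Fin (k + 1))
    (i : Fin (Q + 1)) :
    Bx (fun l' => w (l.succAbove l')) (fun j => X (i.succAbove j)) (X i) ⊔
      Su (fun j => X (i.succAbove j)) (w l) ⊔ AddSubgroup.closure {X i • w l} ≤
      ⨆ l', TwoBadA_S X w l' := by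
  rw [TwoBadA_Bx_eq]
  refine sup_le (sup_le (iSup₂_le fun l' _ => le_iSup _ l') ?_) ?_
  · exact (TwoBadA_Su_le X w l i).trans (le_iSup _ l)
  · rw [AddSubgroup.closure_le, Set.singleton_subset_iff]
    exact (le_iSup (TwoBadA_S X w) l) (TwoBadA_Xw_mem X w l i)

/-- For fixed `l` the number of `i` satisfying the first alternative is at most `ψ l`. -/
theorem TwoBadA_first [Finite W] {p r k Q : ℕ} (hp : p.Prime) (hW : Nat.card W = p ^ r)
    (X : Fin (Q + 1) → H) (w : Fin (k + 1) → W) (l : Fin (k + 1)) (T : Finset (Fin (Q + 1)))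
    (hT : ∀ i ∈ T, X i • w l ∉ Bx (fun l' => w (l.succAbove l')) (fun j => X (i.succAbove j)) (X i) ⊔
      Su (fun j => X (i.succAbove j)) (w l)) :
    T.card + len p (⨆ l', ⨆ (_ : l' ≠ l), TwoBadA_S X w l') ≤ len p (⨆ l', TwoBadA_S X w l') := by
  classical
  set B : AddSubgroup W := (⨆ l', ⨆ (_ : l' ≠ l), TwoBadA_S X w l') ⊔ AddSubgroup.closure {w l} with hB
  set S : Fin (Q + 1) → AddSubgroup W := fun i => AddSubgroup.closure {X i • w l} with hS
  have h1 := sum_gain_le hp hW B S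
  have h2 : T.card ≤ ∑ i, (len p (B ⊔ ⨆ j, S j) - len p (B ⊔ ⨆ j, ⨆ (_ : j ≠ i), S j)) := by
    have h3 : T.card = ∑ i ∈ T, 1 := by simp
    rw [h3]
    refine le_trans (Finset.sum_le_sum fun i hi => ?_)
      (Finset.sum_le_sum_of_subset (Finset.subset_univ T))
    have h4 : B ⊔ ⨆ j, ⨆ (_ : j ≠ i), S j ≤ B ⊔ ⨆ j, S j :=
      sup_le_sup_left (iSup₂_le fun j _ => le_iSup S j) B
    have h5 : X i • w l ∈ B ⊔ ⨆ j, S j := by
      have h6 : S i ≤ B ⊔ ⨆ j, S j := le_sup_of_le_right (le_iSup S i)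
      exact h6 (AddSubgroup.subset_closure (Set.mem_singleton _))
    have h7 : B ⊔ (⨆ j, ⨆ (_ : j ≠ i), S j) ≤
        Bx (fun l' => w (l.succAbove l')) (fun j => X (i.succAbove j)) (X i) ⊔
          Su (fun j => X (i.succAbove j)) (w l) := by
      rw [TwoBadA_Bx_eq, hB, sup_assoc]
      refine sup_le_sup_left (sup_le ?_ (iSup₂_le fun j hj => ?_)) _
      · rw [AddSubgroup.closure_le, Set.singleton_subset_iff]
        exact AddSubgroup.subset_closure (Or.inl rfl)
      · obtain ⟨j', rfl⟩ := Fin.exists_succAbove_eq hj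
        rw [hS, AddSubgroup.closure_le, Set.singleton_subset_iff]
        exact AddSubgroup.subset_closure (Or.inr ⟨j', rfl⟩)
    have h8 := len_lt_of_notMem hp hW h4 h5 (fun h => hT i hi (h7 h))
    omega
  have h9 : len p (B ⊔ ⨆ j, S j) ≤ len p (⨆ l', TwoBadA_S X w l') := by
    refine len_mono hp hW (sup_le (sup_le (iSup₂_le fun l' _ => le_iSup _ l') ?_) (iSup_le fun j => ?_))
    · rw [AddSubgroup.closure_le, Set.singleton_subset_iff]
      exact (le_iSup (TwoBadA_S X w) l) (TwoBadA_w_mem X w l)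
    · rw [hS, AddSubgroup.closure_le, Set.singleton_subset_iff]
      exact (le_iSup (TwoBadA_S X w) l) (TwoBadA_Xw_mem X w l j)
  have h10 : len p (⨆ l', ⨆ (_ : l' ≠ l), TwoBadA_S X w l') ≤ len p B :=
    len_mono hp hW le_sup_left
  omega

/-- **Bad positions of a tuple.** `X : Fin (Q+1) → H`, `w : Fin (k+1) → W`. The number of positions `(l, i)` such
that `(X i, w l)` is bad for `(w ∘ l.succAbove, X ∘ i.succAbove)` is at most `(k+1)(Q+1)/32`.
Proof. Put `S l = closure ({w l} ∪ {X i • w l : i})`, `Ũ = ⨆ l, S l`, `Ũ_l = ⨆ l' ≠ l, S l'`,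
`ψ l = len Ũ - len Ũ_l`. By `sum_gain_le` (`B = ⊥`) `Σ ψ l ≤ len Ũ ≤ r ≤ m`.
Note `Bx (w ∘ l.succAbove) (X ∘ i.succAbove) (X i) = Ũ_l` (the indices `≠ i` are the `i.succAbove j`,
`Fin.exists_succAbove_eq`), `Ũ_l ⊔ Su (X ∘ i.succAbove) (w l) ⊔ closure {X i • w l} = Ũ`.
Fix `l`. The second alternative of `Bad` says `len Ũ_l + d < len Ũ`, i.e. `ψ l ≥ d + 1`.
The number of `i` for which the first alternative holds, `X i • w l ∉ Ũ_l ⊔ Su (..)`, is at most `ψ l`: apply
`sum_gain_le` with `ι = Fin (Q+1)`, `B = Ũ_l ⊔ closure {w l}`, `S i = closure {X i • w l}`: each such `i`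
contributes at least `1` (`len_lt_of_notMem`), and the total is at most `len Ũ - len (Ũ_l ⊔ closure {w l}) ≤ ψ l`.
So the number `N l` of bad `i` for `l` satisfies `N l ≤ ψ l` if `ψ l ≤ d` and `N l ≤ Q + 1` always; hence
`(d + 1) N l ≤ (d + 1) ψ l + (Q + 1) ψ l` and `(d + 1) Σ N l ≤ (d + 1) m + (Q + 1) m`. With
`64 m ≤ (k+1)(Q+1)` and `64 m ≤ (k+1)(d+1)`: `64 (d+1) Σ N l ≤ 2 (d+1)(k+1)(Q+1)`. -/
theorem card_bad_pos [Finite W] {p r m k Q d : ℕ} (hp : p.Prime) (hW : Nat.card W = p ^ r)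
    (hr : r ≤ m) (h1 : 64 * m ≤ (k + 1) * (Q + 1)) (h2 : 64 * m ≤ (k + 1) * (d + 1))
    (X : Fin (Q + 1) → H) (w : Fin (k + 1) → W) :
    32 * Nat.card {q : Fin (k + 1) × Fin (Q + 1) //
      Bad p d (fun l => w (q.1.succAbove l)) (fun j => X (q.2.succAbove j)) (X q.2) (w q.1)} ≤
      (k + 1) * (Q + 1) := by
  classical
  set P : Fin (k + 1) → Fin (Q + 1) → Prop := fun l i =>
    Bad p d (fun l' => w (l.succAbove l')) (fun j => X (i.succAbove j)) (X i) (w l) with hP
  set U : AddSubgroup W := ⨆ l, TwoBadA_S X w l with hU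
  set V : Fin (k + 1) → AddSubgroup W := fun l => ⨆ l', ⨆ (_ : l' ≠ l), TwoBadA_S X w l' with hV
  set N : Fin (k + 1) → ℕ := fun l => (Finset.univ.filter fun i => P l i).card with hN
  have hcard : Nat.card {q : Fin (k + 1) × Fin (Q + 1) //
      Bad p d (fun l => w (q.1.succAbove l)) (fun j => X (q.2.succAbove j)) (X q.2) (w q.1)} =
      ∑ l, N l := by
    have e1 : Nat.card {q : Fin (k + 1) × Fin (Q + 1) // P q.1 q.2} =
        (Finset.univ.filter fun q : Fin (k + 1) × Fin (Q + 1) => P q.1 q.2).card := by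
      rw [Nat.card_eq_fintype_card, Fintype.card_subtype]
    have e2 : (Finset.univ.filter fun q : Fin (k + 1) × Fin (Q + 1) => P q.1 q.2).card = ∑ l, N l := by
      rw [Finset.card_filter, Fintype.sum_prod_type]
      refine Finset.sum_congr rfl fun l _ => ?_
      exact (Finset.card_filter _ _).symm
    exact e1.trans e2
  rw [hcard]
  have hle : ∀ l, len p (V l) ≤ len p U := fun l =>
    len_mono hp hW (iSup₂_le fun l' _ => le_iSup _ l')
  have hsum : ∑ l, (len p U - len p (V l)) ≤ m := by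
    have h3 := sum_gain_le hp hW ⊥ (TwoBadA_S X w)
    simp only [bot_sup_eq] at h3
    have h4 : len p U ≤ r := len_le hp hW U
    have h5 : ∑ l, (len p U - len p (V l)) ≤ len p U := le_trans (Nat.le_add_right _ _) h3
    omega
  have hNl : ∀ l, (d + 1) * N l ≤ (d + 1) * (len p U - len p (V l)) +
      (Q + 1) * (len p U - len p (V l)) := by
    intro l
    by_cases hd : len p U - len p (V l) ≤ d
    · have h3 : N l ≤ len p U - len p (V l) := by
        have h4 := TwoBadA_first hp hW X w l (Finset.univ.filter fun i => P l i) (by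
          intro i hi
          rw [Finset.mem_filter] at hi
          rcases hi.2 with h5 | h5
          · exact h5
          · exfalso
            have h6 := len_mono hp hW (TwoBadA_sup_le X w l i)
            rw [TwoBadA_Bx_eq] at h5 h6
            have h7 : len p (V l) + d < len p U := lt_of_lt_of_le h5 h6
            omega)
        have h5 : N l + len p (V l) ≤ len p U := h4
        omega
      exact le_trans (Nat.mul_le_mul_left _ h3) (Nat.le_add_right _ _)
    · push Not at hd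
      have h3 : N l ≤ Q + 1 := by
        calc N l ≤ (Finset.univ : Finset (Fin (Q + 1))).card := Finset.card_filter_le _ _
          _ = Q + 1 := by simp
      calc (d + 1) * N l ≤ (len p U - len p (V l)) * (Q + 1) := Nat.mul_le_mul hd h3
        _ = (Q + 1) * (len p U - len p (V l)) := mul_comm _ _
        _ ≤ _ := Nat.le_add_left _ _
  have htot : (d + 1) * ∑ l, N l ≤ (d + 1) * m + (Q + 1) * m := by
    calc (d + 1) * ∑ l, N l = ∑ l, (d + 1) * N l := Finset.mul_sum _ _ _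
      _ ≤ ∑ l, ((d + 1) * (len p U - len p (V l)) + (Q + 1) * (len p U - len p (V l))) :=
          Finset.sum_le_sum fun l _ => hNl l
      _ = (d + 1) * ∑ l, (len p U - len p (V l)) + (Q + 1) * ∑ l, (len p U - len p (V l)) := by
          rw [Finset.sum_add_distrib, Finset.mul_sum, Finset.mul_sum]
      _ ≤ (d + 1) * m + (Q + 1) * m :=
          Nat.add_le_add (Nat.mul_le_mul_left _ hsum) (Nat.mul_le_mul_left _ hsum)
  have h64 : (d + 1) * (2 * (32 * ∑ l, N l)) ≤ (d + 1) * (2 * ((k + 1) * (Q + 1))) := by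
    have h3 := Nat.mul_le_mul_left (d + 1) h1
    have h4 := Nat.mul_le_mul_left (Q + 1) h2
    nlinarith [htot, h3, h4]
  have h3 := Nat.le_of_mul_le_mul_left h64 (Nat.succ_pos d)
  omega

end MP828
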