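import Pool.Agent.Lib.MP_828a6d_al.TwoBadA

/-! MP_828a6d_al (stream Two): (C4). -/

namespace MP828

variable {H W : Type*} [Group H] [AddCommGroup W] [DistribMulAction H W]

/-- `Σ_X Σ_x f (update X i x) = |H| Σ_X f X` (the map `(X, x) ↦ (update X i x, X i)` is an involution of
`(ι → H) × H`). -/
theorem sum_update {ι T : Type*} [Fintype ι] [DecidableEq ι] [Fintype T] (i : ι)
    (f : (ι → T) → ℕ) :
    ∑ X : ι → T, ∑ x : T, f (Function.update X i x) = Fintype.card T * ∑ X : ι → T, f X := by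
  let e : ((ι → T) × T) ≃ ((ι → T) × T) :=
    { toFun := fun q => (Function.update q.1 i q.2, q.1 i)
      invFun := fun q => (Function.update q.1 i q.2, q.1 i)
      left_inv := fun q => by simp
      right_inv := fun q => by simp }
  have h1 : ∑ X : ι → T, ∑ x : T, f (Function.update X i x) = ∑ q : (ι → T) × T, f (e q).1 := by
    rw [Fintype.sum_prod_type]
    rfl
  have h2 : ∑ q : (ι → T) × T, f (e q).1 = ∑ q : (ι → T) × T, f q.1 :=
    Equiv.sum_comp e (fun q : (ι → T) × T => f q.1)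
  rw [h1, h2, Fintype.sum_prod_type]
  simp only [Finset.sum_const, Finset.card_univ, smul_eq_mul]
  rw [← Finset.mul_sum]

theorem TwoBadB_card {α : Type*} [Fintype α] (P : α → Prop) [DecidablePred P] :
    Nat.card {q : α // P q} = ∑ q : α, if P q then 1 else 0 := by
  rw [Nat.card_eq_fintype_card, Fintype.card_subtype, Finset.card_filter]

/-- **(C4)** There are `a : Fin k → W₁` and `y : Fin Q → H` with at most `|H| |W₁| / 32` bad pairs `(x, u)`.
Proof. Sum `card_bad_pos` over all `X : Fin (Q+1) → H` and `w : Fin (k+1) → W₁`; some position `(l, i)` is bad for at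
most `1/32` of the pairs `(X, w)`. By `sum_update` (for `X` at `i` and for `w` at `l`),
`Σ_{X, w} |{(x, u) : (update X i x, update w l u) has (l, i) bad}| = |H| |W₁| · |{(X, w) : (l, i) bad}|
≤ |H| |W₁| (|H|^{Q+1} |W₁|^{k+1}) / 32`, so some `(X, w)` has at most `|H| |W₁| / 32` bad `(x, u)`. Take
`a = w ∘ l.succAbove`, `y = X ∘ i.succAbove` (`Function.update_self`, `Fin.succAbove_ne`,
`Function.update_of_ne`). -/
theorem exists_few_bad [Finite H] [Finite W] {p r m k Q d : ℕ} (hp : p.Prime)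
    (hW : Nat.card W = p ^ r) (hr : r ≤ m) (h1 : 64 * m ≤ (k + 1) * (Q + 1))
    (h2 : 64 * m ≤ (k + 1) * (d + 1)) (W₁ : AddSubgroup W) :
    ∃ (a : Fin k → W) (y : Fin Q → H), (∀ l, a l ∈ W₁) ∧
      32 * Nat.card {q : H × W₁ // Bad p d a y q.1 (q.2 : W)} ≤ Nat.card H * Nat.card W₁ := by
  classical
  have : Fintype H := Fintype.ofFinite H
  have : Fintype W₁ := Fintype.ofFinite W₁
  let b : Fin (k + 1) × Fin (Q + 1) → (Fin (Q + 1) → H) → (Fin (k + 1) → W₁) → ℕ := fun q X w =>
    if Bad p d (fun l => ((w (q.1.succAbove l) : W₁) : W)) (fun j => X (q.2.succAbove j)) (X q.2)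
      ((w q.1 : W₁) : W) then 1 else 0
  have hb : ∀ X w, 32 * ∑ q, b q X w ≤ (k + 1) * (Q + 1) := by
    intro X w
    have h := card_bad_pos hp hW hr h1 h2 X (fun l => ((w l : W₁) : W))
    rw [TwoBadB_card] at h
    exact h
  -- a good position
  have hpos : ∃ q, 32 * ∑ X, ∑ w, b q X w ≤ ∑ _X : Fin (Q + 1) → H, ∑ _w : Fin (k + 1) → W₁, 1 := by
    have h3 : ∑ q : Fin (k + 1) × Fin (Q + 1), (32 * ∑ X, ∑ w, b q X w)
        ≤ ∑ _q : Fin (k + 1) × Fin (Q + 1), ∑ _X : Fin (Q + 1) → H, ∑ _w : Fin (k + 1) → W₁, 1 := by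
      have e1 : ∑ q : Fin (k + 1) × Fin (Q + 1), (32 * ∑ X, ∑ w, b q X w)
          = ∑ X, ∑ w, 32 * ∑ q, b q X w := by
        rw [← Finset.mul_sum, Finset.sum_comm, Finset.mul_sum]
        refine Finset.sum_congr rfl (fun X _ => ?_)
        rw [Finset.sum_comm, Finset.mul_sum]
      have e2 : ∑ _q : Fin (k + 1) × Fin (Q + 1), ∑ _X : Fin (Q + 1) → H, ∑ _w : Fin (k + 1) → W₁, 1
          = ∑ _X : Fin (Q + 1) → H, ∑ _w : Fin (k + 1) → W₁, (k + 1) * (Q + 1) := by
        rw [Finset.sum_comm]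
        refine Finset.sum_congr rfl (fun X _ => ?_)
        rw [Finset.sum_comm]
        refine Finset.sum_congr rfl (fun w _ => ?_)
        simp
      rw [e1, e2]
      exact Finset.sum_le_sum (fun X _ => Finset.sum_le_sum (fun w _ => hb X w))
    obtain ⟨q, -, hq⟩ := Finset.exists_le_of_sum_le (Finset.univ_nonempty) h3
    exact ⟨q, hq⟩
  obtain ⟨q, hq⟩ := hpos
  -- the double update
  have hup : ∑ X, ∑ w, ∑ x : H, ∑ u : W₁, b q (Function.update X q.2 x) (Function.update w q.1 u)
      = Fintype.card H * (Fintype.card W₁ * ∑ X, ∑ w, b q X w) := by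
    have e1 : ∑ X : Fin (Q + 1) → H, ∑ w, ∑ x : H, ∑ u : W₁,
          b q (Function.update X q.2 x) (Function.update w q.1 u)
        = ∑ X : Fin (Q + 1) → H, ∑ x : H, Fintype.card W₁ * ∑ w, b q (Function.update X q.2 x) w := by
      refine Finset.sum_congr rfl (fun X _ => ?_)
      rw [Finset.sum_comm]
      refine Finset.sum_congr rfl (fun x _ => ?_)
      exact sum_update q.1 (fun w => b q (Function.update X q.2 x) w)
    rw [e1, sum_update q.2 (fun X => Fintype.card W₁ * ∑ w, b q X w), ← Finset.mul_sum]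
  have hex : ∃ X w, 32 * ∑ x : H, ∑ u : W₁, b q (Function.update X q.2 x) (Function.update w q.1 u)
      ≤ Fintype.card H * Fintype.card W₁ := by
    have h4 : ∑ Z : (Fin (Q + 1) → H) × (Fin (k + 1) → W₁), (32 * ∑ x : H, ∑ u : W₁,
          b q (Function.update Z.1 q.2 x) (Function.update Z.2 q.1 u))
        ≤ ∑ _Z : (Fin (Q + 1) → H) × (Fin (k + 1) → W₁), Fintype.card H * Fintype.card W₁ := by
      have e1 : ∑ Z : (Fin (Q + 1) → H) × (Fin (k + 1) → W₁), (32 * ∑ x : H, ∑ u : W₁,
          b q (Function.update Z.1 q.2 x) (Function.update Z.2 q.1 u))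
          = Fintype.card H * Fintype.card W₁ * (32 * ∑ X, ∑ w, b q X w) := by
        rw [← Finset.mul_sum, Fintype.sum_prod_type, hup]
        ring
      have e2 : ∑ _Z : (Fin (Q + 1) → H) × (Fin (k + 1) → W₁), Fintype.card H * Fintype.card W₁
          = Fintype.card H * Fintype.card W₁ *
            ∑ _X : Fin (Q + 1) → H, ∑ _w : Fin (k + 1) → W₁, 1 := by
        rw [Fintype.sum_prod_type, Finset.mul_sum]
        refine Finset.sum_congr rfl (fun X _ => ?_)
        rw [Finset.mul_sum]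
        refine Finset.sum_congr rfl (fun w _ => ?_)
        rw [mul_one]
      rw [e1, e2]
      exact Nat.mul_le_mul_left _ hq
    obtain ⟨Z, -, hZ⟩ := Finset.exists_le_of_sum_le (Finset.univ_nonempty) h4
    exact ⟨Z.1, Z.2, hZ⟩
  obtain ⟨X, w, hXw⟩ := hex
  refine ⟨fun l => ((w (q.1.succAbove l) : W₁) : W), fun j => X (q.2.succAbove j), fun l => (w _).2, ?_⟩
  rw [TwoBadB_card, Nat.card_eq_fintype_card, Nat.card_eq_fintype_card, Fintype.sum_prod_type]
  refine le_trans (le_of_eq ?_) hXw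
  congr 1
  refine Finset.sum_congr rfl (fun x _ => Finset.sum_congr rfl (fun u _ => ?_))
  simp only [b]
  have e1 : (fun l => ((Function.update w q.1 u (q.1.succAbove l) : W₁) : W))
      = fun l => ((w (q.1.succAbove l) : W₁) : W) := by
    funext l
    rw [Function.update_of_ne (Fin.succAbove_ne q.1 l)]
  have e2 : (fun j => Function.update X q.2 x (q.2.succAbove j)) = fun j => X (q.2.succAbove j) := by
    funext j
    rw [Function.update_of_ne (Fin.succAbove_ne q.2 j)]
  rw [e1, e2, Function.update_self, Function.update_self]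

end MP828
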