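import Pool.Agent.Lib.MP_828a6d_al.TwoGreedy
import Pool.Agent.Lib.MP_828a6d_al.Nak

/-! MP_828a6d_al (stream Two): the count (F2). -/

namespace MP828

open scoped commutatorElement

variable {G : Type*} [Group G]

/-- **(F2)** `X` centralizes `B`, `⁅x i, y⁆ ∈ A = C(A)` for `y ∈ X`, `A = B ⊔ comA A (range x) ⊔ ⟨g_1, …, g_d⟩`. Then at
most `|I|^d |A|` elements `y ∈ X` have `⁅y, A⁆ ≤ I`.
Proof. `card_le_of_fibers` with `S = X ⊓ rl A I`, `K = A`, `f y = (⁅y, g t⁆)_t`, `T = {v | ∀ t, v t ∈ I}`
(`ncard = |I|^d`). If `⁅y, g t⁆ = ⁅y', g t⁆` for all `t` then `z = y'⁻¹ y ∈ X` commutes with all `g t` and with `B`;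
`nakayama` with `T = ⊥` (`rl A ⊥ = A`), the `x i`, and the family `g` extended by (a finite enumeration of) the elements of
`B`, gives `z ∈ rl A ⊥ = A`. (`|S ⊓ A| ≤ |A|`.) -/
theorem count_X [Finite G] {p : ℕ} (hp : p.Prime) (hG : IsPGroup p G) {A B : Subgroup G}
    [hA : A.Normal] [hB : B.Normal] (hab : ∀ x ∈ A, ∀ y ∈ A, x * y = y * x) (hcent : rl A ⊥ = A)
    (hBA : B ≤ A) {h d : ℕ} (x : Fin h → G) (g : Fin d → G) (hg : ∀ t, g t ∈ A)
    (hgen : A ≤ B ⊔ comA A (Set.range x) ⊔ Subgroup.closure (Set.range g)) {X : Subgroup G}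
    (hXB : ∀ y ∈ X, ∀ b ∈ B, y * b = b * y) (hXx : ∀ y ∈ X, ∀ i, ⁅x i, y⁆ ∈ A) (I : Subgroup G) :
    Nat.card (X ⊓ rl A I : Subgroup G) ≤ Nat.card I ^ d * Nat.card A := by
  classical
  have hT : ({v : Fin d → G | ∀ t, v t ∈ I}).ncard = Nat.card I ^ d := by
    have h1 : {v : Fin d → G | ∀ t, v t ∈ I} = Set.pi Set.univ (fun _ => (I : Set G)) := by
      ext v
      simp
    rw [h1, ← Nat.card_coe_set_eq, Nat.card_congr (Equiv.Set.univPi (fun _ : Fin d => (I : Set G))),
      Nat.card_pi]
    simp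
  have key := card_le_of_fibers (X ⊓ rl A I) A (fun y => fun t => ⁅y, g t⁆) {v : Fin d → G | ∀ t, v t ∈ I}
    (Set.toFinite _) (fun y hy t => hy.2 (g t) (hg t)) (fun y hy y' hy' e => by
      have hzX : y'⁻¹ * y ∈ X := X.mul_mem (X.inv_mem hy'.1) hy.1
      have hzg : ∀ t, ⁅y'⁻¹ * y, g t⁆ ∈ (⊥ : Subgroup G) := by
        intro t
        have h1 : ⁅y, g t⁆ = ⁅y', g t⁆ := congrFun e t
        have h2 : y * g t * y⁻¹ = y' * g t * y'⁻¹ := by
          have h3 := congrArg (fun w => w * g t) h1
          simp only [commutatorElement_def, inv_mul_cancel_right] at h3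
          exact h3
        rw [Subgroup.mem_bot]
        have h4 : ⁅y'⁻¹ * y, g t⁆ = y'⁻¹ * (y * g t * y⁻¹) * y' * (g t)⁻¹ := by
          simp only [commutatorElement_def]; group
        rw [h4, h2]
        group
      have hzB : ∀ b ∈ B, ⁅y'⁻¹ * y, b⁆ ∈ (⊥ : Subgroup G) := by
        intro b hb
        rw [Subgroup.mem_bot, commutatorElement_eq_one_iff_mul_comm]
        exact hXB _ hzX b hb
      obtain ⟨l, ⟨e⟩⟩ := Finite.exists_equiv_fin (Fin d ⊕ B)
      have hrange : Set.range (fun t : Fin l => Sum.elim g (fun b : B => (b : G)) (e.symm t)) =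
          Set.range g ∪ (B : Set G) := by
        have h1 : (fun t : Fin l => Sum.elim g (fun b : B => (b : G)) (e.symm t)) =
            Sum.elim g (fun b : B => (b : G)) ∘ e.symm := rfl
        rw [h1, e.symm.surjective.range_comp, Set.Sum.elim_range, Subtype.range_coe_subtype]
        rfl
      have h5 := nakayama hp hG (T := ⊥) hab bot_le x
        (fun t : Fin l => Sum.elim g (fun b : B => (b : G)) (e.symm t))
        (fun t => by
          rcases e.symm t with i | b
          · exact hg i
          · exact hBA b.2)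
        (z := y'⁻¹ * y)
        (fun i => by
          rw [hcent]
          exact hXx _ hzX i)
        (by
          rw [hrange, Subgroup.closure_union, Subgroup.closure_eq]
          refine hgen.trans (sup_le (sup_le ?_ ?_) ?_)
          · exact le_sup_right.trans le_sup_right
          · refine le_trans ?_ (le_sup_left : _ ≤ _ ⊔ (Subgroup.closure (Set.range g) ⊔ B))
            refine le_trans ?_ le_sup_right
            unfold comA
            refine Subgroup.closure_mono ?_
            rintro z ⟨_, ⟨i, rfl⟩, a, ha, rfl⟩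
            exact ⟨i, a, ha, rfl⟩
          · exact le_sup_left.trans le_sup_right)
        (fun t => by
          rcases e.symm t with i | b
          · exact hzg i
          · exact hzB b b.2)
      rwa [hcent] at h5)
  rw [hT] at key
  exact key.trans (Nat.mul_le_mul_left _ (Subgroup.card_le_of_le inf_le_right))

end MP828
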