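import Pool.Agent.Lib.MP_828a6d_al.Flag

/-! MP_828a6d_al (stream Two): the count (F4). -/

namespace MP828

open scoped commutatorElement

variable {G : Type*} [Group G]

/-- **(F4)** `B ≤ A` normal, `|A| = p^v |B|`, `B ≤ U`, `|U| ≤ p^u |B|`, `⁅g, A⁆ ≤ U` for `g ∈ S`. Then
`|S| ≤ p^{Σ_{j<v} min j u} |S ⊓ rl A B|`.
Proof. Induction on `v` (as `card_le_rl` in `Flag.lean`): `v = 0`: `A = B`, `rl A B = ⊤`. Step: `W'` normal, `B ≤ W' ≤ A`,
`|W'| = p^v |B|`, `A = W' ⊔ zpowers x`, `⁅g, x⁆ ∈ W'` for all `g` (`normal_step`). Induction hypothesis for `W'`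
(`S ≤ rl A U ≤ rl W' U`), then `gen_count` with `S := S ⊓ rl W' B`, `T = W'`, `A`, `U := W' ⊓ U`, `V = B`, `l = 1`:
`|W' ⊓ U| ≤ p^{min v u} |B|`. -/
theorem tri_count [Finite G] {p : ℕ} (hp : p.Prime) (hG : IsPGroup p G) {A B U : Subgroup G}
    [hA : A.Normal] [hB : B.Normal] (hBA : B ≤ A) {v u : ℕ} (hv : Nat.card A = p ^ v * Nat.card B)
    (hU : B ≤ U) (hu : Nat.card U ≤ p ^ u * Nat.card B) {S : Subgroup G} (hS : S ≤ rl A U) :
    Nat.card S ≤ p ^ (∑ j ∈ Finset.range v, min j u) * Nat.card (S ⊓ rl A B : Subgroup G) := by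
  induction v generalizing A with
  | zero =>
    have h1 : B = A := Subgroup.eq_of_le_of_card_ge hBA (by rw [hv, pow_zero, one_mul])
    have h2 : (rl A B : Subgroup G) = ⊤ := rl_self A B h1.symm.le
    rw [h2, inf_top_eq, Finset.range_zero, Finset.sum_empty, pow_zero, one_mul]
  | succ v ih =>
    obtain ⟨W', hW', hBW', hW'A, hcard⟩ := exists_normal_between hp hG hBA hv (Nat.le_succ v)
    have := hW'
    have hpos : 0 < Nat.card B := Nat.card_pos
    have hne : W' ≠ A := by
      intro he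
      rw [he, hv] at hcard
      have h1 := Nat.eq_of_mul_eq_mul_right hpos hcard
      have h2 := Nat.pow_right_injective hp.two_le h1
      omega
    obtain ⟨U', hU', hW'U', hU'A, hcU', x, hx, hgx, hsup⟩ :=
      normal_step hp hG (lt_of_le_of_ne hW'A hne)
    have hUA : U' = A := by
      apply Subgroup.eq_of_le_of_card_ge hU'A
      rw [hcU', hcard, hv]
      apply le_of_eq
      ring
    have hxA : x ∈ A := hUA ▸ hx
    have hih := ih hBW' hcard (hS.trans (rl_anti hW'A))
    have hcap : Nat.card (W' ⊓ U : Subgroup G) ≤ p ^ (min v u) * Nat.card B := by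
      rcases le_total v u with h | h
      · rw [min_eq_left h, ← hcard]
        exact Subgroup.card_le_of_le inf_le_left
      · rw [min_eq_right h]
        exact (Subgroup.card_le_of_le inf_le_right).trans hu
    have hgc := gen_count hp (S := S ⊓ rl W' B) (T := W') (A := A) (U := W' ⊓ U) (V := B)
      (le_inf hBW' hU) (u := min v u) (l := 1) hcap (fun _ => x)
      (by
        rw [← hUA, ← hsup, Set.range_const, ← Subgroup.zpowers_eq_closure])
      (fun g hg _ => ⟨hgx g, hS hg.1 x hxA⟩) (fun g hg a ha => hg.2 a ha)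
    have hle : Nat.card (S ⊓ rl W' B ⊓ rl A B : Subgroup G) ≤ Nat.card (S ⊓ rl A B : Subgroup G) :=
      Subgroup.card_le_of_le (le_inf (inf_le_left.trans inf_le_left) inf_le_right)
    calc Nat.card S ≤ p ^ (∑ j ∈ Finset.range v, min j u) * Nat.card (S ⊓ rl W' B : Subgroup G) := hih
      _ ≤ p ^ (∑ j ∈ Finset.range v, min j u) *
          (p ^ (min v u * 1) * Nat.card (S ⊓ rl W' B ⊓ rl A B : Subgroup G)) :=
        Nat.mul_le_mul_left _ hgc
      _ ≤ p ^ (∑ j ∈ Finset.range v, min j u) *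
          (p ^ (min v u * 1) * Nat.card (S ⊓ rl A B : Subgroup G)) :=
        Nat.mul_le_mul_left _ (Nat.mul_le_mul_left _ hle)
      _ = p ^ (∑ j ∈ Finset.range (v + 1), min j u) * Nat.card (S ⊓ rl A B : Subgroup G) := by
        rw [Finset.sum_range_succ, pow_add, mul_one]
        ring

end MP828
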