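import Pool.Agent.Lib.MP_828a6d_al.Flag

/-! MP_828a6d_al (stream Two): the count (F5). -/

namespace MP828

open scoped commutatorElement

variable {G : Type*} [Group G]

theorem TwoCntC_arith (n : ℕ) : (n + 1) * (n + 1 - 1) = n * (n - 1) + 2 * n := by
  rcases n with _ | n
  · simp
  · simp only [Nat.add_sub_cancel]
    ring

theorem TwoCntC_sup [Finite G] {p : ℕ} (hp : p.Prime) (hG : IsPGroup p G) {B' B : Subgroup G}
    (h : B' ≤ B) {t : ℕ} (h1 : Nat.card B' = p ^ t) (h2 : Nat.card B = p ^ (t + 1)) {x : G}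
    (hx : x ∈ B) (hx' : x ∉ B') : B' ⊔ Subgroup.zpowers x = B := by
  have hle : B' ⊔ Subgroup.zpowers x ≤ B := sup_le h (by rwa [Subgroup.zpowers_le])
  have := Fact.mk hp
  obtain ⟨a, ha⟩ := IsPGroup.iff_card.1 (hG.to_subgroup (B' ⊔ Subgroup.zpowers x))
  have h3 : Nat.card B' < Nat.card (B' ⊔ Subgroup.zpowers x : Subgroup G) := by
    by_contra hcon
    push Not at hcon
    have h4 := Subgroup.eq_of_le_of_card_ge (le_sup_left : B' ≤ B' ⊔ Subgroup.zpowers x) hcon
    have h5 : x ∈ B' ⊔ Subgroup.zpowers x :=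
      (le_sup_right : Subgroup.zpowers x ≤ B' ⊔ Subgroup.zpowers x) (Subgroup.mem_zpowers x)
    rw [← h4] at h5
    exact hx' h5
  rw [ha, h1] at h3
  have h6 : t < a := (Nat.pow_lt_pow_iff_right hp.one_lt).1 h3
  refine Subgroup.eq_of_le_of_card_ge hle ?_
  rw [ha, h2]
  exact Nat.pow_le_pow_right hp.pos h6

/-- **(F5)** `I ≤ B`, `B` normal, `|B| = p^t`, `|I| = p^i`, `S` centralizes `I`. Then
`|S| ≤ p^E |S ⊓ rl B ⊥|` with `2 E + i (i - 1) ≤ t (t - 1)`.
Proof. Induction on `t` (generalizing `B`, `I`, `i`). `t = 0`: `B = ⊥`, `E = 0`, `i = 0`. Step `t + 1`: `B' ≤ B` normal,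
`|B'| = p^t`, `B = B' ⊔ zpowers x`, `⁅g, x⁆ ∈ B'` (`exists_normal_between`, `normal_step`); `I' = I ⊓ B'`, of order `p^{i'}`,
`i' ∈ {i, i - 1}` (`|I| ≤ p |I'|` since `|B| = p |B'|`). Induction hypothesis: `E'` with `2 E' + i' (i' - 1) ≤ t (t - 1)`,
`|S| ≤ p^{E'} |S ⊓ rl B' ⊥|`. If `i' = i`: `gen_count` (`T = B'`, `A = B`, `U = B'`, `V = ⊥`, `l = 1`) gives a further factor
`p^t`; `E = E' + t`. If `I ≰ B'` (then `i' = i - 1`): choose `x' ∈ I \ B'`; `B = B' ⊔ zpowers x'` by cardinality and `S`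
centralizes `x'`, so `S ⊓ rl B' ⊥ ≤ rl B ⊥`; `E = E'` (`i (i-1) - (i-1)(i-2) = 2 (i - 1) ≤ 2 t`). -/
theorem fix_count [Finite G] {p : ℕ} (hp : p.Prime) (hG : IsPGroup p G) {B I : Subgroup G}
    [hB : B.Normal] (hIB : I ≤ B) {t i : ℕ} (hBc : Nat.card B = p ^ t) (hIc : Nat.card I = p ^ i)
    {S : Subgroup G} (hS : ∀ g ∈ S, ∀ z ∈ I, g * z = z * g) :
    ∃ E : ℕ, 2 * E + i * (i - 1) ≤ t * (t - 1) ∧
      Nat.card S ≤ p ^ E * Nat.card (S ⊓ rl B ⊥ : Subgroup G) := by
  have hFp := Fact.mk hp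
  induction t generalizing B I i with
  | zero =>
    have hB1 : Nat.card B = 1 := by rw [hBc, pow_zero]
    have hBb : B = ⊥ := Subgroup.card_eq_one.1 hB1
    have hIb : I = ⊥ := by
      rw [eq_bot_iff, ← hBb]
      exact hIB
    have hi : i = 0 := by
      rw [hIb, Subgroup.card_bot] at hIc
      by_contra hi
      have := Nat.one_lt_pow hi hp.one_lt
      omega
    refine ⟨0, by simp [hi], ?_⟩
    have h1 : (rl B ⊥ : Subgroup G) = ⊤ := rl_self B ⊥ hBb.le
    rw [h1, inf_top_eq]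
    simp
  | succ t ih =>
    have hbot : Nat.card (⊥ : Subgroup G) = 1 := Subgroup.card_bot
    obtain ⟨B', hB', -, hB'B, hcB'⟩ := exists_normal_between hp hG (V := ⊥) (W := B) bot_le
      (k := t + 1) (j := t) (by rw [hBc, hbot, mul_one]) (Nat.le_succ t)
    rw [hbot, mul_one] at hcB'
    have hB'i := hB'
    have hlt : B' < B := by
      refine lt_of_le_of_ne hB'B fun h => ?_
      rw [h, hBc] at hcB'
      have := Nat.pow_right_injective hp.two_le hcB'
      omega
    obtain ⟨U, hU, hB'U, hUB, hcU, x, hx, hgx, hsup⟩ := normal_step hp hG hlt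
    have hUeq : U = B := by
      apply Subgroup.eq_of_le_of_card_ge hUB
      rw [hcU, hcB', hBc]
      apply le_of_eq
      ring
    -- the subgroup I'
    obtain ⟨i', hi'⟩ := IsPGroup.iff_card.1 (hG.to_subgroup (I ⊓ B'))
    have hIp : Nat.card I ≤ p * Nat.card (I ⊓ B' : Subgroup G) := by
      refine card_inf_le hIB ?_
      rw [inf_eq_right.2 hB'B, hBc, hcB']
      apply le_of_eq
      ring
    have hle1 : i ≤ i' + 1 := by
      rw [hIc, hi', ← pow_succ'] at hIp
      exact (Nat.pow_le_pow_iff_right hp.one_lt).1 hIp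
    have hle2 : i' ≤ i := by
      have h1 : Nat.card (I ⊓ B' : Subgroup G) ≤ Nat.card I := Subgroup.card_le_of_le inf_le_left
      rw [hIc, hi'] at h1
      exact (Nat.pow_le_pow_iff_right hp.one_lt).1 h1
    have hle3 : i' ≤ t := by
      have h1 : Nat.card (I ⊓ B' : Subgroup G) ≤ Nat.card B' := Subgroup.card_le_of_le inf_le_right
      rw [hcB', hi'] at h1
      exact (Nat.pow_le_pow_iff_right hp.one_lt).1 h1
    obtain ⟨E, hE, hSE⟩ := ih (B := B') (I := I ⊓ B') inf_le_right hcB' hi'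
      (fun g hg z hz => hS g hg z hz.1)
    rcases Nat.lt_or_ge i' i with hlt' | hge
    · -- the generator can be chosen in `I`
      have hii : i = i' + 1 := by omega
      have hnle : ¬ I ≤ B' := by
        intro h
        rw [inf_eq_left.2 h, hIc] at hi'
        have := Nat.pow_right_injective hp.two_le hi'
        omega
      obtain ⟨x', hx'I, hx'B⟩ := SetLike.not_le_iff_exists.1 hnle
      have hsup' := TwoCntC_sup hp hG hB'B hcB' hBc (hIB hx'I) hx'B
      refine ⟨E, ?_, ?_⟩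
      · rw [hii, TwoCntC_arith, TwoCntC_arith]
        omega
      · refine hSE.trans (Nat.mul_le_mul_left _ (Subgroup.card_le_of_le ?_))
        intro g hg
        refine ⟨hg.1, mem_rl_bot.2 fun y hy => ?_⟩
        have hle : B' ⊔ Subgroup.zpowers x' ≤ Subgroup.centralizer {g} := by
          refine sup_le ?_ ?_
          · intro b hb
            rw [Subgroup.mem_centralizer_singleton_iff]
            exact (mem_rl_bot.1 hg.2 b hb).symm
          · rw [Subgroup.zpowers_le, Subgroup.mem_centralizer_singleton_iff]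
            exact (hS g hg.1 x' hx'I).symm
        rw [hsup'] at hle
        have h2 := hle hy
        rw [Subgroup.mem_centralizer_singleton_iff] at h2
        exact h2.symm
    · have hii : i' = i := le_antisymm hle2 hge
      refine ⟨E + t, ?_, ?_⟩
      · rw [hii] at hE
        rw [TwoCntC_arith]
        omega
      · have hgc := gen_count hp (S := S ⊓ rl B' ⊥) (T := B') (A := B) (U := B') (V := ⊥) bot_le
          (u := t) (l := 1) (by rw [hcB', hbot, mul_one]) (fun _ => x)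
          (by rw [← hUeq, ← hsup, Set.range_const, ← Subgroup.zpowers_eq_closure])
          (fun g _ _ => hgx g) (fun g hg a ha => hg.2 a ha)
        have hle : Nat.card (S ⊓ rl B' ⊥ ⊓ rl B ⊥ : Subgroup G) ≤
            Nat.card (S ⊓ rl B ⊥ : Subgroup G) :=
          Subgroup.card_le_of_le (inf_le_inf_right _ inf_le_left)
        calc Nat.card S ≤ p ^ E * Nat.card (S ⊓ rl B' ⊥ : Subgroup G) := hSE
          _ ≤ p ^ E * (p ^ (t * 1) * Nat.card (S ⊓ rl B' ⊥ ⊓ rl B ⊥ : Subgroup G)) :=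
            Nat.mul_le_mul_left _ hgc
          _ ≤ p ^ E * (p ^ (t * 1) * Nat.card (S ⊓ rl B ⊥ : Subgroup G)) :=
            Nat.mul_le_mul_left _ (Nat.mul_le_mul_left _ hle)
          _ = _ := by rw [pow_add, mul_one]; ring

end MP828
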