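import Mathlib

/-! MP_828a6d_al (stream Two): two counts of homomorphisms. -/

namespace MP828

variable {V X : Type*} [AddCommGroup V] [AddCommGroup X]

open Classical in
theorem TwoHomA_step [Fintype V] {p s : ℕ} (hp : p.Prime) (hV : Nat.card V = p ^ s) (Q : V → Prop)
    (hQ : 4 * (Finset.univ.filter (fun u => ¬ Q u)).card ≤ Fintype.card V) (j : ℕ)
    (K : AddSubgroup V) (hK : K = ⊤ ∨ p ^ j ≤ Nat.card K) :
    ∃ N : Finset V, Fintype.card V ≤ 4 * N.card ∧ ∀ u ∈ N, Q u ∧
      (K ⊔ AddSubgroup.zmultiples u = ⊤ ∨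
        p ^ (j + 1) ≤ Nat.card (K ⊔ AddSubgroup.zmultiples u : AddSubgroup V)) := by
  have hQc : Fintype.card V = (Finset.univ.filter (fun u => Q u)).card +
      (Finset.univ.filter (fun u => ¬ Q u)).card := by
    rw [Finset.card_filter_add_card_filter_not, Finset.card_univ]
  by_cases hT : K = ⊤
  · refine ⟨Finset.univ.filter (fun u => Q u), by omega, fun u hu => ?_⟩
    rw [Finset.mem_filter] at hu
    exact ⟨hu.2, Or.inl (by rw [hT, top_sup_eq])⟩
  · have hKj : p ^ j ≤ Nat.card K := hK.resolve_left hT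
    refine ⟨Finset.univ.filter (fun u => Q u ∧ u ∉ K), ?_, fun u hu => ?_⟩
    · have h1 : Nat.card K * K.index = Fintype.card V := by
        rw [AddSubgroup.card_mul_index, Nat.card_eq_fintype_card]
      have h2 : K.index ≠ 1 := fun h => hT (AddSubgroup.index_eq_one.1 h)
      have h3 : K.index ≠ 0 := AddSubgroup.index_ne_zero_of_finite
      have h4 : 2 * Nat.card K ≤ Fintype.card V := by
        rw [← h1, mul_comm]
        exact Nat.mul_le_mul_left _ (by omega)
      have h5 : (Finset.univ.filter (fun u => u ∈ K)).card = Nat.card K := by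
        rw [Nat.card_eq_fintype_card, Fintype.card_subtype]
      have h6 : (Finset.univ.filter (fun u => Q u)).card ≤
          (Finset.univ.filter (fun u => Q u ∧ u ∉ K)).card +
            (Finset.univ.filter (fun u => u ∈ K)).card := by
        refine le_trans (Finset.card_le_card ?_) (Finset.card_union_le _ _)
        intro u hu
        rw [Finset.mem_filter] at hu
        rw [Finset.mem_union, Finset.mem_filter, Finset.mem_filter]
        by_cases h : u ∈ K
        · exact Or.inr ⟨Finset.mem_univ _, h⟩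
        · exact Or.inl ⟨Finset.mem_univ _, hu.2, h⟩
      omega
    · rw [Finset.mem_filter] at hu
      refine ⟨hu.2.1, Or.inr ?_⟩
      have hle : K ≤ K ⊔ AddSubgroup.zmultiples u := le_sup_left
      have hmem : u ∈ K ⊔ AddSubgroup.zmultiples u :=
        (le_sup_right : AddSubgroup.zmultiples u ≤ _) (AddSubgroup.mem_zmultiples u)
      have hlt : Nat.card K < Nat.card (K ⊔ AddSubgroup.zmultiples u : AddSubgroup V) := by
        by_contra hcon
        push Not at hcon
        have := AddSubgroup.eq_of_le_of_card_ge hle hcon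
        rw [← this] at hmem
        exact hu.2.2 hmem
      obtain ⟨a, -, ha⟩ := (Nat.dvd_prime_pow hp).1 (hV ▸ AddSubgroup.card_addSubgroup_dvd_card K)
      obtain ⟨b, -, hb⟩ := (Nat.dvd_prime_pow hp).1
        (hV ▸ AddSubgroup.card_addSubgroup_dvd_card (K ⊔ AddSubgroup.zmultiples u))
      rw [ha] at hKj
      rw [ha, hb] at hlt
      rw [hb]
      have h1 : j ≤ a := (Nat.pow_le_pow_iff_right hp.one_lt).1 hKj
      have h2 : a < b := (Nat.pow_lt_pow_iff_right hp.one_lt).1 hlt
      exact Nat.pow_le_pow_right hp.pos (by omega)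

open Classical in
theorem TwoHomA_count [Fintype V] {p s : ℕ} (hp : p.Prime) (hV : Nat.card V = p ^ s) (Q : V → Prop)
    (hQ : 4 * (Finset.univ.filter (fun u => ¬ Q u)).card ≤ Fintype.card V) (t : ℕ) :
    ∀ (j : ℕ) (K : AddSubgroup V), (K = ⊤ ∨ p ^ j ≤ Nat.card K) →
      Fintype.card V ^ t ≤ 4 ^ t * ∑ U : Fin t → V, (if (∀ i, Q (U i)) ∧
        (AddSubgroup.closure (Set.range U) ⊔ K = ⊤ ∨
          p ^ (j + t) ≤ Nat.card (AddSubgroup.closure (Set.range U) ⊔ K : AddSubgroup V))
        then 1 else 0) := by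
  induction t with
  | zero =>
    intro j K hK
    rw [pow_zero, pow_zero, one_mul]
    rw [Fintype.sum_eq_single (default : Fin 0 → V) (fun x hx => absurd (Subsingleton.elim _ _) hx)]
    rw [if_pos]
    refine ⟨fun i => i.elim0, ?_⟩
    rw [Set.range_eq_empty, AddSubgroup.closure_empty, bot_sup_eq]
    simpa using hK
  | succ t ih =>
    intro j K hK
    obtain ⟨N, hN1, hN2⟩ := TwoHomA_step hp hV Q hQ j K hK
    have hsum : ∀ f : (Fin (t + 1) → V) → ℕ, ∑ U : Fin (t + 1) → V, f U =
        ∑ u : V, ∑ U' : Fin t → V, f (Fin.cons u U') := by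
      intro f
      rw [← (Fin.consEquiv (fun _ => V)).sum_comp, Fintype.sum_prod_type]
      rfl
    rw [hsum]
    have hle : ∑ u ∈ N, ∑ U' : Fin t → V, (if (∀ i, Q (U' i)) ∧
        (AddSubgroup.closure (Set.range U') ⊔ (K ⊔ AddSubgroup.zmultiples u) = ⊤ ∨
          p ^ (j + 1 + t) ≤ Nat.card (AddSubgroup.closure (Set.range U') ⊔
            (K ⊔ AddSubgroup.zmultiples u) : AddSubgroup V))
        then 1 else 0) ≤ ∑ u : V, ∑ U' : Fin t → V, (if (∀ i, Q ((Fin.cons u U' : Fin (t + 1) → V) i)) ∧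
        (AddSubgroup.closure (Set.range (Fin.cons u U' : Fin (t + 1) → V)) ⊔ K = ⊤ ∨
          p ^ (j + (t + 1)) ≤ Nat.card (AddSubgroup.closure
            (Set.range (Fin.cons u U' : Fin (t + 1) → V)) ⊔ K : AddSubgroup V))
        then 1 else 0) := by
      refine le_trans (Finset.sum_le_sum fun u hu => Finset.sum_le_sum fun U' _ => ?_)
        (Finset.sum_le_sum_of_subset (Finset.subset_univ N))
      by_cases hc : (∀ i, Q (U' i)) ∧
        (AddSubgroup.closure (Set.range U') ⊔ (K ⊔ AddSubgroup.zmultiples u) = ⊤ ∨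
          p ^ (j + 1 + t) ≤ Nat.card (AddSubgroup.closure (Set.range U') ⊔
            (K ⊔ AddSubgroup.zmultiples u) : AddSubgroup V))
      · rw [if_pos hc, if_pos]
        have e : AddSubgroup.closure (Set.range (Fin.cons u U' : Fin (t + 1) → V)) ⊔ K =
            AddSubgroup.closure (Set.range U') ⊔ (K ⊔ AddSubgroup.zmultiples u) := by
          rw [Fin.range_cons, Set.insert_eq, AddSubgroup.closure_union,
            ← AddSubgroup.zmultiples_eq_closure]
          rw [sup_comm (AddSubgroup.zmultiples u), sup_assoc, sup_comm (AddSubgroup.zmultiples u)]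
        refine ⟨fun i => ?_, ?_⟩
        · refine Fin.cases ?_ (fun k => ?_) i
          · simpa using (hN2 u hu).1
          · simpa using hc.1 k
        · rw [e, show j + (t + 1) = j + 1 + t by ring]
          exact hc.2
      · rw [if_neg hc]
        exact Nat.zero_le _
    have h3 : N.card * Fintype.card V ^ t ≤ 4 ^ t * ∑ u ∈ N, ∑ U' : Fin t → V, (if (∀ i, Q (U' i)) ∧
        (AddSubgroup.closure (Set.range U') ⊔ (K ⊔ AddSubgroup.zmultiples u) = ⊤ ∨
          p ^ (j + 1 + t) ≤ Nat.card (AddSubgroup.closure (Set.range U') ⊔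
            (K ⊔ AddSubgroup.zmultiples u) : AddSubgroup V))
        then 1 else 0) := by
      rw [Finset.mul_sum, ← smul_eq_mul, ← Finset.sum_const]
      exact Finset.sum_le_sum fun u hu => ih (j + 1) _ (hN2 u hu).2
    calc Fintype.card V ^ (t + 1) = Fintype.card V * Fintype.card V ^ t := by ring
      _ ≤ 4 * N.card * Fintype.card V ^ t := Nat.mul_le_mul_right _ hN1
      _ = 4 * (N.card * Fintype.card V ^ t) := by ring
      _ ≤ 4 * _ := Nat.mul_le_mul_left _ (h3.trans (Nat.mul_le_mul_left _ hle))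
      _ = _ := by ring

/-- **(C6)** `V` a finite abelian group of order `p^s`, `S u ⊆ X` sets with at most `D` elements, `Φ` a set of
homomorphisms `V → X` such that every `φ ∈ Φ` has `φ u ∈ S u` for at least three quarters of the `u ∈ V`.
Then `|Φ| ≤ (4 D)^s`.
Proof. For `φ ∈ Φ`, `t : ℕ` let `G_t(φ)` be the set of `U : Fin t → V` with `φ (U i) ∈ S (U i)` for all `i` and
(`closure (range U) = ⊤` or `p^t ≤ |closure (range U)|`). Then `|V|^t ≤ 4^t |G_t(φ)|`, by induction on `t`: given
`U ∈ G_t(φ)` count the `u ∈ V` with `Fin.snoc U u ∈ G_{t+1}(φ)` (or `Fin.cons`): if `closure (range U) = ⊤` every good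
`u` will do (at least `3|V|/4`); otherwise every good `u ∉ closure (range U)`, of which there are at least
`3|V|/4 - |V|/p ≥ |V|/4` (`|closure| ≤ |V|/p`, and then `|closure (range U ∪ {u})| ≥ p |closure (range U)|` because the orders
are powers of `p`). For `t = s` the elements of `G_s(φ)` generate `V` (`p^s = |V|`), so `φ` is determined by
`(φ (U i))_i ∈ Π S (U i)`: for each `U : Fin s → V` at most `D^s` of the `φ ∈ Φ` have `U ∈ G_s(φ)`. Double counting:
`|Φ| |V|^s ≤ 4^s Σ_φ |G_s(φ)| ≤ 4^s D^s |V|^s`. -/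
theorem hom_count_good [Finite V] [Finite X] {p s D : ℕ} (hp : p.Prime) (hV : Nat.card V = p ^ s)
    (S : V → Set X) (hS : ∀ u, (S u).ncard ≤ D) (Φ : Set (V →+ X))
    (hΦ : ∀ φ ∈ Φ, 4 * Nat.card {u : V // φ u ∉ S u} ≤ Nat.card V) :
    Φ.ncard ≤ (4 * D) ^ s := by
  classical
  haveI := Fintype.ofFinite V
  haveI : Finite (V →+ X) := DFunLike.finite _
  have hΦf : Φ.Finite := Set.toFinite Φ
  have hpos : 0 < Fintype.card V ^ s := pow_pos Fintype.card_pos s
  -- lower bound for each φ
  have hlow : ∀ φ ∈ Φ, Fintype.card V ^ s ≤ 4 ^ s * ∑ U : Fin s → V,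
      (if (∀ i, φ (U i) ∈ S (U i)) ∧ AddSubgroup.closure (Set.range U) = ⊤ then 1 else 0) := by
    intro φ hφ
    have h1 : 4 * (Finset.univ.filter (fun u => ¬ (φ u ∈ S u))).card ≤ Fintype.card V := by
      have := hΦ φ hφ
      rwa [Nat.card_eq_fintype_card, Fintype.card_subtype, Nat.card_eq_fintype_card] at this
    have h2 := TwoHomA_count hp hV (fun u => φ u ∈ S u) h1 s 0 ⊥ (Or.inr (by simp))
    refine h2.trans (Nat.mul_le_mul_left _ (Finset.sum_le_sum fun U _ => ?_))
    by_cases hc : (∀ i, φ (U i) ∈ S (U i)) ∧ AddSubgroup.closure (Set.range U) = ⊤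
    · rw [if_pos hc]
      split_ifs <;> simp
    · rw [if_neg hc, if_neg]
      rintro ⟨ha, hb⟩
      apply hc
      refine ⟨ha, ?_⟩
      rw [sup_bot_eq] at hb
      rcases hb with hb | hb
      · exact hb
      · refine AddSubgroup.eq_top_of_card_eq _ (le_antisymm ?_ ?_)
        · exact AddSubgroup.card_le_card_addGroup _
        · rw [hV]
          rwa [zero_add] at hb
  -- upper bound for each U
  have hup : ∀ U : Fin s → V, ∑ φ ∈ hΦf.toFinset,
      (if (∀ i, φ (U i) ∈ S (U i)) ∧ AddSubgroup.closure (Set.range U) = ⊤ then 1 else 0) ≤ D ^ s := by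
    intro U
    rw [← Finset.card_filter]
    have hT : ∀ i : Fin s, (S (U i)).Finite := fun i => Set.toFinite _
    have h1 : (Fintype.piFinset (fun i : Fin s => (hT i).toFinset)).card ≤ D ^ s := by
      rw [Fintype.card_piFinset]
      calc ∏ i : Fin s, ((hT i).toFinset).card ≤ ∏ _i : Fin s, D := by
            refine Finset.prod_le_prod' fun i _ => ?_
            rw [← Set.ncard_eq_toFinset_card _ (hT i)]
            exact hS _
        _ = D ^ s := by simp
    refine le_trans ?_ h1
    refine Finset.card_le_card_of_injOn (fun φ i => φ (U i)) ?_ ?_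
    · intro φ hφ
      have hφ' := (Finset.mem_filter.1 (Finset.mem_coe.1 hφ)).2
      rw [Finset.mem_coe, Fintype.mem_piFinset]
      intro i
      rw [Set.Finite.mem_toFinset]
      exact hφ'.1 i
    · intro φ hφ ψ hψ he
      have hφ' := (Finset.mem_filter.1 (Finset.mem_coe.1 hφ)).2
      refine AddMonoidHom.eq_of_eqOn_dense hφ'.2 ?_
      rintro _ ⟨i, rfl⟩
      exact congrFun he i
  have htot : Φ.ncard * Fintype.card V ^ s ≤ (4 * D) ^ s * Fintype.card V ^ s := by
    calc Φ.ncard * Fintype.card V ^ s = ∑ _φ ∈ hΦf.toFinset, Fintype.card V ^ s := by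
          rw [Finset.sum_const, smul_eq_mul, Set.ncard_eq_toFinset_card _ hΦf]
      _ ≤ ∑ φ ∈ hΦf.toFinset, 4 ^ s * ∑ U : Fin s → V,
            (if (∀ i, φ (U i) ∈ S (U i)) ∧ AddSubgroup.closure (Set.range U) = ⊤ then 1 else 0) :=
          Finset.sum_le_sum fun φ hφ => hlow φ ((Set.Finite.mem_toFinset _).1 hφ)
      _ = 4 ^ s * ∑ U : Fin s → V, ∑ φ ∈ hΦf.toFinset,
            (if (∀ i, φ (U i) ∈ S (U i)) ∧ AddSubgroup.closure (Set.range U) = ⊤ then 1 else 0) := by
          rw [← Finset.mul_sum, Finset.sum_comm]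
      _ ≤ 4 ^ s * ∑ _U : Fin s → V, D ^ s :=
          Nat.mul_le_mul_left _ (Finset.sum_le_sum fun U _ => hup U)
      _ = (4 * D) ^ s * Fintype.card V ^ s := by
          rw [Finset.sum_const, Finset.card_univ, smul_eq_mul, Fintype.card_fun, Fintype.card_fin,
            mul_pow]
          ring
  exact Nat.le_of_mul_le_mul_right htot hpos

end MP828
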