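import Pool.Agent.Lib.MP_828a6d_al.Gens

/-! MP_828a6d_al (stream Two): two counts of homomorphisms. -/

namespace MP828

variable {V X : Type*} [AddCommGroup V] [AddCommGroup X]

theorem TwoHomB_gens [Finite V] {p s : ℕ} (hp : p.Prime) (hV : Nat.card V = p ^ s)
    {K W : AddSubgroup V} (hKW : K ≤ W) {r : ℕ} (hc : Nat.card W ≤ p ^ r * Nat.card K) :
    ∃ x : Fin r → V, (∀ i, x i ∈ W) ∧ K ⊔ AddSubgroup.closure (Set.range x) = W := by
  induction r generalizing K with
  | zero =>
    have : K = W := AddSubgroup.eq_of_le_of_card_ge hKW (by simpa using hc)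
    exact ⟨Fin.elim0, fun i => i.elim0, by rw [Set.range_eq_empty]; simp [this]⟩
  | succ r ih =>
    by_cases hW : W ≤ K
    · have : K = W := le_antisymm hKW hW
      refine ⟨fun _ => 0, fun _ => W.zero_mem, ?_⟩
      subst this
      rw [sup_eq_left, AddSubgroup.closure_le]
      rintro _ ⟨i, rfl⟩
      exact K.zero_mem
    · obtain ⟨y, hyW, hyK⟩ := SetLike.not_le_iff_exists.1 hW
      have h1 : K ≤ K ⊔ AddSubgroup.zmultiples y := le_sup_left
      have h2 : K ⊔ AddSubgroup.zmultiples y ≤ W :=
        sup_le hKW (by rwa [AddSubgroup.zmultiples_le])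
      have hy' : y ∈ K ⊔ AddSubgroup.zmultiples y :=
        (le_sup_right : AddSubgroup.zmultiples y ≤ K ⊔ AddSubgroup.zmultiples y)
          (AddSubgroup.mem_zmultiples y)
      have hne : Nat.card K < Nat.card (K ⊔ AddSubgroup.zmultiples y : AddSubgroup V) := by
        by_contra hcon
        push Not at hcon
        have := AddSubgroup.eq_of_le_of_card_ge h1 hcon
        rw [← this] at hy'
        exact hyK hy'
      have h3 : p * Nat.card K ≤ Nat.card (K ⊔ AddSubgroup.zmultiples y : AddSubgroup V) := by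
        obtain ⟨a, -, ha⟩ := (Nat.dvd_prime_pow hp).1
          (hV ▸ AddSubgroup.card_addSubgroup_dvd_card K)
        obtain ⟨b, -, hb⟩ := (Nat.dvd_prime_pow hp).1
          (hV ▸ AddSubgroup.card_addSubgroup_dvd_card (K ⊔ AddSubgroup.zmultiples y))
        rw [ha, hb] at hne ⊢
        have hab : a < b := (Nat.pow_lt_pow_iff_right hp.one_lt).1 hne
        calc p * p ^ a = p ^ (a + 1) := by ring
          _ ≤ p ^ b := Nat.pow_le_pow_right hp.pos hab
      obtain ⟨x, hx, hx2⟩ := ih h2 (by
        calc Nat.card W ≤ p ^ (r + 1) * Nat.card K := hc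
          _ = p ^ r * (p * Nat.card K) := by ring
          _ ≤ _ := Nat.mul_le_mul_left _ h3)
      refine ⟨Fin.cons y x, ?_, ?_⟩
      · intro i
        refine Fin.cases ?_ (fun j => ?_) i
        · simpa using hyW
        · simpa using hx j
      · rw [Fin.range_cons, Set.insert_eq, AddSubgroup.closure_union,
          ← AddSubgroup.zmultiples_eq_closure, ← sup_assoc, hx2]

theorem TwoHomB_gens' [Finite V] {p s : ℕ} (hp : p.Prime) (hV : Nat.card V = p ^ s)
    (W : AddSubgroup V) {r : ℕ} (hc : Nat.card W ≤ p ^ r) :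
    ∃ x : Fin r → V, AddSubgroup.closure (Set.range x) = W := by
  obtain ⟨x, -, hx⟩ := TwoHomB_gens hp hV (bot_le : ⊥ ≤ W) (r := r) (by simpa using hc)
  exact ⟨x, by rwa [bot_sup_eq] at hx⟩

/-- **(C7)** At most `p^{e r + e s}` homomorphisms `V → X` have image of order at most `p^e`
(`|V| = p^s`, `|X| = p^r`).
Proof. `V` is generated by `g : Fin s → V` and every subgroup of `X` of order at most `p^e` is generated by some
`τ : Fin e → X` (as in `exists_gens` of `Gens.lean`). The map `φ ↦ φ ∘ g` is injective and its values, for the `φ`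
in question, lie in the union over `τ : Fin e → X` with `|closure (range τ)| ≤ p^e` of the sets
`{v : Fin s → X | ∀ i, v i ∈ closure (range τ)}`, each of cardinality at most `(p^e)^s`. -/
theorem hom_count_small [Finite V] [Finite X] {p s r e : ℕ} (hp : p.Prime)
    (hV : Nat.card V = p ^ s) (hX : Nat.card X = p ^ r) :
    {φ : V →+ X | Nat.card φ.range ≤ p ^ e}.ncard ≤ p ^ (e * r + e * s) := by
  classical
  haveI := Fintype.ofFinite V
  haveI := Fintype.ofFinite X
  haveI : Finite (V →+ X) := DFunLike.finite _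
  obtain ⟨g, hg⟩ := TwoHomB_gens' hp hV (⊤ : AddSubgroup V) (r := s) (by
    rw [AddSubgroup.card_top, hV])
  set A : (Fin e → X) → Finset (Fin s → X) := fun τ =>
    if Nat.card (AddSubgroup.closure (Set.range τ)) ≤ p ^ e then
      Fintype.piFinset (fun _ : Fin s =>
        Finset.univ.filter (fun x => x ∈ AddSubgroup.closure (Set.range τ)))
    else ∅ with hA
  have hAc : ∀ τ, (A τ).card ≤ p ^ (e * s) := by
    intro τ
    simp only [hA]
    split_ifs with h
    · rw [Fintype.card_piFinset]
      calc ∏ _i : Fin s, (Finset.univ.filter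
            (fun x => x ∈ AddSubgroup.closure (Set.range τ))).card ≤ ∏ _i : Fin s, p ^ e := by
            refine Finset.prod_le_prod' fun i _ => ?_
            refine le_trans (le_of_eq ?_) h
            rw [Nat.card_eq_fintype_card, Fintype.card_subtype]
        _ = p ^ (e * s) := by simp [pow_mul]
    · simp
  have h1 : ((fun (φ : V →+ X) (i : Fin s) => φ (g i)) ''
      {φ : V →+ X | Nat.card φ.range ≤ p ^ e}) ⊆
      ((Finset.univ.biUnion A : Finset (Fin s → X)) : Set (Fin s → X)) := by
    rintro _ ⟨φ, hφ, rfl⟩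
    obtain ⟨τ, hτ⟩ := TwoHomB_gens' hp hX φ.range (r := e) hφ
    rw [Finset.mem_coe, Finset.mem_biUnion]
    refine ⟨τ, Finset.mem_univ _, ?_⟩
    simp only [hA]
    rw [if_pos (by rw [hτ]; exact hφ), Fintype.mem_piFinset]
    intro i
    rw [Finset.mem_filter]
    exact ⟨Finset.mem_univ _, by rw [hτ]; exact ⟨g i, rfl⟩⟩
  have hinj : Set.InjOn (fun (φ : V →+ X) (i : Fin s) => φ (g i))
      {φ : V →+ X | Nat.card φ.range ≤ p ^ e} := by
    intro φ _ ψ _ he
    refine AddMonoidHom.eq_of_eqOn_dense hg ?_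
    rintro _ ⟨i, rfl⟩
    exact congrFun he i
  rw [← Set.ncard_image_of_injOn hinj]
  refine (Set.ncard_le_ncard h1 (Finset.finite_toSet _)).trans ?_
  rw [Set.ncard_coe_finset]
  refine (Finset.card_biUnion_le).trans ?_
  calc ∑ τ : Fin e → X, (A τ).card ≤ ∑ _τ : Fin e → X, p ^ (e * s) :=
        Finset.sum_le_sum fun τ _ => hAc τ
    _ = p ^ (e * r + e * s) := by
        rw [Finset.sum_const, Finset.card_univ, smul_eq_mul, Fintype.card_fun, Fintype.card_fin,
          ← Nat.card_eq_fintype_card, hX, ← pow_mul, ← pow_add, mul_comm r e]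

end MP828
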