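import Pool.Agent.Lib.MP_828a6d_al.TwoStarB
import Pool.Agent.Lib.MP_828a6d_al.TwoHomA
import Pool.Agent.Lib.MP_828a6d_al.TwoHomB

/-! MP_828a6d_al (stream Two): the core lemma. -/

namespace MP828

open scoped commutatorElement

theorem TwoCoreA_card_le {α β : Type*} [Finite α] {A : Set α} (f : α → β) {B : Set β}
    (hB : B.Finite) {n : ℕ} (hf : ∀ a ∈ A, f a ∈ B)
    (hn : ∀ b ∈ B, {a | a ∈ A ∧ f a = b}.ncard ≤ n) : A.ncard ≤ n * B.ncard := by
  classical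
  have hA : A.Finite := Set.toFinite A
  rw [Set.ncard_eq_toFinset_card A hA, Set.ncard_eq_toFinset_card B hB]
  refine Finset.card_le_mul_card_image_of_maps_to (f := f) ?_ n ?_
  · intro a ha
    rw [Set.Finite.mem_toFinset] at ha ⊢
    exact hf a ha
  · intro b hb
    rw [Set.Finite.mem_toFinset] at hb
    refine le_trans (le_of_eq ?_) (hn b hb)
    rw [Set.ncard_eq_toFinset_card _ (Set.toFinite _)]
    congr 1
    ext a
    simp

theorem TwoCoreA_pigeon {α β : Type*} [Finite α] {A : Set α} (hA : A.Nonempty) (f : α → β) :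
    ∃ a₀ ∈ A, A.ncard ≤ {a | a ∈ A ∧ f a = f a₀}.ncard * (f '' A).ncard := by
  have hfin : (f '' A).Finite := (Set.toFinite A).image f
  obtain ⟨a₀, ha₀, hmax⟩ := Set.exists_max_image A (fun a => {x | x ∈ A ∧ f x = f a}.ncard)
    (Set.toFinite A) hA
  refine ⟨a₀, ha₀, TwoCoreA_card_le f hfin (fun a ha => Set.mem_image_of_mem f ha) ?_⟩
  rintro b ⟨a, ha, rfl⟩
  exact hmax a ha

theorem TwoCoreA_card_map {W : Type*} [AddCommGroup W] [Finite W] {U S : AddSubgroup W} (h : U ≤ S) :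
    Nat.card S = Nat.card U * Nat.card (S.map (QuotientAddGroup.mk' U)) := by
  have h1 : (S.map (QuotientAddGroup.mk' U)).index = S.index := by
    refine AddSubgroup.index_map_eq S (QuotientAddGroup.mk'_surjective U) ?_
    rw [QuotientAddGroup.ker_mk']
    exact h
  have h2 := AddSubgroup.card_mul_index S
  have h3 := AddSubgroup.card_mul_index (S.map (QuotientAddGroup.mk' U))
  have h4 := AddSubgroup.card_eq_card_quotient_mul_card_addSubgroup U
  rw [h1] at h3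
  have h5 : 0 < S.index := Nat.pos_of_ne_zero AddSubgroup.index_ne_zero_of_finite
  have h6 : Nat.card S * S.index = Nat.card U * Nat.card (S.map (QuotientAddGroup.mk' U)) * S.index := by
    rw [h2, h4, ← h3]
    ring
  exact Nat.eq_of_mul_eq_mul_right h5 h6

/-- `u ↦ a • u - b • u` on `W₁`. -/
def TwoCoreA_hom {H W : Type*} [Group H] [AddCommGroup W] [DistribMulAction H W]
    (W₁ : AddSubgroup W) (a b : H) : W₁ →+ W :=
  (DistribSMul.toAddMonoidHom W a).comp W₁.subtype - (DistribSMul.toAddMonoidHom W b).comp W₁.subtype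

theorem TwoCoreA_hom_apply {H W : Type*} [Group H] [AddCommGroup W] [DistribMulAction H W]
    (W₁ : AddSubgroup W) (a b : H) (u : W₁) :
    TwoCoreA_hom W₁ a b u = a • (u : W) - b • (u : W) := rfl

/-- **Core lemma.** `H` acts on `W`, `|W| = p^r`, `r ≤ m`; `H'` contains all commutators, `|H'| ≤ ρ |H' ∩ Fx W₁|`; every
`g ∈ H` with `(g - 1)² W₁ = 0` has `|(g - 1) W₁| ≤ p^e`. Then `|H| ≤ p^{km + dm + 2m + 2em + 1} ρ^{Q+1} |Fx W₁|`.
Proof. Take `U, S, xs, 𝒦` from `exists_star`. Let `|W₁| = p^s`, `s ≤ m` (`s ≤ r`). For `h ∈ 𝒦` define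
`φ_h : W₁ →+ W ⧸ U`, `u ↦ mk (h • xs • u - xs • u)`. By `hom_count_good` (`D = p^d`, `S u := (S u).map mk`, which has
`|S u| / |U| ≤ p^d` elements) the `φ_h` take at most `(4 p^d)^s ≤ p^{2m + dm}` values (`4 ≤ p²`), so some fibre
`𝒦' = {h ∈ 𝒦 : φ_h = φ_{h₀}}` (`h₀ ∈ 𝒦`) has `|𝒦| ≤ p^{2m + dm} |𝒦'|`. For `h ∈ 𝒦'` put `g = h₀⁻¹ h`. `g` fixes `U`
pointwise, and `g • xs • u - xs • u ∈ U` for `u ∈ W₁` (`h • xs • u - h₀ • xs • u ∈ U`; apply `h₀⁻¹`, which fixes `U`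
pointwise). So `g* = xs⁻¹ g xs` satisfies `g* • (g* • u - u) = g* • u - u` for `u ∈ W₁`
(`xs • (g* • u - u) = g • xs • u - xs • u ∈ U` is fixed by `g`), and by hypothesis `|(g* - 1) W₁| ≤ p^e`. The map
`h ↦ (u ↦ g* • u - u) ∈ (W₁ →+ W)` has at most `p^{e r + e s} ≤ p^{2 e m}` values (`hom_count_small`) and its fibres have
at most `|Fx H W₁|` elements (if `g*` and `g'*` agree on `W₁` then `g'*⁻¹ g* ∈ Fx H W₁`, and `h ↦ g*` is injective).
So `|𝒦'| ≤ p^{2em} |Fx H W₁|` and `3 |H| ≤ 4 p^{km} ρ^{Q+1} p^{2m + dm + 2em} |Fx H W₁|`; finally `4/3 ≤ p`. -/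
theorem core_full {H W : Type*} [Group H] [AddCommGroup W] [DistribMulAction H W]
    [Finite H] [Finite W] {p r m k Q d e ρ : ℕ} (hp : p.Prime)
    (hW : Nat.card W = p ^ r) (hr : r ≤ m) (h1 : 64 * m ≤ (k + 1) * (Q + 1))
    (h2 : 64 * m ≤ (k + 1) * (d + 1)) (W₁ : AddSubgroup W) {H' : Subgroup H}
    (hH' : ∀ x y : H, ⁅x, y⁆ ∈ H')
    (hρ : Nat.card H' ≤ ρ * Nat.card (H' ⊓ Fx H (W₁ : Set W) : Subgroup H))
    (hquad : ∀ g : H, (∀ w ∈ W₁, g • (g • w - w) = g • w - w) →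
      ((fun w : W => g • w - w) '' (W₁ : Set W)).ncard ≤ p ^ e) :
    Nat.card H ≤ p ^ (k * m + d * m + 2 * m + 2 * e * m + 1) * ρ ^ (Q + 1) *
      Nat.card (Fx H (W₁ : Set W)) := by
  classical
  have _ : Fact p.Prime := ⟨hp⟩
  have hp2 : 2 ≤ p := hp.two_le
  have hp1 : 1 ≤ p := by omega
  obtain ⟨U, S, xs, 𝒦, hne, hfix, hS, hgood, hcount⟩ :=
    exists_star hp hW hr h1 h2 W₁ hH' hρ
  -- the order of `W₁`
  obtain ⟨s, hsr, hs⟩ : ∃ s, s ≤ r ∧ Nat.card W₁ = p ^ s := by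
    have hd : Nat.card W₁ ∣ p ^ r := by
      rw [← hW]
      exact AddSubgroup.card_addSubgroup_dvd_card W₁
    exact (Nat.dvd_prime_pow hp).1 hd
  have hsm : s ≤ m := hsr.trans hr
  have hFH : Finite (W₁ →+ W) :=
    Finite.of_injective (fun φ : W₁ →+ W => (φ : W₁ → W)) DFunLike.coe_injective
  have hFHU : Finite (W₁ →+ W ⧸ U) :=
    Finite.of_injective (fun φ : W₁ →+ W ⧸ U => (φ : W₁ → W ⧸ U)) DFunLike.coe_injective
  -- step 1
  set φ : H → (W₁ →+ W ⧸ U) := fun h => (QuotientAddGroup.mk' U).comp (TwoCoreA_hom W₁ (h * xs) xs)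
    with hφ
  have hφa : ∀ (h : H) (u : W₁), φ h u = QuotientAddGroup.mk' U (h • xs • (u : W) - xs • (u : W)) := by
    intro h u
    simp only [hφ, AddMonoidHom.comp_apply, TwoCoreA_hom_apply, mul_smul]
  have hΦ : (φ '' 𝒦).ncard ≤ (4 * p ^ d) ^ s := by
    refine hom_count_good hp hs (fun u => ((S u).map (QuotientAddGroup.mk' U) : Set (W ⧸ U))) ?_ _ ?_
    · intro u
      have hc := TwoCoreA_card_map (hS u).1
      have hle := (hS u).2
      have hU : 0 < Nat.card U := Nat.card_pos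
      show Nat.card ((S u).map (QuotientAddGroup.mk' U)) ≤ p ^ d
      rw [hc, mul_comm (p ^ d)] at hle
      exact Nat.le_of_mul_le_mul_left hle hU
    · rintro ψ ⟨h, hh, rfl⟩
      refine le_trans (Nat.mul_le_mul_left 4 ?_) (hgood h hh)
      refine Nat.card_le_card_of_injective
        (fun x : {u : W₁ // φ h u ∉ ((S u).map (QuotientAddGroup.mk' U) : Set (W ⧸ U))} =>
          (⟨x.1, fun hx => x.2 ?_⟩ : {u : W₁ // h • xs • (u : W) - xs • (u : W) ∉ S u})) ?_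
      · rw [hφa]
        exact AddSubgroup.mem_map_of_mem _ hx
      · intro a b hab
        exact Subtype.ext (Subtype.mk.inj hab)
  -- step 2
  obtain ⟨h₀, hh₀, hpig⟩ := TwoCoreA_pigeon hne φ
  set 𝒦' : Set H := {h | h ∈ 𝒦 ∧ φ h = φ h₀} with h𝒦'
  have hfix0 : ∀ z ∈ U, h₀⁻¹ • z = z := by
    intro z hz
    rw [inv_smul_eq_iff, hfix h₀ hh₀ z hz]
  -- step 3
  set gs : H → H := fun h => xs⁻¹ * (h₀⁻¹ * h) * xs with hgs
  have hkey : ∀ h ∈ 𝒦', ∀ u ∈ W₁, (h₀⁻¹ * h) • xs • u - xs • u ∈ U := by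
    rintro h ⟨hh, he⟩ u hu
    have e1 : φ h ⟨u, hu⟩ = φ h₀ ⟨u, hu⟩ := by rw [he]
    rw [hφa, hφa, ← sub_eq_zero, ← map_sub] at e1
    have e2 : (h • xs • u - xs • u) - (h₀ • xs • u - xs • u) ∈ U := by
      rw [← QuotientAddGroup.ker_mk' U, AddMonoidHom.mem_ker]
      exact e1
    have e3 : h • xs • u - h₀ • xs • u ∈ U := by
      have : (h • xs • u - xs • u) - (h₀ • xs • u - xs • u) = h • xs • u - h₀ • xs • u := by abel
      rwa [this] at e2
    have e4 := hfix0 _ e3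
    have e5 : h₀⁻¹ • (h • xs • u - h₀ • xs • u) = (h₀⁻¹ * h) • xs • u - xs • u := by
      rw [smul_sub, mul_smul, inv_smul_smul]
    rw [← e5, e4]
    exact e3
  have hgs1 : ∀ h ∈ 𝒦', ∀ u ∈ W₁, gs h • (gs h • u - u) = gs h • u - u := by
    intro h hh u hu
    have e1 := hkey h hh u hu
    have e2 : (h₀⁻¹ * h) • ((h₀⁻¹ * h) • xs • u - xs • u) = (h₀⁻¹ * h) • xs • u - xs • u := by
      rw [mul_smul, hfix h hh.1 _ e1, hfix0 _ e1]
    have e3 : ∀ w : W, gs h • w = xs⁻¹ • (h₀⁻¹ * h) • xs • w := by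
      intro w
      simp only [hgs, mul_smul]
    have e4 : xs • (gs h • u - u) = (h₀⁻¹ * h) • xs • u - xs • u := by
      rw [smul_sub, e3, smul_inv_smul]
    rw [e3 (gs h • u - u), e4, e2, ← e4, inv_smul_smul]
  -- step 4
  have hcard : 𝒦'.ncard ≤ Nat.card (Fx H (W₁ : Set W)) * p ^ (e * r + e * s) := by
    set θ : H → (W₁ →+ W) := fun h => TwoCoreA_hom W₁ (gs h) 1 with hθ
    have hθa : ∀ (h : H) (u : W₁), θ h u = gs h • (u : W) - (u : W) := by
      intro h u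
      simp only [hθ, TwoCoreA_hom_apply, one_smul]
    refine (TwoCoreA_card_le θ (B := {ψ : W₁ →+ W | Nat.card ψ.range ≤ p ^ e}) (Set.toFinite _)
      (n := Nat.card (Fx H (W₁ : Set W))) ?_ ?_).trans
      (Nat.mul_le_mul_left _ (hom_count_small hp hs hW))
    · intro h hh
      have e1 := hquad (gs h) (hgs1 h hh)
      have e2 : ((θ h).range : Set W) = (fun w : W => gs h • w - w) '' (W₁ : Set W) := by
        ext w
        constructor
        · rintro ⟨u, rfl⟩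
          exact ⟨u, u.2, (hθa h u).symm⟩
        · rintro ⟨u, hu, rfl⟩
          exact ⟨⟨u, hu⟩, hθa h ⟨u, hu⟩⟩
      show Nat.card ((θ h).range : Set W) ≤ p ^ e
      rw [e2]
      exact e1
    · intro ψ _
      rcases Set.eq_empty_or_nonempty {a | a ∈ 𝒦' ∧ θ a = ψ} with he | ⟨h₂, hh₂, hψ⟩
      · rw [he, Set.ncard_empty]
        exact Nat.zero_le _
      · have hsub : {a | a ∈ 𝒦' ∧ θ a = ψ} ⊆
            (fun f : H => h₂ * xs * f * xs⁻¹) '' (Fx H (W₁ : Set W) : Set H) := by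
          rintro h ⟨hh, hψ'⟩
          refine ⟨xs⁻¹ * h₂⁻¹ * h * xs, ?_, by group⟩
          intro w hw
          have e1 : θ h ⟨w, hw⟩ = θ h₂ ⟨w, hw⟩ := by rw [hψ', hψ]
          rw [hθa, hθa] at e1
          have e2 : gs h • w = gs h₂ • w := sub_left_injective e1
          have e3 : xs⁻¹ * h₂⁻¹ * h * xs = (gs h₂)⁻¹ * gs h := by
            simp only [hgs]
            group
          rw [e3, mul_smul, e2, inv_smul_smul]
        refine (Set.ncard_le_ncard hsub (Set.toFinite _)).trans ?_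
        exact Set.ncard_image_le (Set.toFinite _)
  -- arithmetic
  have hA1 : (4 * p ^ d) ^ s ≤ p ^ (2 * m + d * m) := by
    calc (4 * p ^ d) ^ s ≤ (p ^ 2 * p ^ d) ^ s := by
          apply Nat.pow_le_pow_left
          apply Nat.mul_le_mul_right
          nlinarith
      _ = p ^ ((2 + d) * s) := by rw [← pow_add, ← pow_mul]
      _ ≤ p ^ ((2 + d) * m) := Nat.pow_le_pow_right hp1 (Nat.mul_le_mul_left _ hsm)
      _ = p ^ (2 * m + d * m) := by rw [add_mul]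
  have hA2 : p ^ (e * r + e * s) ≤ p ^ (2 * e * m) := by
    apply Nat.pow_le_pow_right hp1
    nlinarith [Nat.mul_le_mul_left e hr, Nat.mul_le_mul_left e hsm]
  have hA3 : 𝒦.ncard ≤ Nat.card (Fx H (W₁ : Set W)) * p ^ (2 * e * m) * p ^ (2 * m + d * m) :=
    hpig.trans (Nat.mul_le_mul (hcard.trans (Nat.mul_le_mul_left _ hA2)) (hΦ.trans hA1))
  have hA4 : 3 * Nat.card H ≤ 4 * (p ^ (k * m) * ρ ^ (Q + 1)) *
      (Nat.card (Fx H (W₁ : Set W)) * p ^ (2 * e * m) * p ^ (2 * m + d * m)) :=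
    hcount.trans (Nat.mul_le_mul_left _ hA3)
  set X : ℕ := p ^ (k * m) * ρ ^ (Q + 1) *
      (Nat.card (Fx H (W₁ : Set W)) * p ^ (2 * e * m) * p ^ (2 * m + d * m)) with hX
  have hA5 : 3 * Nat.card H ≤ 4 * X := by
    rw [hX]
    refine hA4.trans (le_of_eq ?_)
    ring
  have hA6 : Nat.card H ≤ p * X := by
    have : Nat.card H ≤ 2 * X := by omega
    exact this.trans (Nat.mul_le_mul_right _ hp2)
  refine hA6.trans (le_of_eq ?_)
  rw [hX, show k * m + d * m + 2 * m + 2 * e * m + 1 = 1 + k * m + 2 * e * m + (2 * m + d * m) by ring]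
  rw [pow_add, pow_add, pow_add, pow_one]
  ring

end MP828
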