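import Pool.Agent.Lib.MP_828a6d_al.TwoCoreA

/-! MP_828a6d_al (stream Two): the core lemma for subgroups. -/

namespace MP828

open scoped commutatorElement

/-- the order of `S.subgroupOf K` is the order of `K ⊓ S` -/
theorem TwoCoreB_card {G : Type*} [Group G] (K S : Subgroup G) :
    Nat.card (S.subgroupOf K) = Nat.card (K ⊓ S : Subgroup G) :=
  Nat.card_congr
    { toFun := fun x => ⟨x.1.1, x.1.2, x.2⟩
      invFun := fun y => ⟨⟨y.1, y.2.1⟩, y.2.2⟩
      left_inv := fun _ => rfl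
      right_inv := fun _ => rfl }

/-- The core lemma for subgroups `K' ≤ K` of a group `G` acting on `W`: apply `core_full` to `H = ↥K`
(`DistribMulAction ↥K W` is the restriction), `H' = K'.subgroupOf K`; `|K'.subgroupOf K| = |K'|`
(`Subgroup.subgroupOfEquivOfLe`), `Fx ↥K W₁ = (Fx G W₁).subgroupOf K`, whose order is `|K ⊓ Fx G W₁|`. -/
theorem core_sub {G W : Type*} [Group G] [AddCommGroup W] [DistribMulAction G W]
    [Finite G] [Finite W] {p r m k Q d e ρ : ℕ} (hp : p.Prime)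
    (hW : Nat.card W = p ^ r) (hr : r ≤ m) (h1 : 64 * m ≤ (k + 1) * (Q + 1))
    (h2 : 64 * m ≤ (k + 1) * (d + 1)) (W₁ : AddSubgroup W) {K K' : Subgroup G} (hle : K' ≤ K)
    (hH' : ∀ x ∈ K, ∀ y ∈ K, ⁅x, y⁆ ∈ K')
    (hρ : Nat.card K' ≤ ρ * Nat.card (K' ⊓ Fx G (W₁ : Set W) : Subgroup G))
    (hquad : ∀ g ∈ K, (∀ w ∈ W₁, g • (g • w - w) = g • w - w) →
      ((fun w : W => g • w - w) '' (W₁ : Set W)).ncard ≤ p ^ e) :
    Nat.card K ≤ p ^ (k * m + d * m + 2 * m + 2 * e * m + 1) * ρ ^ (Q + 1) *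
      Nat.card (K ⊓ Fx G (W₁ : Set W) : Subgroup G) := by
  have e1 : Fx ↥K (W₁ : Set W) = (Fx G (W₁ : Set W)).subgroupOf K := by
    ext g
    exact Iff.rfl
  have e2 : Nat.card (K'.subgroupOf K) = Nat.card K' := by
    rw [TwoCoreB_card, inf_eq_right.mpr hle]
  have e3 : (K'.subgroupOf K ⊓ Fx ↥K (W₁ : Set W) : Subgroup ↥K)
      = (K' ⊓ Fx G (W₁ : Set W)).subgroupOf K := by
    rw [e1]
    ext g
    exact Iff.rfl
  have e4 : Nat.card (K'.subgroupOf K ⊓ Fx ↥K (W₁ : Set W) : Subgroup ↥K)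
      = Nat.card (K' ⊓ Fx G (W₁ : Set W) : Subgroup G) := by
    rw [e3, TwoCoreB_card, inf_eq_right.mpr (le_trans inf_le_left hle)]
  have e5 : Nat.card (Fx ↥K (W₁ : Set W)) = Nat.card (K ⊓ Fx G (W₁ : Set W) : Subgroup G) := by
    rw [e1, TwoCoreB_card]
  have h := core_full (H := ↥K) (W := W) (ρ := ρ) (e := e) hp hW hr h1 h2 W₁
    (H' := K'.subgroupOf K) (fun x y => hH' x x.2 y y.2) (by rw [e2, e4]; exact hρ)
    (fun g hg => hquad g g.2 hg)
  rw [e5] at h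
  exact h

end MP828
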