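import Pool.Agent.Lib.MP_828a6d_al.TwoMainB
import Pool.Agent.Lib.MP_828a6d_al.Final

/-! MP_828a6d_al (stream Two): the asymptotic statement. -/

namespace MP828

/-- For `p` odd, `liminf m_p(n)/√n ≥ 2`.
Proof. `c ≤ 0` trivial. For `0 < c < 2` let `ε = 1/c² - 1/4 > 0`; choose `D` with `1/(4 D) < ε/2`, `C, m₀` from `two_bound`,
and `m₁` with `C · Err m ≤ (ε/2) · 4 D m²` for `m ≥ m₁` (`Err_small`). For `n > (max m₀ m₁)²`, let `m = sSup (mset p n)` and `G`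
from `exists_group`; `n ≤ m²` (`n_le_sq`) gives `m ≥ max m₀ m₁`, so `4 D n ≤ (D+1) m² + C Err m`, i.e.
`n ≤ (1/4 + 1/(4D) + ε/2) m² < m²/c²`, and `c √n ≤ m`. -/
theorem main_result_two {p : ℕ} (hp : p.Prime) (hp2 : p ≠ 2) (c : ℝ) (hc : c < 2) :
    ∀ᶠ n : ℕ in Filter.atTop, c ≤ ((sSup (mset p n) : ℕ) : ℝ) / Real.sqrt (n : ℝ) := by
  rcases le_or_gt c 0 with h0 | h0
  · exact Filter.Eventually.of_forall fun n => h0.trans (by positivity)
  have hc2 : 0 < c ^ 2 := by positivity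
  have hc4 : c ^ 2 < 4 := by nlinarith
  have hε : 0 < 1 / c ^ 2 - 1 / 4 := by
    have : 1 / 4 < 1 / c ^ 2 := one_div_lt_one_div_of_lt hc2 hc4
    linarith
  set ε : ℝ := 1 / c ^ 2 - 1 / 4 with hεd
  obtain ⟨D, hD⟩ := exists_nat_gt (1 / (2 * ε))
  have hDr : (0 : ℝ) < D := lt_trans (by positivity) hD
  have hD0 : 0 < D := by exact_mod_cast hDr
  have hD2 : 1 < D * (2 * ε) := by
    rwa [div_lt_iff₀ (by positivity)] at hD
  obtain ⟨C, m₀, hb⟩ := two_bound D hD0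
  have hC0 : (0 : ℝ) ≤ C := Nat.cast_nonneg C
  obtain ⟨m₁, hm₁⟩ := Err_small (2 * ε * D / (C + 1)) (by positivity)
  filter_upwards [Filter.eventually_ge_atTop ((max m₀ m₁) ^ 2 + 1)] with n hn
  have hn1 : 1 ≤ n := by
    have : 0 ≤ (max m₀ m₁) ^ 2 := Nat.zero_le _
    omega
  have hnr : (0 : ℝ) < n := by exact_mod_cast hn1
  obtain ⟨G, hG, hcard, hm⟩ := exists_group (n := n) hp
  have hfin : Finite G := Nat.finite_of_card_ne_zero (by rw [hcard]; exact pow_ne_zero _ hp.ne_zero)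
  set m := sSup (mset p n) with hmdef
  have h1 : n ≤ m ^ 2 := n_le_sq hp hcard hm
  have h2 : max m₀ m₁ < m := by
    have : (max m₀ m₁) ^ 2 < m ^ 2 := by omega
    exact lt_of_pow_lt_pow_left₀ 2 (Nat.zero_le _) this
  have h3 := hb m ((le_max_left _ _).trans h2.le) p n hp hp2 G hcard hm
  have h4 := hm₁ m ((le_max_right _ _).trans h2.le)
  have h3r : 4 * (D : ℝ) * n ≤ (D + 1) * (m : ℝ) ^ 2 + C * (Err m : ℝ) := by exact_mod_cast h3
  have hErr : C * (Err m : ℝ) ≤ 2 * ε * D * (m : ℝ) ^ 2 := by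
    have h5 : C * (Err m : ℝ) ≤ (C + 1) * (Err m : ℝ) :=
      mul_le_mul_of_nonneg_right (by linarith) (Nat.cast_nonneg _)
    have h6 : (C + 1) * (Err m : ℝ) ≤ (C + 1) * (2 * ε * D / (C + 1) * (m : ℝ) ^ 2) :=
      mul_le_mul_of_nonneg_left h4 (by linarith)
    have h7 : ((C : ℝ) + 1) * (2 * ε * D / (C + 1) * (m : ℝ) ^ 2) = 2 * ε * D * (m : ℝ) ^ 2 := by
      field_simp
    linarith
  have hmsq : (0 : ℝ) ≤ (m : ℝ) ^ 2 := by positivity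
  have h8 : 4 * (D : ℝ) * n ≤ 4 * D * ((1 / 4 + ε) * (m : ℝ) ^ 2) := by
    nlinarith
  have h9 : (n : ℝ) ≤ 1 / c ^ 2 * (m : ℝ) ^ 2 := by
    have h10 : (n : ℝ) ≤ (1 / 4 + ε) * (m : ℝ) ^ 2 := le_of_mul_le_mul_left h8 (by positivity)
    have h11 : 1 / 4 + ε = 1 / c ^ 2 := by rw [hεd]; ring
    rwa [h11] at h10
  have h10 : c ^ 2 * n ≤ (m : ℝ) ^ 2 := by
    rw [one_div, inv_mul_eq_div, le_div_iff₀ hc2] at h9
    linarith
  have hsq : 0 < Real.sqrt (n : ℝ) := Real.sqrt_pos.2 hnr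
  rw [le_div_iff₀ hsq]
  have h11 : (c * Real.sqrt (n : ℝ)) ^ 2 ≤ (m : ℝ) ^ 2 := by
    rw [mul_pow, Real.sq_sqrt hnr.le]
    exact h10
  exact (pow_le_pow_iff_left₀ (by positivity) (Nat.cast_nonneg _) two_ne_zero).1 h11

end MP828
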