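import Pool.Agent.Lib.MP_828a6d_al.Gens

/-! MP_828a6d_al (stream Two): the count (F6). -/

namespace MP828

open scoped commutatorElement

variable {G : Type*} [Group G]

/-- **(F6)** If every `g ∈ Γ` has `|X| ≤ p^w |X ⊓ cm g A|` then at least `|X| / (2 p^w)` elements `y ∈ X` are good:
`|Γ| ≤ 2 p^w |Γ ⊓ cm y A|`.
Proof. Let `N = |{(g, y) ∈ Γ × X : ⁅g, y⁆ ∈ A}| = Σ_{g ∈ Γ} |X ⊓ cm g A| = Σ_{y ∈ X} |Γ ⊓ cm y A|`
(`⁅y, g⁆ = ⁅g, y⁆⁻¹`). `|Γ| |X| ≤ p^w N`. A bad `y` has `2 p^w |Γ ⊓ cm y A| < |Γ|`, a good one `|Γ ⊓ cm y A| ≤ |Γ|`, so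
`2 |Γ| |X| ≤ 2 p^w N ≤ 2 p^w |good| |Γ| + |X| |Γ|`. -/
theorem good_count [Finite G] {p w : ℕ} (hp : p.Prime) {A Γ X : Subgroup G} [hA : A.Normal]
    (h : ∀ g ∈ Γ, Nat.card X ≤ p ^ w * Nat.card (X ⊓ cm g A : Subgroup G)) :
    Nat.card X ≤ 2 * p ^ w *
      {y | y ∈ X ∧ Nat.card Γ ≤ 2 * p ^ w * Nat.card (Γ ⊓ cm y A : Subgroup G)}.ncard := by
  classical
  have : Fintype G := Fintype.ofFinite G
  set P : ℕ := p ^ w with hP
  have hPpos : 0 < P := pow_pos hp.pos w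
  set gs : Finset G := Finset.univ.filter fun g => g ∈ Γ with hgs
  set xs : Finset G := Finset.univ.filter fun y => y ∈ X with hxs
  have hcard : ∀ S : Subgroup G, Nat.card S = (Finset.univ.filter fun g => g ∈ S).card := by
    intro S
    rw [Nat.card_eq_fintype_card, Fintype.card_subtype]
  have hΓ : Nat.card Γ = gs.card := hcard Γ
  have hX : Nat.card X = xs.card := hcard X
  have ha : ∀ g : G, Nat.card (X ⊓ cm g A : Subgroup G) = (xs.filter fun y => ⁅g, y⁆ ∈ A).card := by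
    intro g
    rw [hcard, hxs, Finset.filter_filter]
    congr 1
    ext y
    simp only [Finset.mem_filter, Finset.mem_univ, true_and, Subgroup.mem_inf, mem_cm]
  have hb : ∀ y : G, Nat.card (Γ ⊓ cm y A : Subgroup G) = (gs.filter fun g => ⁅g, y⁆ ∈ A).card := by
    intro y
    rw [hcard, hgs, Finset.filter_filter]
    congr 1
    ext g
    simp only [Finset.mem_filter, Finset.mem_univ, true_and, Subgroup.mem_inf]
    have h1 : g ∈ cm y A ↔ ⁅y, g⁆ ∈ A := Iff.rfl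
    rw [h1, ← commutatorElement_inv, inv_mem_iff]
  have hdc : ∑ g ∈ gs, (xs.filter fun y => ⁅g, y⁆ ∈ A).card = ∑ y ∈ xs, (gs.filter fun g => ⁅g, y⁆ ∈ A).card :=
    Finset.sum_card_bipartiteAbove_eq_sum_card_bipartiteBelow (fun g y => ⁅g, y⁆ ∈ A)
  set good : Finset G := xs.filter fun y => Nat.card Γ ≤ 2 * P * Nat.card (Γ ⊓ cm y A : Subgroup G) with hgood
  have hgc : {y | y ∈ X ∧ Nat.card Γ ≤ 2 * P * Nat.card (Γ ⊓ cm y A : Subgroup G)}.ncard = good.card := by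
    rw [← Set.ncard_coe_finset]
    congr 1
    ext y
    simp [hgood, hxs]
  rw [hgc]
  -- lower bound
  have h1 : gs.card * xs.card ≤ P * ∑ g ∈ gs, (xs.filter fun y => ⁅g, y⁆ ∈ A).card := by
    rw [Finset.mul_sum, ← smul_eq_mul, ← Finset.sum_const]
    refine Finset.sum_le_sum fun g hg => ?_
    rw [← ha, ← hX]
    exact h g (by simpa [hgs] using hg)
  -- upper bound
  have h2 : 2 * P * ∑ y ∈ xs, (gs.filter fun g => ⁅g, y⁆ ∈ A).card ≤ 2 * P * gs.card * good.card + gs.card * xs.card := by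
    have hsplit : ∀ y ∈ xs, 2 * P * (gs.filter fun g => ⁅g, y⁆ ∈ A).card
        ≤ (if Nat.card Γ ≤ 2 * P * Nat.card (Γ ⊓ cm y A : Subgroup G) then 2 * P * gs.card else 0) + gs.card := by
      intro y _
      split_ifs with hy
      · have : (gs.filter fun g => ⁅g, y⁆ ∈ A).card ≤ gs.card := Finset.card_filter_le _ _
        have := Nat.mul_le_mul_left (2 * P) this
        omega
      · rw [hb, hΓ] at hy
        omega
    rw [Finset.mul_sum]
    refine (Finset.sum_le_sum hsplit).trans ?_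
    rw [Finset.sum_add_distrib, ← Finset.sum_filter, Finset.sum_const, Finset.sum_const, smul_eq_mul, smul_eq_mul]
    rw [mul_comm xs.card, mul_comm (Finset.card _)]
  rw [hdc] at h1
  rw [hX]
  have hΓpos : 0 < gs.card := by
    rw [← hΓ]
    exact Nat.card_pos
  have h3 : gs.card * xs.card ≤ gs.card * (2 * P * good.card) := by
    have h4 := Nat.mul_le_mul_left 2 h1
    nlinarith
  exact Nat.le_of_mul_le_mul_left h3 hΓpos

end MP828
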