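import Pool.Agent.Lib.MP_828a6d_al.TwoGreedy

/-! MP_828a6d_al (stream Two): (F7) and a sum. -/

namespace MP828

open scoped commutatorElement

variable {G : Type*} [Group G]

/-- **(F7)** `y j ∈ MB A B`, `⁅y j, g⁆ ∈ A`, `g ∈ rl A B`: `g` centralizes `comA A (range y)`.
Proof. `g ⁅y, a⁆ g⁻¹ = ⁅g y g⁻¹, g a g⁻¹⁆`, `g y g⁻¹ = ⁅g, y⁆ y = a' y` with `a' ∈ A` and `g a g⁻¹ = b a` with `b ∈ B`.
`⁅a' y, c⁆ = ⁅y, c⁆` for `c ∈ A` (`A` abelian normal), and `⁅y, b a⁆ = ⁅y, b⁆ b ⁅y, a⁆ b⁻¹ = ⁅y, a⁆` (`y` centralizes `B`,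
`A` abelian). Extend from the generators (`comA A (range y) ≤ centralizer {g}`). -/
theorem centralizes_comA {A B : Subgroup G} [hA : A.Normal] [hB : B.Normal]
    (hab : ∀ x ∈ A, ∀ y ∈ A, x * y = y * x) (hBA : B ≤ A) {q : ℕ} (y : Fin q → G)
    (hy : ∀ j, y j ∈ MB A B) {g : G} (hgy : ∀ j, ⁅y j, g⁆ ∈ A) (hg : g ∈ rl A B) :
    ∀ z ∈ comA A (Set.range y), g * z = z * g := by
  have key : comA A (Set.range y) ≤ Subgroup.centralizer {g} := by
    rw [comA_le]
    rintro _ ⟨j, rfl⟩ a ha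
    rw [Subgroup.mem_centralizer_singleton_iff]
    obtain ⟨Y, hY⟩ : ∃ Y, Y = y j := ⟨_, rfl⟩
    have hYB : ∀ b ∈ B, Y * b = b * Y := by
      intro b hb
      rw [hY]
      exact mem_rl_bot.1 (hy j).1 b hb
    have hYg : ⁅Y, g⁆ ∈ A := by
      rw [hY]
      exact hgy j
    rw [← hY]
    -- the elements `a'`, `b`
    obtain ⟨a', ha'⟩ : ∃ a', a' = g * Y * g⁻¹ * Y⁻¹ := ⟨_, rfl⟩
    obtain ⟨b, hb⟩ : ∃ b, b = g * a * g⁻¹ * a⁻¹ := ⟨_, rfl⟩
    have ha'A : a' ∈ A := by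
      have h := A.inv_mem hYg
      have e : ⁅Y, g⁆⁻¹ = a' := by
        rw [ha']
        simp only [commutatorElement_def]
        group
      rwa [e] at h
    have hbB : b ∈ B := by
      have h := hg a ha
      rw [commutatorElement_def] at h
      rwa [hb]
    have hbA : b ∈ A := hBA hbB
    have e1 : g * Y = a' * Y * g := by
      rw [ha']
      group
    have e2 : g * a = b * a * g := by
      rw [hb]
      group
    have hcA : Y * a * Y⁻¹ * a⁻¹ ∈ A := A.mul_mem (hA.conj_mem a ha Y) (A.inv_mem ha)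
    have hYa : Y * (b * a) * Y⁻¹ ∈ A := hA.conj_mem _ (A.mul_mem hbA ha) Y
    have e3 : g * Y⁻¹ = Y⁻¹ * a'⁻¹ * g := by
      have h : Y⁻¹ * a'⁻¹ = (a' * Y)⁻¹ := by group
      rw [h, eq_inv_mul_iff_mul_eq]
      calc a' * Y * (g * Y⁻¹) = (a' * Y * g) * Y⁻¹ := by group
        _ = g * Y * Y⁻¹ := by rw [← e1]
        _ = g := by group
    have e4 : g * a⁻¹ = a⁻¹ * b⁻¹ * g := by
      have h : a⁻¹ * b⁻¹ = (b * a)⁻¹ := by group
      rw [h, eq_inv_mul_iff_mul_eq]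
      calc b * a * (g * a⁻¹) = (b * a * g) * a⁻¹ := by group
        _ = g * a * a⁻¹ := by rw [← e2]
        _ = g := by group
    have e5 : g * (Y * a * Y⁻¹ * a⁻¹) = (Y * a * Y⁻¹ * a⁻¹) * g := by
      calc g * (Y * a * Y⁻¹ * a⁻¹) = (g * Y) * a * Y⁻¹ * a⁻¹ := by group
        _ = a' * Y * (g * a) * Y⁻¹ * a⁻¹ := by rw [e1]; group
        _ = a' * Y * (b * a) * (g * Y⁻¹) * a⁻¹ := by rw [e2]; group
        _ = a' * Y * (b * a) * Y⁻¹ * a'⁻¹ * (g * a⁻¹) := by rw [e3]; group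
        _ = (a' * (Y * (b * a) * Y⁻¹)) * a'⁻¹ * a⁻¹ * b⁻¹ * g := by rw [e4]; group
        _ = ((Y * (b * a) * Y⁻¹) * a') * a'⁻¹ * a⁻¹ * b⁻¹ * g := by rw [hab a' ha'A _ hYa]
        _ = (Y * b) * a * Y⁻¹ * a⁻¹ * b⁻¹ * g := by group
        _ = (b * Y) * a * Y⁻¹ * a⁻¹ * b⁻¹ * g := by rw [hYB b hbB]
        _ = (b * (Y * a * Y⁻¹ * a⁻¹)) * b⁻¹ * g := by group
        _ = ((Y * a * Y⁻¹ * a⁻¹) * b) * b⁻¹ * g := by rw [hab b hbA _ hcA]
        _ = (Y * a * Y⁻¹ * a⁻¹) * g := by group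
    rw [commutatorElement_def]
    exact e5.symm
  intro z hz
  have h := key hz
  rw [Subgroup.mem_centralizer_singleton_iff] at h
  exact h.symm

/-- Arithmetic of the sums. -/
theorem sum_min_le {v x r : ℕ} (hx : x ≤ v) :
    2 * ∑ j ∈ Finset.range v, min j (x + r) ≤ x * (x - 1) + 2 * (v - x) * x + 2 * v * r := by
  have h1 : ∑ j ∈ Finset.range v, min j (x + r) ≤
      ∑ j ∈ Finset.range v, min j x + v * r := by
    have h : v * r = ∑ _j ∈ Finset.range v, r := by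
      rw [Finset.sum_const, Finset.card_range, smul_eq_mul]
    rw [h, ← Finset.sum_add_distrib]
    apply Finset.sum_le_sum
    intro j _
    omega
  have h2 : 2 * ∑ j ∈ Finset.range v, min j x = x * (x - 1) + 2 * (v - x) * x := by
    induction v, hx using Nat.le_induction with
    | base =>
      have h : ∑ j ∈ Finset.range x, min j x = ∑ j ∈ Finset.range x, j := by
        apply Finset.sum_congr rfl
        intro j hj
        rw [Finset.mem_range] at hj
        exact min_eq_left hj.le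
      have h3 := Finset.sum_range_id_mul_two x
      rw [h, Nat.sub_self, Nat.mul_zero, Nat.zero_mul, Nat.add_zero, ← h3]
      ring
    | succ n hn ih =>
      have ih' := ih (by
        have h : n * r = ∑ _j ∈ Finset.range n, r := by
          rw [Finset.sum_const, Finset.card_range, smul_eq_mul]
        rw [h, ← Finset.sum_add_distrib]
        apply Finset.sum_le_sum
        intro j _
        omega)
      rw [Finset.sum_range_succ, Nat.mul_add, ih', min_eq_right hn, Nat.succ_sub hn,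
        Nat.succ_eq_add_one]
      ring
  have h3 : 2 * ∑ j ∈ Finset.range v, min j (x + r) ≤
      2 * (∑ j ∈ Finset.range v, min j x + v * r) := Nat.mul_le_mul_left 2 h1
  rw [Nat.mul_add, h2] at h3
  calc _ ≤ _ := h3
    _ = _ := by ring

end MP828
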