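import Pool.Agent.Lib.MP_828a6d_al.TwoCntA
import Pool.Agent.Lib.MP_828a6d_al.TwoCntB
import Pool.Agent.Lib.MP_828a6d_al.TwoCntC
import Pool.Agent.Lib.MP_828a6d_al.TwoGoodA
import Pool.Agent.Lib.MP_828a6d_al.TwoGoodB

/-! MP_828a6d_al (stream Two): the final count (VI). -/

namespace MP828

open scoped commutatorElement

variable {G : Type*} [Group G]

theorem TwoFinal_card [Finite G] {p : ℕ} (hp : p.Prime) (hG : IsPGroup p G) (H : Subgroup G) :
    ∃ t, Nat.card H = p ^ t := by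
  have : Fact p.Prime := ⟨hp⟩
  exact (hG.to_subgroup H).exists_card_eq

/-- the arithmetic of the exponents -/
theorem TwoFinal_arith {n α t c w ω r h q e i T E : ℕ} (hte : t ≤ e) (heα : e ≤ α)
    (h1 : (r + 1) * h + t ≤ e) (h2 : (r + 1) * q ≤ i) (hit : i ≤ t)
    (hT : 2 * T ≤ (e - t) * ((e - t) - 1) + 2 * ((α - t) - (e - t)) * (e - t) + 2 * (α - t) * r)
    (hE : 2 * E + i * (i - 1) ≤ t * (t - 1))
    (hn : n ≤ ω + ((w + 1) * q + (α * r + (T + (E + (c + (w * h + ((w + 1) + (t * r +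
      ((r + i) * (α - e) + α)))))))))) :
    2 * n ≤ (α - t) ^ 2 + t ^ 2 + 2 * ω + 2 * c + 2 * α + 2 * (α / (r + 1) + 1) * (w + 1) +
      6 * α * r := by
  obtain ⟨x, rfl⟩ := Nat.exists_eq_add_of_le hte
  obtain ⟨d, rfl⟩ := Nat.exists_eq_add_of_le heα
  have e1 : t + x - t = x := by omega
  have e2 : t + x + d - t = x + d := by omega
  have e3 : x + d - x = d := by omega
  have e4 : t + x + d - (t + x) = d := by omega
  rw [e1, e2, e3] at hT
  rw [e4] at hn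
  rw [e2]
  have h3 : (r + 1) * (q + h) ≤ t + x + d := by
    have : (r + 1) * (q + h) = (r + 1) * q + (r + 1) * h := by ring
    omega
  have h4 : q + h ≤ (t + x + d) / (r + 1) := by
    rw [Nat.le_div_iff_mul_le (by omega)]
    calc (q + h) * (r + 1) = (r + 1) * (q + h) := by ring
      _ ≤ _ := h3
  generalize (t + x + d) / (r + 1) = D at h4
  have k1 : (q + h) * (w + 1) ≤ D * (w + 1) := Nat.mul_le_mul_right _ h4
  obtain ⟨j, rfl⟩ := Nat.exists_eq_add_of_le hit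
  have s1 : x * (x - 1) + x = x * x := by
    cases x with
    | zero => rfl
    | succ x => simp only [Nat.add_sub_cancel]; ring
  have s2 : i * (i - 1) + i = i * i := by
    cases i with
    | zero => rfl
    | succ i => simp only [Nat.add_sub_cancel]; ring
  have s3 : (i + j) * (i + j - 1) + (i + j) = (i + j) * (i + j) := by
    cases i + j with
    | zero => rfl
    | succ i => simp only [Nat.add_sub_cancel]; ring
  zify at *
  nlinarith [sq_nonneg ((i : ℤ) - d), mul_nonneg (Int.natCast_nonneg r) (Int.natCast_nonneg x),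
    mul_nonneg (Int.natCast_nonneg r) (Int.natCast_nonneg i), mul_nonneg (Int.natCast_nonneg r) (Int.natCast_nonneg j),
    mul_nonneg (Int.natCast_nonneg r) (Int.natCast_nonneg d)]

/-- **Final count.**
Proof. `Y = YB A B N`, `v = α - t`.
(1) `exists_greedy` with `U₀ = B`, `𝒢 = Γ`: `x : Fin h → Γ`, `Uh = B ⊔ comA A (range x) ≤ A`; let `|A| = p^d |Uh|`
  (`|Uh| = p^{α-d}`), so `(r+1) h ≤ v - d`, `d ≤ v`; `exists_gens` gives `g : Fin d → A` with `Uh ⊔ closure (range g) = A`.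
(2) `X = Y ⊓ ⨅ i, cm (x i) A`; `cm g N ≤ cm g A`; `|Y| ≤ p^{h w} |X|` (`card_iInf`); for `g ∈ Γ`, `|X| ≤ p^w |X ⊓ cm g A|`
  (`card_inf_le`).
(3) `good_count`: `𝒮 = {y ∈ X : |Γ| ≤ 2 p^w |Γ ⊓ cm y A|}`, `|X| ≤ 2 p^w |𝒮| ≤ p^{w+1} |𝒮|`.
(4) `exists_greedy` with `U₀ = ⊥`, `𝒢 = 𝒮`: `y : Fin q → 𝒮`, `Iq = comA A (range y) ≤ B` (`𝒮 ⊆ Y ≤ MB A B`), `|Iq| = p^i`,
  `(r+1) q ≤ i ≤ t`.
(5) `exists_common` with `U₀ = Iq`, `R = B`, `𝒮`: `I'`, `|I'| ≤ p^{r+i}`, `|𝒮| ≤ p^{t r} |{y ∈ 𝒮 : comA A {y} ≤ I'}|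
  ≤ p^{t r} |X ⊓ rl A I'| ≤ p^{t r} p^{(r+i) d} p^α` (`count_X`).
(6) `Γq = Γ ⊓ ⨅ j, cm (y j) A`, `|Γ| ≤ (2 p^w)^q |Γq| ≤ p^{(w+1) q} |Γq|` (`card_iInf`).
(7) `exists_common` with `U₀ = Uh`, `R = A`, `𝒮 = Γq`: `U'`, `|U'| ≤ p^r |Uh| = p^{r + v - d} |B|`,
  `|Γq| ≤ p^{α r} |Γq ⊓ rl A U'|`; `tri_count` with `u = (v - d) + r`: `|Γq ⊓ rl A U'| ≤ p^{T} |Γq ⊓ rl A B|`,
  `2 T ≤ (v-d)(v-d-1) + 2 d (v-d) + 2 v r` (`sum_min_le`).
(8) `centralizes_comA` and `fix_count` with `S = Γq ⊓ rl A B`, `I = Iq`: `|Γq ⊓ rl A B| ≤ p^E |Γq ⊓ rl A B ⊓ rl B ⊥|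
  ≤ p^E |MB A B|`, `2 E + i (i-1) ≤ t (t-1)`.
(9) `|MB A B| ≤ p^{c} |Y|`, `|Y| ≤ p^{h w} |X|`.
Altogether `n ≤ ω + (w+1) q + α r + T + E + c + h w + (w+1) + t r + (r+i) d + α`, and
`(v-d)(v-d-1) + 2d(v-d) + t(t-1) - i(i-1) + 2 i d ≤ v² + t²` (it equals
`v² + t² - (i-d)² - (v-d) - (t-i)`), `(q + h)(r+1) ≤ α`, `d ≤ α`. -/
theorem final_count [Finite G] {p : ℕ} (hp : p.Prime) (hG : IsPGroup p G) {A B N : Subgroup G}
    [hA : A.Normal] [hB : B.Normal] [hN : N.Normal]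
    (hab : ∀ x ∈ A, ∀ y ∈ A, x * y = y * x) (hcent : rl A ⊥ = A) (hBN : B ≤ N) (hNA : N ≤ A)
    {n α t c w ω : ℕ} (r : ℕ) (hn : Nat.card G = p ^ n) (hAc : Nat.card A = p ^ α)
    (hBc : Nat.card B = p ^ t) (ht : t ≤ α)
    (hMY : Nat.card (MB A B) ≤ p ^ c * Nat.card (YB A B N)) {Γ : Subgroup G}
    (hΓ : Nat.card G ≤ p ^ ω * Nat.card Γ)
    (hΓY : ∀ g ∈ Γ, Nat.card (YB A B N) ≤ p ^ w * Nat.card (YB A B N ⊓ cm g N : Subgroup G)) :
    2 * n ≤ (α - t) ^ 2 + t ^ 2 + 2 * ω + 2 * c + 2 * α + 2 * (α / (r + 1) + 1) * (w + 1) +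
      6 * α * r := by
  classical
  have hBA : B ≤ A := hBN.trans hNA
  have hp1 : 1 < p := hp.one_lt
  have hcA : ∀ S : Set G, comA A S ≤ A := by
    intro S
    rw [comA_le]
    intro g _ a ha
    rw [commutatorElement_def]
    exact A.mul_mem (hA.conj_mem a ha g) (A.inv_mem ha)
  -- (1)
  obtain ⟨h, x, hx, hx1, hx2⟩ := exists_greedy hp hG A B r (Γ : Set G)
  set Uh : Subgroup G := B ⊔ comA A (Set.range x) with hUh
  have hUA : Uh ≤ A := sup_le hBA (hcA _)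
  have hBU : B ≤ Uh := le_sup_left
  obtain ⟨e, he⟩ := TwoFinal_card hp hG Uh
  have hte : t ≤ e := by
    have := Subgroup.card_le_of_le hBU
    rw [he, hBc] at this
    exact (Nat.pow_le_pow_iff_right hp1).1 this
  have heα : e ≤ α := by
    have := Subgroup.card_le_of_le hUA
    rw [he, hAc] at this
    exact (Nat.pow_le_pow_iff_right hp1).1 this
  have hx1' : (r + 1) * h + t ≤ e := by
    rw [he, hBc, ← pow_add] at hx1
    exact (Nat.pow_le_pow_iff_right hp1).1 hx1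
  obtain ⟨g, hg, hgen⟩ := exists_gens hp hG hUA (r := α - e) (by
    rw [hAc, he, ← pow_add]
    exact Nat.pow_le_pow_right hp.pos (by omega))
  -- (2)
  set Y : Subgroup G := YB A B N with hY
  set X : Subgroup G := Y ⊓ ⨅ i, cm (x i) A with hX
  have hcm : ∀ g : G, cm g N ≤ cm g A := fun g y hy => hNA hy
  have hΓY' : ∀ g ∈ Γ, Nat.card Y ≤ p ^ w * Nat.card (Y ⊓ cm g A : Subgroup G) := fun g hg' =>
    (hΓY g hg').trans (Nat.mul_le_mul_left _ (Subgroup.card_le_of_le (inf_le_inf_left _ (hcm g))))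
  have hYX : Nat.card Y ≤ p ^ (w * h) * Nat.card X := by
    have := card_iInf (S := Y) (a := p ^ w) (fun i => cm (x i) A) (fun i => hΓY' (x i) (hx i))
    rwa [← pow_mul] at this
  have hΓX : ∀ g ∈ Γ, Nat.card X ≤ p ^ w * Nat.card (X ⊓ cm g A : Subgroup G) := fun g hg' =>
    card_inf_le inf_le_left (hΓY' g hg')
  have hXY : X ≤ Y := inf_le_left
  have hXMB : X ≤ MB A B := hXY.trans YB_le_MB
  -- (3)
  have h3 := good_count hp hΓX
  set 𝒮 : Set G := {y | y ∈ X ∧ Nat.card Γ ≤ 2 * p ^ w * Nat.card (Γ ⊓ cm y A : Subgroup G)} with h𝒮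
  have h2p : 2 * p ^ w ≤ p ^ (w + 1) := by
    rw [pow_succ, mul_comm]
    exact Nat.mul_le_mul_left _ hp.two_le
  -- (4)
  obtain ⟨q, y, hy, hy1, hy2⟩ := exists_greedy hp hG A ⊥ r 𝒮
  set Iq : Subgroup G := ⊥ ⊔ comA A (Set.range y) with hIq
  have hS1 : ∀ g ∈ 𝒮, comA A {g} ≤ B := by
    intro g hg'
    rw [comA_singleton_le]
    exact (hXMB hg'.1).2
  have hIB : Iq ≤ B := by
    refine sup_le bot_le ?_
    rw [comA_le]
    rintro _ ⟨j, rfl⟩ a ha
    exact (hXMB (hy j).1).2 a ha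
  obtain ⟨i, hi⟩ := TwoFinal_card hp hG Iq
  have hit : i ≤ t := by
    have := Subgroup.card_le_of_le hIB
    rw [hi, hBc] at this
    exact (Nat.pow_le_pow_iff_right hp1).1 this
  have hy1' : (r + 1) * q ≤ i := by
    rw [hi, Subgroup.card_bot, mul_one] at hy1
    exact (Nat.pow_le_pow_iff_right hp1).1 hy1
  -- (5)
  obtain ⟨I', hI1, hI2, hI3, hI4⟩ := exists_common hp hG hIB hBc 𝒮 hS1 hy2
  have h5a : {g | g ∈ 𝒮 ∧ comA A {g} ≤ I'}.ncard ≤ Nat.card (X ⊓ rl A I' : Subgroup G) := by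
    rw [← SetLike.coe_sort_coe, Nat.card_coe_set_eq]
    refine Set.ncard_le_ncard ?_ (Set.toFinite _)
    rintro z ⟨hz1, hz2⟩
    exact ⟨hz1.1, comA_singleton_le.mp hz2⟩
  have h5b : Nat.card (X ⊓ rl A I' : Subgroup G) ≤ Nat.card I' ^ (α - e) * Nat.card A :=
    count_X hp hG hab hcent hBA x g hg (by rw [hgen])
      (fun y' hy' b hb => mem_rl_bot.mp (hXMB hy').1 b hb)
      (fun y' hy' i' => (Subgroup.mem_iInf.mp (Subgroup.mem_inf.mp hy').2 i')) I'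
  have h5 : 𝒮.ncard ≤ p ^ (t * r) * (p ^ ((r + i) * (α - e)) * p ^ α) := by
    refine hI4.trans (Nat.mul_le_mul_left _ (h5a.trans (h5b.trans ?_)))
    rw [hAc]
    refine Nat.mul_le_mul_right _ ?_
    rw [pow_mul]
    refine Nat.pow_le_pow_left ?_ _
    rw [pow_add, ← hi]
    exact hI3
  -- (6)
  set Γq : Subgroup G := Γ ⊓ ⨅ j, cm (y j) A with hΓq
  have h6 : Nat.card Γ ≤ p ^ ((w + 1) * q) * Nat.card Γq := by
    have h7 := card_iInf (S := Γ) (a := 2 * p ^ w) (fun j => cm (y j) A) (fun j => (hy j).2)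
    refine h7.trans (Nat.mul_le_mul_right _ ?_)
    rw [pow_mul]
    exact Nat.pow_le_pow_left h2p _
  -- (7)
  obtain ⟨U', hU1, hU2, hU3, hU4⟩ := exists_common hp hG hUA hAc (Γq : Set G) (fun g _ => hcA _)
    (fun g hg' => hx2 g (inf_le_left (a := Γ) hg'))
  have h7a : {g | g ∈ (Γq : Set G) ∧ comA A {g} ≤ U'}.ncard ≤ Nat.card (Γq ⊓ rl A U' : Subgroup G) := by
    rw [← SetLike.coe_sort_coe, Nat.card_coe_set_eq]
    refine Set.ncard_le_ncard ?_ (Set.toFinite _)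
    rintro z ⟨hz1, hz2⟩
    exact ⟨hz1, comA_singleton_le.mp hz2⟩
  have h7b := tri_count hp hG hBA (v := α - t) (by
      rw [hAc, hBc, ← pow_add]; congr 1; omega) (hBU.trans hU1) (u := (e - t) + r) (by
      refine hU3.trans ?_
      rw [he, hBc, ← pow_add, ← pow_add]
      exact Nat.pow_le_pow_right hp.pos (by omega)) (S := Γq ⊓ rl A U') inf_le_right
  have h7c : Nat.card (Γq ⊓ rl A U' ⊓ rl A B : Subgroup G) ≤ Nat.card (Γq ⊓ rl A B : Subgroup G) :=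
    Subgroup.card_le_of_le (inf_le_inf_right _ inf_le_left)
  have hT := sum_min_le (v := α - t) (x := e - t) (r := r) (by omega)
  set T : ℕ := ∑ j ∈ Finset.range (α - t), min j ((e - t) + r) with hTdef
  have h7 : Nat.card Γq ≤ p ^ (α * r) * (p ^ T * Nat.card (Γq ⊓ rl A B : Subgroup G)) := by
    rw [← SetLike.coe_sort_coe Γq, Nat.card_coe_set_eq]
    exact hU4.trans (Nat.mul_le_mul_left _ (h7a.trans (h7b.trans (Nat.mul_le_mul_left _ h7c))))
  -- (8)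
  obtain ⟨E, hE1, hE2⟩ := fix_count hp hG hIB hBc hi (S := Γq ⊓ rl A B) (by
    intro g' hg' z hz
    rw [hIq, bot_sup_eq] at hz
    refine centralizes_comA hab hBA y (fun j => hXMB (hy j).1) (g := g') (fun j => ?_) hg'.2 z hz
    exact Subgroup.mem_iInf.mp (Subgroup.mem_inf.mp (Subgroup.mem_inf.mp hg').1).2 j)
  have h8 : Nat.card (Γq ⊓ rl A B ⊓ rl B ⊥ : Subgroup G) ≤ Nat.card (MB A B) := by
    refine Subgroup.card_le_of_le ?_
    intro z hz
    exact ⟨hz.2, hz.1.2⟩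
  -- (9)
  have hfin : p ^ n ≤ p ^ (ω + ((w + 1) * q + (α * r + (T + (E + (c + (w * h + ((w + 1) + (t * r +
      ((r + i) * (α - e) + α)))))))))) := by
    have s8 : 𝒮.ncard ≤ p ^ (t * r + ((r + i) * (α - e) + α)) := by
      rw [pow_add, pow_add]
      exact h5
    have s7 : Nat.card X ≤ p ^ ((w + 1) + (t * r + ((r + i) * (α - e) + α))) := by
      rw [pow_add]
      exact h3.trans (Nat.mul_le_mul h2p s8)
    have s6 : Nat.card Y ≤ p ^ (w * h + ((w + 1) + (t * r + ((r + i) * (α - e) + α)))) := by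
      rw [pow_add]
      exact hYX.trans (Nat.mul_le_mul_left _ s7)
    have s5 : Nat.card (MB A B) ≤ p ^ (c + (w * h + ((w + 1) + (t * r +
        ((r + i) * (α - e) + α))))) := by
      rw [pow_add]
      exact hMY.trans (Nat.mul_le_mul_left _ s6)
    have s4 : Nat.card (Γq ⊓ rl A B : Subgroup G) ≤ p ^ (E + (c + (w * h + ((w + 1) + (t * r +
        ((r + i) * (α - e) + α)))))) := by
      rw [pow_add]
      exact hE2.trans (Nat.mul_le_mul_left _ (h8.trans s5))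
    have s3 : Nat.card Γq ≤ p ^ (α * r + (T + (E + (c + (w * h + ((w + 1) + (t * r +
        ((r + i) * (α - e) + α)))))))) := by
      rw [pow_add, pow_add p T]
      exact h7.trans (Nat.mul_le_mul_left _ (Nat.mul_le_mul_left _ s4))
    rw [← hn, pow_add, pow_add p ((w + 1) * q)]
    exact hΓ.trans (Nat.mul_le_mul_left _ (h6.trans (Nat.mul_le_mul_left _ s3)))
  exact TwoFinal_arith hte heα hx1' hy1' hit hT hE1 ((Nat.pow_le_pow_iff_right hp1).1 hfin)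

end MP828
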