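import Pool.Agent.Lib.MP_828a6d_al.Gens

/-! MP_828a6d_al (stream Two): pointwise stabilizers for an action of a group `H` on an abelian group `W`
by automorphisms (`DistribMulAction H W`), and the count (C1). -/

namespace MP828

open scoped commutatorElement

variable (H : Type*) {W : Type*} [Group H] [AddCommGroup W] [DistribMulAction H W]

/-- The pointwise stabilizer of the set `S`. -/
def Fx (S : Set W) : Subgroup H where
  carrier := {g | ∀ w ∈ S, g • w = w}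
  one_mem' := fun w _ => one_smul H w
  mul_mem' := by
    intro g h hg hh w hw
    have h1 : h • w = w := hh w hw
    have h2 : g • w = w := hg w hw
    show (g * h) • w = w
    rw [mul_smul, h1, h2]
  inv_mem' := by
    intro g hg w hw
    have h1 : g • w = w := hg w hw
    show g⁻¹ • w = w
    rw [inv_smul_eq_iff, h1]

variable {H}

theorem mem_Fx {S : Set W} {g : H} : g ∈ Fx H S ↔ ∀ w ∈ S, g • w = w := Iff.rfl

theorem Fx_anti {S T : Set W} (h : S ⊆ T) : Fx H T ≤ Fx H S :=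
  fun _ hg w hw => hg w (h hw)

theorem Fx_union (S T : Set W) : Fx H (S ∪ T) = Fx H S ⊓ Fx H T := by
  ext g
  constructor
  · intro h
    exact ⟨fun w hw => h w (Or.inl hw), fun w hw => h w (Or.inr hw)⟩
  · rintro ⟨h1, h2⟩ w (hw | hw)
    · exact h1 w hw
    · exact h2 w hw

theorem Fx_closure (S : Set W) : Fx H (AddSubgroup.closure S : Set W) = Fx H S := by
  apply le_antisymm (Fx_anti AddSubgroup.subset_closure)
  intro g hg w hw
  have hle : AddSubgroup.closure S ≤ AddMonoidHom.eqLocus (DistribSMul.toAddMonoidHom W g)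
      (AddMonoidHom.id W) := by
    rw [AddSubgroup.closure_le]
    intro z hz
    exact hg z hz
  exact hle hw

/-- `|H| ≤ |W|^k |Fx (range a)|` for `a : Fin k → W`: the map `g ↦ (g • a l)_l` (`card_le_of_fibers` with
`S = ⊤`, `T = univ`). -/
theorem card_le_Fx_range [Finite H] [Finite W] {k : ℕ} (a : Fin k → W) :
    Nat.card H ≤ Nat.card W ^ k * Nat.card (Fx H (Set.range a)) := by
  have h := card_le_of_fibers (⊤ : Subgroup H) (Fx H (Set.range a))
    (fun g => (fun l => g • a l : Fin k → W)) Set.univ (Set.toFinite _) (fun _ _ => Set.mem_univ _)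
    (fun g _ h _ hgh => by
      rintro _ ⟨l, rfl⟩
      have h1 : g • a l = h • a l := congrFun hgh l
      rw [mul_smul, h1, inv_smul_smul])
  rw [Set.ncard_univ, Nat.card_fun, Nat.card_fin, Subgroup.card_top, top_inf_eq] at h
  exact h

/-- **(C1)** `H'` contains all commutators and `|H'| ≤ ρ |H' ∩ Fx W₁|`; `A' ⊆ W₁`, `K ≤ Fx A'`. Then
`|K| ≤ ρ |K ∩ Fx (x A')|`.
Proof. For `k ∈ K` put `z = ⁅x⁻¹, k⁆ = x⁻¹ k x k⁻¹ ∈ H'`; then `k x a = x z a` for `a ∈ A'` (as `k⁻¹ a = a`).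
Apply `card_le_of_fibers` with `S = K`, `K := Fx (x A')`, `f k = (QuotientGroup.mk ⁅x⁻¹, k⁆ : H ⧸ Fx H W₁)`,
`T` = the image of `H'` in `H ⧸ Fx H W₁`, which has at most `ρ` elements (`ncard_mk_image'` in `Gens.lean`); if
`f k = f k'` then `⁅x⁻¹, k⁆⁻¹ ⁅x⁻¹, k'⁆` fixes `a`, so `k x a = k' x a` and `k'⁻¹ k` fixes `x a`. -/
theorem c1_card [Finite H] {H' : Subgroup H} (hH' : ∀ x y : H, ⁅x, y⁆ ∈ H')
    {W₁ : Set W} {ρ : ℕ} (hρ : Nat.card H' ≤ ρ * Nat.card (H' ⊓ Fx H W₁ : Subgroup H))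
    {A' : Set W} (hA' : A' ⊆ W₁) (x : H) {K : Subgroup H} (hK : K ≤ Fx H A') :
    Nat.card K ≤ ρ * Nat.card (K ⊓ Fx H ((fun w => x • w) '' A') : Subgroup H) := by
  set T : Set (H ⧸ Fx H W₁) := (fun g : H => (QuotientGroup.mk g : H ⧸ Fx H W₁)) '' (H' : Set H) with hT
  have hTc : T.ncard ≤ ρ := by
    have h1 := ncard_mk_image' (Fx H W₁) H'
    rw [← hT] at h1
    rw [← h1] at hρ
    exact Nat.le_of_mul_le_mul_right hρ Nat.card_pos
  have h := card_le_of_fibers K (Fx H ((fun w => x • w) '' A'))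
    (fun k => (QuotientGroup.mk ⁅x⁻¹, k⁆ : H ⧸ Fx H W₁)) T (Set.toFinite _)
    (fun k _ => ⟨⁅x⁻¹, k⁆, hH' _ _, rfl⟩)
    (fun g hg h hh hgh => by
      have e : (⁅x⁻¹, g⁆)⁻¹ * ⁅x⁻¹, h⁆ ∈ Fx H W₁ := QuotientGroup.eq.1 hgh
      have key : ∀ k ∈ K, ∀ a ∈ A', ⁅x⁻¹, k⁆ • a = x⁻¹ • (k • (x • a)) := by
        intro k hk a ha
        have h2 : k⁻¹ • a = a := by
          rw [inv_smul_eq_iff]
          exact (hK hk a ha).symm
        rw [commutatorElement_def, inv_inv, mul_smul, mul_smul, mul_smul, h2]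
      rintro _ ⟨a, ha, rfl⟩
      have h3 : ((⁅x⁻¹, g⁆)⁻¹ * ⁅x⁻¹, h⁆) • a = a := e a (hA' ha)
      rw [mul_smul, inv_smul_eq_iff, key g hg a ha, key h hh a ha] at h3
      have h4 : h • (x • a) = g • (x • a) := by
        have h5 := congrArg (fun w => x • w) h3
        simpa using h5
      show (h⁻¹ * g) • (x • a) = x • a
      rw [mul_smul, ← h4, inv_smul_smul])
  exact h.trans (Nat.mul_le_mul_right _ hTc)

/-- `|Fx A'| ≤ ρ^Q |Fx A' ⊓ ⨅_j Fx (y_j A')|` for `A' ⊆ W₁` (`card_iInf` with `c1_card`, `K = S = Fx A'`). -/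
theorem c1_iInf [Finite H] {H' : Subgroup H} (hH' : ∀ x y : H, ⁅x, y⁆ ∈ H')
    {W₁ : Set W} {ρ : ℕ} (hρ : Nat.card H' ≤ ρ * Nat.card (H' ⊓ Fx H W₁ : Subgroup H))
    {A' : Set W} (hA' : A' ⊆ W₁) {Q : ℕ} (y : Fin Q → H) :
    Nat.card (Fx H A') ≤ ρ ^ Q *
      Nat.card (Fx H A' ⊓ ⨅ j, Fx H ((fun w => y j • w) '' A') : Subgroup H) :=
  card_iInf (S := Fx H A') (a := ρ) (fun j => Fx H ((fun w => y j • w) '' A'))
    (fun j => c1_card hH' hρ hA' (y j) le_rfl)

/-- **Classes.** `F ≤ K`, `|K| ≤ ρ |F|`, `𝒮 ⊆ K` nonempty: some `s ∈ 𝒮` has `|𝒮| ≤ ρ · |{k ∈ 𝒮 : s⁻¹ k ∈ F}|`.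
Proof: `K` is a union of at most `ρ` left cosets of `F`; `𝒮` meets them in classes, the largest of which has at
least `|𝒮| / ρ` elements (map `𝒮 → H ⧸ F`, whose image lies in the image of `K`, of cardinality `|K| / |F| ≤ ρ` by
`ncard_mk_image`; pigeonhole `Finset.exists_le_card_fiber_of_mul_le_card_of_maps_to` or
`Finset.card_le_mul_card_image`). -/
theorem exists_class [Finite H] {F K : Subgroup H} (hFK : F ≤ K) {ρ : ℕ}
    (hρ : Nat.card K ≤ ρ * Nat.card F) {𝒮 : Set H} (h𝒮 : 𝒮 ⊆ K) (hne : 𝒮.Nonempty) :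
    ∃ s ∈ 𝒮, 𝒮.ncard ≤ ρ * {k | k ∈ 𝒮 ∧ s⁻¹ * k ∈ F}.ncard := by
  classical
  by_contra hcon
  push Not at hcon
  set S := (Set.toFinite 𝒮).toFinset with hS
  have hmem : ∀ g, g ∈ S ↔ g ∈ 𝒮 := fun g => Set.Finite.mem_toFinset _
  have hSc : 𝒮.ncard = S.card := Set.ncard_eq_toFinset_card _ _
  set I := S.image (fun g : H => (QuotientGroup.mk g : H ⧸ F)) with hI
  have hIρ : I.card ≤ ρ := by
    have h1 := ncard_mk_image hFK
    rw [← h1] at hρ
    have h2 : ((fun g : H => (QuotientGroup.mk g : H ⧸ F)) '' (K : Set H)).ncard ≤ ρ :=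
      Nat.le_of_mul_le_mul_right hρ Nat.card_pos
    refine le_trans ?_ h2
    rw [← Set.ncard_coe_finset]
    refine Set.ncard_le_ncard ?_ (Set.toFinite _)
    rw [hI, Finset.coe_image]
    refine Set.image_mono ?_
    intro g hg
    exact h𝒮 ((hmem g).1 hg)
  have hIne : I.Nonempty := by
    obtain ⟨s, hs⟩ := hne
    exact ⟨_, Finset.mem_image_of_mem _ ((hmem s).2 hs)⟩
  have hfib : ∀ t ∈ I, ρ * (S.filter fun g => (QuotientGroup.mk g : H ⧸ F) = t).card < S.card := by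
    intro t ht
    obtain ⟨s, hs, rfl⟩ := Finset.mem_image.1 ht
    have h1 := hcon s ((hmem s).1 hs)
    rw [hSc] at h1
    have h2 : {k | k ∈ 𝒮 ∧ s⁻¹ * k ∈ F}.ncard
        = (S.filter fun g => (QuotientGroup.mk g : H ⧸ F) = QuotientGroup.mk s).card := by
      rw [← Set.ncard_coe_finset]
      congr 1
      ext g
      rw [Finset.mem_coe, Finset.mem_filter, hmem, eq_comm, QuotientGroup.eq]
      rfl
    rw [h2] at h1
    exact h1
  have h1 : S.card = ∑ t ∈ I, (S.filter fun g => (QuotientGroup.mk g : H ⧸ F) = t).card :=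
    Finset.card_eq_sum_card_fiberwise (fun g hg => Finset.mem_image_of_mem _ hg)
  have h2 : ρ * S.card < I.card * S.card := by
    calc ρ * S.card = ∑ t ∈ I, ρ * (S.filter fun g => (QuotientGroup.mk g : H ⧸ F) = t).card := by
          rw [← Finset.mul_sum, ← h1]
      _ < ∑ t ∈ I, S.card := Finset.sum_lt_sum_of_nonempty hIne hfib
      _ = I.card * S.card := by rw [Finset.sum_const, smul_eq_mul]
  exact absurd (Nat.mul_le_mul_right S.card hIρ) (not_le.2 h2)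

end MP828
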