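import Pool.Agent.Lib.MP_828a6d_al.Gens

/-! MP_828a6d_al (stream Two): the subgroups `comA A S = ⟨⁅g, a⁆ : g ∈ S, a ∈ A⟩`, greedy choice and pigeonhole. -/

namespace MP828

open scoped commutatorElement

variable {G : Type*} [Group G]

/-- The subgroup generated by the `⁅g, a⁆`, `g ∈ S`, `a ∈ A`. -/
def comA (A : Subgroup G) (S : Set G) : Subgroup G :=
  Subgroup.closure {z | ∃ g ∈ S, ∃ a ∈ A, z = ⁅g, a⁆}

theorem comA_le {A U : Subgroup G} {S : Set G} : comA A S ≤ U ↔ ∀ g ∈ S, ∀ a ∈ A, ⁅g, a⁆ ∈ U := by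
  unfold comA
  rw [Subgroup.closure_le]
  constructor
  · intro h g hg a ha
    exact h ⟨g, hg, a, ha, rfl⟩
  · rintro h z ⟨g, hg, a, ha, rfl⟩
    exact h g hg a ha

theorem comA_singleton_le {A U : Subgroup G} [A.Normal] {g : G} : comA A {g} ≤ U ↔ g ∈ rl A U := by
  rw [comA_le]
  constructor
  · intro h a ha
    exact h g rfl a ha
  · intro h g' hg' a ha
    rw [Set.mem_singleton_iff] at hg'
    rw [hg']
    exact h a ha

theorem TwoGreedy_mem {A : Subgroup G} {S : Set G} {g a : G} (hg : g ∈ S) (ha : a ∈ A) :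
    ⁅g, a⁆ ∈ comA A S :=
  Subgroup.subset_closure ⟨g, hg, a, ha, rfl⟩

theorem TwoGreedy_insert (A : Subgroup G) (g : G) (S : Set G) :
    comA A (insert g S) = comA A S ⊔ comA A {g} := by
  apply le_antisymm
  · rw [comA_le]
    intro g' hg' a ha
    rcases Set.mem_insert_iff.1 hg' with h | h
    · have h1 : ⁅g', a⁆ ∈ comA A {g} := TwoGreedy_mem (Set.mem_singleton_iff.2 h) ha
      exact Subgroup.mem_sup_right h1
    · have h1 : ⁅g', a⁆ ∈ comA A S := TwoGreedy_mem h ha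
      exact Subgroup.mem_sup_left h1
  · apply sup_le
    · rw [comA_le]
      intro g' hg' a ha
      exact TwoGreedy_mem (Set.mem_insert_of_mem g hg') ha
    · rw [comA_le]
      intro g' hg' a ha
      rw [Set.mem_singleton_iff] at hg'
      exact TwoGreedy_mem (Set.mem_insert_iff.2 (Or.inl hg')) ha

theorem TwoGreedy_card [Finite G] {p : ℕ} (hp : p.Prime) (hG : IsPGroup p G) (H : Subgroup G) :
    ∃ t, Nat.card H = p ^ t := by
  have : Fact p.Prime := ⟨hp⟩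
  exact (hG.to_subgroup H).exists_card_eq

theorem TwoGreedy_empty (A : Subgroup G) : comA A (∅ : Set G) = ⊥ := by
  rw [eq_bot_iff, comA_le]
  intro g hg
  exact absurd hg (Set.notMem_empty g)

/-- **Greedy choice.** `𝒢` a set of elements of the finite `p`-group `G`, `U₀` a subgroup. There are `x : Fin h → 𝒢` with
`p^{(r+1) h} |U₀| ≤ |U₀ ⊔ comA A (range x)|` such that adding any `g ∈ 𝒢` enlarges `U₀ ⊔ comA A (range x)` by a factor at
most `p^r`.
Proof. The `h` for which there is such an `x` (first inequality) are bounded, as `p^{(r+1) h} ≤ |G|`; `h = 0` works.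
Take the largest `h`. If some `g ∈ 𝒢` had `|U ⊔ comA A {g}| > p^r |U|`, `U = U₀ ⊔ comA A (range x)`, then
`≥ p^{r+1} |U|` (orders are powers of `p`), and `Fin.snoc x g` (or `Fin.cons g x`) contradicts maximality. -/
theorem exists_greedy [Finite G] {p : ℕ} (hp : p.Prime) (hG : IsPGroup p G) (A U₀ : Subgroup G)
    (r : ℕ) (𝒢 : Set G) :
    ∃ (h : ℕ) (x : Fin h → G), (∀ i, x i ∈ 𝒢) ∧
      p ^ ((r + 1) * h) * Nat.card U₀ ≤ Nat.card (U₀ ⊔ comA A (Set.range x) : Subgroup G) ∧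
      ∀ g ∈ 𝒢, Nat.card (U₀ ⊔ comA A (Set.range x) ⊔ comA A {g} : Subgroup G) ≤
        p ^ r * Nat.card (U₀ ⊔ comA A (Set.range x) : Subgroup G) := by
  classical
  let P : ℕ → Prop := fun h => ∃ x : Fin h → G, (∀ i, x i ∈ 𝒢) ∧
    p ^ ((r + 1) * h) * Nat.card U₀ ≤ Nat.card (U₀ ⊔ comA A (Set.range x) : Subgroup G)
  have hP0 : P 0 := by
    refine ⟨Fin.elim0, fun i => i.elim0, ?_⟩
    rw [Set.range_eq_empty, TwoGreedy_empty, sup_bot_eq, mul_zero, pow_zero, one_mul]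
  have hbd : ∀ h, P h → h ≤ Nat.card G := by
    rintro h ⟨x, -, hx⟩
    have h1 : Nat.card (U₀ ⊔ comA A (Set.range x) : Subgroup G) ≤ Nat.card G :=
      Subgroup.card_le_card_group _
    have h2 : 1 ≤ Nat.card U₀ := Nat.card_pos
    have h3 : p ^ ((r + 1) * h) ≤ p ^ ((r + 1) * h) * Nat.card U₀ := Nat.le_mul_of_pos_right _ h2
    have h4 : h ≤ (r + 1) * h := Nat.le_mul_of_pos_left _ (Nat.succ_pos r)
    have h5 : h < 2 ^ h := Nat.lt_two_pow_self
    have h6 : 2 ^ h ≤ p ^ h := Nat.pow_le_pow_left hp.two_le h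
    have h7 : p ^ h ≤ p ^ ((r + 1) * h) := Nat.pow_le_pow_right hp.pos h4
    omega
  have hspec := Nat.findGreatest_spec (P := P) (Nat.zero_le (Nat.card G)) hP0
  set h := Nat.findGreatest P (Nat.card G) with hh
  obtain ⟨x, hx, hxc⟩ := hspec
  refine ⟨h, x, hx, hxc, fun g hg => ?_⟩
  by_contra hlt
  push Not at hlt
  obtain ⟨u, hu⟩ := TwoGreedy_card hp hG (U₀ ⊔ comA A (Set.range x))
  obtain ⟨u', hu'⟩ := TwoGreedy_card hp hG (U₀ ⊔ comA A (Set.range x) ⊔ comA A {g})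
  have h1 : p ^ (r + u) < p ^ u' := by
    rw [hu, hu', ← pow_add] at hlt
    exact hlt
  have h2 : r + u < u' := (Nat.pow_lt_pow_iff_right hp.one_lt).1 h1
  have h3 : p ^ (r + 1) * Nat.card (U₀ ⊔ comA A (Set.range x) : Subgroup G) ≤
      Nat.card (U₀ ⊔ comA A (Set.range x) ⊔ comA A {g} : Subgroup G) := by
    rw [hu, hu', ← pow_add]
    exact Nat.pow_le_pow_right hp.pos (by omega)
  have hPs : P (h + 1) := by
    refine ⟨Fin.cons g x, fun i => ?_, ?_⟩
    · refine Fin.cases ?_ (fun j => ?_) i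
      · exact hg
      · exact hx j
    · have e : Set.range (Fin.cons g x : Fin (h + 1) → G) = insert g (Set.range x) := by
        rw [Fin.range_cons]
      rw [e, TwoGreedy_insert, ← sup_assoc]
      calc p ^ ((r + 1) * (h + 1)) * Nat.card U₀ =
          p ^ (r + 1) * (p ^ ((r + 1) * h) * Nat.card U₀) := by
            rw [← mul_assoc, ← pow_add]
            congr 2
            ring
        _ ≤ p ^ (r + 1) * Nat.card (U₀ ⊔ comA A (Set.range x) : Subgroup G) := Nat.mul_le_mul_left _ hxc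
        _ ≤ _ := h3
  exact Nat.findGreatest_is_greatest (P := P) (n := Nat.card G) (k := h + 1) (by omega) (hbd _ hPs) hPs

/-- **Pigeonhole.** `U₀ ≤ R`, `|R| = p^ρ`, every `g ∈ 𝒮` has `comA A {g} ≤ R` and `|U₀ ⊔ comA A {g}| ≤ p^r |U₀|`. Then some
`U'`, `U₀ ≤ U' ≤ R`, `|U'| ≤ p^r |U₀|`, has `|𝒮| ≤ p^{ρ r} |{g ∈ 𝒮 : comA A {g} ≤ U'}|`.
Proof. For `g ∈ 𝒮` `exists_gens` (`V = U₀`, `W = U₀ ⊔ comA A {g}`) gives `τ_g : Fin r → G` with values in `W ≤ R` and
`U₀ ⊔ closure (range τ_g) = W`. There are `|R|^r = p^{ρ r}` maps `Fin r → R`; a most popular value `τ` of `g ↦ τ_g` gives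
`U' = U₀ ⊔ closure (range τ)`. If `𝒮 = ∅` take `U' = U₀`. -/
theorem exists_common [Finite G] {p : ℕ} (hp : p.Prime) (hG : IsPGroup p G) {A U₀ R : Subgroup G}
    (hUR : U₀ ≤ R) {r ρ : ℕ} (hR : Nat.card R = p ^ ρ) (𝒮 : Set G)
    (h1 : ∀ g ∈ 𝒮, comA A {g} ≤ R)
    (h2 : ∀ g ∈ 𝒮, Nat.card (U₀ ⊔ comA A {g} : Subgroup G) ≤ p ^ r * Nat.card U₀) :
    ∃ U' : Subgroup G, U₀ ≤ U' ∧ U' ≤ R ∧ Nat.card U' ≤ p ^ r * Nat.card U₀ ∧
      𝒮.ncard ≤ p ^ (ρ * r) * {g | g ∈ 𝒮 ∧ comA A {g} ≤ U'}.ncard := by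
  classical
  rcases Set.eq_empty_or_nonempty 𝒮 with hS | hS
  · refine ⟨U₀, le_rfl, hUR, Nat.le_mul_of_pos_left _ (Nat.pow_pos hp.pos), ?_⟩
    rw [hS, Set.ncard_empty]
    exact Nat.zero_le _
  have hex : ∀ g, ∃ t : Fin r → R, g ∈ 𝒮 →
      U₀ ⊔ Subgroup.closure (Set.range fun i => (t i : G)) = U₀ ⊔ comA A {g} := by
    intro g
    by_cases hg : g ∈ 𝒮
    · obtain ⟨x, hx, hx2⟩ := exists_gens hp hG (le_sup_left : U₀ ≤ U₀ ⊔ comA A {g}) (h2 g hg)
      refine ⟨fun i => ⟨x i, (sup_le hUR (h1 g hg)) (hx i)⟩, fun _ => ?_⟩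
      exact hx2
    · exact ⟨fun _ => 1, fun h => absurd h hg⟩
  choose t ht using hex
  haveI : Fintype (Fin r → R) := Fintype.ofFinite _
  have hSf : 𝒮.Finite := Set.toFinite 𝒮
  obtain ⟨t₀, ht₀⟩ := Finite.exists_max fun τ : Fin r → R => (hSf.toFinset.filter fun g => t g = τ).card
  have hcardR : Fintype.card (Fin r → R) = p ^ (ρ * r) := by
    rw [← Nat.card_eq_fintype_card, Nat.card_fun, hR, Nat.card_eq_fintype_card, Fintype.card_fin, ← pow_mul]
  have hle : hSf.toFinset.card ≤ (hSf.toFinset.filter fun g => t g = t₀).card * p ^ (ρ * r) := by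
    have := Finset.card_le_mul_card_image_of_maps_to (s := hSf.toFinset) (t := (Finset.univ : Finset (Fin r → R)))
      (f := t) (fun g _ => Finset.mem_univ _) ((hSf.toFinset.filter fun g => t g = t₀).card)
      (fun τ _ => ht₀ τ)
    rw [Finset.card_univ, hcardR] at this
    exact this
  have hSc : 𝒮.ncard = hSf.toFinset.card := Set.ncard_eq_toFinset_card 𝒮 hSf
  have hpos : 0 < (hSf.toFinset.filter fun g => t g = t₀).card := by
    rcases Nat.eq_zero_or_pos (hSf.toFinset.filter fun g => t g = t₀).card with h0 | h0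
    · rw [h0, zero_mul] at hle
      obtain ⟨g, hg⟩ := hS
      have : g ∈ hSf.toFinset := hSf.mem_toFinset.2 hg
      have h3 : 0 < hSf.toFinset.card := Finset.card_pos.2 ⟨g, this⟩
      omega
    · exact h0
  obtain ⟨g₀, hg₀⟩ := Finset.card_pos.1 hpos
  rw [Finset.mem_filter, hSf.mem_toFinset] at hg₀
  refine ⟨U₀ ⊔ Subgroup.closure (Set.range fun i => (t₀ i : G)), le_sup_left, ?_, ?_, ?_⟩
  · refine sup_le hUR ?_
    rw [Subgroup.closure_le]
    rintro _ ⟨i, rfl⟩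
    exact (t₀ i).2
  · have h3 := ht g₀ hg₀.1
    rw [hg₀.2] at h3
    rw [h3]
    exact h2 g₀ hg₀.1
  · rw [hSc, mul_comm]
    refine hle.trans (Nat.mul_le_mul_right _ ?_)
    rw [← Set.ncard_coe_finset]
    refine Set.ncard_le_ncard ?_ (Set.toFinite _)
    intro g hg
    rw [Finset.mem_coe, Finset.mem_filter, hSf.mem_toFinset] at hg
    refine ⟨hg.1, ?_⟩
    have h3 := ht g hg.1
    rw [hg.2] at h3
    rw [h3]
    exact le_sup_right

end MP828
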