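import Pool.Agent.Lib.MP_828a6d_al.TwoRec
import Pool.Agent.Lib.MP_828a6d_al.TwoLayB

/-! MP_828a6d_al (stream Two): Theorem III in group form. -/

namespace MP828

open scoped commutatorElement

/-- an abelian subgroup as a commutative group -/
@[reducible] def TwoIIIcomm {G : Type} [Group G] (A : Subgroup G) (hab : ∀ x ∈ A, ∀ y ∈ A, x * y = y * x) :
    CommGroup A :=
  { (inferInstance : Group A) with mul_comm := fun x y => Subtype.ext (hab x x.2 y y.2) }

/-- conjugation as an action on the additive group -/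
@[reducible] def TwoIIIact {G : Type} [Group G] (A : Subgroup G) [hA : A.Normal]
    (hab : ∀ x ∈ A, ∀ y ∈ A, x * y = y * x) :
    @DistribMulAction G (Additive A) _ (@Additive.addCommGroup A (TwoIIIcomm A hab)).toAddGroup.toSubNegMonoid.toAddMonoid :=
  letI := TwoIIIcomm A hab
  { smul := fun g a => Additive.ofMul ⟨g * ((Additive.toMul a : A) : G) * g⁻¹, hA.conj_mem _ (Additive.toMul a).2 g⟩
    one_smul := fun a => by
      apply Additive.toMul.injective
      apply Subtype.ext
      show 1 * ((Additive.toMul a : A) : G) * 1⁻¹ = _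
      group
    mul_smul := fun g h a => by
      apply Additive.toMul.injective
      apply Subtype.ext
      show g * h * ((Additive.toMul a : A) : G) * (g * h)⁻¹ = g * (h * ((Additive.toMul a : A) : G) * h⁻¹) * g⁻¹
      group
    smul_zero := fun g => by
      apply Additive.toMul.injective
      apply Subtype.ext
      show g * 1 * g⁻¹ = 1
      group
    smul_add := fun g a b => by
      apply Additive.toMul.injective
      apply Subtype.ext
      show g * (((Additive.toMul a : A) : G) * ((Additive.toMul b : A) : G)) * g⁻¹ =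
        (g * ((Additive.toMul a : A) : G) * g⁻¹) * (g * ((Additive.toMul b : A) : G) * g⁻¹)
      group }

/-- **Theorem III, group form.** For all `s`, `D ≥ 1` there are `E`, `m₀` such that for `m ≥ m₀`: `G` a finite group,
`A` normal abelian of order `p^α`, `α ≤ m`, with layers `L` (`L i = ⊥` for `i ≥ s`), `W₁ ≤ A` a subgroup such that every
`g ∈ lay L 1` with `⁅g, ⁅g, z⁆⁆ = 1` on `W₁` has `|{⁅g, z⁆ : z ∈ W₁}| ≤ p^{m/E}`. Then
`|lay L 1| ≤ p^{m²/D} |{g ∈ lay L 1 : g centralizes W₁}|`.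
Proof. `rec_bound` with `j = s` (or any `j` with `2^j ≥ s`), `W = Additive ↥A` with `AddCommGroup` structure from
`hab`, `DistribMulAction G (Additive A)` given by conjugation `g • a = g a g⁻¹`
(e.g. from `MulAut.conjNormal`; give the instances with `letI`/`let`), `c i = lay L (2^i)`
(`lay_antitone`, `comm_lay`, `lay_centralizes`; `s ≤ 2^s`, `Nat.lt_two_pow_self`),
`W₁ := (W₁.subgroupOf A).toAddSubgroup`-like subgroup of `Additive A`. Dictionary: `g • w - w ↔ ⁅g, w⁆`,
`g • (g • w - w) = g • w - w ↔ ⁅g, ⁅g, w⁆⁆ = 1`, `Fx G W₁ = Subgroup.centralizer W₁`. -/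
theorem thmIII (s D : ℕ) (hD : 0 < D) : ∃ E m₀ : ℕ, 0 < E ∧ ∀ m : ℕ, m₀ ≤ m →
    ∀ (p α : ℕ), p.Prime → α ≤ m →
    ∀ (G : Type) [Group G] [Finite G] (A : Subgroup G) [A.Normal],
      (∀ x ∈ A, ∀ y ∈ A, x * y = y * x) → Nat.card A = p ^ α →
      ∀ (L : ℕ → Subgroup G) (hL : ∀ i, (L i).Normal), L 0 = A → (∀ i, L (i + 1) ≤ L i) →
      (∀ i, s ≤ i → L i = ⊥) →
      ∀ W₁ : Subgroup G, W₁ ≤ A →
      (∀ g ∈ lay L hL 1, (∀ z ∈ W₁, ⁅g, ⁅g, z⁆⁆ = 1) →
        ((fun z => ⁅g, z⁆) '' (W₁ : Set G)).ncard ≤ p ^ (m / E)) →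
      Nat.card (lay L hL 1) ≤ p ^ (m ^ 2 / D) *
        Nat.card (lay L hL 1 ⊓ Subgroup.centralizer (W₁ : Set G) : Subgroup G) := by
  obtain ⟨E, m₀, hE, H⟩ := rec_bound s D hD
  refine ⟨E, m₀, hE, fun m hm p α hp hα G _ _ A hA hab hAc L hL h0 hmono hbot W₁ hW₁ hquad => ?_⟩
  letI i1 : CommGroup A := TwoIIIcomm A hab
  letI i2 : DistribMulAction G (Additive A) := TwoIIIact A hab
  have hsm : ∀ (g : G) (a : Additive A), ((Additive.toMul (g • a) : A) : G) = g * ((Additive.toMul a : A) : G) * g⁻¹ :=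
    fun g a => rfl
  have hsub : ∀ (g : G) (a : Additive A), ((Additive.toMul (g • a - a) : A) : G) = ⁅g, ((Additive.toMul a : A) : G)⁆ := by
    intro g a
    have : ((Additive.toMul (g • a - a) : A) : G) =
        ((Additive.toMul (g • a) : A) : G) * ((Additive.toMul a : A) : G)⁻¹ := by
      rw [sub_eq_add_neg]
      rfl
    rw [this, hsm, commutatorElement_def]
  let W₁' : AddSubgroup (Additive A) := Subgroup.toAddSubgroup (W₁.subgroupOf A)
  have hmem : ∀ a : Additive A, a ∈ W₁' ↔ ((Additive.toMul a : A) : G) ∈ W₁ := fun a => Iff.rfl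
  have hinj : Function.Injective (fun a : Additive A => ((Additive.toMul a : A) : G)) :=
    fun a b h => Additive.toMul.injective (Subtype.ext h)
  have hFx : ∀ g : G, g ∈ Fx G (W₁' : Set (Additive A)) ↔ g ∈ Subgroup.centralizer (W₁ : Set G) := by
    intro g
    rw [mem_Fx, Subgroup.mem_centralizer_iff]
    constructor
    · intro h z hz
      have h1 := h (Additive.ofMul ⟨z, hW₁ hz⟩) hz
      have h2 := congrArg (fun a : Additive A => ((Additive.toMul a : A) : G)) h1
      simp only [hsm] at h2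
      have h3 : g * z * g⁻¹ = z := h2
      rw [mul_inv_eq_iff_eq_mul] at h3
      exact h3.symm
    · intro h w hw
      apply hinj
      simp only [hsm]
      have h1 := h _ hw
      rw [mul_inv_eq_iff_eq_mul]
      exact h1.symm
  have hc : Nat.card (Additive A) = p ^ α := hAc
  have key := H m hm p α hp hα G (Additive A) hc W₁' (fun i => lay L hL (2 ^ i)) ?_ ?_ ?_ ?_
  · simp only [pow_zero] at key
    have hle : Nat.card (lay L hL 1 ⊓ Fx G (W₁' : Set (Additive A)) : Subgroup G) ≤
        Nat.card (lay L hL 1 ⊓ Subgroup.centralizer (W₁ : Set G) : Subgroup G) := by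
      apply Subgroup.card_le_of_le
      rintro g ⟨h1, h2⟩
      exact ⟨h1, (hFx g).1 h2⟩
    exact key.trans (Nat.mul_le_mul_left _ hle)
  · intro i
    exact lay_antitone hL hmono (Nat.pow_le_pow_right (by norm_num) (Nat.le_succ i))
  · intro i x hx y hy
    have h := comm_lay hL hmono (by rw [h0]; exact hab) hx hy
    show ⁅x, y⁆ ∈ lay L hL (2 ^ (i + 1))
    rwa [pow_succ, Nat.mul_comm]
  · intro g hg
    rw [hFx, Subgroup.mem_centralizer_iff]
    intro z hz
    have h := lay_centralizes hL hbot (w := 2 ^ s) Nat.lt_two_pow_self.le hg z (by rw [h0]; exact hW₁ hz)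
    exact h.symm
  · intro g hg hq
    have hg' : g ∈ lay L hL 1 := hg
    have h1 : ∀ z ∈ W₁, ⁅g, ⁅g, z⁆⁆ = 1 := by
      intro z hz
      have h2 := hq (Additive.ofMul ⟨z, hW₁ hz⟩) hz
      have h3 := congrArg (fun a : Additive A => ((Additive.toMul a : A) : G)) h2
      simp only [hsm, hsub] at h3
      have h4 : g * ⁅g, z⁆ * g⁻¹ = ⁅g, z⁆ := h3
      rw [commutatorElement_def g ⁅g, z⁆, h4, mul_inv_cancel]
    have h2 := hquad g hg' h1
    rw [← Set.ncard_image_of_injective _ hinj]
    refine (Set.ncard_le_ncard ?_ (Set.toFinite _)).trans h2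
    rintro x ⟨w, ⟨v, hv, rfl⟩, rfl⟩
    exact ⟨((Additive.toMul v : A) : G), hv, (hsub g v).symm⟩

end MP828
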