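import Pool.Agent.Lib.MP_828a6d_al.Gens

/-! MP_828a6d_al (stream Two): a large `g`-invariant subgroup of a subgroup of small index. -/

namespace MP828

open scoped commutatorElement

variable {G : Type*} [Group G]

/-- One step: `N ≤ V ≤ Y`, `N, Y` normal, `[Y, Y] ≤ N`. Then `{y ∈ Y : ⁅g, y⁆ ∈ V}` is a subgroup `P` with
`N ≤ P` and `|Y| ≤ a |P|` if `|Y| ≤ a |V|`.
Proof. `V` is normalized by `Y` (`y v y⁻¹ = ⁅y, v⁆ v`), so `⁅g, y z⁆ = ⁅g, y⁆ · y ⁅g, z⁆ y⁻¹ ∈ V` and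
`⁅g, y⁻¹⁆ = y⁻¹ ⁅g, y⁆⁻¹ y ∈ V`. `⁅g, z⁆ ∈ N ≤ V` for `z ∈ N`. Index: `card_le_of_fibers` with `S = Y`, `K = P`,
`f y = (mk ⁅g, y⁆ : G ⧸ V)`, `T` = image of `Y` in `G ⧸ V` (`⁅g, y⁆ ∈ Y`), of cardinality `|Y|/|V| ≤ a`
(`ncard_mk_image`); if `⁅g, y⁆⁻¹ ⁅g, y'⁆ ∈ V` then `⁅g, y'⁻¹ y⁆ ∈ V` (`⁅g, y'⁻¹ y⁆ = y'⁻¹ (⁅g, y'⁆⁻¹ ⁅g, y⁆) y'`). -/
theorem exists_pre [Finite G] {Y N V : Subgroup G} [hY : Y.Normal] [hN : N.Normal] (hNV : N ≤ V)
    (hVY : V ≤ Y) (hYY : ∀ y ∈ Y, ∀ y' ∈ Y, ⁅y, y'⁆ ∈ N) (g : G) {a : ℕ}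
    (ha : Nat.card Y ≤ a * Nat.card V) :
    ∃ P : Subgroup G, (∀ y, y ∈ P ↔ y ∈ Y ∧ ⁅g, y⁆ ∈ V) ∧ N ≤ P ∧
      Nat.card Y ≤ a * Nat.card P := by
  have hconj : ∀ y ∈ Y, ∀ v ∈ V, y * v * y⁻¹ ∈ V := by
    intro y hy v hv
    have e : y * v * y⁻¹ = ⁅y, v⁆ * v := by simp only [commutatorElement_def]; group
    rw [e]
    exact V.mul_mem (hNV (hYY y hy v (hVY hv))) hv
  have hgY : ∀ y ∈ Y, ⁅g, y⁆ ∈ Y := by
    intro y hy
    rw [commutatorElement_def]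
    exact Y.mul_mem (hY.conj_mem y hy g) (Y.inv_mem hy)
  let P : Subgroup G :=
    { carrier := {y | y ∈ Y ∧ ⁅g, y⁆ ∈ V}
      one_mem' := by
        refine ⟨Y.one_mem, ?_⟩
        rw [commutatorElement_one_right]
        exact V.one_mem
      mul_mem' := by
        rintro y z ⟨hy, hy'⟩ ⟨hz, hz'⟩
        refine ⟨Y.mul_mem hy hz, ?_⟩
        have e : ⁅g, y * z⁆ = ⁅g, y⁆ * (y * ⁅g, z⁆ * y⁻¹) := by
          simp only [commutatorElement_def]; group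
        rw [e]
        exact V.mul_mem hy' (hconj y hy _ hz')
      inv_mem' := by
        rintro y ⟨hy, hy'⟩
        refine ⟨Y.inv_mem hy, ?_⟩
        have e : ⁅g, y⁻¹⁆ = y⁻¹ * ⁅g, y⁆⁻¹ * (y⁻¹)⁻¹ := by
          simp only [commutatorElement_def]; group
        rw [e]
        exact hconj _ (Y.inv_mem hy) _ (V.inv_mem hy') }
  have hP : ∀ y, y ∈ P ↔ y ∈ Y ∧ ⁅g, y⁆ ∈ V := fun y => Iff.rfl
  refine ⟨P, hP, ?_, ?_⟩
  · intro z hz
    rw [hP]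
    refine ⟨hVY (hNV hz), hNV ?_⟩
    rw [commutatorElement_def]
    exact N.mul_mem (hN.conj_mem z hz g) (N.inv_mem hz)
  · have hT : ((fun g : G => (QuotientGroup.mk g : G ⧸ V)) '' (Y : Set G)).ncard ≤ a := by
      have h1 := ncard_mk_image hVY
      rw [← h1] at ha
      exact Nat.le_of_mul_le_mul_right ha Nat.card_pos
    have h2 := card_le_of_fibers Y P (fun y => (QuotientGroup.mk ⁅g, y⁆ : G ⧸ V))
      ((fun g : G => (QuotientGroup.mk g : G ⧸ V)) '' (Y : Set G)) (Set.toFinite _)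
      (fun y hy => ⟨_, hgY y hy, rfl⟩) (fun y hy y' hy' e => by
        rw [hP]
        refine ⟨Y.mul_mem (Y.inv_mem hy') hy, ?_⟩
        have e1 : (⁅g, y⁆)⁻¹ * ⁅g, y'⁆ ∈ V := QuotientGroup.eq.1 e
        have e2 : ⁅g, y'⁻¹ * y⁆ = y'⁻¹ * ((⁅g, y⁆)⁻¹ * ⁅g, y'⁆)⁻¹ * (y'⁻¹)⁻¹ := by
          simp only [commutatorElement_def]; group
        rw [e2]
        exact hconj _ (Y.inv_mem hy') _ (V.inv_mem e1))
    have h3 : Y ⊓ P = P := inf_eq_right.2 (fun y hy => ((hP y).1 hy).1)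
    rw [h3] at h2
    exact h2.trans (Nat.mul_le_mul_right _ hT)

/-- **Invariant subgroup.** If moreover the `S`-th iterate of `y ↦ ⁅g, y⁆` maps `Y` into `N`, then `V` contains a
subgroup `V'`, `N ≤ V'`, invariant under conjugation by `g`, with `|Y| ≤ a^S |V'|`.
Proof. `V' = {y ∈ Y : ∀ j < S, ⁅g, ·⁆^[j] y ∈ V}`. By induction on `t` construct subgroups `Vt t` with
`y ∈ Vt t ↔ y ∈ Y ∧ ∀ j < t, ⁅g, ·⁆^[j] y ∈ V`, `N ≤ Vt t` and `|Y| ≤ a^t |Vt t|`: `Vt 0 = Y`, and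
`Vt (t + 1) = V ⊓ P` where `P = {y ∈ Y : ⁅g, y⁆ ∈ Vt t}` is given by `exists_pre` for `Vt t` (with `a := a^t`), so
`|Y| ≤ a · a^t |V ⊓ P|` by `card_inf_inf` (inside `Y`). If `y ∈ V' = Vt S` then `⁅g, y⁆ ∈ V'`: `⁅g,·⁆^[j] ⁅g, y⁆ =
⁅g,·⁆^[j+1] y` is in `V` if `j + 1 < S` and in `N ≤ V` if `j + 1 = S` (for `S = 0`: `Y ≤ N`, `V' = Y = V = N`).
So `g y g⁻¹ = ⁅g, y⁆ y ∈ V'`. -/
theorem exists_invariant [Finite G] {Y N V : Subgroup G} [hY : Y.Normal] [hN : N.Normal]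
    (hNV : N ≤ V) (hVY : V ≤ Y) (hYY : ∀ y ∈ Y, ∀ y' ∈ Y, ⁅y, y'⁆ ∈ N) (g : G) {S a : ℕ}
    (hnil : ∀ y ∈ Y, (fun z => ⁅g, z⁆)^[S] y ∈ N) (ha : Nat.card Y ≤ a * Nat.card V) :
    ∃ V' : Subgroup G, N ≤ V' ∧ V' ≤ V ∧ (∀ y ∈ V', g * y * g⁻¹ ∈ V') ∧
      Nat.card Y ≤ a ^ S * Nat.card V' := by
  have key : ∀ t : ℕ, ∃ W : Subgroup G,
      (∀ y, y ∈ W ↔ y ∈ Y ∧ ∀ j < t, (fun z => ⁅g, z⁆)^[j] y ∈ V) ∧ N ≤ W ∧
        Nat.card Y ≤ a ^ t * Nat.card W := by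
    intro t
    induction t with
    | zero => exact ⟨Y, fun y => by simp, hNV.trans hVY, by simp⟩
    | succ t ih =>
      obtain ⟨W, hW, hNW, hcW⟩ := ih
      obtain ⟨P, hP, hNP, hcP⟩ := exists_pre hNW (fun y hy => ((hW y).1 hy).1) hYY g hcW
      refine ⟨V ⊓ P, ?_, le_inf hNV hNP, ?_⟩
      · intro y
        rw [Subgroup.mem_inf, hP, hW]
        constructor
        · rintro ⟨h1, h2, h3, h4⟩
          refine ⟨h2, fun j hj => ?_⟩
          cases j with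
          | zero => exact h1
          | succ j =>
            rw [Function.iterate_succ_apply]
            exact h4 j (by omega)
        · rintro ⟨h1, h2⟩
          refine ⟨h2 0 (by omega), h1, ?_, fun j hj => ?_⟩
          · rw [commutatorElement_def]
            exact Y.mul_mem (hY.conj_mem y h1 g) (Y.inv_mem h1)
          · have h3 := h2 (j + 1) (by omega)
            rw [Function.iterate_succ_apply] at h3
            exact h3
      · have h1 : Y ⊓ V = V := inf_eq_right.2 hVY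
        have h2 : Y ⊓ P = P := inf_eq_right.2 (fun y hy => ((hP y).1 hy).1)
        have h3 := card_inf_inf (S := Y) (H := V) (K := P) (a := a) (b := a ^ t) (by rw [h1]; exact ha)
          (by rw [h2]; exact hcP)
        rw [h1] at h3
        rw [pow_succ, mul_comm (a ^ t) a]
        exact h3
  obtain ⟨V', hV', hNV', hc⟩ := key S
  refine ⟨V', hNV', ?_, ?_, hc⟩
  · intro y hy
    obtain ⟨h1, h2⟩ := (hV' y).1 hy
    rcases Nat.eq_zero_or_pos S with h0 | h0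
    · subst h0
      exact hNV (hnil y h1)
    · exact h2 0 h0
  · intro y hy
    obtain ⟨h1, h2⟩ := (hV' y).1 hy
    have e : g * y * g⁻¹ = ⁅g, y⁆ * y := by simp only [commutatorElement_def]; group
    rw [e]
    refine V'.mul_mem ((hV' _).2 ⟨?_, fun j hj => ?_⟩) hy
    · rw [commutatorElement_def]
      exact Y.mul_mem (hY.conj_mem y h1 g) (Y.inv_mem h1)
    · have e2 : (fun z => ⁅g, z⁆)^[j] ⁅g, y⁆ = (fun z => ⁅g, z⁆)^[j + 1] y := by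
        rw [Function.iterate_succ_apply]
      rw [e2]
      by_cases h3 : j + 1 < S
      · exact h2 _ h3
      · have h4 : j + 1 = S := by omega
        rw [h4]
        exact hNV (hnil y h1)

end MP828
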