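import Pool.Agent.Lib.MP_828a6d_al.Flag

/-! MP_828a6d_al (stream Two): layers of `A` and the groups `lay w` of elements pushing `L i` into `L (i + w)`. -/

namespace MP828

open scoped commutatorElement

variable {G : Type*} [Group G]

/-- `lay L w = {g : ∀ i, ∀ a ∈ L i, ⁅g, a⁆ ∈ L (i + w)}` for a family `L` of normal subgroups. -/
def lay (L : ℕ → Subgroup G) (hL : ∀ i, (L i).Normal) (w : ℕ) : Subgroup G :=
  ⨅ i, @rl G _ (L i) (L (i + w)) (hL i)

theorem mem_lay {L : ℕ → Subgroup G} {hL : ∀ i, (L i).Normal} {w : ℕ} {g : G} :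
    g ∈ lay L hL w ↔ ∀ i, ∀ a ∈ L i, ⁅g, a⁆ ∈ L (i + w) := by
  unfold lay
  rw [Subgroup.mem_iInf]
  rfl

/-- **Layers.** `A` normal, `|A| = p^α`, `a s ≥ α`: there are normal subgroups `A = L 0 ≥ L 1 ≥ …`, `L i = ⊥` for
`i ≥ s`, with `|L i| ≤ p^a |L (i+1)|`.
Proof: `L i` of order `p^{α - a i}` (truncated subtraction), constructed recursively by `exists_normal_between`
(`V = ⊥`, `W = L i`, `j = α - a (i+1) ≤ k = α - a i`). -/
theorem exists_layers [Finite G] {p α a s : ℕ} (hp : p.Prime) (hG : IsPGroup p G) {A : Subgroup G}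
    [hA : A.Normal] (hAc : Nat.card A = p ^ α) (has : α ≤ a * s) :
    ∃ L : ℕ → Subgroup G, (∀ i, (L i).Normal) ∧ L 0 = A ∧ (∀ i, L (i + 1) ≤ L i) ∧
      (∀ i, s ≤ i → L i = ⊥) ∧ ∀ i, ∃ j ≤ a, Nat.card (L i) = p ^ j * Nat.card (L (i + 1)) := by
  have key : ∀ (i : ℕ) (U : Subgroup G), U.Normal → Nat.card U = p ^ (α - a * i) →
      ∃ U' : Subgroup G, U'.Normal ∧ U' ≤ U ∧ Nat.card U' = p ^ (α - a * (i + 1)) := by
    intro i U hU hc
    have := hU
    have hk : Nat.card U = p ^ (α - a * i) * Nat.card (⊥ : Subgroup G) := by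
      rw [Subgroup.card_bot, mul_one, hc]
    have hj : α - a * (i + 1) ≤ α - a * i := by
      rw [Nat.mul_succ]
      omega
    obtain ⟨U', h1, -, h3, h4⟩ := exists_normal_between hp hG (V := ⊥) (W := U) bot_le hk hj
    refine ⟨U', h1, h3, ?_⟩
    rw [h4, Subgroup.card_bot, mul_one]
  choose f h1 h2 h3 using key
  let F : (i : ℕ) → {U : Subgroup G // U.Normal ∧ Nat.card U = p ^ (α - a * i)} := fun i =>
    Nat.rec (motive := fun i => {U : Subgroup G // U.Normal ∧ Nat.card U = p ^ (α - a * i)})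
      ⟨A, hA, by rw [hAc, Nat.mul_zero, Nat.sub_zero]⟩
      (fun i U => ⟨f i U.1 U.2.1 U.2.2, h1 i U.1 U.2.1 U.2.2, h3 i U.1 U.2.1 U.2.2⟩) i
  have hF : ∀ i, F (i + 1) = ⟨f i (F i).1 (F i).2.1 (F i).2.2, h1 i (F i).1 (F i).2.1 (F i).2.2,
      h3 i (F i).1 (F i).2.1 (F i).2.2⟩ := fun i => rfl
  refine ⟨fun i => (F i).1, fun i => (F i).2.1, rfl, ?_, ?_, ?_⟩
  · intro i
    show (F (i + 1)).1 ≤ (F i).1
    rw [hF]
    exact h2 i (F i).1 (F i).2.1 (F i).2.2
  · intro i hi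
    have hc : Nat.card (F i).1 = p ^ (α - a * i) := (F i).2.2
    have h0 : α - a * i = 0 := by
      have := Nat.mul_le_mul_left a hi
      omega
    have h1' : p ^ (α - a * i) = 1 := by rw [h0, pow_zero]
    exact Subgroup.card_eq_one.1 (hc.trans h1')
  · intro i
    have hc : Nat.card (F i).1 = p ^ (α - a * i) := (F i).2.2
    have hc' : Nat.card (F (i + 1)).1 = p ^ (α - a * (i + 1)) := (F (i + 1)).2.2
    refine ⟨(α - a * i) - (α - a * (i + 1)), ?_, ?_⟩
    · rw [Nat.mul_succ]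
      omega
    · show Nat.card (F i).1 = _ * Nat.card (F (i + 1)).1
      rw [hc, hc', ← pow_add]
      congr 1
      rw [Nat.mul_succ]
      omega

/-- `|G| ≤ p^{s a (a-1)/2} |lay L 1|`. Proof: `lay L 1 = ⨅ i < s, rl (L i) (L (i+1))` (for `i ≥ s`,
`rl ⊥ ⊥ = ⊤`), each factor has index at most `p^{a(a-1)/2}` by `card_le_rl` (with `j ≤ a`), and `card_iInf`
over `Fin s`. -/
theorem card_le_lay [Finite G] {p a s : ℕ} (hp : p.Prime) (hG : IsPGroup p G)
    {L : ℕ → Subgroup G} (hL : ∀ i, (L i).Normal) (hmono : ∀ i, L (i + 1) ≤ L i)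
    (hbot : ∀ i, s ≤ i → L i = ⊥)
    (hj : ∀ i, ∃ j ≤ a, Nat.card (L i) = p ^ j * Nat.card (L (i + 1))) :
    Nat.card G ≤ p ^ (s * (a * (a - 1) / 2)) * Nat.card (lay L hL 1) := by
  let K : Fin s → Subgroup G := fun i => @rl G _ (L i) (L (i + 1)) (hL i)
  have h1 : ∀ i : Fin s, Nat.card (⊤ : Subgroup G) ≤
      p ^ (a * (a - 1) / 2) * Nat.card (⊤ ⊓ K i : Subgroup G) := by
    intro i
    obtain ⟨j, hja, hjc⟩ := hj i
    have := hL i
    have := hL (i + 1)
    have h := card_le_rl hp hG (hmono i) hjc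
    rw [Subgroup.card_top, top_inf_eq]
    refine h.trans (Nat.mul_le_mul_right _ (Nat.pow_le_pow_right hp.pos ?_))
    exact Nat.div_le_div_right (Nat.mul_le_mul hja (Nat.sub_le_sub_right hja 1))
  have h2 := card_iInf K h1
  rw [Subgroup.card_top, top_inf_eq, ← pow_mul, Nat.mul_comm (a * (a - 1) / 2) s] at h2
  refine h2.trans (Nat.mul_le_mul_left _ (Subgroup.card_le_of_le ?_))
  intro g hg
  rw [mem_lay]
  intro i x hx
  rw [Subgroup.mem_iInf] at hg
  by_cases hi : i < s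
  · exact hg ⟨i, hi⟩ x hx
  · rw [hbot i (not_lt.1 hi), Subgroup.mem_bot] at hx
    rw [hx, commutatorElement_one_right]
    exact one_mem _

end MP828
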