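import Mathlib

/-! MP_828a6d_al (stream Two): the length `len p S = log_p |S|` of a subgroup of a finite abelian `p`-group,
submodularity and the total marginal gain inequality. -/

namespace MP828

variable {W : Type*} [AddCommGroup W]

/-- `log_p |S|`. -/
noncomputable def len (p : ℕ) (S : AddSubgroup W) : ℕ := Nat.log p (Nat.card S)

/-- The order of `S` divides `p ^ r`, so is a power of `p` (`Nat.dvd_prime_pow`,
`AddSubgroup.card_addSubgroup_dvd_card`), and `Nat.log_pow`. -/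
theorem card_eq_pow_len [Finite W] {p r : ℕ} (hp : p.Prime) (hW : Nat.card W = p ^ r)
    (S : AddSubgroup W) : Nat.card S = p ^ len p S := by
  have h1 : Nat.card S ∣ p ^ r := hW ▸ S.card_addSubgroup_dvd_card
  obtain ⟨t, _, ht⟩ := (Nat.dvd_prime_pow hp).1 h1
  rw [len, ht, Nat.log_pow hp.one_lt]

theorem len_le [Finite W] {p r : ℕ} (hp : p.Prime) (hW : Nat.card W = p ^ r)
    (S : AddSubgroup W) : len p S ≤ r := by
  have h1 : Nat.card S ∣ p ^ r := hW ▸ S.card_addSubgroup_dvd_card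
  rw [card_eq_pow_len hp hW S] at h1
  exact (Nat.pow_dvd_pow_iff_le_right hp.one_lt).1 h1

theorem len_mono [Finite W] {p r : ℕ} (hp : p.Prime) (hW : Nat.card W = p ^ r)
    {S T : AddSubgroup W} (h : S ≤ T) : len p S ≤ len p T :=
  Nat.log_mono_right (Nat.card_mono (Set.toFinite _) h)

theorem TwoLen_card_mul_relIndex [Finite W] {S T : AddSubgroup W} (h : S ≤ T) :
    Nat.card S * S.relIndex T = Nat.card T := by
  have h1 := AddSubgroup.relIndex_mul_relIndex ⊥ S T bot_le h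
  rw [AddSubgroup.relIndex_bot_left, AddSubgroup.relIndex_bot_left] at h1
  exact h1

/-- Modularity: `|S ⊔ T| |S ⊓ T| = |S| |T|` (second isomorphism theorem, e.g.
`AddSubgroup.card_mul_index`-type lemmas, `AddSubgroup.relIndex_sup_right`/`relIndex_inf..`, or transfer of the
corresponding statement for `Subgroup (Multiplicative W)`). -/
theorem len_sup_add_inf [Finite W] {p r : ℕ} (hp : p.Prime) (hW : Nat.card W = p ^ r)
    (S T : AddSubgroup W) : len p (S ⊔ T) + len p (S ⊓ T) = len p S + len p T := by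
  have h1 := TwoLen_card_mul_relIndex (S := T) (T := S ⊔ T) le_sup_right
  have h2 := TwoLen_card_mul_relIndex (S := S ⊓ T) (T := S) inf_le_left
  rw [AddSubgroup.inf_relIndex_left] at h2
  rw [AddSubgroup.relIndex_sup_right] at h1
  have h3 : Nat.card (S ⊔ T : AddSubgroup W) * Nat.card (S ⊓ T : AddSubgroup W)
      = Nat.card S * Nat.card T := by
    rw [← h1, ← h2]
    ring
  rw [card_eq_pow_len hp hW, card_eq_pow_len hp hW, card_eq_pow_len hp hW, card_eq_pow_len hp hW,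
    ← pow_add, ← pow_add] at h3
  exact Nat.pow_right_injective hp.two_le h3

/-- Diminishing returns: for `B ≤ T`, `len (T ⊔ S) - len T ≤ len (B ⊔ S) - len B`.
Proof: `T ⊔ S = T ⊔ (B ⊔ S)` and `T ⊓ (B ⊔ S) ≥ B`; apply `len_sup_add_inf` to `T` and `B ⊔ S`. -/
theorem len_dim [Finite W] {p r : ℕ} (hp : p.Prime) (hW : Nat.card W = p ^ r)
    {B T : AddSubgroup W} (h : B ≤ T) (S : AddSubgroup W) :
    len p (T ⊔ S) + len p B ≤ len p (B ⊔ S) + len p T := by
  have h1 := len_sup_add_inf hp hW T (B ⊔ S)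
  have h2 : T ⊔ (B ⊔ S) = T ⊔ S := by rw [← sup_assoc, sup_eq_left.2 h]
  rw [h2] at h1
  have h3 : len p B ≤ len p (T ⊓ (B ⊔ S)) := len_mono hp hW (le_inf h le_sup_left)
  omega

theorem len_lt_of_notMem [Finite W] {p r : ℕ} (hp : p.Prime) (hW : Nat.card W = p ^ r)
    {B T : AddSubgroup W} (h : B ≤ T) {x : W} (hx : x ∈ T) (hx' : x ∉ B) :
    len p B + 1 ≤ len p T := by
  have h1 : Nat.card B < Nat.card T := by
    by_contra hcon
    push Not at hcon
    have h2 : B = T := AddSubgroup.eq_of_le_of_card_ge h hcon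
    rw [h2] at hx'
    exact hx' hx
  rw [card_eq_pow_len hp hW, card_eq_pow_len hp hW] at h1
  exact (Nat.pow_lt_pow_iff_right hp.one_lt).1 h1

/-- **Total marginal gain.** `Σ_i [len (B ⊔ ⨆_j S_j) - len (B ⊔ ⨆_{j ≠ i} S_j)] ≤ len (B ⊔ ⨆ S) - len B`.
Proof. For a finset `T` of indices put `F T = len (B ⊔ ⨆ j ∈ T, S j)`. Claim
`Σ_{i ∈ T} (F univ - F (univ \ {i})) + F ∅ ≤ F T`, by `Finset.induction_on T`: for `i ∉ T`, `len_dim` with
`B ⊔ ⨆ j ∈ T, S j ≤ B ⊔ ⨆ j ≠ i, S j` and `S := S i` gives `F univ - F (univ \ {i}) ≤ F (insert i T) - F T`. -/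
theorem sum_gain_le [Finite W] {p r : ℕ} (hp : p.Prime) (hW : Nat.card W = p ^ r)
    {ι : Type*} [Fintype ι] [DecidableEq ι] (B : AddSubgroup W) (S : ι → AddSubgroup W) :
    ∑ i, (len p (B ⊔ ⨆ j, S j) - len p (B ⊔ ⨆ j, ⨆ (_ : j ≠ i), S j)) + len p B ≤
      len p (B ⊔ ⨆ j, S j) := by
  have key : ∀ T : Finset ι,
      ∑ i ∈ T, (len p (B ⊔ ⨆ j, S j) - len p (B ⊔ ⨆ j, ⨆ (_ : j ≠ i), S j)) + len p B ≤
        len p (B ⊔ ⨆ j ∈ T, S j) := by
    intro T
    induction T using Finset.induction_on with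
    | empty => simp
    | insert i T hi ih =>
      rw [Finset.sum_insert hi]
      have h1 : (B ⊔ ⨆ j ∈ T, S j) ≤ B ⊔ ⨆ j, ⨆ (_ : j ≠ i), S j := by
        refine sup_le_sup_left ?_ B
        refine iSup₂_le fun j hj => ?_
        have hji : j ≠ i := fun h => hi (h ▸ hj)
        exact le_iSup₂_of_le j hji le_rfl
      have h2 := len_dim hp hW h1 (S i)
      have h3 : (B ⊔ ⨆ j, ⨆ (_ : j ≠ i), S j) ⊔ S i = B ⊔ ⨆ j, S j := by
        rw [sup_assoc]
        congr 1
        refine le_antisymm (sup_le (iSup₂_le fun j _ => le_iSup S j) (le_iSup S i)) ?_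
        refine iSup_le fun j => ?_
        by_cases hj : j = i
        · subst hj; exact le_sup_right
        · exact le_sup_of_le_left (le_iSup₂_of_le j hj le_rfl)
      have h4 : (B ⊔ ⨆ j ∈ T, S j) ⊔ S i = B ⊔ ⨆ j ∈ insert i T, S j := by
        rw [Finset.iSup_insert, sup_assoc, sup_comm (⨆ j ∈ T, S j)]
      have h5 : len p (B ⊔ ⨆ j, ⨆ (_ : j ≠ i), S j) ≤ len p (B ⊔ ⨆ j, S j) :=
        len_mono hp hW (h3 ▸ le_sup_left)
      rw [h3, h4] at h2
      omega
  have h := key Finset.univ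
  simpa using h

end MP828
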