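import Pool.Agent.Lib.MP_828a6d_al.TwoLayB

/-! MP_828a6d_al (stream Two): `lay L 1` acts nilpotently, of class at most `3 s`, on `Y / N`. -/

namespace MP828

open scoped commutatorElement

variable {G : Type*} [Group G]

theorem TwoNil_inv {A B : Subgroup G} [hA : A.Normal] [hB : B.Normal] {y a : G}
    (hy : y ∈ MB A B) (ha : a ∈ A) : ⁅y⁻¹, a⁆ = ⁅y, a⁆⁻¹ := by
  have h1 : ⁅y, a⁆ ∈ B := hy.2 a ha
  have h2 : ⁅y⁻¹, ⁅y, a⁆⁆ = 1 := by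
    rw [commutatorElement_eq_one_iff_mul_comm]
    exact mem_rl_bot.1 ((MB A B).inv_mem hy).1 _ h1
  have e : ⁅y⁻¹, ⁅y, a⁆⁆ * ⁅y, a⁆ * ⁅y⁻¹, a⁆ = 1 := by
    simp only [commutatorElement_def]
    group
  rw [h2, one_mul] at e
  exact eq_inv_of_mul_eq_one_right e

/-- `P l y : ∀ i, ∀ a ∈ L i, ⁅y, a⁆ ∈ L (i + l - s)` (truncated subtraction). If `g ∈ lay L 1`,
`y` acts trivially on `A / B` and on `B` (`y ∈ MB A B`) and `P l y`, then `P (l+1) ⁅g, y⁆`.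
Proof. `A = L 0` abelian. For `y ∈ MB A B` write `f y a = ⁅y, a⁆ ∈ B`: `f (y y') a = f y a · f y' a`
(`⁅y y', a⁆ = ⁅y, ⁅y', a⁆⁆ ⁅y', a⁆ ⁅y, a⁆` and `y` centralizes `B`). `⁅g, y⁆ = (g y g⁻¹) y⁻¹`, both factors in `MB A B`
(normal), so `⁅⁅g, y⁆, a⁆ = ⁅g y g⁻¹, a⁆ ⁅y⁻¹, a⁆ = ⁅g y g⁻¹, a⁆ ⁅y, a⁆⁻¹` and `⁅g y g⁻¹, a⁆ = g ⁅y, g⁻¹ a g⁆ g⁻¹`.
Write `g⁻¹ a g = a' a`, `a' = ⁅g⁻¹, a⁆ ∈ L (i+1)`: `⁅y, a' a⁆ = ⁅y, a'⁆ ⁅y, a⁆` (`A` abelian), with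
`⁅y, a'⁆ ∈ L (i + 1 + l - s)`, and `g ⁅y, a⁆ g⁻¹ = ⁅g, ⁅y, a⁆⁆ ⁅y, a⁆` with `⁅g, ⁅y, a⁆⁆ ∈ L (i + l - s + 1)`. Everything
lies in the abelian group `A`, so `⁅⁅g, y⁆, a⁆ = g ⁅y, a'⁆ g⁻¹ · ⁅g, ⁅y, a⁆⁆ ∈ L (i + (l + 1) - s)` (using
`i + l - s + 1 ≥ i + (l+1) - s` and `L` decreasing). -/
theorem nil_step {A B : Subgroup G} [hA : A.Normal] [hB : B.Normal] (hBA : B ≤ A)
    {L : ℕ → Subgroup G} (hL : ∀ i, (L i).Normal) (h0 : L 0 = A) (hmono : ∀ i, L (i + 1) ≤ L i)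
    (hab : ∀ x ∈ A, ∀ y ∈ A, x * y = y * x) {s l : ℕ} {g y : G} (hg : g ∈ lay L hL 1)
    (hy : y ∈ MB A B) (hP : ∀ i, ∀ a ∈ L i, ⁅y, a⁆ ∈ L (i + l - s)) :
    ∀ i, ∀ a ∈ L i, ⁅⁅g, y⁆, a⁆ ∈ L (i + (l + 1) - s) := by
  have hanti : Antitone L := antitone_nat_of_succ_le hmono
  have hLA : ∀ i, L i ≤ A := fun i => by
    rw [← h0]
    exact hanti (Nat.zero_le i)
  intro i a ha
  have haA : a ∈ A := hLA i ha
  have hu : g * y * g⁻¹ ∈ MB A B := (MB_normal A B).conj_mem y hy g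
  have hv : y⁻¹ ∈ MB A B := (MB A B).inv_mem hy
  have e1 : ⁅⁅g, y⁆, a⁆ = ⁅g * y * g⁻¹, ⁅y⁻¹, a⁆⁆ * ⁅y⁻¹, a⁆ * ⁅g * y * g⁻¹, a⁆ := by
    simp only [commutatorElement_def]
    group
  have e2 : ⁅g * y * g⁻¹, ⁅y⁻¹, a⁆⁆ = 1 := by
    rw [commutatorElement_eq_one_iff_mul_comm]
    exact mem_rl_bot.1 hu.1 _ (hv.2 a haA)
  have ha' : ⁅g⁻¹, a⁆ ∈ L (i + 1) := mem_lay.1 ((lay L hL 1).inv_mem hg) i a ha
  have hyaA : ⁅y, a⁆ ∈ A := hBA (hy.2 a haA)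
  have e3 : ⁅g * y * g⁻¹, a⁆ = g * ⁅y, ⁅g⁻¹, a⁆⁆ * g⁻¹ * (⁅g, ⁅y, a⁆⁆ * ⁅y, a⁆) := by
    have h1 : ⁅g * y * g⁻¹, a⁆ = g * (⁅y, ⁅g⁻¹, a⁆⁆ * (⁅g⁻¹, a⁆ * ⁅y, a⁆ * ⁅g⁻¹, a⁆⁻¹)) * g⁻¹ := by
      simp only [commutatorElement_def]
      group
    have h2 : ⁅g⁻¹, a⁆ * ⁅y, a⁆ * ⁅g⁻¹, a⁆⁻¹ = ⁅y, a⁆ := by
      rw [hab _ (hLA _ ha') _ hyaA, mul_inv_cancel_right]
    rw [h1, h2]
    simp only [commutatorElement_def]
    group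
  have e4 : ⁅⁅g, y⁆, a⁆ = ⁅y, a⁆⁻¹ * (g * ⁅y, ⁅g⁻¹, a⁆⁆ * g⁻¹ * ⁅g, ⁅y, a⁆⁆) * (⁅y, a⁆⁻¹)⁻¹ := by
    rw [e1, e2, one_mul, TwoNil_inv hy haA, e3]
    group
  rw [e4]
  refine (hL _).conj_mem _ ((L _).mul_mem ((hL _).conj_mem _ ?_ g) ?_) _
  · have h := hP (i + 1) _ ha'
    have e5 : i + 1 + l - s = i + (l + 1) - s := by
      have : i + 1 + l = i + (l + 1) := by ring
      rw [this]
    rwa [e5] at h
  · have h := mem_lay.1 hg _ _ (hP i a ha)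
    exact hanti (by omega) h

/-- For `y ∈ MB A B` the `2s`-th iterate of `⁅g, ·⁆` lies in `A = C(A)`; `P 0 y` holds because `⁅y, a⁆ ∈ A = L 0` and
`i - s = 0` for `i ≤ s`, while `a = 1` for `i ≥ s`; `P (2 s)` gives `⁅·, A⁆ ≤ L (2 s - s) = ⊥`. -/
theorem nil_MB {A B : Subgroup G} [hA : A.Normal] [hB : B.Normal] (hBA : B ≤ A)
    {L : ℕ → Subgroup G} (hL : ∀ i, (L i).Normal) (h0 : L 0 = A) (hmono : ∀ i, L (i + 1) ≤ L i)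
    (hab : ∀ x ∈ A, ∀ y ∈ A, x * y = y * x) (hcent : rl A ⊥ = A) {s : ℕ}
    (hbot : ∀ i, s ≤ i → L i = ⊥) {g y : G} (hg : g ∈ lay L hL 1) (hy : y ∈ MB A B) :
    (fun z => ⁅g, z⁆)^[2 * s] y ∈ A := by
  have key : ∀ l : ℕ, (fun z => ⁅g, z⁆)^[l] y ∈ MB A B ∧
      ∀ i, ∀ a ∈ L i, ⁅(fun z => ⁅g, z⁆)^[l] y, a⁆ ∈ L (i + l - s) := by
    intro l
    induction l with
    | zero =>
      refine ⟨hy, fun i a ha => ?_⟩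
      show ⁅y, a⁆ ∈ L (i + 0 - s)
      rcases Nat.lt_or_ge i s with hi | hi
      · have e : i + 0 - s = 0 := by omega
        rw [e, h0]
        have hLA : L i ≤ A := by
          rw [← h0]
          exact antitone_nat_of_succ_le hmono (Nat.zero_le i)
        exact hBA (hy.2 a (hLA ha))
      · rw [hbot i hi, Subgroup.mem_bot] at ha
        rw [ha, commutatorElement_one_right]
        exact one_mem _
    | succ l ih =>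
      rw [Function.iterate_succ_apply']
      refine ⟨?_, nil_step hBA hL h0 hmono hab hg ih.1 ih.2⟩
      show ⁅g, (fun z => ⁅g, z⁆)^[l] y⁆ ∈ MB A B
      rw [commutatorElement_def]
      exact (MB A B).mul_mem ((MB_normal A B).conj_mem _ ih.1 g) ((MB A B).inv_mem ih.1)
  rw [← hcent, mem_rl_bot]
  intro a ha
  have h := (key (2 * s)).2 0 a (by rw [h0]; exact ha)
  rw [hbot (0 + 2 * s - s) (by omega), Subgroup.mem_bot, commutatorElement_eq_one_iff_mul_comm] at h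
  exact h

/-- For `y ∈ MB A B` and `N` normal, the `3s`-th iterate lies in `N` (indeed it is trivial: the `2s`-th iterate is in
`A = L 0`, and `⁅g, L i⁆ ≤ L (i+1)`, `L s = ⊥`). -/
theorem nil_Y {A B N : Subgroup G} [hA : A.Normal] [hB : B.Normal] (hBA : B ≤ A)
    {L : ℕ → Subgroup G} (hL : ∀ i, (L i).Normal) (h0 : L 0 = A) (hmono : ∀ i, L (i + 1) ≤ L i)
    (hab : ∀ x ∈ A, ∀ y ∈ A, x * y = y * x) (hcent : rl A ⊥ = A) {s : ℕ}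
    (hbot : ∀ i, s ≤ i → L i = ⊥) {g y : G} (hg : g ∈ lay L hL 1) (hy : y ∈ MB A B) :
    (fun z => ⁅g, z⁆)^[3 * s] y ∈ N := by
  have h1 := nil_MB hBA hL h0 hmono hab hcent hbot hg hy
  have key : ∀ l : ℕ, ∀ z ∈ L 0, (fun z => ⁅g, z⁆)^[l] z ∈ L l := by
    intro l z hz
    induction l with
    | zero => exact hz
    | succ l ih =>
      rw [Function.iterate_succ_apply']
      exact mem_lay.1 hg _ _ ih
  have e : 3 * s = s + 2 * s := by ring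
  rw [e, Function.iterate_add_apply]
  have h2 := key s _ (by rw [h0]; exact h1)
  rw [hbot s le_rfl, Subgroup.mem_bot] at h2
  rw [h2]
  exact one_mem _

end MP828
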