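import Pool.Agent.Lib.MP_828a6d_al.TwoQuad

/-! MP_828a6d_al (stream Two): step (D), combination. -/

namespace MP828

open scoped commutatorElement

variable {G : Type*} [Group G]

/-- **(D)** For a stable `V₁`, an element `g` acting quadratically on `⁅V₁, V₁⁆` has at most `p^e` commutators `⁅g, z⁆`,
`z ∈ ⁅V₁, V₁⁆`. Proof: `exists_centralized`, `hstab`, `centralizes_comm`, `card_comm_image`
(`W₁ = ⁅V₁, V₁⁆ ≤ N ≤ A`, `W' = ⁅V'', V''⁆`). -/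
theorem quad_small [Finite G] {p m k S Λ e : ℕ} (hp : p.Prime) (hp2 : p ≠ 2) (hG : IsPGroup p G)
    (hGc : Nat.card G ≤ p ^ (2 ^ k))
    (hm : ∀ H : Subgroup G, (∀ x ∈ H, ∀ y ∈ H, x * y = y * x) → Nat.card H ≤ p ^ m)
    {A Y N V₁ : Subgroup G} [hA : A.Normal] [hY : Y.Normal] [hN : N.Normal]
    (hab : ∀ x ∈ A, ∀ y ∈ A, x * y = y * x) (hNA : N ≤ A) (hNY : N ≤ Y)
    (hNV : N ≤ V₁) (hVY : V₁ ≤ Y)
    (hYN : ∀ y ∈ Y, ∀ z ∈ N, y * z = z * y) (hYY : ∀ y ∈ Y, ∀ y' ∈ Y, ⁅y, y'⁆ ∈ N)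
    (hΛ : Nat.card Y ≤ p ^ Λ * Nat.card V₁)
    (hstab : ∀ V' : Subgroup G, N ≤ V' → V' ≤ V₁ →
      Nat.card Y ≤ p ^ (S * Λ + m * (k + 1)) * Nat.card V' →
        Nat.card (⁅V₁, V₁⁆ : Subgroup G) ≤ p ^ e * Nat.card (⁅V', V'⁆ : Subgroup G))
    {g : G} (hnil : ∀ y ∈ Y, (fun z => ⁅g, z⁆)^[S] y ∈ N)
    (hg2 : ∀ z ∈ ⁅V₁, V₁⁆, ⁅g, ⁅g, z⁆⁆ = 1) :
    ((fun z => ⁅g, z⁆) '' ((⁅V₁, V₁⁆ : Subgroup G) : Set G)).ncard ≤ p ^ e := by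
  obtain ⟨V'', hN'', hV'', hcm, hcard⟩ :=
    exists_centralized hp hG hGc hm hNV hVY hYN hYY hΛ hnil hg2 (Or.inr hp2)
  have h1 := hstab V'' hN'' hV'' hcard
  have hcen := centralizes_comm hNY (hV''.trans hVY) hYN hcm
  have hWA : (⁅V₁, V₁⁆ : Subgroup G) ≤ A :=
    (Subgroup.commutator_le.2 fun y hy y' hy' => hYY y (hVY hy) y' (hVY hy')).trans hNA
  exact card_comm_image hab hWA (Subgroup.commutator_mono hV'' hV'') h1 hcen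

end MP828
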