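import Pool.Agent.Lib.MP_828a6d_al.TwoFinal
import Pool.Agent.Lib.MP_828a6d_al.TwoIII
import Pool.Agent.Lib.MP_828a6d_al.TwoNil
import Pool.Agent.Lib.MP_828a6d_al.TwoQuadB
import Pool.Agent.Lib.MP_828a6d_al.Main

/-! MP_828a6d_al (stream Two): the finite inequality. -/

namespace MP828

open scoped commutatorElement

/-- `f^[l] 0 ≤ (S + 1)^l b` for `f x = S x + b`. -/
theorem iter_affine_le (S b l : ℕ) : (fun x => S * x + b)^[l] 0 ≤ (S + 1) ^ l * b := by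
  induction l with
  | zero => simp
  | succ l ih =>
    rw [Function.iterate_succ_apply']
    have h1 : 1 ≤ (S + 1) ^ l := Nat.one_le_pow _ _ (Nat.succ_pos S)
    calc S * ((fun x => S * x + b)^[l] 0) + b ≤ S * ((S + 1) ^ l * b) + 1 * b := by
          rw [one_mul]
          exact Nat.add_le_add_right (Nat.mul_le_mul_left _ ih) _
      _ ≤ S * ((S + 1) ^ l * b) + (S + 1) ^ l * b :=
          Nat.add_le_add_left (Nat.mul_le_mul_right _ h1) _
      _ = (S + 1) ^ (l + 1) * b := by ring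

/-- For a `p`-group, `p` odd, the data with a given number `s` of layers: there is `ω`, `w` as below.
Proof. `A` from `exists_maxAb`, `|A| = p^α`, `α ≤ m`; `B` of order `p^{α/2}` (`exists_normal_between`); `N` from
`exists_commHull` (`s := (qf m)^2 + 1`); `Y = YB A B N`; layers `L` from `exists_layers` with `a = α / s + 1`,
`|G| ≤ p^{s (a (a-1)/2)} |lay L 1|` (`card_le_lay`). `k = kf m`, `b = m (k+1)`, `S = 3 s`, `f x = S x + b`, `e = m / E`,
`L := E` (`m < (m/E + 1) E`): `exists_stable` gives `l ≤ E`, `V₁`. `|⁅Y, Y⁆| ≤ |N| ≤ |A| ≤ p^m`. `quad_small` verifies the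
hypothesis of `thmIII` (for `(s, D₁)`) for `W₁ = ⁅V₁, V₁⁆` (`nil_Y` gives the nilpotency; `f^[l+1] 0 = S f^[l] 0 + b`,
`Function.iterate_succ_apply'`). Hence `Γ = lay L 1 ⊓ centralizer ⁅V₁, V₁⁆` has
`|G| ≤ p^{s (a (a-1)/2) + m²/D₁} |Γ|`. For `g ∈ Γ`, `exists_centralized` (first alternative of `hodd`, `hg2` clear) gives
`|Y| ≤ p^{S Λ + b} |V''| ≤ p^{S Λ + b} |Y ⊓ cm g N|`, `Λ = f^[l] 0 ≤ (S+1)^E b`. So `w = S (S+1)^E b + b ≤ (S+1)^{E+1} b`. -/
theorem two_data (s D₁ : ℕ) (hs : 0 < s) (hD : 0 < D₁) : ∃ E m₀ : ℕ, ∀ m : ℕ, m₀ ≤ m →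
    ∀ (p n : ℕ), p.Prime → p ≠ 2 → ∀ (G : Type) [Group G] [Finite G], Nat.card G = p ^ n →
      (∀ H : Subgroup G, (∀ x ∈ H, ∀ y ∈ H, x * y = y * x) → Nat.card H ≤ p ^ m) →
      ∃ α ≤ m, ∀ r : ℕ,
        2 * n ≤ (α - α / 2) ^ 2 + (α / 2) ^ 2 +
          2 * (s * ((α / s + 1) * (α / s) / 2) + m ^ 2 / D₁) +
          2 * (6 * ((qf m) ^ 2 + 1) * α) + 2 * α +
          2 * (α / (r + 1) + 1) * ((3 * s + 1) ^ (E + 1) * (m * (kf m + 1)) + 1) + 6 * α * r := by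
  obtain ⟨E, m₀, hE, hIII⟩ := thmIII s D₁ hD
  refine ⟨E, m₀, fun m hmm p n hp hp2 G _ _ hn hm => ?_⟩
  have hG : IsPGroup p G := IsPGroup.of_card hn
  have hp1 : 1 < p := hp.one_lt
  obtain ⟨A, hA, hab, hcent⟩ := exists_maxAb hp hG
  obtain ⟨α, hα⟩ := exists_card_eq_pow hp hG A
  have hαm : α ≤ m := by
    have := hm A hab
    rw [hα] at this
    exact (Nat.pow_le_pow_iff_right hp1).1 this
  have hGc : Nat.card G ≤ p ^ (2 ^ kf m) := by
    rw [hn]
    exact Nat.pow_le_pow_right hp1.le ((n_le_sq hp hn hm).trans (le_kf_pow m))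
  refine ⟨α, hαm, fun r => ?_⟩
  obtain ⟨B, hB, -, hBA, hBc⟩ := exists_normal_between (V := (⊥ : Subgroup G)) (W := A) hp hG
    bot_le (k := α) (j := α / 2) (by rw [hα]; simp) (Nat.div_le_self _ _)
  have hBc' : Nat.card B = p ^ (α / 2) := by rw [hBc]; simp
  have hq := one_le_qf m
  have hq4 := le_qf_pow m
  have hs2 : α + 2 ≤ ((qf m) ^ 2 + 1) ^ 2 := by
    nlinarith [Nat.pos_of_ne_zero (by omega : qf m ≠ 0)]
  obtain ⟨N, hN, hBN, hNA, hMY⟩ := exists_commHull (s := (qf m) ^ 2 + 1) hp hG hab hcent hBA hα hs2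
  have hNY : N ≤ YB A B N := hNA.trans (le_YB hab hBN hNA)
  have hYA : ∀ y ∈ YB A B N, ∀ y' ∈ YB A B N, ⁅y, y'⁆ ∈ N := YB_comm
  have hYN : ∀ y ∈ YB A B N, ∀ z ∈ N, y * z = z * y := YB_centr
  obtain ⟨L, hL, hL0, hLm, hLb, hLj⟩ := exists_layers (a := α / s + 1) (s := s) hp hG hα
    (by
      have h1 := Nat.div_add_mod α s
      have h2 := Nat.mod_lt α hs
      have h3 : (α / s + 1) * s = s * (α / s) + s := by ring
      omega)
  have hlay := card_le_lay hp hG hL hLm hLb hLj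
  rw [Nat.add_sub_cancel] at hlay
  -- the stable scale
  have hYY : ⁅YB A B N, YB A B N⁆ ≤ N := by
    rw [Subgroup.commutator_le]
    exact hYA
  have hNab : ∀ x ∈ N, ∀ y ∈ N, x * y = y * x := fun x hx y hy => hab x (hNA hx) y (hNA hy)
  have hYm : Nat.card (⁅YB A B N, YB A B N⁆ : Subgroup G) ≤ p ^ m :=
    (Subgroup.card_le_of_le hYY).trans (hm N hNab)
  have heL : m < (m / E + 1) * E := by
    have h1 := Nat.div_add_mod m E
    have h2 := Nat.mod_lt m hE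
    have h3 : (m / E + 1) * E = E * (m / E) + E := by ring
    omega
  obtain ⟨l, hl, V₁, hNV, hVY, hYV, hstab⟩ := exists_stable (Y := YB A B N) (N := N) hp hG hNY hYm
    heL (fun x => 3 * s * x + m * (kf m + 1))
  have hW : ⁅V₁, V₁⁆ ≤ N := by
    rw [Subgroup.commutator_le]
    exact fun x hx y hy => hYA x (hVY hx) y (hVY hy)
  have hWA : ⁅V₁, V₁⁆ ≤ A := hW.trans hNA
  have hnil : ∀ g ∈ lay L hL 1, ∀ y ∈ YB A B N, (fun z => ⁅g, z⁆)^[3 * s] y ∈ N := by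
    intro g hg y hy
    exact nil_Y hBA hL hL0 hLm hab hcent hLb hg (YB_le_MB hy)
  have hquad : ∀ g ∈ lay L hL 1, (∀ z ∈ ⁅V₁, V₁⁆, ⁅g, ⁅g, z⁆⁆ = 1) →
      ((fun z => ⁅g, z⁆) '' ((⁅V₁, V₁⁆ : Subgroup G) : Set G)).ncard ≤ p ^ (m / E) := by
    intro g hg hg2
    refine quad_small (k := kf m) (S := 3 * s)
      (Λ := (fun x => 3 * s * x + m * (kf m + 1))^[l] 0) hp hp2 hG hGc hm hab hNA hNY hNV hVY hYN
      hYA hYV ?_ (hnil g hg) hg2
    intro V' h1 h2 h3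
    refine hstab V' h1 h2 ?_
    rw [Function.iterate_succ_apply']
    exact h3
  have h3 := hIII m hmm p α hp hαm G A hab hα L hL hL0 hLm hLb ⁅V₁, V₁⁆ hWA hquad
  have hΓ : Nat.card G ≤ p ^ (s * ((α / s + 1) * (α / s) / 2) + m ^ 2 / D₁) *
      Nat.card (lay L hL 1 ⊓ Subgroup.centralizer ((⁅V₁, V₁⁆ : Subgroup G) : Set G) : Subgroup G) := by
    calc Nat.card G ≤ p ^ (s * ((α / s + 1) * (α / s) / 2)) * Nat.card (lay L hL 1) := hlay
      _ ≤ p ^ (s * ((α / s + 1) * (α / s) / 2)) * (p ^ (m ^ 2 / D₁) *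
          Nat.card (lay L hL 1 ⊓ Subgroup.centralizer ((⁅V₁, V₁⁆ : Subgroup G) : Set G) :
            Subgroup G)) := Nat.mul_le_mul_left _ h3
      _ = _ := by rw [pow_add]; ring
  have hb := iter_affine_le (3 * s) (m * (kf m + 1)) l
  have hw : 3 * s * ((fun x => 3 * s * x + m * (kf m + 1))^[l] 0) + m * (kf m + 1)
      ≤ (3 * s + 1) ^ (E + 1) * (m * (kf m + 1)) := by
    have h1 : 1 ≤ (3 * s + 1) ^ E := Nat.one_le_pow _ _ (Nat.succ_pos _)
    have h2 : (3 * s + 1) ^ l ≤ (3 * s + 1) ^ E := Nat.pow_le_pow_right (Nat.succ_pos _) hl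
    calc 3 * s * ((fun x => 3 * s * x + m * (kf m + 1))^[l] 0) + m * (kf m + 1)
        ≤ 3 * s * ((3 * s + 1) ^ l * (m * (kf m + 1))) + 1 * (m * (kf m + 1)) := by
          rw [one_mul]
          exact Nat.add_le_add_right (Nat.mul_le_mul_left _ hb) _
      _ ≤ 3 * s * ((3 * s + 1) ^ E * (m * (kf m + 1))) + (3 * s + 1) ^ E * (m * (kf m + 1)) :=
          Nat.add_le_add (Nat.mul_le_mul_left _ (Nat.mul_le_mul_right _ h2))
            (Nat.mul_le_mul_right _ h1)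
      _ = _ := by ring
  have hΓY : ∀ g ∈ (lay L hL 1 ⊓ Subgroup.centralizer ((⁅V₁, V₁⁆ : Subgroup G) : Set G) :
      Subgroup G), Nat.card (YB A B N) ≤ p ^ ((3 * s + 1) ^ (E + 1) * (m * (kf m + 1))) *
        Nat.card (YB A B N ⊓ cm g N : Subgroup G) := by
    intro g hg
    have hgc : ∀ z ∈ ⁅V₁, V₁⁆, ⁅g, z⁆ = 1 := by
      intro z hz
      rw [commutatorElement_eq_one_iff_mul_comm]
      exact ((Subgroup.mem_centralizer_iff.1 hg.2) z hz).symm
    obtain ⟨V'', hN2, hV2, hcm, hcard⟩ := exists_centralized (k := kf m) (S := 3 * s)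
      (Λ := (fun x => 3 * s * x + m * (kf m + 1))^[l] 0) hp hG hGc hm hNV hVY hYN hYA hYV
      (hnil g hg.1) (fun z hz => by rw [hgc z hz]; exact commutatorElement_one_right g)
      (Or.inl hgc)
    calc Nat.card (YB A B N)
        ≤ p ^ (3 * s * ((fun x => 3 * s * x + m * (kf m + 1))^[l] 0) + m * (kf m + 1)) *
          Nat.card V'' := hcard
      _ ≤ p ^ ((3 * s + 1) ^ (E + 1) * (m * (kf m + 1))) *
          Nat.card (YB A B N ⊓ cm g N : Subgroup G) :=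
        Nat.mul_le_mul (Nat.pow_le_pow_right hp1.le hw)
          (Subgroup.card_le_of_le (le_inf (hV2.trans hVY) hcm))
  exact final_count hp hG hab hcent hBN hNA r hn hα hBc' (Nat.div_le_self _ _) hMY hΓ hΓY

end MP828
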