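import Pool.Agent.Lib.MP_828a6d_al.TwoMainA

/-! MP_828a6d_al (stream Two): the arithmetic. -/

namespace MP828

open scoped commutatorElement

variable {G : Type*} [Group G]

theorem TwoMainB_arith (D m n α X Y r β K Q q T R h a1 : ℕ)
    (hα : α ≤ m) (hh : α = 2 * h ∨ α = 2 * h + 1) (ha1 : 6 * D * a1 ≤ α) (hX : 2 * X ≤ (a1 + 1) * a1)
    (hY : 12 * D * Y ≤ m ^ 2) (hr : 36 * D * r ≤ m) (hβ : β + 1 ≤ 36 * D) (hq : 1 ≤ q)
    (hF : 2 * n ≤ (α - h) ^ 2 + h ^ 2 + 2 * (6 * D * X + Y) + 2 * (6 * Q * α) + 2 * α +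
      2 * (β + 1) * (K * T + 1) + 6 * α * r) :
    4 * D * n ≤ (D + 1) * m ^ 2 +
      (7 * D + 144 * D ^ 2 * (K + 1)) * (6 * Q * m + q ^ 3 * T + 3 * m + R + 1) := by
  have hm2 : α ^ 2 ≤ m ^ 2 := Nat.pow_le_pow_left hα 2
  have F1 : 2 * ((α - h) ^ 2 + h ^ 2) ≤ α ^ 2 + 1 := by
    rcases hh with e | e
    · have e1 : α - h = h := by omega
      rw [e1, e]
      nlinarith
    · have e1 : α - h = h + 1 := by omega
      rw [e1, e]
      nlinarith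
  have F1' : 3 * (2 * D * ((α - h) ^ 2 + h ^ 2)) ≤ 3 * D * m ^ 2 + 3 * D := by
    have := Nat.mul_le_mul_left (3 * D) F1
    have h2 := Nat.mul_le_mul_left (3 * D) hm2
    nlinarith
  have F2 : 3 * (24 * D ^ 2 * X) ≤ m ^ 2 + 6 * D * m := by
    have g1 : 3 * (24 * D ^ 2 * X) ≤ 36 * D ^ 2 * ((a1 + 1) * a1) := by
      have := Nat.mul_le_mul_left (36 * D ^ 2) hX
      nlinarith
    have g2 : (6 * D * a1) * (6 * D * a1) ≤ α * α := Nat.mul_le_mul ha1 ha1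
    have g3 : 6 * D * (6 * D * a1) ≤ 6 * D * α := Nat.mul_le_mul_left _ ha1
    have g4 : 6 * D * α ≤ 6 * D * m := Nat.mul_le_mul_left _ hα
    nlinarith
  have F3 : 3 * (4 * D * Y) ≤ m ^ 2 := by linarith
  have F4 : 3 * (12 * D * α * r) ≤ m ^ 2 := by
    have g1 : (36 * D * r) * α ≤ m * m := Nat.mul_le_mul hr hα
    nlinarith
  have F5 : 3 * (24 * D * Q * α) ≤ 72 * D * Q * m := by
    have := Nat.mul_le_mul_left (72 * D * Q) hα
    nlinarith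
  have F6 : 3 * (4 * D * α) ≤ 12 * D * m := by
    have := Nat.mul_le_mul_left (12 * D) hα
    nlinarith
  have F7 : 3 * (4 * D * (β + 1) * (K * T + 1)) ≤ 432 * D ^ 2 * (K * T + 1) := by
    have := Nat.mul_le_mul_left (12 * D * (K * T + 1)) hβ
    nlinarith
  have F8 : 432 * D ^ 2 * (K * T + 1) ≤ 3 * (144 * D ^ 2 * (K + 1)) * (q ^ 3 * T + 1) := by
    have g1 : T ≤ q ^ 3 * T := Nat.le_mul_of_pos_left _ (by positivity)
    have g2 : K * T + 1 ≤ (K + 1) * (q ^ 3 * T + 1) := by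
      have g3 : K * T ≤ K * (q ^ 3 * T) := Nat.mul_le_mul_left _ g1
      nlinarith [Nat.zero_le (q ^ 3 * T), Nat.zero_le K]
    have := Nat.mul_le_mul_left (432 * D ^ 2) g2
    nlinarith
  have hmul := Nat.mul_le_mul_left (6 * D) hF
  have hE : 3 * (144 * D ^ 2 * (K + 1)) * (q ^ 3 * T + 1) + 3 * D + 18 * D * m + 72 * D * Q * m ≤
      3 * ((7 * D + 144 * D ^ 2 * (K + 1)) * (6 * Q * m + q ^ 3 * T + 3 * m + R + 1)) := by
    have e : 3 * ((7 * D + 144 * D ^ 2 * (K + 1)) * (6 * Q * m + q ^ 3 * T + 3 * m + R + 1)) =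
        3 * (144 * D ^ 2 * (K + 1)) * (q ^ 3 * T + 1) + 3 * D + 18 * D * m + 72 * D * Q * m +
        (3 * (144 * D ^ 2 * (K + 1)) * (6 * Q * m + 3 * m + R) + 54 * D * Q * m + 45 * D * m + 18 * D +
          21 * D * (q ^ 3 * T) + 21 * D * R) := by ring
    rw [e]
    exact Nat.le_add_right _ _
  have hfin : 3 * (4 * D * n) ≤ 3 * ((D + 1) * m ^ 2 +
      (7 * D + 144 * D ^ 2 * (K + 1)) * (6 * Q * m + q ^ 3 * T + 3 * m + R + 1)) := by
    have e1 : 6 * D * (2 * n) = 3 * (4 * D * n) := by ring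
    have e2 : 6 * D * ((α - h) ^ 2 + h ^ 2 + 2 * (6 * D * X + Y) + 2 * (6 * Q * α) + 2 * α +
        2 * (β + 1) * (K * T + 1) + 6 * α * r) =
        3 * (2 * D * ((α - h) ^ 2 + h ^ 2)) + 3 * (24 * D ^ 2 * X) + 3 * (4 * D * Y) +
        3 * (24 * D * Q * α) + 3 * (4 * D * α) + 3 * (4 * D * (β + 1) * (K * T + 1)) +
        3 * (12 * D * α * r) := by ring
    rw [e1, e2] at hmul
    linarith
  exact Nat.le_of_mul_le_mul_left hfin (by norm_num)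

/-- Pure arithmetic from `two_data` with `s = 6 D`, `D₁ = 12 D`, `r = m / (36 D)`:
`4 D n ≤ (D + 1) m² + C · Err m`. -/
theorem two_bound (D : ℕ) (hD : 0 < D) : ∃ C m₀ : ℕ, ∀ m : ℕ, m₀ ≤ m →
    ∀ (p n : ℕ), p.Prime → p ≠ 2 → ∀ (G : Type) [Group G] [Finite G], Nat.card G = p ^ n →
      (∀ H : Subgroup G, (∀ x ∈ H, ∀ y ∈ H, x * y = y * x) → Nat.card H ≤ p ^ m) →
      4 * D * n ≤ (D + 1) * m ^ 2 + C * Err m := by
  obtain ⟨E, m₀, h⟩ := two_data (6 * D) (12 * D) (by omega) (by omega)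
  refine ⟨7 * D + 144 * D ^ 2 * ((3 * (6 * D) + 1) ^ (E + 1) + 1), m₀, fun m hm p n hp hp2 G _ _ hc hH => ?_⟩
  obtain ⟨α, hα, hr⟩ := h m hm p n hp hp2 G hc hH
  have hF := hr (m / (36 * D))
  have h36 : 0 < 36 * D := by omega
  have hβ : α / (m / (36 * D) + 1) + 1 ≤ 36 * D := by
    have h1 : m < 36 * D * (m / (36 * D) + 1) := Nat.lt_mul_div_succ m h36
    have h2 : α / (m / (36 * D) + 1) < 36 * D := by
      rw [Nat.div_lt_iff_lt_mul (Nat.succ_pos _)]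
      exact lt_of_le_of_lt hα h1
    omega
  have hErr : Err m = 6 * ((qf m) ^ 2 + 1) * m + (qf m) ^ 3 * (m * (kf m + 1)) + 3 * m +
      (qf m * m + (qf m) ^ 2 * m + (qf m) ^ 3 * m) + 1 := by
    unfold Err
    ring
  rw [hErr]
  exact TwoMainB_arith D m n α ((α / (6 * D) + 1) * (α / (6 * D)) / 2) (m ^ 2 / (12 * D)) (m / (36 * D))
    (α / (m / (36 * D) + 1)) ((3 * (6 * D) + 1) ^ (E + 1)) ((qf m) ^ 2 + 1) (qf m) (m * (kf m + 1))
    (qf m * m + (qf m) ^ 2 * m + (qf m) ^ 3 * m) (α / 2) (α / (6 * D)) hα (by omega)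
    (Nat.mul_div_le _ _) (Nat.mul_div_le _ _) (Nat.mul_div_le _ _) (Nat.mul_div_le _ _) hβ
    (one_le_qf m) hF

end MP828
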