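import Pool.Agent.Lib.MP_828a6d_al.SkewG

/-! MP_828a6d_al (stream Two): the skew lemma for a `g`-invariant subgroup `V`. -/

namespace MP828

open scoped commutatorElement

variable {G : Type*} [Group G]

/-- Conjugation by `g` and by `g⁻¹` preserve `V`. -/
theorem TwoSkew_norm [Finite G] {V : Subgroup G} {g : G} (hgV : ∀ y ∈ V, g * y * g⁻¹ ∈ V) :
    V ⊔ Subgroup.zpowers g ≤ Subgroup.normalizer (V : Set G) := by
  refine sup_le Subgroup.le_normalizer ?_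
  rw [Subgroup.zpowers_le, Subgroup.mem_normalizer_iff]
  have hpow : ∀ n : ℕ, ∀ y ∈ V, g ^ n * y * (g ^ n)⁻¹ ∈ V := by
    intro n
    induction n with
    | zero =>
      intro y hy
      simpa using hy
    | succ n ih =>
      intro y hy
      have h1 := hgV _ (ih y hy)
      have h2 : g * (g ^ n * y * (g ^ n)⁻¹) * g⁻¹ = g ^ (n + 1) * y * (g ^ (n + 1))⁻¹ := by
        rw [pow_succ']
        group
      rwa [h2] at h1
  intro h
  refine ⟨hgV h, fun hh => ?_⟩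
  have h1 := hpow (orderOf g - 1) _ hh
  have h2 : g ^ (orderOf g - 1) = g⁻¹ := by
    rw [eq_inv_iff_mul_eq_one, ← pow_succ, Nat.sub_add_cancel (orderOf_pos g), pow_orderOf_eq_one]
  rw [h2] at h1
  have h3 : g⁻¹ * (g * h * g⁻¹) * (g⁻¹)⁻¹ = h := by group
  rwa [h3] at h1

theorem TwoSkew_comm {V : Subgroup G} {w : G} (hw : ∀ y ∈ V, w * y * w⁻¹ ∈ V) :
    ∀ z ∈ ⁅V, V⁆, w * z * w⁻¹ ∈ ⁅V, V⁆ := by
  have h1 : ⁅V, V⁆ ≤ ⁅V, V⁆.comap (MulAut.conj w).toMonoidHom := by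
    rw [Subgroup.commutator_le]
    intro a ha b hb
    rw [Subgroup.mem_comap]
    have h2 : (MulAut.conj w).toMonoidHom ⁅a, b⁆ = ⁅w * a * w⁻¹, w * b * w⁻¹⁆ := by
      show w * ⁅a, b⁆ * w⁻¹ = _
      simp only [commutatorElement_def]
      group
    rw [h2]
    exact Subgroup.commutator_mem_commutator (hw a ha) (hw b hb)
  exact fun z hz => h1 hz

/-- **Skew lemma, invariant form.** `G` a finite `p`-group with `|G| ≤ p^{2^k}`, abelian subgroups of order `≤ p^m`;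
`V` a subgroup with `g V g⁻¹ ≤ V`, `[V, V]` central in `V`, `[V, V] ≤ N` normal; `⁅g, ⁅g, z⁆⁆ = 1` on `⁅V, V⁆`, and
(`g` centralizes `⁅V, V⁆` or `p` odd). Then `|V| ≤ p^{m (k+1)} |V ⊓ cm g N|`.
Proof. Apply `skew_group` in the group `G' = ↥(V ⊔ Subgroup.zpowers g)` (a finite `p`-group of order `≤ |G|`) to
`Y := V.subgroupOf G'`, `N := ⁅V, V⁆.subgroupOf G'`, `x := g`. Both are normal in `G'`: `V` is normalized by `V` and by
`g` (finite group: `g V g⁻¹ ≤ V` gives `g V g⁻¹ = V`, so `g⁻¹ V g ≤ V`), e.g. `V ⊔ zpowers g ≤ V.normalizer`; and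
`⁅V, V⁆` is then also normalized (`Subgroup.commutator` of normal subgroups, or directly on generators, or
`Subgroup.map_commutator`). Abelian subgroups of `G'` map to abelian subgroups of `G`. The result is
`|V| ≤ p^{m (k+1)} |{y ∈ V : ⁅g, y⁆ ∈ ⁅V, V⁆}|` and `⁅V, V⁆ ≤ N`. -/
theorem skew_invariant [Finite G] {p m k : ℕ} (hp : p.Prime) (hG : IsPGroup p G)
    (hGc : Nat.card G ≤ p ^ (2 ^ k))
    (hm : ∀ H : Subgroup G, (∀ x ∈ H, ∀ y ∈ H, x * y = y * x) → Nat.card H ≤ p ^ m)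
    {V N : Subgroup G} [hN : N.Normal] {g : G} (hgV : ∀ y ∈ V, g * y * g⁻¹ ∈ V)
    (hVN : ⁅V, V⁆ ≤ N) (hVV : ∀ y ∈ V, ∀ z ∈ ⁅V, V⁆, y * z = z * y)
    (hg2 : ∀ z ∈ ⁅V, V⁆, ⁅g, ⁅g, z⁆⁆ = 1) (hodd : (∀ z ∈ ⁅V, V⁆, ⁅g, z⁆ = 1) ∨ p ≠ 2) :
    Nat.card V ≤ p ^ (m * (k + 1)) * Nat.card (V ⊓ cm g N : Subgroup G) := by
  have hnorm := TwoSkew_norm hgV
  set W : Subgroup G := V ⊔ Subgroup.zpowers g with hW
  have hVW : V ≤ W := le_sup_left
  have hgW : g ∈ W := (le_sup_right : Subgroup.zpowers g ≤ W) (Subgroup.mem_zpowers g)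
  have hCV : ⁅V, V⁆ ≤ V := by
    rw [Subgroup.commutator_le]
    intro a ha b hb
    rw [commutatorElement_def]
    exact V.mul_mem (V.mul_mem (V.mul_mem ha hb) (V.inv_mem ha)) (V.inv_mem hb)
  have hconj : ∀ w ∈ W, ∀ y ∈ V, w * y * w⁻¹ ∈ V := fun w hw y hy =>
    (Subgroup.mem_normalizer_iff.1 (hnorm hw) y).1 hy
  have iY : (V.subgroupOf W).Normal := ⟨fun n hn w => by
    rw [Subgroup.mem_subgroupOf] at hn ⊢
    exact hconj w.1 w.2 n.1 hn⟩
  have iN : (⁅V, V⁆.subgroupOf W).Normal := ⟨fun n hn w => by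
    rw [Subgroup.mem_subgroupOf] at hn ⊢
    exact TwoSkew_comm (hconj w.1 w.2) n.1 hn⟩
  have hmW : ∀ H : Subgroup W, (∀ x ∈ H, ∀ y ∈ H, x * y = y * x) → Nat.card H ≤ p ^ m := by
    intro H hH
    have h1 : Nat.card (H.map W.subtype) ≤ p ^ m := by
      refine hm _ ?_
      rintro x ⟨x', hx', rfl⟩ y ⟨y', hy', rfl⟩
      rw [← map_mul, ← map_mul, hH x' hx' y' hy']
    have h2 : Nat.card (H.map W.subtype) = Nat.card H :=
      (Nat.card_congr (H.equivMapOfInjective W.subtype W.subtype_injective).toEquiv).symm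
    rwa [h2] at h1
  have hmain := skew_group (G := W) (k := k) hp (hG.to_subgroup W)
    ((Subgroup.card_le_card_group W).trans hGc) hmW
    (Y := V.subgroupOf W) (N := ⁅V, V⁆.subgroupOf W)
    (fun z hz => by
      rw [Subgroup.mem_subgroupOf] at hz ⊢
      exact hCV hz)
    (fun y hy z hz => by
      rw [Subgroup.mem_subgroupOf] at hy hz
      exact Subtype.ext (hVV y.1 hy z.1 hz))
    (fun y hy y' hy' => by
      rw [Subgroup.mem_subgroupOf] at hy hy' ⊢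
      exact Subgroup.commutator_mem_commutator hy hy')
    (x := ⟨g, hgW⟩)
    (fun z hz => by
      rw [Subgroup.mem_subgroupOf] at hz
      exact Subtype.ext (hg2 z.1 hz))
    (hodd.imp (fun h z hz => by
      rw [Subgroup.mem_subgroupOf] at hz
      exact Subtype.ext (h z.1 hz)) id)
  have hcY : Nat.card (V.subgroupOf W) = Nat.card V :=
    Nat.card_congr (Subgroup.subgroupOfEquivOfLe hVW).toEquiv
  rw [hcY] at hmain
  refine hmain.trans (Nat.mul_le_mul_left _ ?_)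
  have hmem : ∀ y : (V.subgroupOf W ⊓ cm (⟨g, hgW⟩ : W) (⁅V, V⁆.subgroupOf W) : Subgroup W),
      ⁅g, (y.1.1 : G)⁆ ∈ ⁅V, V⁆ := by
    intro y
    have h1 : ⁅(⟨g, hgW⟩ : W), y.1⁆ ∈ ⁅V, V⁆.subgroupOf W := y.2.2
    exact Subgroup.mem_subgroupOf.1 h1
  let f : (V.subgroupOf W ⊓ cm (⟨g, hgW⟩ : W) (⁅V, V⁆.subgroupOf W) : Subgroup W) →
      (V ⊓ cm g N : Subgroup G) := fun y => ⟨y.1.1, y.2.1, hVN (hmem y)⟩
  refine Nat.card_le_card_of_injective f ?_
  intro a b hab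
  apply Subtype.ext
  apply Subtype.ext
  have h1 : (f a).1 = (f b).1 := congrArg Subtype.val hab
  exact h1

end MP828
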