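import Pool.Agent.Lib.MP_828a6d_al.Gens

/-! MP_828a6d_al (stream Two): a stable scale. -/

namespace MP828

open scoped commutatorElement

variable {G : Type*} [Group G]

theorem twoStable_card [Finite G] {p : ℕ} (hp : p.Prime) (hG : IsPGroup p G) (H : Subgroup G) :
    ∃ t, Nat.card H = p ^ t := by
  have : Fact p.Prime := ⟨hp⟩
  exact (hG.to_subgroup H).exists_card_eq

/-- **Stable scale.** `N ≤ Y`, `|⁅Y, Y⁆| ≤ p^m`, `m < (e + 1) L`, `f : ℕ → ℕ`. For some `l ≤ L` there is `V₁`, `N ≤ V₁ ≤ Y`,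
`|Y| ≤ p^{f^[l] 0} |V₁|`, such that every `V'` with `N ≤ V' ≤ V₁` and `|Y| ≤ p^{f^[l+1] 0} |V'|` has
`|⁅V₁, V₁⁆| ≤ p^e |⁅V', V'⁆|`.
Proof. Suppose not. By induction on `l ≤ L` there is `V₁`, `N ≤ V₁ ≤ Y`, `|Y| ≤ p^{f^[l] 0} |V₁|` and
`p^{(e+1) l} |⁅V₁, V₁⁆| ≤ |⁅Y, Y⁆|`: `l = 0`: `V₁ = Y`. Step: `V₁` (at `l`) violates the conclusion, so there is `V'`,
`N ≤ V' ≤ V₁`, `|Y| ≤ p^{f^[l+1] 0} |V'|`, `p^e |⁅V', V'⁆| < |⁅V₁, V₁⁆|`, hence (orders of subgroups of a `p`-group are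
powers of `p`) `p^{e+1} |⁅V', V'⁆| ≤ |⁅V₁, V₁⁆|`. At `l = L`: `p^{(e+1) L} ≤ |⁅Y, Y⁆| ≤ p^m`, contradiction. -/
theorem exists_stable [Finite G] {p m e L : ℕ} (hp : p.Prime) (hG : IsPGroup p G)
    {Y N : Subgroup G} (hNY : N ≤ Y) (hYm : Nat.card (⁅Y, Y⁆ : Subgroup G) ≤ p ^ m) (heL : m < (e + 1) * L)
    (f : ℕ → ℕ) :
    ∃ l ≤ L, ∃ V₁ : Subgroup G, N ≤ V₁ ∧ V₁ ≤ Y ∧ Nat.card Y ≤ p ^ (f^[l] 0) * Nat.card V₁ ∧
      ∀ V' : Subgroup G, N ≤ V' → V' ≤ V₁ → Nat.card Y ≤ p ^ (f^[l + 1] 0) * Nat.card V' →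
        Nat.card (⁅V₁, V₁⁆ : Subgroup G) ≤ p ^ e * Nat.card (⁅V', V'⁆ : Subgroup G) := by
  by_contra hcon
  push Not at hcon
  have hp1 : 1 < p := hp.one_lt
  have hp0 : 0 < p := hp.pos
  have key : ∀ l ≤ L, ∃ V₁ : Subgroup G, N ≤ V₁ ∧ V₁ ≤ Y ∧ Nat.card Y ≤ p ^ (f^[l] 0) * Nat.card V₁ ∧
      p ^ ((e + 1) * l) * Nat.card (⁅V₁, V₁⁆ : Subgroup G) ≤ Nat.card (⁅Y, Y⁆ : Subgroup G) := by
    intro l
    induction l with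
    | zero =>
      intro _
      refine ⟨Y, hNY, le_refl _, ?_, ?_⟩
      · simp
      · simp
    | succ l ih =>
      intro hl
      obtain ⟨V₁, h1, h2, h3, h4⟩ := ih (by omega)
      obtain ⟨V', g1, g2, g3, g4⟩ := hcon l (by omega) V₁ h1 h2 h3
      refine ⟨V', g1, g2.trans h2, g3, ?_⟩
      obtain ⟨a, ha⟩ := twoStable_card hp hG (⁅V₁, V₁⁆ : Subgroup G)
      obtain ⟨b, hb⟩ := twoStable_card hp hG (⁅V', V'⁆ : Subgroup G)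
      rw [ha, hb, ← pow_add] at g4
      have h5 : e + b < a := (Nat.pow_lt_pow_iff_right hp1).1 g4
      have h6 : p ^ (e + 1) * Nat.card (⁅V', V'⁆ : Subgroup G) ≤ Nat.card (⁅V₁, V₁⁆ : Subgroup G) := by
        rw [ha, hb, ← pow_add]
        exact Nat.pow_le_pow_right hp0 (by omega)
      calc p ^ ((e + 1) * (l + 1)) * Nat.card (⁅V', V'⁆ : Subgroup G)
          = p ^ ((e + 1) * l) * (p ^ (e + 1) * Nat.card (⁅V', V'⁆ : Subgroup G)) := by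
            rw [← mul_assoc, ← pow_add, Nat.mul_succ]
        _ ≤ p ^ ((e + 1) * l) * Nat.card (⁅V₁, V₁⁆ : Subgroup G) := Nat.mul_le_mul_left _ h6
        _ ≤ _ := h4
  obtain ⟨V₁, -, -, -, h4⟩ := key L (le_refl _)
  have h5 : 1 ≤ Nat.card (⁅V₁, V₁⁆ : Subgroup G) := Nat.card_pos
  have h6 : p ^ ((e + 1) * L) ≤ p ^ m := by
    calc p ^ ((e + 1) * L) = p ^ ((e + 1) * L) * 1 := (mul_one _).symm
      _ ≤ p ^ ((e + 1) * L) * Nat.card (⁅V₁, V₁⁆ : Subgroup G) := Nat.mul_le_mul_left _ h5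
      _ ≤ Nat.card (⁅Y, Y⁆ : Subgroup G) := h4
      _ ≤ p ^ m := hYm
  have h7 := (Nat.pow_le_pow_iff_right hp1).1 h6
  omega

end MP828
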