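import Pool.Agent.Lib.MP_828a6d_al.TwoInv
import Pool.Agent.Lib.MP_828a6d_al.TwoSkew
import Pool.Agent.Lib.MP_828a6d_al.TwoStable

/-! MP_828a6d_al (stream Two): elements acting quadratically on `⁅V₁, V₁⁆` have small commutator with it. -/

namespace MP828

open scoped commutatorElement

variable {G : Type*} [Group G]

/-- `N ≤ V₁ ≤ Y`, `g` acts quadratically on `⁅V₁, V₁⁆` (and centralizes it or `p` is odd): there is `V''` with
`N ≤ V'' ≤ V₁`, `V'' ≤ cm g N` and `|Y| ≤ p^{S Λ + m (k+1)} |V''|`, if `|Y| ≤ p^Λ |V₁|`.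
Proof. `exists_invariant` gives `V`, `N ≤ V ≤ V₁`, `g`-invariant, `|Y| ≤ (p^Λ)^S |V|`; `⁅V, V⁆ ≤ ⁅V₁, V₁⁆ ≤ N` (it is
generated by commutators of elements of `Y`), central in `V ≤ Y`; `skew_invariant` gives
`|V| ≤ p^{m (k+1)} |V ⊓ cm g N|`. Take `V'' = V ⊓ cm g N` (`N ≤ cm g N` because `N` is normal). -/
theorem exists_centralized [Finite G] {p m k S Λ : ℕ} (hp : p.Prime) (hG : IsPGroup p G)
    (hGc : Nat.card G ≤ p ^ (2 ^ k))
    (hm : ∀ H : Subgroup G, (∀ x ∈ H, ∀ y ∈ H, x * y = y * x) → Nat.card H ≤ p ^ m)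
    {Y N V₁ : Subgroup G} [hY : Y.Normal] [hN : N.Normal] (hNV : N ≤ V₁) (hVY : V₁ ≤ Y)
    (hYN : ∀ y ∈ Y, ∀ z ∈ N, y * z = z * y) (hYY : ∀ y ∈ Y, ∀ y' ∈ Y, ⁅y, y'⁆ ∈ N)
    (hΛ : Nat.card Y ≤ p ^ Λ * Nat.card V₁) {g : G}
    (hnil : ∀ y ∈ Y, (fun z => ⁅g, z⁆)^[S] y ∈ N)
    (hg2 : ∀ z ∈ ⁅V₁, V₁⁆, ⁅g, ⁅g, z⁆⁆ = 1) (hodd : (∀ z ∈ ⁅V₁, V₁⁆, ⁅g, z⁆ = 1) ∨ p ≠ 2) :
    ∃ V'' : Subgroup G, N ≤ V'' ∧ V'' ≤ V₁ ∧ V'' ≤ cm g N ∧
      Nat.card Y ≤ p ^ (S * Λ + m * (k + 1)) * Nat.card V'' := by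
  obtain ⟨V, hNV', hVV₁, hinv, hcard⟩ := exists_invariant hNV hVY hYY g hnil hΛ
  have hVN : ⁅V, V⁆ ≤ N := Subgroup.commutator_le.2 fun y hy y' hy' =>
    hYY y (hVY (hVV₁ hy)) y' (hVY (hVV₁ hy'))
  have hmono : ⁅V, V⁆ ≤ ⁅V₁, V₁⁆ := Subgroup.commutator_mono hVV₁ hVV₁
  have h1 := skew_invariant hp hG hGc hm hinv hVN
    (fun y hy z hz => hYN y (hVY (hVV₁ hy)) z (hVN hz)) (fun z hz => hg2 z (hmono hz))
    (hodd.imp (fun h z hz => h z (hmono hz)) id)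
  refine ⟨V ⊓ cm g N, le_inf hNV' ?_, inf_le_left.trans hVV₁, inf_le_right, ?_⟩
  · intro z hz
    rw [mem_cm, commutatorElement_def]
    exact N.mul_mem (hN.conj_mem z hz g) (N.inv_mem hz)
  · calc Nat.card Y ≤ (p ^ Λ) ^ S * Nat.card V := hcard
      _ ≤ (p ^ Λ) ^ S * (p ^ (m * (k + 1)) * Nat.card (V ⊓ cm g N : Subgroup G)) := Nat.mul_le_mul_left _ h1
      _ = p ^ (S * Λ + m * (k + 1)) * Nat.card (V ⊓ cm g N : Subgroup G) := by
        rw [← mul_assoc, ← pow_mul, ← pow_add, mul_comm Λ S]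

/-- `N` central in `Y`, `V'' ≤ Y` and `⁅g, y⁆ ∈ N` for `y ∈ V''`: `g` centralizes `⁅V'', V''⁆`.
Proof: `g y g⁻¹ = ⁅g, y⁆ y`, so `g ⁅y, y'⁆ g⁻¹ = ⁅n y, n' y'⁆ = ⁅y, y'⁆` with `n, n' ∈ N` commuting with everything in `Y`;
extend from generators to `⁅V'', V''⁆` (`Subgroup.commutator_le`/closure into the centralizer of `g`). -/
theorem centralizes_comm {Y N V'' : Subgroup G} [hN : N.Normal] (hNY : N ≤ Y) (hVY : V'' ≤ Y)
    (hYN : ∀ y ∈ Y, ∀ z ∈ N, y * z = z * y) {g : G} (hg : V'' ≤ cm g N) :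
    ∀ z ∈ ⁅V'', V''⁆, g * z = z * g := by
  have key : ⁅V'', V''⁆ ≤ Subgroup.centralizer {g} := by
    rw [Subgroup.commutator_le]
    intro y hy y' hy'
    rw [Subgroup.mem_centralizer_singleton_iff]
    have hn : ⁅g, y⁆ ∈ N := hg hy
    have hn' : ⁅g, y'⁆ ∈ N := hg hy'
    have e1 : g * y * g⁻¹ = ⁅g, y⁆ * y := by simp only [commutatorElement_def]; group
    have e2 : g * y' * g⁻¹ = ⁅g, y'⁆ * y' := by simp only [commutatorElement_def]; group
    generalize ⁅g, y⁆ = n at hn e1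
    generalize ⁅g, y'⁆ = n' at hn' e2
    have c1 : y * n' = n' * y := hYN y (hVY hy) n' hn'
    have c2 : y' * n = n * y' := hYN y' (hVY hy') n hn
    have c3 : n' * n = n * n' := hYN n' (hNY hn') n hn
    have hc : ⁅y, y'⁆ ∈ Y := by
      rw [commutatorElement_def]
      exact Y.mul_mem (Y.mul_mem (Y.mul_mem (hVY hy) (hVY hy')) (Y.inv_mem (hVY hy))) (Y.inv_mem (hVY hy'))
    have c4 : ⁅y, y'⁆ * (n * n') = (n * n') * ⁅y, y'⁆ := hYN _ hc _ (N.mul_mem hn hn')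
    have e3 : g * ⁅y, y'⁆ * g⁻¹ = ⁅n * y, n' * y'⁆ := by
      rw [← e1, ← e2]
      simp only [commutatorElement_def]
      group
    have d1 : n * y * (n' * y') = n * n' * (y * y') := by
      rw [mul_assoc n y, ← mul_assoc y n', c1]
      simp only [mul_assoc]
    have d2 : n' * y' * (n * y) = n * n' * (y' * y) := by
      rw [mul_assoc n' y', ← mul_assoc y' n, c2, ← c3]
      simp only [mul_assoc]
    have e4 : ⁅n * y, n' * y'⁆ = ⁅y, y'⁆ := by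
      have d3 : ⁅n * y, n' * y'⁆ = (n * y * (n' * y')) * (n' * y' * (n * y))⁻¹ := by
        simp only [commutatorElement_def]
        group
      rw [d3, d1, d2]
      have d4 : n * n' * (y * y') * (n * n' * (y' * y))⁻¹ = n * n' * ⁅y, y'⁆ * (n * n')⁻¹ := by
        simp only [commutatorElement_def]
        group
      rw [d4, ← c4]
      group
    rw [e4] at e3
    calc ⁅y, y'⁆ * g = (g * ⁅y, y'⁆ * g⁻¹) * g := by rw [e3]
      _ = g * ⁅y, y'⁆ := by group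
  intro z hz
  exact (Subgroup.mem_centralizer_singleton_iff.1 (key hz)).symm

/-- `W' ≤ W₁ ≤ A`, `A` abelian normal, `g` centralizes `W'` and `|W₁| ≤ q |W'|`: then `|{⁅g, z⁆ : z ∈ W₁}| ≤ q`.
Proof: on `A` the map `z ↦ ⁅g, z⁆` is a homomorphism (`⁅g, z z'⁆ = ⁅g, z⁆ z ⁅g, z'⁆ z⁻¹`), so the fibres of its restriction
to `W₁` are cosets of its kernel, which contains `W'`; the image has `|W₁| / |ker| ≤ |W₁| / |W'| ≤ q` elements. -/
theorem card_comm_image [Finite G] {A W₁ W' : Subgroup G} [hA : A.Normal]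
    (hab : ∀ x ∈ A, ∀ y ∈ A, x * y = y * x) (hWA : W₁ ≤ A) (hW : W' ≤ W₁) {q : ℕ}
    (hq : Nat.card W₁ ≤ q * Nat.card W') {g : G} (hg : ∀ z ∈ W', g * z = z * g) :
    ((fun z => ⁅g, z⁆) '' (W₁ : Set G)).ncard ≤ q := by
  have hA1 : ∀ z ∈ W₁, ⁅g, z⁆ ∈ A := by
    intro z hz
    rw [commutatorElement_def]
    exact A.mul_mem (hA.conj_mem z (hWA hz) g) (A.inv_mem (hWA hz))
  let φ : W₁ →* G :=
    { toFun := fun z => ⁅g, (z : G)⁆
      map_one' := by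
        show ⁅g, ((1 : W₁) : G)⁆ = 1
        rw [Subgroup.coe_one, commutatorElement_one_right]
      map_mul' := by
        intro z z'
        show ⁅g, ((z * z' : W₁) : G)⁆ = ⁅g, (z : G)⁆ * ⁅g, (z' : G)⁆
        have e : ⁅g, (z : G) * z'⁆ = ⁅g, (z : G)⁆ * (z * ⁅g, (z' : G)⁆ * (z : G)⁻¹) := by
          simp only [commutatorElement_def]; group
        rw [Subgroup.coe_mul, e, hab z (hWA z.2) _ (hA1 z' z'.2)]
        group }
  have hrange : (fun z => ⁅g, z⁆) '' (W₁ : Set G) = (φ.range : Set G) := by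
    ext x
    constructor
    · rintro ⟨z, hz, rfl⟩
      exact ⟨⟨z, hz⟩, rfl⟩
    · rintro ⟨z, rfl⟩
      exact ⟨z, z.2, rfl⟩
  have hcard : Nat.card φ.ker * Nat.card φ.range = Nat.card W₁ := by
    rw [← Subgroup.index_ker, Subgroup.card_mul_index]
  have hker : Nat.card W' ≤ Nat.card φ.ker := by
    have h1 : W'.subgroupOf W₁ ≤ φ.ker := by
      intro z hz
      rw [Subgroup.mem_subgroupOf] at hz
      rw [MonoidHom.mem_ker]
      show ⁅g, (z : G)⁆ = 1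
      exact commutatorElement_eq_one_iff_mul_comm.2 (hg z hz)
    have h2 : Nat.card (W'.subgroupOf W₁) = Nat.card W' :=
      Nat.card_congr (Subgroup.subgroupOfEquivOfLe hW).toEquiv
    rw [← h2]
    exact Nat.card_le_card_of_injective _ (Subgroup.inclusion_injective h1)
  rw [hrange]
  show Nat.card φ.range ≤ q
  have h3 : Nat.card W' * Nat.card φ.range ≤ Nat.card W' * q := by
    calc Nat.card W' * Nat.card φ.range ≤ Nat.card φ.ker * Nat.card φ.range := Nat.mul_le_mul_right _ hker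
      _ = Nat.card W₁ := hcard
      _ ≤ q * Nat.card W' := hq
      _ = Nat.card W' * q := mul_comm _ _
  exact Nat.le_of_mul_le_mul_left h3 Nat.card_pos

end MP828
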