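import Pool.Agent.Lib.MP_828a6d_al.TwoCoreB

/-! MP_828a6d_al (stream Two): the recursion along a chain of subgroups with `[c i, c i] ≤ c (i+1)`. -/

namespace MP828

open scoped commutatorElement

/-- the arithmetic of the exponents -/
theorem TwoRec_arith {D E' m k e q : ℕ} (hD : 0 < D) (hE' : 0 < E') (hk : k = m / (8 * D))
    (he : e = m / (E' * (16 * D))) (hq : q = m ^ 2 / (4096 * D ^ 2)) (hm : 8 * D * (512 * D + 2) ≤ m) :
    k * m + (512 * D - 1) * m + 2 * m + 2 * e * m + 1 + q * (512 * D) ≤ m ^ 2 / D := by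
  rw [Nat.le_div_iff_mul_le hD]
  have a1 : k * (8 * D) ≤ m := by rw [hk]; exact Nat.div_mul_le_self _ _
  have a2 : e * (16 * D) ≤ m := by
    have h1 : e * (E' * (16 * D)) ≤ m := by rw [he]; exact Nat.div_mul_le_self _ _
    have h2 : e * (16 * D) ≤ e * (E' * (16 * D)) :=
      Nat.mul_le_mul_left _ (Nat.le_mul_of_pos_left _ hE')
    exact h2.trans h1
  have a3 : q * (4096 * D ^ 2) ≤ m ^ 2 := by rw [hq]; exact Nat.div_mul_le_self _ _
  have hm1 : 1 ≤ m := by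
    have : 0 < 8 * D * (512 * D + 2) := by positivity
    omega
  have a4 : 8 * D * ((512 * D + 1) * m + 1) ≤ m ^ 2 := by
    have h1 : (512 * D + 1) * m + 1 ≤ (512 * D + 2) * m := by
      have e1 : (512 * D + 2) * m = (512 * D + 1) * m + m := by ring
      omega
    calc 8 * D * ((512 * D + 1) * m + 1) ≤ 8 * D * ((512 * D + 2) * m) := Nat.mul_le_mul_left _ h1
      _ = 8 * D * (512 * D + 2) * m := by ring
      _ ≤ m * m := Nat.mul_le_mul_right _ hm
      _ = m ^ 2 := by ring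
  have b1 : k * (8 * D) * m ≤ m * m := Nat.mul_le_mul_right _ a1
  have b2 : e * (16 * D) * m ≤ m * m := Nat.mul_le_mul_right _ a2
  obtain ⟨d, hd⟩ : ∃ d, 512 * D = d + 1 := ⟨512 * D - 1, by omega⟩
  have e1 : 512 * D - 1 = d := by omega
  rw [e1]
  rw [hd] at a4 ⊢
  have key : 8 * ((k * m + d * m + 2 * m + 2 * e * m + 1 + q * (d + 1)) * D) ≤ 4 * m ^ 2 := by
    have e2 : 8 * ((k * m + d * m + 2 * m + 2 * e * m + 1 + q * (d + 1)) * D) =
        k * (8 * D) * m + 8 * D * ((d + 1 + 1) * m + 1) + e * (16 * D) * m + q * (8 * D * (d + 1)) := by ring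
    have e3 : q * (8 * D * (d + 1)) = q * (4096 * D ^ 2) := by rw [← hd]; ring
    rw [e2, e3]
    have e4 : m * m = m ^ 2 := by ring
    omega
  omega

/-- **Theorem III.** For every depth `j` and every `D ≥ 1` there are `E`, `m₀` such that for `m ≥ m₀`: if `G` acts on `W`,
`|W| = p^r`, `r ≤ m`, `c` is a decreasing chain of subgroups with `[c i, c i] ≤ c (i+1)` and `c j` fixes `W₁`, and every
`g ∈ c 0` acting quadratically on `W₁` has `|(g - 1) W₁| ≤ p^{m/E}`, then `|c 0| ≤ p^{m²/D} |c 0 ∩ Fx W₁|`.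
Proof. Induction on `j` (for all `D` and all chains). `j = 0`: `c 0 ≤ Fx W₁`, take `E = 1`, `m₀ = 0`.
Step `j + 1`: let `D' = 4096 D²`, `(E', m₀')` from the induction hypothesis for `(j, D')`. Take `E = E' * (16 D)`
(so `m / E ≤ m / E'` and `m / E ≤ m / (16 D)`), and `m₀ = max m₀' (…)` large enough in terms of `D`. The induction hypothesis for
the chain `i ↦ c (i + 1)` gives `|c 1| ≤ ρ |c 1 ∩ Fx W₁|` with `ρ = p^{m²/D'}`. `core_sub` with `K = c 0`, `K' = c 1`,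
`k = m / (8 D)`, `Q + 1 = d + 1 = 512 D`, `e = m / E` (`64 m ≤ (k+1) · 512 D` because `m < (k+1) · 8 D`):
exponent `k m + d m + 2 m + 2 e m + 1 + (Q+1) m²/D' ≤ m²/(8D) + (512 D + 1) m + 1 + m²/(8D) + m²/(8D) ≤ m²/(2D) + …`,
precisely: `8 D · k m ≤ m²`, `16 D · e ≤ m`, `4096 D² (m²/D') ≤ m²`, so
`8D (k m) + 8D (2 e m) + 8D (512 D (m²/D')) ≤ m² + m² + m² = 3 m²`, and `8D ((512 D + 1) m + 1) ≤ m²` for `m ≥ m₀`;
total `8 D · exponent ≤ 4 m² ≤ 8 m²`, i.e. exponent `≤ m²/D` (`Nat.le_div_iff_mul_le`). -/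
theorem rec_bound (j : ℕ) : ∀ D : ℕ, 0 < D → ∃ E m₀ : ℕ, 0 < E ∧ ∀ m : ℕ, m₀ ≤ m →
    ∀ (p r : ℕ), p.Prime → r ≤ m →
    ∀ (G W : Type) [Group G] [AddCommGroup W] [DistribMulAction G W] [Finite G] [Finite W],
      Nat.card W = p ^ r → ∀ (W₁ : AddSubgroup W) (c : ℕ → Subgroup G),
      (∀ i, c (i + 1) ≤ c i) → (∀ i, ∀ x ∈ c i, ∀ y ∈ c i, ⁅x, y⁆ ∈ c (i + 1)) →
      c j ≤ Fx G (W₁ : Set W) →
      (∀ g ∈ c 0, (∀ w ∈ W₁, g • (g • w - w) = g • w - w) →
        ((fun w : W => g • w - w) '' (W₁ : Set W)).ncard ≤ p ^ (m / E)) →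
      Nat.card (c 0) ≤ p ^ (m ^ 2 / D) * Nat.card (c 0 ⊓ Fx G (W₁ : Set W) : Subgroup G) := by
  induction j with
  | zero =>
    intro D _
    refine ⟨1, 0, one_pos, ?_⟩
    intro m _ p r hp _ G W _ _ _ _ _ _ W₁ c _ _ hc _
    rw [inf_eq_left.2 hc]
    exact Nat.le_mul_of_pos_left _ (pow_pos hp.pos _)
  | succ j ih =>
    intro D hD
    obtain ⟨E', m₀', hE', hih⟩ := ih (4096 * D ^ 2) (by positivity)
    refine ⟨E' * (16 * D), max m₀' (8 * D * (512 * D + 2)), by positivity, ?_⟩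
    intro m hm p r hp hr G W _ _ _ _ _ hW W₁ c hdec hcomm hc hquad
    have hm1 : m₀' ≤ m := (le_max_left _ _).trans hm
    have hm2 : 8 * D * (512 * D + 2) ≤ m := (le_max_right _ _).trans hm
    have h1 := hih m hm1 p r hp hr G W hW W₁ (fun i => c (i + 1)) (fun i => hdec (i + 1))
      (fun i => hcomm (i + 1)) hc (fun g hg hgq => by
        refine (hquad g (hdec 0 hg) hgq).trans (Nat.pow_le_pow_right hp.pos ?_)
        exact Nat.div_le_div_left (Nat.le_mul_of_pos_right _ (by positivity)) hE')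
    have hk : 64 * m ≤ (m / (8 * D) + 1) * (512 * D - 1 + 1) := by
      have a1 : m < 8 * D * (m / (8 * D) + 1) := Nat.lt_mul_div_succ m (by positivity)
      have e1 : 512 * D - 1 + 1 = 512 * D := by omega
      rw [e1]
      calc 64 * m ≤ 64 * (8 * D * (m / (8 * D) + 1)) := Nat.mul_le_mul_left _ a1.le
        _ = (m / (8 * D) + 1) * (512 * D) := by ring
    have h2 := core_sub (k := m / (8 * D)) (Q := 512 * D - 1) (d := 512 * D - 1) (e := m / (E' * (16 * D)))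
      (ρ := p ^ (m ^ 2 / (4096 * D ^ 2))) hp hW hr hk hk W₁ (hdec 0) (hcomm 0) h1 hquad
    refine h2.trans (Nat.mul_le_mul_right _ ?_)
    rw [← pow_mul, ← pow_add]
    refine Nat.pow_le_pow_right hp.pos ?_
    have e1 : 512 * D - 1 + 1 = 512 * D := by omega
    rw [e1]
    exact TwoRec_arith hD hE' rfl rfl rfl hm2

end MP828
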