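import Mathlib

/-! MP_828a6d_al (stream Two): a coset with many light elements. -/

namespace MP828

variable {H : Type*} [Group H]

/-- If at most `|H| |V| / 32` pairs `(x, u) ∈ H × V` are bad, then for every subgroup `K` of `H` there is `x₀` such
that at least three quarters of the `k ∈ K` have `(k x₀, u)` bad for at most `|V| / 8` of the `u`.
Proof. Call `x` heavy if `8 · |{u : bad (x, u)}| > |V|`. Then `8 · |{(x,u) bad}| ≥ |V| · |{heavy}|`, so
`4 · |{heavy}| ≤ |H|`. `Σ_{x₀ ∈ H} |{k ∈ K : k x₀ heavy}| = Σ_{k ∈ K} |{x₀ : k x₀ heavy}| = |K| · |{heavy}| ≤ |K| |H| / 4`, so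
some `x₀` has `4 · |{k ∈ K : k x₀ heavy}| ≤ |K|`. -/
theorem exists_light_coset [Finite H] {V : Type*} [Finite V] (bad : H → V → Prop)
    (hbad : 32 * Nat.card {q : H × V // bad q.1 q.2} ≤ Nat.card H * Nat.card V) (hV : 0 < Nat.card V)
    (K : Subgroup H) :
    ∃ x₀ : H, 3 * Nat.card K ≤
      4 * {k : H | k ∈ K ∧ 8 * Nat.card {u : V // bad (k * x₀) u} ≤ Nat.card V}.ncard := by
  classical
  have := Fintype.ofFinite H
  have := Fintype.ofFinite V
  set b : H → ℕ := fun x => Nat.card {u : V // bad x u} with hb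
  have h1 : Nat.card {q : H × V // bad q.1 q.2} = ∑ x, b x := by
    rw [Nat.card_congr (Equiv.subtypeProdEquivSigmaSubtype bad), Nat.card_sigma]
  set heavy : Finset H := Finset.univ.filter fun x => Nat.card V < 8 * b x with hheavy
  have h2 : heavy.card * Nat.card V ≤ 8 * ∑ x, b x := by
    calc heavy.card * Nat.card V = ∑ _x ∈ heavy, Nat.card V := by rw [Finset.sum_const, smul_eq_mul]
      _ ≤ ∑ x ∈ heavy, 8 * b x := Finset.sum_le_sum fun x hx => (Finset.mem_filter.mp hx).2.le
      _ ≤ ∑ x, 8 * b x := Finset.sum_le_sum_of_subset (Finset.subset_univ _)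
      _ = 8 * ∑ x, b x := by rw [Finset.mul_sum]
  have h3 : 4 * heavy.card ≤ Nat.card H := by
    have h4 : 4 * heavy.card * Nat.card V ≤ Nat.card H * Nat.card V := by
      rw [h1] at hbad
      calc 4 * heavy.card * Nat.card V = 4 * (heavy.card * Nat.card V) := by ring
        _ ≤ 4 * (8 * ∑ x, b x) := Nat.mul_le_mul_left _ h2
        _ = 32 * ∑ x, b x := by ring
        _ ≤ _ := hbad
    exact Nat.le_of_mul_le_mul_right h4 hV
  set Kf : Finset H := Finset.univ.filter fun k => k ∈ K with hKf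
  have hKc : Kf.card = Nat.card K := by
    rw [Nat.card_eq_fintype_card, Fintype.card_subtype]
  have h5 : ∑ x₀ : H, (Kf.filter fun k => k * x₀ ∈ heavy).card = Nat.card K * heavy.card := by
    simp only [Finset.card_filter]
    rw [Finset.sum_comm]
    have h6 : ∀ k ∈ Kf, (∑ x : H, if k * x ∈ heavy then 1 else 0) = heavy.card := by
      intro k _
      rw [Fintype.sum_equiv (Equiv.mulLeft k) (fun x => if k * x ∈ heavy then 1 else 0)
        (fun y => if y ∈ heavy then 1 else 0) (fun x => rfl)]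
      simp
    rw [Finset.sum_congr rfl h6, Finset.sum_const, smul_eq_mul, hKc]
  have h7 : ∃ x₀ : H, 4 * (Kf.filter fun k => k * x₀ ∈ heavy).card ≤ Nat.card K := by
    by_contra hcon
    push Not at hcon
    have h8 : ∑ _x₀ : H, (Nat.card K + 1) ≤ ∑ x₀ : H, 4 * (Kf.filter fun k => k * x₀ ∈ heavy).card :=
      Finset.sum_le_sum fun x _ => hcon x
    rw [← Finset.mul_sum, h5, Finset.sum_const, smul_eq_mul, Finset.card_univ,
      ← Nat.card_eq_fintype_card] at h8
    have h9 : 0 < Nat.card H := Nat.card_pos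
    have h10 : 4 * (Nat.card K * heavy.card) ≤ Nat.card K * Nat.card H := by
      calc 4 * (Nat.card K * heavy.card) = Nat.card K * (4 * heavy.card) := by ring
        _ ≤ _ := Nat.mul_le_mul_left _ h3
    nlinarith
  obtain ⟨x₀, hx₀⟩ := h7
  refine ⟨x₀, ?_⟩
  have h11 : {k : H | k ∈ K ∧ 8 * Nat.card {u : V // bad (k * x₀) u} ≤ Nat.card V}
      = ((Kf.filter fun k => ¬ (k * x₀ ∈ heavy) : Finset H) : Set H) := by
    ext k
    simp [hKf, hheavy, hb]
  rw [h11, Set.ncard_coe_finset]
  have h12 := Finset.card_filter_add_card_filter_not (s := Kf) (fun k => k * x₀ ∈ heavy)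
  rw [hKc] at h12
  omega

end MP828
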