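import Pool.Agent.Lib.MP_828a6d_al.TwoFix
import Pool.Agent.Lib.MP_828a6d_al.TwoBadB
import Pool.Agent.Lib.MP_828a6d_al.TwoStarA

/-! MP_828a6d_al (stream Two): (C5), a coset with many non-bad elements. -/

namespace MP828

open scoped commutatorElement

variable {H W : Type*} [Group H] [AddCommGroup W] [DistribMulAction H W]

/-- translates of the range are fixed -/
theorem TwoStarB_image {k : ℕ} (a : Fin k → W) (x : H) :
    ((fun w => x • w) '' Set.range a : Set W) = {w | ∃ l, w = x • a l} := by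
  ext w
  constructor
  · rintro ⟨_, ⟨l, rfl⟩, rfl⟩
    exact ⟨l, rfl⟩
  · rintro ⟨l, rfl⟩
    exact ⟨a l, ⟨l, rfl⟩, rfl⟩

/-- **(C5)**. Proof. Take `a`, `y` from `exists_few_bad`; let
`K₂ = Fx H (range a) ⊓ ⨅ j, Fx H (y j • range a)`. `|H| ≤ |W|^k |Fx (range a)| ≤ p^{k m} ρ^Q |K₂|`
(`card_le_Fx_range`, `c1_iInf`). By `exists_light_coset` (`V = W₁`, `bad x u = Bad p d a y x u`, `K = K₂`) there is `x₀`
such that `𝒮 = {k ∈ K₂ : k x₀ light}` has `3 |K₂| ≤ 4 |𝒮|`. Let `F = K₂ ⊓ Fx H (x₀ • range a)`, `|K₂| ≤ ρ |F|`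
(`c1_card`). `exists_class` gives `s ∈ 𝒮` with `|𝒮| ≤ ρ |{k ∈ 𝒮 : s⁻¹ k ∈ F}|`. Put `xs = s x₀`,
`𝒦 = {k s⁻¹ : k ∈ 𝒮, s⁻¹ k ∈ F}`, `U = Bx a y xs`, `S u = U` if `Bad p d a y xs u` and `S u = U ⊔ Su y u` otherwise.
For `h = k s⁻¹ ∈ 𝒦`: `h ∈ K₂` fixes `a l` and `y j • a l`; `h xs = k x₀` and `k x₀ a l = s (s⁻¹ k) x₀ a l = xs a l`, so
`h` fixes `xs • a l` too, hence `U` pointwise (`Fx_closure`), and `Bx a y (h xs) = U`.
If `(xs, u)` is not bad then `len (U ⊔ Su y u) ≤ len U + d`. If neither `(xs, u)` nor `(h xs, u)` is bad then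
`xs • u ∈ U ⊔ Su y u` and `(h xs) • u ∈ U ⊔ Su y u`, so `h • xs • u - xs • u ∈ S u`; as `xs = s x₀` and `h xs = k x₀` are
light, at most `|W₁| / 8 + |W₁| / 8` of the `u` are exceptional. -/
theorem exists_star [Finite H] [Finite W] {p r m k Q d ρ : ℕ} (hp : p.Prime)
    (hW : Nat.card W = p ^ r) (hr : r ≤ m) (h1 : 64 * m ≤ (k + 1) * (Q + 1))
    (h2 : 64 * m ≤ (k + 1) * (d + 1)) (W₁ : AddSubgroup W) {H' : Subgroup H}
    (hH' : ∀ x y : H, ⁅x, y⁆ ∈ H')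
    (hρ : Nat.card H' ≤ ρ * Nat.card (H' ⊓ Fx H (W₁ : Set W) : Subgroup H)) :
    ∃ (U : AddSubgroup W) (S : W₁ → AddSubgroup W) (xs : H) (𝒦 : Set H), 𝒦.Nonempty ∧
      (∀ h ∈ 𝒦, ∀ z ∈ U, h • z = z) ∧
      (∀ u, U ≤ S u ∧ Nat.card (S u) ≤ p ^ d * Nat.card U) ∧
      (∀ h ∈ 𝒦, 4 * Nat.card {u : W₁ // h • xs • (u : W) - xs • (u : W) ∉ S u} ≤ Nat.card W₁) ∧
      3 * Nat.card H ≤ 4 * (p ^ (k * m) * ρ ^ (Q + 1)) * 𝒦.ncard := by
  classical
  obtain ⟨a, y, ha, hbad⟩ := exists_few_bad (H := H) hp hW hr h1 h2 W₁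
  have hA' : Set.range a ⊆ (W₁ : Set W) := by
    rintro _ ⟨l, rfl⟩
    exact ha l
  set K₂ : Subgroup H := Fx H (Set.range a) ⊓ ⨅ j, Fx H ((fun w => y j • w) '' Set.range a) with hK₂
  have hK₂a : K₂ ≤ Fx H (Set.range a) := inf_le_left
  have c1 : Nat.card H ≤ p ^ (k * m) * ρ ^ Q * Nat.card K₂ := by
    have e1 := card_le_Fx_range (H := H) a
    have e2 := c1_iInf hH' hρ hA' y
    have e3 : Nat.card W ^ k ≤ p ^ (k * m) := by
      rw [hW, ← pow_mul, mul_comm r k]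
      exact Nat.pow_le_pow_right hp.pos (Nat.mul_le_mul_left _ hr)
    calc Nat.card H ≤ Nat.card W ^ k * Nat.card (Fx H (Set.range a)) := e1
      _ ≤ p ^ (k * m) * (ρ ^ Q * Nat.card K₂) := Nat.mul_le_mul e3 e2
      _ = _ := by ring
  have hV : 0 < Nat.card W₁ := Nat.card_pos
  obtain ⟨x₀, hx₀⟩ := exists_light_coset (V := W₁) (fun x u => Bad p d a y x (u : W)) hbad hV K₂
  set 𝒮 : Set H := {k' : H | k' ∈ K₂ ∧
    8 * Nat.card {u : W₁ // Bad p d a y (k' * x₀) (u : W)} ≤ Nat.card W₁} with h𝒮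
  have hF := c1_card hH' hρ hA' x₀ hK₂a
  set F : Subgroup H := K₂ ⊓ Fx H ((fun w => x₀ • w) '' Set.range a) with hFdef
  have h𝒮K : 𝒮 ⊆ (K₂ : Set H) := fun k' hk' => hk'.1
  have hKpos : 0 < Nat.card K₂ := Nat.card_pos
  have hne : 𝒮.Nonempty := by
    rw [← Set.ncard_pos (Set.toFinite _)]
    omega
  obtain ⟨s, hs, hcl⟩ := exists_class (F := F) inf_le_left hF h𝒮K hne
  set T : Set H := {k' | k' ∈ 𝒮 ∧ s⁻¹ * k' ∈ F} with hT
  have hinj : Function.Injective (fun k' : H => k' * s⁻¹) := mul_left_injective _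
  have hTc : ((fun k' : H => k' * s⁻¹) '' T).ncard = T.ncard := Set.ncard_image_of_injective _ hinj
  -- facts on the elements of `T`
  have hfa : ∀ k' ∈ T, ∀ l, (k' * s⁻¹) • a l = a l := by
    intro k' hk' l
    have e1 : k' * s⁻¹ ∈ K₂ := K₂.mul_mem hk'.1.1 (K₂.inv_mem hs.1)
    exact (hK₂a e1) (a l) ⟨l, rfl⟩
  have hfy : ∀ k' ∈ T, ∀ j l, (k' * s⁻¹) • y j • a l = y j • a l := by
    intro k' hk' j l
    have e1 : k' * s⁻¹ ∈ K₂ := K₂.mul_mem hk'.1.1 (K₂.inv_mem hs.1)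
    have e2 := (Subgroup.mem_iInf.mp (inf_le_right (a := Fx H (Set.range a)) e1)) j
    exact e2 (y j • a l) ⟨a l, ⟨l, rfl⟩, rfl⟩
  have hfx : ∀ k' ∈ T, ∀ l, (k' * s⁻¹) • (s * x₀) • a l = (s * x₀) • a l := by
    intro k' hk' l
    have e1 : (s⁻¹ * k') • x₀ • a l = x₀ • a l :=
      (inf_le_right (a := K₂) hk'.2) (x₀ • a l) ⟨a l, ⟨l, rfl⟩, rfl⟩
    calc (k' * s⁻¹) • (s * x₀) • a l = s • (s⁻¹ * k') • x₀ • a l := by
          simp only [← mul_smul]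
          congr 1
          group
      _ = (s * x₀) • a l := by rw [e1, ← mul_smul]
  have hBx : ∀ k' ∈ T, Bx a y (k' * s⁻¹ * (s * x₀)) = Bx a y (s * x₀) := by
    intro k' hk'
    unfold Bx
    congr 2
    ext w
    constructor
    · rintro ⟨l, rfl⟩
      exact ⟨l, by rw [mul_smul (k' * s⁻¹), hfx k' hk' l]⟩
    · rintro ⟨l, rfl⟩
      exact ⟨l, by rw [mul_smul (k' * s⁻¹), hfx k' hk' l]⟩
  refine ⟨Bx a y (s * x₀), fun u => if Bad p d a y (s * x₀) (u : W) then Bx a y (s * x₀) else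
    Bx a y (s * x₀) ⊔ Su y (u : W), s * x₀, (fun k' : H => k' * s⁻¹) '' T, ?_, ?_, ?_, ?_, ?_⟩
  · exact Set.Nonempty.image _ ⟨s, hs, by simp [F.one_mem]⟩
  · rintro _ ⟨k', hk', rfl⟩ z hz
    have e1 : (k' * s⁻¹) ∈ Fx H (Bx a y (s * x₀) : Set W) := by
      unfold Bx
      rw [Fx_closure]
      rintro w ((⟨l, rfl⟩ | ⟨j, l, rfl⟩) | ⟨l, rfl⟩)
      · exact hfa k' hk' l
      · exact hfy k' hk' j l
      · exact hfx k' hk' l
    exact e1 z hz
  · intro u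
    by_cases hb : Bad p d a y (s * x₀) (u : W)
    · simp only [hb, if_true]
      exact ⟨le_refl _, Nat.le_mul_of_pos_left _ (pow_pos hp.pos d)⟩
    · simp only [hb, if_false]
      refine ⟨le_sup_left, ?_⟩
      unfold Bad at hb
      push Not at hb
      have e1 : len p (Bx a y (s * x₀) ⊔ Su y (u : W)) ≤ d + len p (Bx a y (s * x₀)) := by
        refine (len_mono hp hW le_sup_left).trans (hb.2.trans (le_of_eq (add_comm _ _)))
      rw [card_eq_pow_len hp hW (Bx a y (s * x₀)), card_eq_pow_len hp hW (Bx a y (s * x₀) ⊔ Su y (u : W)),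
        ← pow_add]
      exact Nat.pow_le_pow_right hp.pos e1
  · rintro _ ⟨k', hk', rfl⟩
    have e1 : 8 * Nat.card {u : W₁ // Bad p d a y (s * x₀) (u : W)} ≤ Nat.card W₁ := hs.2
    have e2 : 8 * Nat.card {u : W₁ // Bad p d a y (k' * x₀) (u : W)} ≤ Nat.card W₁ := hk'.1.2
    have e3 : {u : W₁ | (k' * s⁻¹) • (s * x₀) • (u : W) - (s * x₀) • (u : W) ∉
        (if Bad p d a y (s * x₀) (u : W) then Bx a y (s * x₀) else Bx a y (s * x₀) ⊔ Su y (u : W))}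
        ⊆ {u : W₁ | Bad p d a y (s * x₀) (u : W)} ∪ {u : W₁ | Bad p d a y (k' * x₀) (u : W)} := by
      intro u hu
      by_contra hcon
      rw [Set.mem_union, not_or] at hcon
      obtain ⟨f1, f2⟩ := hcon
      have g1 : ¬ Bad p d a y (s * x₀) (u : W) := f1
      have g2 : ¬ Bad p d a y (k' * x₀) (u : W) := f2
      apply hu
      rw [if_neg g1]
      unfold Bad at g1 g2
      push Not at g1 g2
      have g3 : k' * s⁻¹ * (s * x₀) = k' * x₀ := by group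
      have g4 := hBx k' hk'
      rw [g3] at g4
      have g5 := g2.1
      rw [g4] at g5
      rw [← mul_smul, g3]
      exact AddSubgroup.sub_mem _ g5 g1.1
    have e4 := (Set.ncard_le_ncard e3 (Set.toFinite _)).trans (Set.ncard_union_le _ _)
    rw [← Nat.card_coe_set_eq, ← Nat.card_coe_set_eq, ← Nat.card_coe_set_eq] at e4
    have e5 : 4 * Nat.card {u : W₁ | (k' * s⁻¹) • (s * x₀) • (u : W) - (s * x₀) • (u : W) ∉
        (if Bad p d a y (s * x₀) (u : W) then Bx a y (s * x₀) else Bx a y (s * x₀) ⊔ Su y (u : W))}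
        ≤ Nat.card W₁ := by
      have e1' : 8 * Nat.card {u : W₁ | Bad p d a y (s * x₀) (u : W)} ≤ Nat.card W₁ := e1
      have e2' : 8 * Nat.card {u : W₁ | Bad p d a y (k' * x₀) (u : W)} ≤ Nat.card W₁ := e2
      omega
    exact e5
  · rw [hTc]
    calc 3 * Nat.card H ≤ 3 * (p ^ (k * m) * ρ ^ Q * Nat.card K₂) := Nat.mul_le_mul_left _ c1
      _ = p ^ (k * m) * ρ ^ Q * (3 * Nat.card K₂) := by ring
      _ ≤ p ^ (k * m) * ρ ^ Q * (4 * 𝒮.ncard) := Nat.mul_le_mul_left _ hx₀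
      _ ≤ p ^ (k * m) * ρ ^ Q * (4 * (ρ * T.ncard)) :=
          Nat.mul_le_mul_left _ (Nat.mul_le_mul_left _ hcl)
      _ = 4 * (p ^ (k * m) * ρ ^ (Q + 1)) * T.ncard := by ring

end MP828
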